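import Pool.Agent.Y449.MS.StmA

/-!
Project MS, part ALG: slices for commuting locally nilpotent derivations.
-/

set_option autoImplicit false

namespace Pool.Agent.Y449.MS.ALG

open Set

section
variable {S : Type} [CommRing S] [Algebra ℂ S]

/-- derivations -/
def IsDer (D : Module.End ℂ S) : Prop := ∀ f g : S, D (f * g) = D f * g + f * D g

theorem der_one {D : Module.End ℂ S} (h : IsDer D) : D 1 = 0 := by
  have := h 1 1
  simpa using this

theorem der_alg {D : Module.End ℂ S} (h : IsDer D) (c : ℂ) : D (algebraMap ℂ S c) = 0 := by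
  rw [Algebra.algebraMap_eq_smul_one, map_smul, der_one h, smul_zero]

/-- the subalgebra of the elements killed by a space of derivations -/
def killed (b : Submodule ℂ (Module.End ℂ S)) (hb : ∀ D ∈ b, IsDer D) : Subalgebra ℂ S where
  carrier := {f | ∀ D ∈ b, D f = 0}
  mul_mem' := by
    intro f g hf hg D hD
    rw [hb D hD, hf D hD, hg D hD, zero_mul, mul_zero, add_zero]
  add_mem' := by
    intro f g hf hg D hD
    rw [map_add, hf D hD, hg D hD, add_zero]
  algebraMap_mem' := fun c D hD => der_alg (hb D hD) c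

theorem mem_killed {b : Submodule ℂ (Module.End ℂ S)} {hb : ∀ D ∈ b, IsDer D} {f : S} :
    f ∈ killed b hb ↔ ∀ D ∈ b, D f = 0 := Iff.rfl

/-- the statement proved by induction -/
def P (b : Submodule ℂ (Module.End ℂ S)) : Prop :=
  (∀ φ : Module.End ℂ S →ₗ[ℂ] ℂ, ∃ t : S, ∀ D ∈ b, D t = algebraMap ℂ S (φ D)) ∧
  Algebra.adjoin ℂ ({f : S | ∀ D ∈ b, D f = 0} ∪
    {t : S | ∀ D ∈ b, ∃ c : ℂ, D t = algebraMap ℂ S c}) = ⊤

theorem P_bot : P (⊥ : Submodule ℂ (Module.End ℂ S)) := by
  constructor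
  · intro φ
    refine ⟨0, fun D hD => ?_⟩
    rw [(Submodule.mem_bot ℂ).1 hD]
    simp
  · rw [eq_top_iff]
    intro f _
    apply Algebra.subset_adjoin
    left
    intro D hD
    rw [(Submodule.mem_bot ℂ).1 hD]
    simp

/-- the elements killed by a derivation of the form `D0 - ∑ h j D j` -/
def xker (k : ℕ) (D0 : Module.End ℂ S) (D : Fin k → Module.End ℂ S) (h : Fin k → S)
    (h0 : IsDer D0) (hD : ∀ j, IsDer (D j)) : Subalgebra ℂ S where
  carrier := {f | D0 f = ∑ j, h j * D j f}
  mul_mem' := by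
    intro f g hf hg
    have hf' : D0 f = ∑ j, h j * D j f := hf
    have hg' : D0 g = ∑ j, h j * D j g := hg
    show D0 (f * g) = ∑ j, h j * D j (f * g)
    rw [h0, hf', hg', Finset.sum_mul, Finset.mul_sum, ← Finset.sum_add_distrib]
    refine Finset.sum_congr rfl fun j _ => ?_
    rw [hD j]
    ring
  add_mem' := by
    intro f g hf hg
    have hf' : D0 f = ∑ j, h j * D j f := hf
    have hg' : D0 g = ∑ j, h j * D j g := hg
    show D0 (f + g) = ∑ j, h j * D j (f + g)
    rw [map_add, hf', hg', ← Finset.sum_add_distrib]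
    refine Finset.sum_congr rfl fun j _ => ?_
    rw [map_add]
    ring
  algebraMap_mem' := by
    intro c
    show D0 (algebraMap ℂ S c) = ∑ j, h j * D j (algebraMap ℂ S c)
    rw [der_alg h0]
    symm
    refine Finset.sum_eq_zero fun j _ => ?_
    rw [der_alg (hD j), mul_zero]

theorem mem_xker {k : ℕ} {D0 : Module.End ℂ S} {D : Fin k → Module.End ℂ S} {h : Fin k → S}
    {h0 : IsDer D0} {hD : ∀ j, IsDer (D j)} {f : S} :
    f ∈ xker k D0 D h h0 hD ↔ D0 f = ∑ j, h j * D j f := Iff.rfl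

/-- a basis of a finite dimensional space of operators -/
noncomputable def basisFin (b : Submodule ℂ (Module.End ℂ S)) [hfd : FiniteDimensional ℂ b] :
    Module.Basis (Fin (Module.finrank ℂ b)) ℂ b :=
  haveI : Module.Free ℂ b := Module.Free.of_divisionRing ℂ b
  haveI : Module.Finite ℂ b := hfd
  Module.finBasis ℂ b

/-- part (A): `D0` does not vanish on the elements killed by `b` -/
theorem partA (b : Submodule ℂ (Module.End ℂ S)) [FiniteDimensional ℂ b]
    (hb : ∀ D ∈ b, IsDer D) (D0 : Module.End ℂ S) (h0 : IsDer D0) (hD0 : D0 ∉ b) (hP : P b)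
    (hfree : ∀ (k : ℕ) (D : Fin k → Module.End ℂ S) (h : Fin k → S), (∀ j, D j ∈ b) →
      D0 ∉ Submodule.span ℂ (range D) → ¬ ∀ f, D0 f = ∑ j, h j * D j f) :
    ∃ f : S, (∀ D ∈ b, D f = 0) ∧ D0 f ≠ 0 := by
  classical
  by_contra hcon
  push Not at hcon
  obtain ⟨k, e⟩ : ∃ k : ℕ, Nonempty (Module.Basis (Fin k) ℂ b) :=
    ⟨Module.finrank ℂ b, ⟨basisFin b⟩⟩
  obtain ⟨e⟩ := e
  have hspan : Submodule.span ℂ (range fun j => ((e j : b) : Module.End ℂ S)) = b := by
    have h1 : (range fun j => ((e j : b) : Module.End ℂ S)) = b.subtype '' (range e) := by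
      rw [← Set.range_comp]
      rfl
    rw [h1, ← Submodule.map_span, e.span_eq, Submodule.map_top, Submodule.range_subtype]
  have hφ : ∀ j : Fin k, ∃ φ : Module.End ℂ S →ₗ[ℂ] ℂ, φ.comp b.subtype = e.coord j := fun j =>
    LinearMap.exists_extend _
  choose φ hφ using hφ
  choose t ht using fun j => hP.1 (φ j)
  have hij : ∀ i j : Fin k, ((e i : b) : Module.End ℂ S) (t j) = if i = j then 1 else 0 := by
    intro i j
    rw [ht j _ (e i).2]
    have h2 : φ j ((e i : b) : Module.End ℂ S) = e.coord j (e i) := by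
      rw [← hφ j]
      rfl
    rw [h2, Module.Basis.coord_apply, Module.Basis.repr_self, Finsupp.single_apply]
    split_ifs <;> simp
  refine hfree k (fun j => ((e j : b) : Module.End ℂ S)) (fun j => D0 (t j)) (fun j => (e j).2) ?_ ?_
  · rw [hspan]
    exact hD0
  · have hle : Algebra.adjoin ℂ ({f : S | ∀ D ∈ b, D f = 0} ∪
        {t : S | ∀ D ∈ b, ∃ c : ℂ, D t = algebraMap ℂ S c}) ≤
        xker k D0 (fun j => ((e j : b) : Module.End ℂ S)) (fun j => D0 (t j)) h0
          (fun j => hb _ (e j).2) := by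
      apply Algebra.adjoin_le
      rintro f (hf | hf)
      · show D0 f = ∑ j, D0 (t j) * ((e j : b) : Module.End ℂ S) f
        rw [hcon f hf]
        symm
        refine Finset.sum_eq_zero fun j _ => ?_
        rw [hf _ (e j).2, mul_zero]
      · show D0 f = ∑ j, D0 (t j) * ((e j : b) : Module.End ℂ S) f
        choose c hc using fun j : Fin k => hf _ (e j).2
        have hr : ∀ D ∈ b, D (f - ∑ j, c j • t j) = 0 := by
          have h3 : b ≤ (LinearMap.ker ((LinearMap.applyₗ (f - ∑ j, c j • t j) :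
              Module.End ℂ S →ₗ[ℂ] S))) := by
            conv_lhs => rw [← hspan]
            rw [Submodule.span_le]
            rintro _ ⟨i, rfl⟩
            show ((e i : b) : Module.End ℂ S) (f - ∑ j, c j • t j) = 0
            rw [map_sub, map_sum, hc i]
            have h4 : ∑ j, ((e i : b) : Module.End ℂ S) (c j • t j) = algebraMap ℂ S (c i) := by
              rw [Finset.sum_eq_single i]
              · rw [map_smul, hij, if_pos rfl, Algebra.algebraMap_eq_smul_one]
              · intro j _ hj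
                rw [map_smul, hij, if_neg (Ne.symm hj), smul_zero]
              · intro hi
                exact absurd (Finset.mem_univ i) hi
            rw [h4, sub_self]
          intro D hD
          exact h3 hD
        have h5 := hcon _ hr
        rw [map_sub, map_sum, sub_eq_zero] at h5
        rw [h5]
        refine Finset.sum_congr rfl fun j _ => ?_
        rw [map_smul, hc j, Algebra.smul_def, mul_comm]
    rw [hP.2] at hle
    intro f
    exact mem_xker.1 (hle (Algebra.mem_top : f ∈ (⊤ : Subalgebra ℂ S)))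

end

section
variable {S G : Type} [CommRing S] [Algebra ℂ S] [Group G]

/-- conjugation of operators -/
def cj (act : G →* (S ≃ₐ[ℂ] S)) (g : G) (D : Module.End ℂ S) : Module.End ℂ S :=
  (act g).toLinearMap * D * (act g⁻¹).toLinearMap

theorem act_inv (act : G →* (S ≃ₐ[ℂ] S)) (g : G) (f : S) : act g⁻¹ (act g f) = f := by
  rw [← AlgEquiv.mul_apply, ← map_mul, inv_mul_cancel, map_one, AlgEquiv.one_apply]

theorem act_inv' (act : G →* (S ≃ₐ[ℂ] S)) (g : G) (f : S) : act g (act g⁻¹ f) = f := by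
  rw [← AlgEquiv.mul_apply, ← map_mul, mul_inv_cancel, map_one, AlgEquiv.one_apply]

theorem cj_apply (act : G →* (S ≃ₐ[ℂ] S)) (g : G) (D : Module.End ℂ S) (f : S) :
    cj act g D f = act g (D (act g⁻¹ f)) := rfl

/-- moving the action through an operator -/
theorem act_D (act : G →* (S ≃ₐ[ℂ] S)) (g : G) (D : Module.End ℂ S) (f : S) :
    act g (D f) = cj act g D (act g f) := by
  rw [cj_apply, act_inv]

theorem D_act (act : G →* (S ≃ₐ[ℂ] S)) (g : G) (D : Module.End ℂ S) (f : S) :
    D (act g f) = act g (cj act g⁻¹ D f) := by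
  rw [cj_apply, inv_inv, act_inv']

/-- the space `V` of part (B) -/
def VV (b : Submodule ℂ (Module.End ℂ S)) (D0 : Module.End ℂ S) : Submodule ℂ S where
  carrier := {v | ∃ g : S, (∀ D ∈ b, D g = 0) ∧ D0 (D0 g) = 0 ∧ v = D0 g}
  add_mem' := by
    rintro v w ⟨g, h1, h2, rfl⟩ ⟨g', h1', h2', rfl⟩
    refine ⟨g + g', fun D hD => ?_, ?_, ?_⟩
    · rw [map_add, h1 D hD, h1' D hD, add_zero]
    · rw [map_add, map_add, h2, h2', add_zero]
    · rw [map_add]
  zero_mem' := ⟨0, fun D _ => map_zero D, by rw [map_zero, map_zero], by rw [map_zero]⟩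
  smul_mem' := by
    rintro c v ⟨g, h1, h2, rfl⟩
    refine ⟨c • g, fun D hD => ?_, ?_, ?_⟩
    · rw [map_smul, h1 D hD, smul_zero]
    · rw [map_smul, map_smul, h2, smul_zero]
    · rw [map_smul]

/-- part (B): there is a slice -/
theorem partB (act : G →* (S ≃ₐ[ℂ] S)) (b b' : Submodule ℂ (Module.End ℂ S))
    (D0 : Module.End ℂ S) (hbb : b = b' ⊔ Submodule.span ℂ {D0})
    (hcomm : ∀ D ∈ b', ∀ f : S, D (D0 f) = D0 (D f))
    (hnil : ∀ f : S, ∃ n, (D0 ^ n) f = 0)
    (hone : ∀ V : Submodule ℂ S, (∀ g, ∀ f ∈ V, act g f ∈ V) → V ≠ ⊥ → (1 : S) ∈ V)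
    (hinv : ∀ g, ∀ D ∈ b, cj act g D ∈ b) (hinv' : ∀ g, ∀ D ∈ b', cj act g D ∈ b')
    (hA : ∃ f : S, (∀ D ∈ b', D f = 0) ∧ D0 f ≠ 0) :
    ∃ s : S, (∀ D ∈ b', D s = 0) ∧ D0 s = 1 := by
  classical
  have hD0 : D0 ∈ b := by
    rw [hbb]
    exact Submodule.mem_sup_right (Submodule.mem_span_singleton_self D0)
  have hdec : ∀ D ∈ b, ∃ D' ∈ b', ∃ c : ℂ, D = D' + c • D0 := by
    intro D hD
    rw [hbb] at hD
    obtain ⟨y, hy, z, hz, rfl⟩ := Submodule.mem_sup.1 hD
    obtain ⟨c, rfl⟩ := Submodule.mem_span_singleton.1 hz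
    exact ⟨y, hy, c, rfl⟩
  have hkill : ∀ g : G, ∀ f : S, (∀ D ∈ b', D f = 0) → ∀ D ∈ b', D (act g f) = 0 := by
    intro g f hf D hD
    rw [D_act, hf _ (hinv' g⁻¹ D hD), map_zero]
  have hpres : ∀ f : S, (∀ D ∈ b', D f = 0) → ∀ D ∈ b', D (D0 f) = 0 := by
    intro f hf D hD
    rw [hcomm D hD, hf D hD, map_zero]
  have hone' : (1 : S) ∈ VV b' D0 := by
    apply hone
    · rintro g v ⟨f, h1, h2, rfl⟩
      obtain ⟨D', hD', c, hc⟩ := hdec _ (hinv g D0 hD0)
      obtain ⟨D'', hD'', c', hc'⟩ := hdec _ (hinv g⁻¹ D0 hD0)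
      have e1 : act g (D0 f) = D0 (c • act g f) := by
        rw [act_D, hc, LinearMap.add_apply, LinearMap.smul_apply, hkill g f h1 D' hD', zero_add,
          map_smul]
      refine ⟨c • act g f, fun D hD => ?_, ?_, e1⟩
      · rw [map_smul, hkill g f h1 D hD, smul_zero]
      · rw [← e1, D_act, hc', LinearMap.add_apply, LinearMap.smul_apply, hpres f h1 D'' hD'', h2,
          smul_zero, add_zero, map_zero]
    · obtain ⟨g0, hg0, hne⟩ := hA
      intro hbot
      have hex := hnil g0
      set n := Nat.find hex with hn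
      have hn1 : (D0 ^ n) g0 = 0 := Nat.find_spec hex
      have hnm : ∀ m, m < n → (D0 ^ m) g0 ≠ 0 := fun m hm => Nat.find_min hex hm
      have hn0 : n ≠ 0 := by
        intro h
        rw [h, pow_zero, Module.End.one_apply] at hn1
        rw [hn1, map_zero] at hne
        exact hne rfl
      have hn2 : n ≠ 1 := by
        intro h
        rw [h, pow_one] at hn1
        exact hne hn1
      obtain ⟨m, hm⟩ : ∃ m, n = m + 2 := ⟨n - 2, by omega⟩
      have hkm : ∀ m : ℕ, ∀ D ∈ b', D ((D0 ^ m) g0) = 0 := by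
        intro m
        induction m with
        | zero => simpa using hg0
        | succ m ih =>
          intro D hD
          rw [pow_succ', Module.End.mul_apply]
          exact hpres _ ih D hD
      have h6 : D0 ((D0 ^ m) g0) ∈ VV b' D0 := by
        refine ⟨(D0 ^ m) g0, hkm m, ?_, rfl⟩
        have : D0 (D0 ((D0 ^ m) g0)) = (D0 ^ (m + 2)) g0 := by
          rw [pow_succ', pow_succ', Module.End.mul_apply, Module.End.mul_apply]
        rw [this, ← hm, hn1]
      rw [hbot, Submodule.mem_bot] at h6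
      have h7 : (D0 ^ (m + 1)) g0 = 0 := by
        rw [pow_succ', Module.End.mul_apply]
        exact h6
      exact hnm (m + 1) (by omega) h7
  obtain ⟨s, hs1, hs2, hs3⟩ := hone'
  exact ⟨s, hs1, hs3.symm⟩

/-- part (C): the induction step -/
theorem partC (h : S_DIX) (b b' : Submodule ℂ (Module.End ℂ S)) (D0 : Module.End ℂ S)
    (hbb : b = b' ⊔ Submodule.span ℂ {D0}) (hb' : ∀ D ∈ b', IsDer D) (h0 : IsDer D0)
    (hcomm : ∀ D ∈ b', ∀ f : S, D (D0 f) = D0 (D f))
    (hnil : ∀ f : S, ∃ n, (D0 ^ n) f = 0) (hP : P b')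
    (hs : ∃ s : S, (∀ D ∈ b', D s = 0) ∧ D0 s = 1) : P b := by
  have hdec : ∀ D ∈ b, ∃ D' ∈ b', ∃ c : ℂ, D = D' + c • D0 := by
    intro D hD
    rw [hbb] at hD
    obtain ⟨y, hy, z, hz, rfl⟩ := Submodule.mem_sup.1 hD
    obtain ⟨c, rfl⟩ := Submodule.mem_span_singleton.1 hz
    exact ⟨y, hy, c, rfl⟩
  have hb'b : b' ≤ b := by
    rw [hbb]
    exact le_sup_left
  obtain ⟨s, hs1, hs2⟩ := hs
  obtain ⟨hsurj, hadj⟩ := h S D0 (killed b' hb') s h0 hnil (by
    intro f hf D hD
    rw [hcomm D hD, hf D hD, map_zero]) hs1 hs2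
  constructor
  · intro φ
    obtain ⟨t', ht'⟩ := hP.1 φ
    have hg : algebraMap ℂ S (φ D0) - D0 t' ∈ killed b' hb' := by
      intro D hD
      rw [map_sub, der_alg (hb' D hD), hcomm D hD, ht' D hD, der_alg h0, sub_self]
    obtain ⟨k, hk, hk2⟩ := hsurj _ hg
    refine ⟨t' + k, fun D hD => ?_⟩
    obtain ⟨D', hD', c, rfl⟩ := hdec D hD
    rw [LinearMap.add_apply, LinearMap.smul_apply, map_add, map_add, ht' D' hD', hk D' hD', hk2,
      map_add, map_smul, map_add, smul_eq_mul, map_mul, ← Algebra.smul_def]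
    simp only [add_zero, add_sub_cancel]
  · set A := Algebra.adjoin ℂ ({f : S | ∀ D ∈ b, D f = 0} ∪
      {t : S | ∀ D ∈ b, ∃ c : ℂ, D t = algebraMap ℂ S c}) with hAdef
    have hsA : s ∈ A := by
      apply Algebra.subset_adjoin
      right
      intro D hD
      obtain ⟨D', hD', c, rfl⟩ := hdec D hD
      refine ⟨c, ?_⟩
      rw [LinearMap.add_apply, LinearMap.smul_apply, hs1 D' hD', hs2, zero_add,
        Algebra.algebraMap_eq_smul_one]
    have hS' : killed b' hb' ≤ A := by
      refine hadj.trans ?_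
      apply Algebra.adjoin_le
      rintro f (hf | hf)
      · apply Algebra.subset_adjoin
        left
        intro D hD
        obtain ⟨D', hD', c, rfl⟩ := hdec D hD
        rw [LinearMap.add_apply, LinearMap.smul_apply, hf.1 D' hD', hf.2, smul_zero, add_zero]
      · rw [Set.mem_singleton_iff.1 hf]
        exact hsA
    rw [eq_top_iff, ← hP.2]
    apply Algebra.adjoin_le
    rintro f (hf | hf)
    · exact hS' hf
    · have hg : -D0 f ∈ killed b' hb' := by
        intro D hD
        obtain ⟨c, hc⟩ := hf D hD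
        rw [map_neg, hcomm D hD, hc, der_alg h0, neg_zero]
      obtain ⟨k, hk, hk2⟩ := hsurj _ hg
      have h8 : f + k ∈ A := by
        apply Algebra.subset_adjoin
        right
        intro D hD
        obtain ⟨D', hD', c, rfl⟩ := hdec D hD
        obtain ⟨c', hc'⟩ := hf D' hD'
        refine ⟨c', ?_⟩
        rw [LinearMap.add_apply, LinearMap.smul_apply, map_add, map_add, hk D' hD', hk2, hc']
        simp
      have h9 : f = (f + k) - k := by abel
      rw [h9]
      exact A.sub_mem h8 (hS' hk)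

end

theorem main (h : S_DIX) : S_ALG := by
  intro S G _ _ _ act a hfd hder hcomm hnil hone hhyp hinv hfree
  have key : ∀ (n : ℕ) (b : Submodule ℂ (Module.End ℂ S)), b ≤ a →
      (∀ g, ∀ D ∈ b, cj act g D ∈ b) → Module.finrank ℂ b = n → P b := by
    intro n
    induction n using Nat.strong_induction_on with
    | _ n ih =>
      intro b hba hbi hbn
      by_cases hbot : b = ⊥
      · rw [hbot]
        exact P_bot
      obtain ⟨b', D0, hb'b, hb'i, hD0, hD0', hbb⟩ := hhyp b hba hbi hbot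
      have : FiniteDimensional ℂ b := Submodule.finiteDimensional_of_le hba
      have : FiniteDimensional ℂ b' := Submodule.finiteDimensional_of_le (hb'b.trans hba)
      have hlt : Module.finrank ℂ b' < n := by
        rw [← hbn]
        apply Submodule.finrank_lt_finrank_of_lt
        refine lt_of_le_of_ne hb'b ?_
        intro he
        rw [he] at hD0'
        exact hD0' hD0
      have hb'a : b' ≤ a := hb'b.trans hba
      have hP' : P b' := ih _ hlt b' hb'a hb'i rfl
      have h0 : IsDer D0 := hder D0 (hba hD0)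
      have hb'd : ∀ D ∈ b', IsDer D := fun D hD => hder D (hb'a hD)
      have hcm : ∀ D ∈ b', ∀ f : S, D (D0 f) = D0 (D f) := fun D hD f =>
        hcomm D (hb'a hD) D0 (hba hD0) f
      have hnl : ∀ f : S, ∃ n, (D0 ^ n) f = 0 := hnil D0 (hba hD0)
      have hA := partA b' hb'd D0 h0 hD0' hP' (fun k D hh hD hn =>
        hfree k D0 D hh (hba hD0) (fun j => hb'a (hD j)) hn)
      have hB := partB act b b' D0 hbb hcm hnl hone hbi hb'i hA
      exact partC h b b' D0 hbb hb'd h0 hcm hnl hP' hB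
  have hPa := key _ a le_rfl hinv rfl
  refine ⟨?_, hPa.2⟩
  intro φ
  obtain ⟨ψ, hψ⟩ := LinearMap.exists_extend φ
  obtain ⟨t, ht⟩ := hPa.1 ψ
  refine ⟨t, fun D => ?_⟩
  rw [ht D D.2, ← hψ]
  rfl

end Pool.Agent.Y449.MS.ALG
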