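import Pool.Agent.Y449.MS.StmB

/-!
Elements with bounded invariants on a ball lie in finitely many cosets (job MS-COS, helper681).
-/

set_option autoImplicit false

open Set Filter Topology MeasureTheory Metric
open scoped ENNReal
open Pool.Agent.W689.Mk Pool.Agent.TH94.MK Pool.Agent.Y449.MK Pool.Agent.Y449.MS

namespace Pool.Agent.Y449.MS.COS

/-- a set of elements of a group, such that all finite subsets of elements in different cosets are
bounded, lies in finitely many cosets -/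
theorem finite_of_bound {Γ : Type} [Group Γ] (N : Subgroup Γ) (S : Set Γ) (m B : ℝ≥0∞)
    (hm : 0 < m) (hB : B < ∞)
    (h : ∀ J : Finset Γ, (∀ γ ∈ J, γ ∈ S) → (∀ γ ∈ J, ∀ δ ∈ J, γ * δ⁻¹ ∈ N → γ = δ) →
      (J.card : ℝ≥0∞) * m ≤ B) :
    ∃ T : Set Γ, T.Finite ∧ ∀ γ ∈ S, ∃ δ ∈ T, γ * δ⁻¹ ∈ N := by
  classical
  let Q := Quotient (QuotientGroup.rightRel N)
  let mk : Γ → Q := fun γ => Quotient.mk (QuotientGroup.rightRel N) γ
  have hmk : ∀ γ δ : Γ, mk γ = mk δ → δ * γ⁻¹ ∈ N := by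
    intro γ δ h
    have h1 := Quotient.exact h
    exact QuotientGroup.rightRel_apply.1 h1
  have hmk' : ∀ γ δ : Γ, δ * γ⁻¹ ∈ N → mk γ = mk δ := by
    intro γ δ h
    exact Quotient.sound (QuotientGroup.rightRel_apply.2 h)
  by_cases hfin : (mk '' S).Finite
  · refine ⟨Quotient.out '' (mk '' S), hfin.image _, fun γ hγ => ?_⟩
    refine ⟨(mk γ).out, ⟨mk γ, ⟨γ, hγ, rfl⟩, rfl⟩, ?_⟩
    exact hmk _ _ (Quotient.out_eq (mk γ))
  · exfalso
    have hinf : (mk '' S).Infinite := hfin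
    have hrep : ∀ c : Q, ∃ γ : Γ, c ∈ mk '' S → (γ ∈ S ∧ mk γ = c) := by
      intro c
      by_cases hc : c ∈ mk '' S
      · obtain ⟨γ, hγ, rfl⟩ := hc
        exact ⟨γ, fun _ => ⟨hγ, rfl⟩⟩
      · exact ⟨1, fun h => absurd h hc⟩
    choose rep hrep using hrep
    have hk : ∀ k : ℕ, (k : ℝ≥0∞) * m ≤ B := by
      intro k
      obtain ⟨J, hJ, hJk⟩ := hinf.exists_subset_card_eq k
      have hcard : (J.image rep).card = k := by
        rw [Finset.card_image_of_injOn, hJk]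
        intro c hc c' hc' hcc
        rw [← (hrep c (hJ hc)).2, ← (hrep c' (hJ hc')).2]
        exact congrArg mk hcc
      have h1 := h (J.image rep) (by
        intro γ hγ
        obtain ⟨c, hc, rfl⟩ := Finset.mem_image.1 hγ
        exact (hrep c (hJ hc)).1) (by
        intro γ hγ δ hδ hN
        obtain ⟨c, hc, rfl⟩ := Finset.mem_image.1 hγ
        obtain ⟨c', hc', rfl⟩ := Finset.mem_image.1 hδ
        have h2 := hmk' _ _ hN
        rw [(hrep c (hJ hc)).2, (hrep c' (hJ hc')).2] at h2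
        rw [h2])
      rwa [hcard] at h1
    obtain ⟨k, hk1⟩ := ENNReal.exists_nat_mul_gt hm.ne' hB.ne
    exact absurd (hk k) (not_le.2 hk1)

theorem main (h1 : S_INT) (h2 : S_PF) : S_COS := by
  classical
  intro X Γ E _ _ _ _ _ _ _ _ _ dev hol D hinj N hG n w w0 q r hr hball hw hq hb
  let _ : MeasurableSpace E := borel E
  have : BorelSpace E := ⟨rfl⟩
  have hb' : ∀ f : RN hol N, ∃ b : ℝ, ∀ k, ∀ u ∈ ball w0 r, ‖(f : E → ℂ) (hol (n k) u)‖ ≤ b :=
    fun f => hb f.1 f.2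
  choose b hb'' using hb'
  let Y : Set E := {y | ∀ f : RN hol N, ‖(f : E → ℂ) y‖ ≤ b f}
  have hYc : IsClosed Y := by
    have e : Y = ⋂ f : RN hol N, {y | ‖(f : E → ℂ) y‖ ≤ b f} := by
      ext y
      rw [mem_iInter]
      rfl
    rw [e]
    refine isClosed_iInter fun f => ?_
    obtain ⟨d, hd⟩ := f.2.1
    have hc : Continuous (f : E → ℂ) := ((h2 E).2.2.1 d _ hd).continuous
    exact isClosed_le hc.norm continuous_const
  obtain ⟨R, hR⟩ := hG.cocpt Y fun f hf => ⟨b ⟨f, hf⟩, fun y hy => hy ⟨f, hf⟩⟩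
  obtain ⟨B, hB, hJ⟩ := h1 X Γ E dev hol D hinj N Y R hYc.measurableSet hR w0 r hball
  obtain ⟨T, hT, hTn⟩ := finite_of_bound N (range n) ((Measure.addHaar : Measure E) (ball w0 r)) B
    (measure_ball_pos _ _ hr) hB (by
      intro J hJS hJd
      refine le_trans (le_of_eq ?_) (hJ J hJd)
      rw [← nsmul_eq_mul, ← Finset.sum_const]
      refine Finset.sum_congr rfl fun γ hγ => ?_
      obtain ⟨k, rfl⟩ := hJS γ hγ
      congr 1
      refine (inter_eq_left.2 ?_).symm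
      intro u hu f
      exact hb'' f k u hu)
  have hw0 : w0 ∈ range dev := hball (mem_closedBall_self hr.le)
  choose δ hδT hδN using fun k => hTn (n k) ⟨k, rfl⟩
  obtain ⟨d, -, φ, hφ, hφd⟩ := pigeon hT hδT
  refine hG.prop (fun k => n (φ k) * d⁻¹) (fun k => hol d (w (φ k))) (hol d w0) q ?_ ?_
    (range_inv D d w0 hw0) ?_
  · intro k
    have := hδN (φ k)
    rwa [hφd k] at this
  · exact ((hol_cont d).tendsto w0).comp (hw.comp hφ.tendsto_atTop)
  · refine (hq.comp hφ.tendsto_atTop).congr fun k => ?_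
    show hol (n (φ k)) (w (φ k)) = hol (n (φ k) * d⁻¹) (hol d (w (φ k)))
    rw [map_mul]
    show _ = hol (n (φ k)) (hol d⁻¹ (hol d (w (φ k))))
    rw [hol_inv_apply]

end Pool.Agent.Y449.MS.COS
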