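import Pool.Agent.Y449.MS.StmB

/-!
Project MS: the volume principle for complex vector fields (job 7994, helper333).
-/

set_option autoImplicit false

open Set Filter Topology MeasureTheory Metric
open scoped ENNReal
open Pool.Agent.W689.Mk Pool.Agent.TH94.MK Pool.Agent.Y449.MK

namespace Pool.Agent.Y449.MS.CP

/-- the volume principle for complex vector fields -/
theorem main (h1 : S_MASTER2) (h2 : S_DET) : S_CP := by
  intro X Γ E _ _ _ _ _ _ _ _ _ dev hol D Z1 Z2 hZ1 hZ2 hφ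
  let : MeasurableSpace E := borel E
  have : BorelSpace E := ⟨rfl⟩
  let lam : Measure E := Measure.addHaar
  obtain ⟨m, σ, p, r, ρ, hr, hsec, hρc, hρ0, hρs, hρ1, hρi, hdiff, hid⟩ :=
    h1 X Γ E dev hol lam D Z1 Z2 hZ1 hZ2
  obtain ⟨N, s, t, c, hdet⟩ := h2 E
  have in1 : ∀ i, ball (p i) (r i) ⊆ ball (p i) (4 * r i) :=
    fun i => ball_subset_ball (by linarith [hr i])
  let F : Fin m → Fin N → E → ℝ := fun i j q =>
    (dt (s j • fderiv ℝ (fun q => Z1 (σ i q)) q + t j • fderiv ℝ (fun q => Z2 (σ i q)) q) - 1) *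
      ρ i (σ i q)
  have hF : ∀ i j, IntegrableOn (F i j) (ball (p i) (r i)) lam := fun i j => (hid (s j) (t j)).1 i
  have hval : ∀ i, (fun q => ∑ j, c j * F i j q) =ᵐ[lam.restrict (ball (p i) (r i))]
      fun q => -ρ i (σ i q) := by
    intro i
    rw [EventuallyEq, ae_restrict_iff' isOpen_ball.measurableSet]
    filter_upwards [hdiff i] with q hq hqb
    obtain ⟨d1, d2⟩ := hq hqb
    have h3 := hdet _ _ (hφ _ _ (hsec i) q (in1 i hqb) _ _ d1.hasFDerivAt d2.hasFDerivAt)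
    have h4 : ∑ j, c j * F i j q = (∑ j, c j * ((ContinuousLinearMap.id ℝ E +
        (s j • fderiv ℝ (fun q => Z1 (σ i q)) q +
          t j • fderiv ℝ (fun q => Z2 (σ i q)) q)).det - 1)) * ρ i (σ i q) := by
      rw [Finset.sum_mul]
      refine Finset.sum_congr rfl fun j _ => ?_
      simp only [F, dt]
      ring
    rw [h4, h3]
    ring
  have hint : ∀ i, -∫ q in ball (p i) (r i), ρ i (σ i q) ∂lam =
      ∑ j, c j * ∫ q in ball (p i) (r i), F i j q ∂lam := by
    intro i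
    rw [← integral_neg, ← integral_congr_ae (hval i),
      integral_finsetSum _ fun j _ => (hF i j).const_mul (c j)]
    refine Finset.sum_congr rfl fun j _ => ?_
    rw [integral_const_mul]
  have hsum : ∑ i, ∫ q in ball (p i) (r i), ρ i (σ i q) ∂lam = 0 := by
    have h3 : ∑ i, -∫ q in ball (p i) (r i), ρ i (σ i q) ∂lam = 0 := by
      rw [Finset.sum_congr rfl fun i _ => hint i, Finset.sum_comm]
      refine Finset.sum_eq_zero fun j _ => ?_
      rw [← Finset.mul_sum]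
      have h4 : ∑ i, ∫ q in ball (p i) (r i), F i j q ∂lam = 0 := (hid (s j) (t j)).2
      rw [h4, mul_zero]
    rw [Finset.sum_neg_distrib] at h3
    linarith
  have hnn : ∀ i, 0 ≤ᵐ[lam.restrict (ball (p i) (r i))] fun q => ρ i (σ i q) := fun i =>
    Eventually.of_forall fun q => hρ0 i _
  have hz : ∀ i, ∫ q in ball (p i) (r i), ρ i (σ i q) ∂lam = 0 := by
    intro i
    refine (Finset.sum_eq_zero_iff_of_nonneg fun j _ => ?_).1 hsum i (Finset.mem_univ i)
    exact integral_nonneg_of_ae (hnn j)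
  obtain ⟨x⟩ : Nonempty X := inferInstance
  obtain ⟨γ, i, hi⟩ := hρ1 x
  obtain ⟨q0, hq0, hq0x⟩ := hρs i _ hi
  have h3 := (integral_eq_zero_iff_of_nonneg_ae (hnn i) (hρi i)).1 (hz i)
  rw [EventuallyEq, ae_restrict_iff' isOpen_ball.measurableSet] at h3
  have hopen : IsOpen (ball (p i) (r i) ∩ (σ i) ⁻¹' {x | ρ i x ≠ 0}) :=
    ((hsec i).cont.mono (in1 i)).isOpen_inter_preimage isOpen_ball
      (isOpen_ne_fun (hρc i) continuous_const)
  have hq0m : q0 ∈ ball (p i) (r i) ∩ (σ i) ⁻¹' {x | ρ i x ≠ 0} := by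
    refine ⟨hq0, ?_⟩
    show ρ i (σ i q0) ≠ 0
    rw [hq0x]
    exact hi
  have hpos := hopen.measure_pos lam ⟨q0, hq0m⟩
  have hnull : lam (ball (p i) (r i) ∩ (σ i) ⁻¹' {x | ρ i x ≠ 0}) = 0 := by
    refine measure_mono_null ?_ (ae_iff.1 h3)
    intro q hq hcon
    obtain ⟨hqb, hqρ⟩ := hq
    exact hqρ (hcon hqb)
  exact hpos.ne' hnull

end Pool.Agent.Y449.MS.CP
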