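import Pool.Agent.Y449.MS.StmA

/-!
Project MS: complex determinants by interpolation of real ones.
-/

set_option autoImplicit false

open Set Filter Topology MeasureTheory Metric
open scoped ENNReal

namespace Pool.Agent.Y449.MS.DET

open Polynomial in
theorem interp {n : ℕ} (p : Polynomial ℂ) (hp : p.natDegree ≤ n) (z : ℂ) :
    p.eval z = ∑ k : Fin (n + 1), (Lagrange.basis Finset.univ
      (fun k : Fin (n + 1) => ((k : ℕ) : ℂ)) k).eval z * p.eval (((k : ℕ) : ℂ)) := by
  have hinj : Set.InjOn (fun k : Fin (n + 1) => ((k : ℕ) : ℂ))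
      ((Finset.univ : Finset (Fin (n + 1))) : Set (Fin (n + 1))) := by
    intro a _ b _ hab
    exact Fin.ext (Nat.cast_injective hab)
  have hdeg : p.degree < ((Finset.univ : Finset (Fin (n + 1))).card : WithBot ℕ) := by
    refine lt_of_le_of_lt degree_le_natDegree ?_
    rw [Finset.card_univ, Fintype.card_fin]
    exact_mod_cast Nat.lt_succ_of_le hp
  have h1 := Lagrange.eq_interpolate hinj hdeg
  conv_lhs => rw [h1]
  rw [Lagrange.interpolate_apply, eval_finsetSum]
  refine Finset.sum_congr rfl fun k _ => ?_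
  rw [eval_mul, eval_C, mul_comm]

theorem main : S_DET := by
  intro E _ _ _
  classical
  let n := Module.finrank ℝ E
  let b : Module.Basis (Fin n) ℝ E := Module.finBasis ℝ E
  let m : Fin (n + 1) → ℂ := fun k => (Lagrange.basis Finset.univ
      (fun k : Fin (n + 1) => ((k : ℕ) : ℂ)) k).eval Complex.I
  refine ⟨n + 1, fun _ => 1, fun k => ((k : ℕ) : ℝ), fun k => (m k).re, ?_⟩
  rintro A1 A2 ⟨φ, hφ, hA⟩
  let M1 : Matrix (Fin n) (Fin n) ℝ := LinearMap.toMatrix b b (A1 : E →ₗ[ℝ] E)
  let M2 : Matrix (Fin n) (Fin n) ℝ := LinearMap.toMatrix b b (A2 : E →ₗ[ℝ] E)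
  let N1 : Matrix (Fin n) (Fin n) ℂ := (1 + M1).map (Complex.ofRealHom)
  let N2 : Matrix (Fin n) (Fin n) ℂ := M2.map (Complex.ofRealHom)
  let p : Polynomial ℂ := Matrix.det ((Polynomial.X : Polynomial ℂ) • N2.map Polynomial.C +
    N1.map Polynomial.C)
  have hp : p.natDegree ≤ n := by
    have := Polynomial.natDegree_det_X_add_C_le N2 N1
    rwa [Fintype.card_fin] at this
  have hev : ∀ z : ℂ, p.eval z = (z • N2 + N1).det := by
    intro z
    show (Polynomial.evalRingHom z) (Matrix.det _) = _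
    rw [RingHom.map_det]
    congr 1
    ext i j
    simp [RingHom.mapMatrix_apply, Matrix.map_apply, Matrix.add_apply, Matrix.smul_apply]
    ring
  -- the value at I
  have hI : p.eval Complex.I = 0 := by
    rw [hev, ← Matrix.exists_vecMul_eq_zero_iff]
    refine ⟨fun k => φ (b k), ?_, ?_⟩
    · intro h0
      apply hφ
      have h1 : ∀ k, φ (b k) = 0 := fun k => congrFun h0 k
      have h2 : (φ : E →ₗ[ℝ] ℂ) = 0 := b.ext fun k => by
        rw [LinearMap.zero_apply]
        exact h1 k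
      ext v
      exact congrArg (fun L : E →ₗ[ℝ] ℂ => L v) h2
    · funext j
      have key : ∀ A : E →L[ℝ] E, ∑ k, φ (b k) * ((LinearMap.toMatrix b b (A : E →ₗ[ℝ] E) k j : ℝ) : ℂ) =
          φ (A (b j)) := by
        intro A
        have h1 : A (b j) = ∑ k, (LinearMap.toMatrix b b (A : E →ₗ[ℝ] E) k j) • b k := by
          have h2 := (b.sum_repr (A (b j))).symm
          rw [h2]
          refine Finset.sum_congr rfl fun k _ => ?_
          rw [LinearMap.toMatrix_apply]
          simp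
        rw [h1, map_sum]
        refine Finset.sum_congr rfl fun k _ => ?_
        rw [map_smul, Complex.real_smul, mul_comm]
      have h3 : ∀ k, (Complex.I • N2 + N1) k j = Complex.I * ((M2 k j : ℝ) : ℂ) +
          ((if k = j then 1 else 0) + ((M1 k j : ℝ) : ℂ)) := by
        intro k
        simp only [Matrix.add_apply, Matrix.smul_apply, N1, N2, Matrix.map_apply, smul_eq_mul,
          Complex.ofRealHom_eq_coe, Complex.ofReal_add, Matrix.one_apply]
        split_ifs <;> simp
      show ∑ k, φ (b k) * (Complex.I • N2 + N1) k j = 0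
      have h4 : ∑ k, φ (b k) * (Complex.I • N2 + N1) k j =
          ∑ k, (φ (b k) * (if k = j then 1 else 0)) + ∑ k, φ (b k) * ((M1 k j : ℝ) : ℂ) +
          Complex.I * ∑ k, φ (b k) * ((M2 k j : ℝ) : ℂ) := by
        rw [Finset.mul_sum, ← Finset.sum_add_distrib, ← Finset.sum_add_distrib]
        refine Finset.sum_congr rfl fun k _ => ?_
        rw [h3]
        ring
      rw [h4, key A1, key A2]
      have h5 : ∑ k, (φ (b k) * (if k = j then 1 else 0)) = φ (b j) := by
        simp
      rw [h5]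
      exact hA (b j)
  -- the values at the nodes
  have hk : ∀ k : Fin (n + 1), p.eval ((((k : ℕ) : ℕ) : ℂ)) =
      (((ContinuousLinearMap.id ℝ E + ((1 : ℝ) • A1 + ((k : ℕ) : ℝ) • A2)).det : ℝ) : ℂ) := by
    intro k
    rw [hev]
    have h1 : (((k : ℕ) : ℂ) • N2 + N1) = (((k : ℕ) : ℝ) • M2 + (1 + M1)).map Complex.ofRealHom := by
      ext i j
      simp only [Matrix.add_apply, Matrix.smul_apply, N1, N2, Matrix.map_apply, smul_eq_mul,
        Complex.ofRealHom_eq_coe, Complex.ofReal_add, Complex.ofReal_mul, Complex.ofReal_natCast]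
    have h2 : (((((k : ℕ) : ℝ) • M2 + (1 + M1)).map Complex.ofRealHom)).det =
        ((((k : ℕ) : ℝ) • M2 + (1 + M1)).det : ℂ) := by
      have := RingHom.map_det Complex.ofRealHom (((k : ℕ) : ℝ) • M2 + (1 + M1))
      rw [Complex.ofRealHom_eq_coe] at this
      rw [this]
      rfl
    rw [h1, h2]
    congr 1
    show _ = LinearMap.det (((ContinuousLinearMap.id ℝ E + ((1 : ℝ) • A1 + ((k : ℕ) : ℝ) • A2)) :
      E →L[ℝ] E) : E →ₗ[ℝ] E)
    rw [← LinearMap.det_toMatrix b]
    congr 1
    have h3 : (((ContinuousLinearMap.id ℝ E + ((1 : ℝ) • A1 + ((k : ℕ) : ℝ) • A2)) :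
      E →L[ℝ] E) : E →ₗ[ℝ] E) = LinearMap.id + ((A1 : E →ₗ[ℝ] E) + ((k : ℕ) : ℝ) • (A2 : E →ₗ[ℝ] E)) := by
      ext v
      simp
    rw [h3, map_add, map_add, map_smul, LinearMap.toMatrix_id]
    abel
  have h6 := interp p hp Complex.I
  rw [hI] at h6
  have h7 : ∑ k : Fin (n + 1), m k = 1 := by
    have h8 := interp (n := n) (1 : Polynomial ℂ) (by simp) Complex.I
    simp only [Polynomial.eval_one, mul_one] at h8
    exact h8.symm
  have h9 : ∑ k : Fin (n + 1), m k *
      (((ContinuousLinearMap.id ℝ E + ((1 : ℝ) • A1 + ((k : ℕ) : ℝ) • A2)).det : ℝ) : ℂ) = 0 := by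
    rw [h6]
    refine Finset.sum_congr rfl fun k _ => ?_
    rw [hk]
  have h10 : ∑ k : Fin (n + 1), m k *
      ((((ContinuousLinearMap.id ℝ E + ((1 : ℝ) • A1 + ((k : ℕ) : ℝ) • A2)).det - 1 : ℝ)) : ℂ) = -1 := by
    have : ∀ k : Fin (n + 1), m k *
      ((((ContinuousLinearMap.id ℝ E + ((1 : ℝ) • A1 + ((k : ℕ) : ℝ) • A2)).det - 1 : ℝ)) : ℂ) =
      m k * (((ContinuousLinearMap.id ℝ E + ((1 : ℝ) • A1 + ((k : ℕ) : ℝ) • A2)).det : ℝ) : ℂ) - m k := by
      intro k
      push_cast
      ring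
    rw [Finset.sum_congr rfl fun k _ => this k, Finset.sum_sub_distrib, h9, h7]
    ring
  have h11 := congrArg Complex.re h10
  rw [Complex.re_sum] at h11
  simp only [Complex.mul_re, Complex.ofReal_re, Complex.ofReal_im, mul_zero, sub_zero,
    Complex.neg_re, Complex.one_re] at h11
  exact h11

end Pool.Agent.Y449.MS.DET
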