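import Pool.Agent.Y449.MS.StmA

/-! MS-DIX: one locally nilpotent derivation with a slice. -/

set_option autoImplicit false

namespace Pool.Agent.Y449.MS.DIX

open Pool.Agent.Y449.MS

theorem D_pow {S : Type} [CommRing S] [Algebra ℂ S] {D : Module.End ℂ S} {s : S}
    (hD : ∀ f g, D (f * g) = D f * g + f * D g) (hs : D s = 1) (m : ℕ) :
    D (s ^ (m + 1)) = ((m : ℂ) + 1) • s ^ m := by
  induction m with
  | zero => simp [hs]
  | succ m ih =>
    rw [pow_succ s (m + 1), hD, ih, hs, mul_one, smul_mul_assoc, ← pow_succ]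
    push_cast
    rw [add_smul ((m : ℂ) + 1) 1, one_smul]

theorem integ {S : Type} [CommRing S] [Algebra ℂ S] {D : Module.End ℂ S} {s : S}
    (hD : ∀ f g, D (f * g) = D f * g + f * D g) (hs : D s = 1) (T : Subalgebra ℂ S)
    (hsT : s ∈ T) : ∀ (n : ℕ) (g : S), (∀ j, (D ^ j) g ∈ T) → (D ^ n) g = 0 →
      ∀ m : ℕ, ∃ h ∈ T, D h = s ^ m * g := by
  intro n
  induction n with
  | zero =>
    intro g _ h0 m
    rw [pow_zero, Module.End.one_apply] at h0
    exact ⟨0, T.zero_mem, by rw [h0, map_zero, mul_zero]⟩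
  | succ n ih =>
    intro g hg h0 m
    obtain ⟨h1, hT1, e1⟩ := ih (D g) (fun j => by
      have := hg (j + 1)
      rwa [pow_succ, Module.End.mul_apply] at this)
      (by rwa [pow_succ, Module.End.mul_apply] at h0) (m + 1)
    have hm : ((m : ℂ) + 1) ≠ 0 := by exact_mod_cast Nat.succ_ne_zero m
    have hgT : g ∈ T := by
      have := hg 0
      rwa [pow_zero, Module.End.one_apply] at this
    refine ⟨((m : ℂ) + 1)⁻¹ • (s ^ (m + 1) * g - h1), ?_, ?_⟩
    · exact T.smul_mem (T.sub_mem (T.mul_mem (T.pow_mem hsT _) hgT) hT1) _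
    · rw [map_smul, map_sub, hD, D_pow hD hs, e1, smul_mul_assoc, add_sub_cancel_right,
        smul_smul, inv_mul_cancel₀ hm, one_smul]

theorem main : S_DIX := by
  intro S _ _ D S' s hD hnil hst hs hs1
  have hpow : ∀ g ∈ S', ∀ j, (D ^ j) g ∈ S' := by
    intro g hg j
    induction j with
    | zero => rwa [pow_zero, Module.End.one_apply]
    | succ j ih =>
      rw [pow_succ', Module.End.mul_apply]
      exact hst _ ih
  refine ⟨fun g hg => ?_, ?_⟩
  · obtain ⟨n, hn⟩ := hnil g
    obtain ⟨h, h1, h2⟩ := integ hD hs1 S' hs n g (hpow g hg) hn 0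
    exact ⟨h, h1, by rw [h2, pow_zero, one_mul]⟩
  · obtain ⟨A, hA⟩ : ∃ A, A = Algebra.adjoin ℂ ({f : S | f ∈ S' ∧ D f = 0} ∪ {s}) := ⟨_, rfl⟩
    have hA1 : ∀ f, f ∈ S' → D f = 0 → f ∈ A := by
      intro f h1 h2
      rw [hA]
      exact Algebra.subset_adjoin (Or.inl ⟨h1, h2⟩)
    have hA2 : s ∈ A := by
      rw [hA]
      exact Algebra.subset_adjoin (Or.inr rfl)
    rw [← hA]
    have key : ∀ (n : ℕ) (f : S), f ∈ S' → (D ^ n) f = 0 → f ∈ A := by
      intro n
      induction n with
      | zero =>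
        intro f _ h0
        rw [pow_zero, Module.End.one_apply] at h0
        rw [h0]
        exact A.zero_mem
      | succ n ih =>
        intro f hf h0
        have hDf : (D ^ n) (D f) = 0 := by rwa [pow_succ, Module.End.mul_apply] at h0
        obtain ⟨h, hT, e⟩ := integ hD hs1 (S' ⊓ A) ⟨hs, hA2⟩ n (D f)
          (fun j => ⟨hpow _ (hst f hf) j, ih _ (hpow _ (hst f hf) j) (by
            rw [← Module.End.mul_apply, ← pow_add, add_comm, pow_add, Module.End.mul_apply, hDf,
              map_zero])⟩) hDf 0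
        rw [pow_zero, one_mul] at e
        have h3 : f - h ∈ A := hA1 _ (S'.sub_mem hf hT.1) (by rw [map_sub, e, sub_self])
        have h4 := A.add_mem h3 hT.2
        rwa [sub_add_cancel] at h4
    intro f hf
    obtain ⟨n, hn⟩ := hnil f
    exact key n f hf hn

end Pool.Agent.Y449.MS.DIX
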