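import Pool.Agent.Y449.MS.StmA

/-!
Project MS (helper449), job MS-FD (helper730): finitely many logarithms span.
-/

set_option autoImplicit false

open Set Filter Topology

namespace Pool.Agent.Y449.MS.FD

open Pool.Agent.Y449.MS

section
variable {Γ E : Type} [Group Γ] [NormedAddCommGroup E] [NormedSpace ℝ E] [FiniteDimensional ℝ E]
  (hol : Γ →* (E ≃ᵃ[ℝ] E))

theorem comp_mem (h1 : S_PF) (N : Subgroup Γ) (hN : N.Normal) (a : Γ) {f : E → ℂ} (hf : f ∈ RN hol N) :
    (fun x => f (hol a x)) ∈ RN hol N := by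
  obtain ⟨⟨d, hd⟩, h⟩ := hf
  refine ⟨⟨d, (h1 E).2.1 d f hd (hol a)⟩, fun n hn x => ?_⟩
  show f (hol a (hol n x)) = f (hol a x)
  have h2 := h (a * n * a⁻¹) (hN.conj_mem n hn a) (hol a x)
  rw [← h2]
  congr 1
  have h3 : ∀ g g' : Γ, ∀ y : E, hol (g * g') y = hol g (hol g' y) := fun g g' y => by
    rw [map_mul]
    rfl
  rw [← h3, ← h3]
  congr 2
  group

/-- composition on the ring of polynomial invariants -/
noncomputable def cmp0 (h1 : S_PF) (N : Subgroup Γ) (hN : N.Normal) (a : Γ) (f : RT hol N) : RT hol N :=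
  (exists_ev hol N (comp_mem hol h1 N hN a (ev_mem hol N f))).choose

theorem ev_cmp0 (h1 : S_PF) (N : Subgroup Γ) (hN : N.Normal) (a : Γ) (f : RT hol N) :
    ev hol N (cmp0 hol h1 N hN a f) = fun x => ev hol N f (hol a x) :=
  (exists_ev hol N (comp_mem hol h1 N hN a (ev_mem hol N f))).choose_spec

/-- composition on the ring of polynomial invariants -/
noncomputable def cmp (h1 : S_PF) (N : Subgroup Γ) (hN : N.Normal) (a : Γ) : Module.End ℂ (RT hol N) where
  toFun f := cmp0 hol h1 N hN a f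
  map_add' f g := by
    apply ev_injective hol N
    rw [map_add, ev_cmp0, ev_cmp0, ev_cmp0, map_add]
    rfl
  map_smul' c f := by
    apply ev_injective hol N
    rw [RingHom.id_apply, map_smul, ev_cmp0, ev_cmp0, map_smul]
    rfl

theorem ev_cmp (h1 : S_PF) (N : Subgroup Γ) (hN : N.Normal) (a : Γ) (f : RT hol N) :
    ev hol N (cmp hol h1 N hN a f) = fun x => ev hol N f (hol a x) := ev_cmp0 hol h1 N hN a f

theorem ev_pow (h1 : S_PF) (N : Subgroup Γ) (hN : N.Normal) (a : Γ) (n : ℕ) (f : RT hol N) :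
    ev hol N (((cmp hol h1 N hN a - 1 : Module.End ℂ (RT hol N)) ^ n) f) =
      ((pc hol a - 1 : Module.End ℂ (E → ℂ)) ^ n) (ev hol N f) := by
  induction n with
  | zero => simp
  | succ n ih =>
    rw [pow_succ', pow_succ', Module.End.mul_apply, Module.End.mul_apply, ← ih, LinearMap.sub_apply,
      LinearMap.sub_apply, map_sub, ev_cmp]
    rfl

theorem unip (h1 : S_PF) (N A : Subgroup Γ) (hN : N.Normal)
    (hA : ∀ a ∈ A, ∀ d, ∀ f ∈ PF E d, ∃ n : ℕ, ((pc hol a - 1 : Module.End ℂ (E → ℂ)) ^ n) f = 0)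
    {a : Γ} (ha : a ∈ A) (f : RT hol N) : ∃ n : ℕ, ((cmp hol h1 N hN a - 1 : Module.End ℂ (RT hol N)) ^ n) f = 0 := by
  obtain ⟨⟨d, hd⟩, -⟩ := ev_mem hol N f
  obtain ⟨n, hn⟩ := hA a ha d _ hd
  refine ⟨n, ev_injective hol N ?_⟩
  rw [ev_pow, hn, map_zero]

theorem mem_bot {f : E → ℂ} {d : ℕ} (hf : f ∈ PF E d) : f ∈ RN hol (⊥ : Subgroup Γ) := by
  refine ⟨⟨d, hf⟩, fun n hn x => ?_⟩
  rw [Subgroup.mem_bot.1 hn, map_one]
  rfl

theorem mem_bot' (N : Subgroup Γ) (f : RT hol N) : ev hol N f ∈ RN hol (⊥ : Subgroup Γ) := by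
  obtain ⟨⟨d, hd⟩, -⟩ := ev_mem hol N f
  exact mem_bot hol hd

/-- the inclusion of the invariants in all polynomial functions -/
noncomputable def incl0 (N : Subgroup Γ) (f : RT hol N) : RT hol (⊥ : Subgroup Γ) :=
  (exists_ev hol (⊥ : Subgroup Γ) (mem_bot' hol N f)).choose

theorem ev_incl0 (N : Subgroup Γ) (f : RT hol N) : ev hol (⊥ : Subgroup Γ) (incl0 hol N f) = ev hol N f :=
  (exists_ev hol (⊥ : Subgroup Γ) (mem_bot' hol N f)).choose_spec

/-- the inclusion of the invariants in all polynomial functions -/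
noncomputable def incl (N : Subgroup Γ) : RT hol N →ₗ[ℂ] RT hol (⊥ : Subgroup Γ) where
  toFun f := incl0 hol N f
  map_add' f g := by
    apply ev_injective hol (⊥ : Subgroup Γ)
    rw [map_add, ev_incl0, ev_incl0, ev_incl0, map_add]
  map_smul' c f := by
    apply ev_injective hol (⊥ : Subgroup Γ)
    rw [RingHom.id_apply, map_smul, ev_incl0, ev_incl0, map_smul]

theorem ev_incl (N : Subgroup Γ) (f : RT hol N) : ev hol (⊥ : Subgroup Γ) (incl hol N f) = ev hol N f := ev_incl0 hol N f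

theorem incl_injective (N : Subgroup Γ) : Function.Injective (incl hol N) := by
  intro f g h
  apply ev_injective hol N
  rw [← ev_incl hol N f, ← ev_incl hol N g, h]

theorem bot_normal : (⊥ : Subgroup Γ).Normal := inferInstance

theorem cmp_mul (h1 : S_PF) (N : Subgroup Γ) (hN : N.Normal) (a : Γ) (f g : RT hol N) :
    cmp hol h1 N hN a (f * g) = cmp hol h1 N hN a f * cmp hol h1 N hN a g := by
  apply ev_injective hol N
  rw [ev_cmp, map_mul, map_mul, ev_cmp, ev_cmp]
  rfl

end

theorem fin_of_inj {V W : Type} [AddCommGroup V] [Module ℂ V] [AddCommGroup W] [Module ℂ W] [FiniteDimensional ℂ W]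
    (j : V →ₗ[ℂ] W) (h : ∀ v, j v = 0 → v = 0) : FiniteDimensional ℂ V :=
  Module.Finite.of_injective j ((injective_iff_map_eq_zero j).2 h)

theorem abs_fd {P S : Type} [CommRing P] [Algebra ℂ P] [CommRing S] [Algebra ℂ S] (ι : S →ₗ[ℂ] P)
    (hι : Function.Injective ι) (W : Submodule ℂ P) (hW : FiniteDimensional ℂ W) (LL : Submodule ℂ (Module.End ℂ P))
    (hpres : ∀ X ∈ LL, ∀ f ∈ W, X f ∈ W) (hdet : ∀ X ∈ LL, (∀ f ∈ W, X f = 0) → X = 0) (s : Set (Module.End ℂ S))
    (hs : ∀ D ∈ s, ∃ X ∈ LL, ∀ f, ι (D f) = X (ι f)) : FiniteDimensional ℂ (Submodule.span ℂ s) := by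
  have hLfin : FiniteDimensional ℂ LL := by
    let j : LL →ₗ[ℂ] (W →ₗ[ℂ] W) :=
      { toFun := fun X => (X : Module.End ℂ P).restrict (hpres X X.2)
        map_add' := fun X Y => by ext f; rfl
        map_smul' := fun c X => by ext f; rfl }
    refine fin_of_inj (V := LL) (W := W →ₗ[ℂ] W) j fun X hX => ?_
    apply Subtype.ext
    refine hdet X X.2 fun f hf => ?_
    have h5 := congrArg (fun φ : W →ₗ[ℂ] W => ((φ ⟨f, hf⟩ : W) : P)) hX
    exact h5
  -- pairs of compatible operators
  let R : Submodule ℂ (Module.End ℂ P × Module.End ℂ S) :=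
    { carrier := {q | q.1 ∈ LL ∧ ∀ f, ι (q.2 f) = q.1 (ι f)}
      add_mem' := fun {x y} hx hy => ⟨LL.add_mem hx.1 hy.1, fun f => by
        show ι (x.2 f + y.2 f) = x.1 (ι f) + y.1 (ι f)
        rw [map_add, hx.2, hy.2]⟩
      zero_mem' := ⟨LL.zero_mem, fun f => by
        show ι 0 = 0
        rw [map_zero]⟩
      smul_mem' := fun c x hx => ⟨LL.smul_mem c hx.1, fun f => by
        show ι (c • x.2 f) = c • x.1 (ι f)
        rw [map_smul, hx.2]⟩ }
  have hRfin : FiniteDimensional ℂ R := by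
    let j : R →ₗ[ℂ] LL := ((LinearMap.fst ℂ _ _).comp R.subtype).codRestrict LL fun q => q.2.1
    refine fin_of_inj (V := R) (W := LL) j fun q hq => ?_
    have h5 : (q : Module.End ℂ P × Module.End ℂ S).1 = 0 := congrArg Subtype.val hq
    apply Subtype.ext
    refine Prod.ext h5 ?_
    show (q : Module.End ℂ P × Module.End ℂ S).2 = 0
    apply LinearMap.ext
    intro f
    apply hι
    rw [q.2.2 f, h5, LinearMap.zero_apply, LinearMap.zero_apply, map_zero]
  have hle : Submodule.span ℂ s ≤ R.map (LinearMap.snd ℂ (Module.End ℂ P) (Module.End ℂ S)) := by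
    rw [Submodule.span_le]
    intro D hD
    obtain ⟨X, hX, h⟩ := hs D hD
    exact ⟨(X, D), ⟨hX, h⟩, rfl⟩
  exact Submodule.finiteDimensional_of_le hle

theorem main (h1 : S_PF) (h2 : S_LOG) (h3 : S_LOGCOMM) (h4 : S_LOGDER) : S_FD := by
  intro Γ E _ _ _ _ hol N A hN hA
  classical
  -- logarithms on the ring of all polynomial functions
  let P := RT hol (⊥ : Subgroup Γ)
  let sg : Γ → Module.End ℂ P := fun a => cmp hol h1 ⊥ bot_normal a
  have hL : ∀ a : A, ∃ L : Module.End ℂ P, ExpOf (sg a) L := fun a =>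
    h2 P (sg a) fun f => unip hol h1 ⊥ A bot_normal hA a.2 f
  choose L hL using hL
  let LL : Submodule ℂ (Module.End ℂ P) := Submodule.span ℂ (Set.range L)
  -- they are derivations
  have hder : ∀ X ∈ LL, ∀ f g : P, X (f * g) = X f * g + f * X g := by
    intro X hX
    induction hX using Submodule.span_induction with
    | mem x hx =>
      obtain ⟨a, rfl⟩ := hx
      exact h4 P (sg a) (L a) (hL a) fun f g => cmp_mul hol h1 ⊥ bot_normal a f g
    | zero =>
      intro f g
      simp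
    | add x y _ _ hx hy =>
      intro f g
      rw [LinearMap.add_apply, LinearMap.add_apply, LinearMap.add_apply, hx, hy]
      ring
    | smul c x _ hx =>
      intro f g
      rw [LinearMap.smul_apply, LinearMap.smul_apply, LinearMap.smul_apply, hx, smul_add, smul_mul_assoc, mul_smul_comm]
  -- they preserve the affine functions
  let W : Submodule ℂ P := Rd hol ⊥ 1
  have hWm : ∀ f : P, f ∈ W ↔ ev hol ⊥ f ∈ PF E 1 := fun f => Iff.rfl
  have hpres0 : ∀ a : A, ∀ f ∈ W, L a f ∈ W := by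
    intro a f hf
    have hs : ∀ z ∈ W, sg a z ∈ W := by
      intro z hz
      rw [hWm] at hz ⊢
      show ev hol ⊥ (cmp hol h1 ⊥ bot_normal a z) ∈ PF E 1
      rw [ev_cmp]
      exact (h1 E).2.1 1 _ hz (hol a)
    let s' : Module.End ℂ W := (sg a).restrict hs
    have hs' : ∀ (n : ℕ) (z : W), ((((s' - 1 : Module.End ℂ W) ^ n) z : W) : P) = ((sg a - 1 : Module.End ℂ P) ^ n) z := by
      intro n z
      induction n with
      | zero => simp
      | succ n ih =>
        rw [pow_succ', pow_succ', Module.End.mul_apply, Module.End.mul_apply, ← ih]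
        rfl
    obtain ⟨D', hD'⟩ := h2 W s' fun z => by
      obtain ⟨n, hn⟩ := unip hol h1 ⊥ A bot_normal hA a.2 (z : P)
      exact ⟨n, Subtype.ext ((hs' n z).trans hn)⟩
    have h5 := h3 W P s' D' (sg a) (L a) W.subtype.toAddMonoidHom hD' (hL a) (fun r z => rfl) (fun z => rfl) ⟨f, hf⟩
    have h6 : L a f = ((D' ⟨f, hf⟩ : W) : P) := h5.symm
    rw [h6]
    exact (D' ⟨f, hf⟩).2
  have hpres : ∀ X ∈ LL, ∀ f ∈ W, X f ∈ W := by
    intro X hX
    induction hX using Submodule.span_induction with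
    | mem x hx =>
      obtain ⟨a, rfl⟩ := hx
      exact hpres0 a
    | zero => exact fun f _ => W.zero_mem
    | add x y _ _ hx hy => exact fun f hf => W.add_mem (hx f hf) (hy f hf)
    | smul c x _ hx => exact fun f hf => W.smul_mem c (hx f hf)
  -- they are determined by the values on the affine functions
  have hdet : ∀ X ∈ LL, (∀ f ∈ W, X f = 0) → X = 0 := by
    intro X hX h0
    have hcl : ∀ d : ℕ, ∀ z ∈ PF E d, ∀ f : P, ev hol ⊥ f = z → X f = 0 := by
      intro d
      induction d with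
      | zero =>
        intro z hz f hf
        apply h0
        rw [hWm, hf]
        exact PF_mono (Nat.zero_le 1) hz
      | succ d ih =>
        intro z hz
        have hz2 : z ∈ PF E d * PF E 1 := by
          unfold PF at hz ⊢
          rwa [← pow_add]
        have hboth : z ∈ RN hol (⊥ : Subgroup Γ) ∧ ∀ f : P, ev hol ⊥ f = z → X f = 0 := by
          refine Submodule.mul_induction_on hz2 (fun g hg h hh => ?_) fun x y hx hy => ?_
          · have m1 := mem_bot hol hg
            have m2 := mem_bot hol hh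
            refine ⟨(RN hol ⊥).mul_mem m1 m2, fun f hf => ?_⟩
            obtain ⟨fg, hfg⟩ := exists_ev hol ⊥ m1
            obtain ⟨fh, hfh⟩ := exists_ev hol ⊥ m2
            have h5 : f = fg * fh := by
              apply ev_injective hol ⊥
              rw [hf, map_mul, hfg, hfh]
            have h6 : X fh = 0 := h0 fh (by rw [hWm, hfh]; exact hh)
            rw [h5, hder X hX, ih g hg fg hfg, h6, zero_mul, mul_zero, add_zero]
          · refine ⟨(RN hol ⊥).add_mem hx.1 hy.1, fun f hf => ?_⟩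
            obtain ⟨fx, hfx⟩ := exists_ev hol ⊥ hx.1
            obtain ⟨fy, hfy⟩ := exists_ev hol ⊥ hy.1
            have h5 : f = fx + fy := by
              apply ev_injective hol ⊥
              rw [hf, map_add, hfx, hfy]
            rw [h5, map_add, hx.2 fx hfx, hy.2 fy hfy, add_zero]
        exact hboth.2
    ext f
    obtain ⟨⟨d, hd⟩, -⟩ := ev_mem hol ⊥ f
    rw [hcl d _ hd f rfl]
    rfl
  -- the span is finite dimensional
  have hWfin : FiniteDimensional ℂ W := by
    haveI := (h1 E).1 1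
    let j : W →ₗ[ℂ] PF E 1 := (((ev hol ⊥).toLinearMap).comp W.subtype).codRestrict (PF E 1) fun f => f.2
    refine fin_of_inj j fun f h => Subtype.ext (ev_injective hol ⊥ ?_)
    rw [Submodule.coe_zero, map_zero]
    exact congrArg (fun z : PF E 1 => (z : E → ℂ)) h
  refine abs_fd (incl hol N) (incl_injective hol N) W hWfin LL hpres hdet {D | ∃ a ∈ A, LogOf hol N a D} ?_
  rintro D ⟨a, ha, σ, hσ1, hσ2⟩
  refine ⟨L ⟨a, ha⟩, Submodule.subset_span ⟨⟨a, ha⟩, rfl⟩, fun f => ?_⟩
  exact h3 (RT hol N) P σ D (sg a) (L ⟨a, ha⟩) (incl hol N).toAddMonoidHom hσ2 (hL ⟨a, ha⟩)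
    (fun r z => (incl hol N).map_smul (r : ℂ) z) (fun z => by
      apply ev_injective hol ⊥
      show ev hol ⊥ (incl hol N (σ z)) = ev hol ⊥ (cmp hol h1 ⊥ bot_normal a (incl hol N z))
      rw [ev_incl, ev_cmp, ev_incl]
      funext x
      exact hσ1 z x) f

end Pool.Agent.Y449.MS.FD
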