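import Pool.Agent.Y449.MS.StmB

/-!
Project MS, FIN: the theorem for triangular groups (job 8005, helper43).
-/

set_option autoImplicit false
set_option linter.unusedVariables false

open Set Filter Topology Metric
open Pool.Agent.W689.Mk Pool.Agent.TH94.MK Pool.Agent.Y449.MK

namespace Pool.Agent.Y449.MS.FIN

section
variable {Γ E : Type} [Group Γ] [NormedAddCommGroup E] [NormedSpace ℝ E]

theorem good_bot [FiniteDimensional ℝ E] (hol : Γ →* (E ≃ᵃ[ℝ] E)) (Ω : Set E) :
    GoodP hol Ω (⊥ : Subgroup Γ) := by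
  have hone : ∀ x : E, hol 1 x = x := by
    intro x
    rw [map_one]
    rfl
  constructor
  · intro Y hY
    let b := Module.finBasis ℝ E
    have hmem : ∀ i, (fun x : E => ((b.repr x i : ℝ) : ℂ)) ∈ RN hol (⊥ : Subgroup Γ) := by
      intro i
      refine ⟨⟨1, ?_⟩, ?_⟩
      · show _ ∈ AF E ^ 1
        rw [pow_one]
        refine ⟨(Complex.ofRealCLM : ℝ →ₗ[ℝ] ℂ) ∘ₗ (b.coord i), 0, fun x => ?_⟩
        rw [add_zero]
        rfl
      · intro n hn x
        rw [Subgroup.mem_bot.1 hn, hone]
    choose B hB using fun i => hY _ (hmem i)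
    refine ⟨∑ i, B i * ‖b i‖, fun y hy => ⟨1, Subgroup.mem_bot.2 rfl, ?_⟩⟩
    rw [hone]
    calc ‖y‖ = ‖∑ i, b.repr y i • b i‖ := by rw [b.sum_repr]
      _ ≤ ∑ i, ‖b.repr y i • b i‖ := norm_sum_le _ _
      _ ≤ ∑ i, B i * ‖b i‖ := by
        apply Finset.sum_le_sum
        intro i _
        rw [norm_smul]
        have h1 := hB i y hy
        rw [Complex.norm_real] at h1
        exact mul_le_mul_of_nonneg_right h1 (norm_nonneg _)
  · intro n w w0 q hn hw hw0 hq
    have h1 : (fun k => hol (n k) (w k)) = w := by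
      funext k
      rw [Subgroup.mem_bot.1 (hn k), hone]
    rw [h1] at hq
    rw [tendsto_nhds_unique hq hw]
    exact hw0

end

theorem good_comm (h1 : S_STEP) {X Γ E : Type} [NormedAddCommGroup E] [NormedSpace ℝ E]
    [FiniteDimensional ℝ E] [TopologicalSpace X] [T2Space X] [SecondCountableTopology X]
    [Nonempty X] [Group Γ] [MulAction Γ X] {dev : X → E} {hol : Γ →* (E ≃ᵃ[ℝ] E)}
    (D : AffData X Γ E dev hol) (hinj : Function.Injective dev) (hsol : Group.IsSolvable Γ)
    (hT : TriL hol) : GoodP hol (range dev) (commutator Γ) := by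
  obtain ⟨m, hm⟩ := hsol.solvable
  rcases Nat.eq_zero_or_pos m with rfl | hm0
  · have h2 : commutator Γ = ⊥ := by
      rw [eq_bot_iff, ← hm, derivedSeries_zero]
      exact le_top
    rw [h2]
    exact good_bot hol _
  · have key : ∀ i, i < m → GoodP hol (range dev) (derivedSeries Γ (m - i)) := by
      intro i
      induction i with
      | zero =>
        intro _
        rw [Nat.sub_zero, hm]
        exact good_bot hol _
      | succ i ih =>
        intro hi
        obtain ⟨k, hk⟩ : ∃ k, m - (i + 1) = k := ⟨_, rfl⟩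
        have hk1 : m - i = k + 1 := by omega
        have hk2 : 1 ≤ k := by omega
        have h3 := ih (by omega)
        rw [hk1] at h3
        rw [hk]
        refine h1 X Γ E dev hol D hinj hT (derivedSeries Γ (k + 1)) (derivedSeries Γ k)
          (derivedSeries_normal Γ (k + 1)) (derivedSeries_normal Γ k)
          (derivedSeries_antitone Γ (Nat.le_succ k)) ?_ ?_ h3
        · rw [derivedSeries_succ]
        · rw [← derivedSeries_one]
          exact derivedSeries_antitone Γ hk2
    have h4 := key (m - 1) (by omega)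
    rw [show m - (m - 1) = 1 by omega, derivedSeries_one] at h4
    exact h4

theorem main (h1 : S_STEP) (h2 : S_LAST) (h3 : S_PF) : S_FIN := by
  intro X Γ E _ _ _ _ _ _ _ _ _ dev hol D hinj H hH hsol hT
  have D' := restrict D H hH
  have hcl : IsClosed (range dev) :=
    h2 X H E dev (hol.comp H.subtype) D' hinj hT (good_comm h1 D' hinj hsol hT)
  have h4 : range dev = univ :=
    IsClopen.eq_univ ⟨hcl, D.loc.isOpenMap.isOpen_range⟩ (range_nonempty dev)
  exact ⟨D.loc.continuous, D.loc.isOpenMap, hinj, range_eq_univ.1 h4⟩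

end Pool.Agent.Y449.MS.FIN
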