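import Pool.Agent.Y449.MS.StmB

/-!
Virtually solvable groups: a solvable group of affine maps has a subgroup of finite index with
triangular linear parts.
-/

set_option autoImplicit false

open Set

namespace Pool.Agent.Y449.MS.FINV

open Pool.Agent.Y449.MS

section

variable {E : Type} [NormedAddCommGroup E] [NormedSpace ℝ E]

/-- precomposition with the inverse of a linear equivalence -/
noncomputable def pre (g : E ≃ₗ[ℝ] E) : (E →ₗ[ℝ] ℂ) ≃ₗ[ℂ] (E →ₗ[ℝ] ℂ) where
  toFun L := L.comp (g.symm : E →ₗ[ℝ] E)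
  invFun L := L.comp (g : E →ₗ[ℝ] E)
  map_add' _ _ := rfl
  map_smul' _ _ := rfl
  left_inv L := by
    ext x
    simp
  right_inv L := by
    ext x
    simp

/-- the action of the linear parts on the linear functions -/
noncomputable def rho {Γ : Type} [Group Γ] (hol : Γ →* (E ≃ᵃ[ℝ] E)) :
    Γ →* ((E →ₗ[ℝ] ℂ) ≃ₗ[ℂ] (E →ₗ[ℝ] ℂ)) where
  toFun γ := pre (AffineEquiv.linearHom (hol γ))
  map_one' := by
    rw [map_one, map_one]
    ext L x
    rfl
  map_mul' γ δ := by
    rw [map_mul, map_mul]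
    ext L x
    rfl

theorem rho_inv {Γ : Type} [Group Γ] (hol : Γ →* (E ≃ᵃ[ℝ] E)) (γ : Γ) (L : E →ₗ[ℝ] ℂ) :
    rho hol γ⁻¹ L = L.comp ((hol γ).linear : E →ₗ[ℝ] E) := by
  ext x
  change L ((AffineEquiv.linearHom (hol γ⁻¹)).symm x) = L ((hol γ).linear x)
  rw [map_inv, map_inv]
  rfl

end

theorem span_chain {M : Type} [AddCommGroup M] [Module ℂ M] (c : ℕ → Submodule ℂ M) (v : ℕ → M)
    (h0 : c 0 = ⊥) (hs : ∀ j, c (j + 1) = c j ⊔ Submodule.span ℂ {v j}) (n : ℕ) :
    c n = Submodule.span ℂ (v '' {i | i < n}) := by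
  induction n with
  | zero => rw [h0]; simp
  | succ n ih =>
    rw [hs, ih, ← Submodule.span_union]
    congr 1
    ext x
    simp only [mem_union, mem_image, mem_ofPred_eq, mem_singleton_iff]
    constructor
    · rintro (⟨i, hi, rfl⟩ | rfl)
      · exact ⟨i, by omega, rfl⟩
      · exact ⟨n, by omega, rfl⟩
    · rintro ⟨i, hi, rfl⟩
      rcases Nat.lt_succ_iff_lt_or_eq.mp hi with h | rfl
      · exact Or.inl ⟨i, h, rfl⟩
      · exact Or.inr rfl

theorem tri_of_solv (h2 : S_MAL) {Γ E : Type} [Group Γ] [NormedAddCommGroup E] [NormedSpace ℝ E]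
    [FiniteDimensional ℝ E] (hol : Γ →* (E ≃ᵃ[ℝ] E)) (H : Subgroup Γ) (hf : H.FiniteIndex)
    (hs : Group.IsSolvable H) : ∃ H'' : Subgroup Γ, H''.FiniteIndex ∧ Group.IsSolvable H'' ∧
      TriL (hol.comp H''.subtype) := by
  have hfd : FiniteDimensional ℂ (E →ₗ[ℝ] ℂ) := Module.Finite.linearMap ℝ ℂ E ℂ
  obtain ⟨H', hf', l, c, hc0, hcl, hInv, hstep⟩ :=
    h2 H (E →ₗ[ℝ] ℂ) (rho (hol.comp H.subtype)) hs
  choose v hv using hstep
  have hspan := span_chain c v hc0 hv
  refine ⟨H'.map H.subtype, ?_, ?_, l, fun j => v j, ?_, ?_⟩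
  · constructor
    rw [Subgroup.index_map_subtype]
    exact mul_ne_zero hf'.index_ne_zero hf.index_ne_zero
  · have e := (H'.equivMapOfInjective H.subtype H.subtype_injective).symm
    have h3 : Group.IsSolvable H' := inferInstance
    exact Group.isSolvable_of_isSolvable_injective (f := e.toMonoidHom) e.injective
  · rw [← hcl, hspan l]
    congr 1
    ext x
    simp only [mem_range, mem_image, mem_ofPred_eq]
    constructor
    · rintro ⟨j, rfl⟩
      exact ⟨j, j.2, rfl⟩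
    · rintro ⟨i, hi, rfl⟩
      exact ⟨⟨i, hi⟩, rfl⟩
  · rintro ⟨γ, h, hh, rfl⟩ i
    have hset : (fun j : Fin l => v j) '' {j | j ≤ i} = v '' {k | k < (i : ℕ) + 1} := by
      ext x
      simp only [mem_image, mem_ofPred_eq]
      constructor
      · rintro ⟨j, hj, rfl⟩
        exact ⟨j, Nat.lt_succ_of_le hj, rfl⟩
      · rintro ⟨k, hk, rfl⟩
        exact ⟨⟨k, lt_of_lt_of_le hk i.2⟩, Nat.le_of_lt_succ hk, rfl⟩
    rw [hset, ← hspan]
    have h4 : v i ∈ c ((i : ℕ) + 1) := by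
      rw [hv]
      exact Submodule.mem_sup_right (Submodule.mem_span_singleton_self _)
    have h5 := hInv ((i : ℕ) + 1) (⟨h, hh⟩⁻¹ : H') (v i) h4
    change rho (hol.comp H.subtype) h⁻¹ (v i) ∈ _ at h5
    rw [rho_inv] at h5
    exact h5

/-- **The theorem for virtually solvable groups.** -/
theorem main (h1 : S_FIN) (h2 : S_MAL) : S_FINV := by
  intro X Γ E _ _ _ _ _ _ _ _ _ dev hol hA hinj H hf hs
  obtain ⟨H'', hf'', hs'', ht⟩ := tri_of_solv h2 hol H hf hs
  exact h1 X Γ E dev hol hA hinj H'' hf'' hs'' ht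

end Pool.Agent.Y449.MS.FINV
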