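import Pool.Agent.Y449.MS.StmA

/-!
Project MS, job MS-FLOW (helper983): bounded translates in a degenerate direction.
-/

set_option autoImplicit false

open Set Filter Topology Metric

namespace Pool.Agent.Y449.MS.FLOW

section Ex

variable {M : Type} [AddCommGroup M] [Module ℂ M]

/-- the exponential of a locally nilpotent operator -/
noncomputable def ex (X : Module.End ℂ M) (f : M) : M :=
  ∑ᶠ m : ℕ, ((m.factorial : ℂ)⁻¹) • (X ^ m) f

theorem pow_zero_of_le {X : Module.End ℂ M} {f : M} {n m : ℕ} (h : (X ^ n) f = 0) (hnm : n ≤ m) :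
    (X ^ m) f = 0 := by
  obtain ⟨d, rfl⟩ := Nat.exists_eq_add_of_le hnm
  rw [add_comm, pow_add, Module.End.mul_apply, h, map_zero]

theorem ex_eq {X : Module.End ℂ M} {f : M} {n : ℕ} (h : (X ^ n) f = 0) :
    ex X f = ∑ m ∈ Finset.range n, ((m.factorial : ℂ)⁻¹) • (X ^ m) f := by
  unfold ex
  apply finsum_eq_sum_of_support_subset
  intro m hm
  rw [Function.mem_support] at hm
  rw [Finset.coe_range, Set.mem_Iio]
  by_contra hc
  apply hm
  rw [pow_zero_of_le h (not_lt.mp hc), smul_zero]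

omit [Module ℂ M] in
theorem sum_antidiag {N : ℕ} (F : ℕ → ℕ → M) (hF : ∀ i j, N ≤ i + j → F i j = 0) :
    ∑ l ∈ Finset.range N, ∑ p ∈ Finset.HasAntidiagonal.antidiagonal l, F p.1 p.2 =
      ∑ i ∈ Finset.range N, ∑ j ∈ Finset.range N, F i j := by
  have h0 : ∑ i ∈ Finset.range N, ∑ j ∈ Finset.range N, F i j =
      ∑ x ∈ Finset.range N ×ˢ Finset.range N, F x.1 x.2 :=
    (Finset.sum_product _ _ (fun x : ℕ × ℕ => F x.1 x.2)).symm
  have h1 : ∑ x ∈ Finset.range N ×ˢ Finset.range N, F x.1 x.2 =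
      ∑ x ∈ (Finset.range N ×ˢ Finset.range N).filter (fun x => x.1 + x.2 < N), F x.1 x.2 := by
    symm
    apply Finset.sum_subset (Finset.filter_subset _ _)
    intro x hx hx2
    apply hF
    by_contra hc
    exact hx2 (Finset.mem_filter.mpr ⟨hx, not_le.mp hc⟩)
  rw [h0, h1, ← Finset.sum_fiberwise_of_maps_to (t := Finset.range N)
    (g := fun x : ℕ × ℕ => x.1 + x.2)
    (fun x hx => Finset.mem_range.mpr (Finset.mem_filter.mp hx).2)]
  apply Finset.sum_congr rfl
  intro l hl
  apply Finset.sum_congr _ (fun _ _ => rfl)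
  have hl2 := Finset.mem_range.mp hl
  ext ⟨i, j⟩
  simp only [Finset.mem_filter, Finset.mem_product, Finset.mem_range, Finset.HasAntidiagonal.mem_antidiagonal]
  constructor
  · intro h; omega
  · intro h; omega

theorem ex_add {X Y : Module.End ℂ M} (hc : Commute X Y) {f : M} {n m : ℕ} (hX : (X ^ n) f = 0)
    (hY : (Y ^ m) f = 0) : ((X + Y) ^ (n + m)) f = 0 ∧ ex (X + Y) f = ex X (ex Y f) := by
  let F : ℕ → ℕ → M := fun i j =>
    (((i.factorial : ℂ)⁻¹) * ((j.factorial : ℂ)⁻¹)) • (X ^ i) ((Y ^ j) f)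
  have hF : ∀ i j, n ≤ i ∨ m ≤ j → F i j = 0 := by
    intro i j h
    change _ • (X ^ i) ((Y ^ j) f) = 0
    rcases h with h | h
    · have h2 : (X ^ i) ((Y ^ j) f) = (Y ^ j) ((X ^ i) f) := by
        rw [← Module.End.mul_apply, ← Module.End.mul_apply, (hc.pow_pow i j).eq]
      rw [h2, pow_zero_of_le hX h, map_zero, smul_zero]
    · rw [pow_zero_of_le hY h, map_zero, smul_zero]
  have hl : ∀ l : ℕ, (((l.factorial : ℂ)⁻¹) • ((X + Y) ^ l) f) =
      ∑ p ∈ Finset.HasAntidiagonal.antidiagonal l, F p.1 p.2 := by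
    intro l
    rw [hc.add_pow', LinearMap.sum_apply, Finset.smul_sum]
    apply Finset.sum_congr rfl
    rintro ⟨i, j⟩ hij
    have hij2 : i + j = l := Finset.HasAntidiagonal.mem_antidiagonal.mp hij
    subst hij2
    change (((i + j).factorial : ℂ)⁻¹) • ((((i + j).choose i) • (X ^ i * Y ^ j) :
      Module.End ℂ M) f) = (((i.factorial : ℂ)⁻¹) * ((j.factorial : ℂ)⁻¹)) • (X ^ i) ((Y ^ j) f)
    rw [LinearMap.smul_apply, ← Nat.cast_smul_eq_nsmul ℂ, smul_smul, Module.End.mul_apply]
    congr 1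
    have h3 : (((i + j).choose i : ℕ) : ℂ) * i.factorial * j.factorial =
        ((i + j).factorial : ℂ) := by
      rw [Nat.choose_symm_add]
      exact_mod_cast Nat.add_choose_mul_factorial_mul_factorial i j
    have f1 : (i.factorial : ℂ) ≠ 0 := Nat.cast_ne_zero.mpr (Nat.factorial_ne_zero _)
    have f2 : (j.factorial : ℂ) ≠ 0 := Nat.cast_ne_zero.mpr (Nat.factorial_ne_zero _)
    have f3 : ((i + j).factorial : ℂ) ≠ 0 := Nat.cast_ne_zero.mpr (Nat.factorial_ne_zero _)
    rw [← mul_inv, inv_mul_eq_iff_eq_mul₀ f3, ← h3]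
    field_simp
  have hz : ∀ l, n + m ≤ l → ∀ p ∈ Finset.HasAntidiagonal.antidiagonal l, F p.1 p.2 = 0 := by
    rintro l hln ⟨i, j⟩ hp
    have hij : i + j = l := Finset.HasAntidiagonal.mem_antidiagonal.mp hp
    apply hF
    simp only
    omega
  have h1 : ((X + Y) ^ (n + m)) f = 0 := by
    have h2 := hl (n + m)
    rw [Finset.sum_eq_zero (hz (n + m) le_rfl)] at h2
    rcases smul_eq_zero.mp h2 with h3 | h3
    · exact absurd h3 (inv_ne_zero (Nat.cast_ne_zero.mpr (Nat.factorial_ne_zero _)))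
    · exact h3
  refine ⟨h1, ?_⟩
  rw [ex_eq h1, Finset.sum_congr rfl fun l _ => hl l, sum_antidiag F (fun i j hij => hF i j (by omega))]
  rw [ex_eq (pow_zero_of_le hY (Nat.le_add_left m n))]
  have h4 : (X ^ (n + m)) (∑ j ∈ Finset.range (n + m), ((j.factorial : ℂ)⁻¹) • (Y ^ j) f) = 0 := by
    rw [map_sum]
    apply Finset.sum_eq_zero
    intro j _
    rw [map_smul]
    have h2 : (X ^ (n + m)) ((Y ^ j) f) = (Y ^ j) ((X ^ (n + m)) f) := by
      rw [← Module.End.mul_apply, ← Module.End.mul_apply, (hc.pow_pow (n + m) j).eq]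
    rw [h2, pow_zero_of_le hX (Nat.le_add_right n m), map_zero, smul_zero]
  rw [ex_eq h4]
  apply Finset.sum_congr rfl
  intro i _
  rw [map_sum, Finset.smul_sum]
  apply Finset.sum_congr rfl
  intro j _
  rw [map_smul, smul_smul]

theorem ex_zero (f : M) : ex (0 : Module.End ℂ M) f = f := by
  have h : ((0 : Module.End ℂ M) ^ 1) f = 0 := by rw [pow_one]; rfl
  rw [ex_eq h, Finset.sum_range_one, pow_zero, Nat.factorial_zero, Nat.cast_one, inv_one, one_smul]
  rfl

/-- An operator with trivial exponential is zero. -/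
theorem eq_zero_of_ex {W : Module.End ℂ M} (hn : ∀ f, ∃ n, (W ^ n) f = 0)
    (h : ∀ f, ex W f = f) : W = 0 := by
  classical
  ext f
  by_contra hf
  obtain ⟨n, hn1, hn2⟩ : ∃ n, (W ^ (n + 2)) f = 0 ∧ (W ^ (n + 1)) f ≠ 0 := by
    have he := hn f
    have h1 := Nat.find_spec he
    have h2 : 2 ≤ Nat.find he := by
      by_contra hc
      have h3 : (W ^ 1) f = 0 := pow_zero_of_le h1 (by omega)
      rw [pow_one] at h3
      exact hf h3
    obtain ⟨n, hn⟩ := Nat.exists_eq_add_of_le h2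
    refine ⟨n, ?_, ?_⟩
    · rw [add_comm, ← hn]
      exact h1
    · exact Nat.find_min he (by omega)
  have h1 : (W ^ 2) ((W ^ n) f) = 0 := by
    rw [← Module.End.mul_apply, ← pow_add, add_comm]
    exact hn1
  have h2 := h ((W ^ n) f)
  rw [ex_eq h1, Finset.sum_range_succ, Finset.sum_range_one] at h2
  apply hn2
  have h3 : W ((W ^ n) f) = 0 := by simpa using h2
  rw [add_comm, pow_add, pow_one, Module.End.mul_apply]
  exact h3

end Ex

section Fam

variable {M : Type} [AddCommGroup M] [Module ℂ M] {k : ℕ} (D : Fin k → Module.End ℂ M)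

/-- linear combinations of the operators -/
noncomputable def X (t : Fin k → ℂ) : Module.End ℂ M := ∑ i, t i • D i

theorem X_add (s t : Fin k → ℂ) : X D (s + t) = X D s + X D t := by
  unfold X
  rw [← Finset.sum_add_distrib]
  exact Finset.sum_congr rfl fun i _ => add_smul _ _ _

theorem X_smul (c : ℂ) (t : Fin k → ℂ) : X D (c • t) = c • X D t := by
  unfold X
  rw [Finset.smul_sum]
  exact Finset.sum_congr rfl fun i _ => by rw [Pi.smul_apply, smul_eq_mul, mul_smul]

theorem X_zero : X D 0 = 0 := by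
  unfold X
  exact Finset.sum_eq_zero fun i _ => zero_smul _ _

variable {D}

theorem X_comm (hc : ∀ i j f, D i (D j f) = D j (D i f)) (s t : Fin k → ℂ) :
    Commute (X D s) (X D t) := by
  unfold X
  apply Commute.sum_left
  intro i _
  apply Commute.sum_right
  intro j _
  apply Commute.smul_left
  apply Commute.smul_right
  exact LinearMap.ext fun f => hc i j f

theorem X_nil (hc : ∀ i j f, D i (D j f) = D j (D i f)) (hn : ∀ i f, ∃ n, (D i ^ n) f = 0)
    (f : M) : ∃ n, ∀ t : Fin k → ℂ, (X D t ^ n) f = 0 := by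
  classical
  have key : ∀ s : Finset (Fin k), ∃ n, ∀ t : Fin k → ℂ, ((∑ i ∈ s, t i • D i) ^ n) f = 0 := by
    intro s
    induction s using Finset.induction_on with
    | empty => exact ⟨1, fun t => by rw [Finset.sum_empty, pow_one]; rfl⟩
    | insert j s hj ih =>
      obtain ⟨n, hn1⟩ := ih
      obtain ⟨m, hm⟩ := hn j f
      refine ⟨m + n, fun t => ?_⟩
      rw [Finset.sum_insert hj]
      refine (ex_add ?_ ?_ (hn1 t)).1
      · apply Commute.sum_right
        intro i _
        apply Commute.smul_left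
        apply Commute.smul_right
        exact LinearMap.ext fun f => hc j i f
      · rw [smul_pow, LinearMap.smul_apply, hm, smul_zero]
  obtain ⟨n, hn1⟩ := key Finset.univ
  exact ⟨n, hn1⟩

theorem ex_X_add (hc : ∀ i j f, D i (D j f) = D j (D i f)) (hn : ∀ i f, ∃ n, (D i ^ n) f = 0)
    (s t : Fin k → ℂ) (f : M) : ex (X D (s + t)) f = ex (X D s) (ex (X D t) f) := by
  obtain ⟨n, h⟩ := X_nil hc hn f
  rw [X_add]
  exact (ex_add (X_comm hc s t) (h s) (h t)).2

theorem ex_X_zero (f : M) : ex (X D 0) f = f := by rw [X_zero, ex_zero]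

end Fam

section Main

variable {Γ E : Type} [Group Γ] [NormedAddCommGroup E] [NormedSpace ℝ E]
  (hol : Γ →* (E ≃ᵃ[ℝ] E)) (N : Subgroup Γ)

/-- the action of `γ` on the ring of invariants is the exponential of `X` -/
def Rep (γ : Γ) (X : Module.End ℂ (RT hol N)) : Prop :=
  ∀ f x, ev hol N f (hol γ x) = ev hol N (ex X f) x

variable {hol N} {k : ℕ} {a : Fin k → Γ} {D : Fin k → Module.End ℂ (RT hol N)}

theorem rep_log {γ : Γ} {X : Module.End ℂ (RT hol N)} (h : LogOf hol N γ X) : Rep hol N γ X := by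
  obtain ⟨σ, h1, h2, h3⟩ := h
  intro f x
  obtain ⟨n, hn⟩ := h2 f
  have h4 := h3 f n hn 1
  rw [← h1, ex_eq hn]
  rw [pow_one] at h4
  have h5 : ∑ m ∈ Finset.range n, (((1 : ℕ) : ℂ) ^ m / (m.factorial : ℂ)) • (X ^ m) f =
      ∑ m ∈ Finset.range n, ((m.factorial : ℂ)⁻¹) • (X ^ m) f :=
    Finset.sum_congr rfl fun m _ => by rw [Nat.cast_one, one_pow, one_div]
  rw [h4, h5]

/-- the integral combinations are represented by elements of the group -/
theorem exists_rep (hc : ∀ i j f, D i (D j f) = D j (D i f)) (hlog : ∀ i, LogOf hol N (a i) (D i))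
    (z : Fin k → ℤ) : ∃ γ : Γ, Rep hol N γ (X D (fun i => (z i : ℂ))) := by
  classical
  have hn : ∀ i f, ∃ n, (D i ^ n) f = 0 := fun i f => by
    obtain ⟨σ, _, h2, _⟩ := hlog i
    exact h2 f
  let H : AddSubgroup (Fin k → ℤ) :=
    { carrier := {z | ∃ γ : Γ, Rep hol N γ (X D (fun i => (z i : ℂ)))}
      add_mem' := by
        rintro z w ⟨γ, hγ⟩ ⟨δ, hδ⟩
        refine ⟨γ * δ, fun f x => ?_⟩
        have e1 : (fun i => (((z + w) i : ℤ) : ℂ)) = (fun i => (w i : ℂ)) + fun i => (z i : ℂ) := by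
          funext i
          rw [Pi.add_apply, Pi.add_apply, Int.cast_add, add_comm]
        rw [e1, ex_X_add hc hn, ← hδ, ← hγ, map_mul]
        rfl
      zero_mem' := by
        refine ⟨1, fun f x => ?_⟩
        have e1 : (fun i => (((0 : Fin k → ℤ) i : ℤ) : ℂ)) = 0 := by
          funext i
          rw [Pi.zero_apply, Pi.zero_apply, Int.cast_zero]
        rw [e1, ex_X_zero, map_one]
        rfl
      neg_mem' := by
        rintro z ⟨γ, hγ⟩
        refine ⟨γ⁻¹, fun f x => ?_⟩
        have e1 : (fun i => (((-z) i : ℤ) : ℂ)) = -(fun i => (z i : ℂ)) := by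
          funext i
          rw [Pi.neg_apply, Pi.neg_apply, Int.cast_neg]
        rw [e1]
        have h1 : ex (X D fun i => (z i : ℂ)) (ex (X D (-(fun i => (z i : ℂ)))) f) = f := by
          rw [← ex_X_add hc hn, add_neg_cancel, ex_X_zero]
        have h2 := hγ (ex (X D (-(fun i => (z i : ℂ)))) f) (hol γ⁻¹ x)
        rw [h1] at h2
        rw [← h2]
        have h3 : hol γ (hol γ⁻¹ x) = x := by
          change (hol γ * hol γ⁻¹) x = x
          rw [← map_mul, mul_inv_cancel, map_one]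
          rfl
        rw [h3] }
  have h1 : ∀ i, (Pi.single i 1 : Fin k → ℤ) ∈ H := by
    intro i
    refine ⟨a i, ?_⟩
    have e1 : X D (fun j => (((Pi.single i 1 : Fin k → ℤ) j : ℤ) : ℂ)) = D i := by
      unfold X
      rw [Finset.sum_eq_single i]
      · beta_reduce
        rw [Pi.single_eq_same, Int.cast_one, one_smul]
      · intro j _ hj
        beta_reduce
        rw [Pi.single_eq_of_ne hj, Int.cast_zero, zero_smul]
      · intro h
        exact absurd (Finset.mem_univ i) h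
    rw [e1]
    exact rep_log (hlog i)
  have h2 : z ∈ H := by
    have e1 : z = ∑ i, z i • (Pi.single i 1 : Fin k → ℤ) := by
      funext j
      rw [Finset.sum_apply, Finset.sum_eq_single j]
      · rw [Pi.smul_apply, Pi.single_eq_same, smul_eq_mul, mul_one]
      · intro i _ hi
        rw [Pi.smul_apply, Pi.single_eq_of_ne (Ne.symm hi), smul_zero]
      · intro h
        exact absurd (Finset.mem_univ j) h
    rw [e1]
    exact AddSubgroup.sum_mem _ fun i _ => AddSubgroup.zsmul_mem _ (h1 i) _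
  exact h2

variable (D) in
theorem bound_pow (h1 : S_PF) [FiniteDimensional ℝ E] (p : E) (r : ℝ) (m : ℕ) :
    ∀ f : RT hol N, ∃ B : ℝ, ∀ e : Fin k → ℝ, (∀ i, |e i| ≤ 1) → ∀ u ∈ closedBall p r,
      ‖ev hol N ((X D (fun i => (e i : ℂ)) ^ m) f) u‖ ≤ B := by
  induction m with
  | zero =>
    intro f
    obtain ⟨⟨d, hd⟩, _⟩ := ev_mem hol N f
    have hcont : Continuous (ev hol N f) := ((h1 E).2.2.1 d _ hd).continuous
    obtain ⟨B, hB⟩ := (isCompact_closedBall p r).exists_bound_of_continuousOn hcont.continuousOn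
    exact ⟨B, fun e _ u hu => hB u hu⟩
  | succ m ih =>
    intro f
    choose B hB using fun i => ih (D i f)
    refine ⟨∑ i, B i, fun e he u hu => ?_⟩
    have e1 : (X D (fun i => (e i : ℂ)) ^ (m + 1)) f =
        ∑ i, (e i : ℂ) • (X D (fun i => (e i : ℂ)) ^ m) (D i f) := by
      rw [pow_succ, Module.End.mul_apply]
      conv_lhs => rw [show X D (fun i => (e i : ℂ)) f = ∑ i, (e i : ℂ) • D i f by
        unfold X
        rw [LinearMap.sum_apply]
        rfl]
      rw [map_sum]
      exact Finset.sum_congr rfl fun i _ => map_smul _ _ _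
    rw [e1, map_sum, Finset.sum_apply]
    refine (norm_sum_le _ _).trans (Finset.sum_le_sum fun i _ => ?_)
    rw [map_smul, Pi.smul_apply, norm_smul, Complex.norm_real, Real.norm_eq_abs]
    calc |e i| * ‖ev hol N ((X D (fun i => (e i : ℂ)) ^ m) (D i f)) u‖ ≤ 1 * B i :=
          mul_le_mul (he i) (hB i e he u hu) (norm_nonneg _) zero_le_one
      _ = B i := one_mul _

theorem bound_ex (h1 : S_PF) [FiniteDimensional ℝ E] (hc : ∀ i j f, D i (D j f) = D j (D i f))
    (hn : ∀ i f, ∃ n, (D i ^ n) f = 0) (p : E) (r : ℝ) (f : RT hol N) :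
    ∃ B : ℝ, ∀ e : Fin k → ℝ, (∀ i, |e i| ≤ 1) → ∀ u ∈ closedBall p r,
      ‖ev hol N (ex (X D (fun i => (e i : ℂ))) f) u‖ ≤ B := by
  obtain ⟨n, hn1⟩ := X_nil hc hn f
  choose B hB using fun m => bound_pow D h1 p r m f
  refine ⟨∑ m ∈ Finset.range n, ‖((m.factorial : ℂ)⁻¹)‖ * B m, fun e he u hu => ?_⟩
  rw [ex_eq (hn1 _), map_sum, Finset.sum_apply]
  refine (norm_sum_le _ _).trans (Finset.sum_le_sum fun m _ => ?_)
  rw [map_smul, Pi.smul_apply, norm_smul]
  exact mul_le_mul_of_nonneg_left (hB m e he u hu) (norm_nonneg _)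

/-- the flow in a degenerate direction is trivial -/
theorem ex_deg {u : E} {W : Module.End ℂ (RT hol N)} (hn : ∀ f, ∃ n, (W ^ n) f = 0)
    (h : ∀ f, ev hol N (W f) u = 0) (f : RT hol N) : ev hol N (ex W f) u = ev hol N f u := by
  obtain ⟨n, hn1⟩ := hn f
  rw [ex_eq (pow_zero_of_le hn1 (Nat.le_succ n)), Finset.sum_range_succ', map_add, map_sum,
    Pi.add_apply, Finset.sum_apply, Finset.sum_eq_zero, zero_add, pow_zero, Nat.factorial_zero,
    Nat.cast_one, inv_one, one_smul]
  · rfl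
  · intro m _
    rw [map_smul, Pi.smul_apply, pow_succ', Module.End.mul_apply, h, smul_zero]

end Main

theorem main (h1 : S_PF) (_h2 : S_LOGCOMM) : S_FLOW := by
  classical
  intro Γ E _ _ _ _ hol N k a D p r hN hcomm hlog hc hli
  have hn : ∀ i f, ∃ n, (D i ^ n) f = 0 := fun i f => by
    obtain ⟨σ, _, h2, _⟩ := hlog i
    exact h2 f
  have hnX : ∀ (t : Fin k → ℂ) f, ∃ n, (X D t ^ n) f = 0 := fun t f => by
    obtain ⟨n, h⟩ := X_nil hc hn f
    exact ⟨n, h t⟩
  choose g hg using fun z => exists_rep (a := a) hc hlog z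
  choose B hB using fun f => bound_ex h1 hc hn p r f
  refine ⟨fun φ => if h : ∃ f : RT hol N, ev hol N f = φ then B h.choose else 0, ?_⟩
  intro u hu c hc0 hdeg T
  obtain ⟨i0, hi0⟩ : ∃ i, c i ≠ 0 := by
    by_contra hcon
    push Not at hcon
    exact hc0 (funext hcon)
  let z : ℕ → Fin k → ℤ := fun j i => ⌊((j : ℝ) / c i0) * c i⌋
  have hz0 : ∀ j, z j i0 = (j : ℤ) := by
    intro j
    change ⌊((j : ℝ) / c i0) * c i0⌋ = (j : ℤ)
    rw [div_mul_cancel₀ _ hi0]
    exact Int.floor_natCast j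
  have hcpt : ∀ j, ∀ φ ∈ RN hol N, ‖φ (hol (g (z j)) u)‖ ≤
      (if h : ∃ f : RT hol N, ev hol N f = φ then B h.choose else 0) := by
    intro j φ hφ
    have hex := exists_ev hol N hφ
    rw [dif_pos hex]
    set f := hex.choose with hf
    have hfφ : ev hol N f = φ := hex.choose_spec
    let e : Fin k → ℝ := fun i => (z j i : ℝ) - ((j : ℝ) / c i0) * c i
    have he : ∀ i, |e i| ≤ 1 := by
      intro i
      have h3 := Int.floor_le (((j : ℝ) / c i0) * c i)
      have h4 := Int.lt_floor_add_one (((j : ℝ) / c i0) * c i)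
      rw [abs_le]
      constructor
      · change -1 ≤ (⌊((j : ℝ) / c i0) * c i⌋ : ℝ) - ((j : ℝ) / c i0) * c i
        linarith
      · change (⌊((j : ℝ) / c i0) * c i⌋ : ℝ) - ((j : ℝ) / c i0) * c i ≤ 1
        linarith
    have e1 : (fun i => ((z j i : ℤ) : ℂ)) =
        ((((j : ℝ) / c i0 : ℝ) : ℂ) • fun i => (c i : ℂ)) + fun i => (e i : ℂ) := by
      funext i
      rw [Pi.add_apply, Pi.smul_apply, smul_eq_mul]
      change ((z j i : ℤ) : ℂ) = ((((j : ℝ) / c i0 : ℝ) : ℂ) * (c i : ℂ)) +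
        (((z j i : ℝ) - ((j : ℝ) / c i0) * c i : ℝ) : ℂ)
      push_cast
      ring
    rw [← hfφ, hg, e1, ex_X_add hc hn, ex_deg (hnX _)]
    · exact hB f e he u (ball_subset_closedBall hu)
    · intro f'
      rw [X_smul, LinearMap.smul_apply, map_smul, Pi.smul_apply]
      have h3 := hdeg f'
      have h4 : ev hol N (X D (fun i => (c i : ℂ)) f') u = 0 := by
        rw [← h3]
        unfold X
        rw [LinearMap.sum_apply, map_sum, Finset.sum_apply]
        apply Finset.sum_congr rfl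
        intro i _
        rw [LinearMap.smul_apply, map_smul, Pi.smul_apply, smul_eq_mul]
      rw [h4, smul_zero]
  by_contra hcon
  push Not at hcon
  choose δ hδT hδN using fun j => hcon (g (z j)) (hcpt j)
  let F : ℕ → T := fun j => ⟨δ j, hδT j⟩
  obtain ⟨j, j', hjj, hF⟩ := Finite.exists_ne_map_eq_of_infinite F
  have hδ : δ j = δ j' := congrArg Subtype.val hF
  have hmem : g (z j) * (g (z j'))⁻¹ ∈ N := by
    have h3 := N.mul_mem (hδN j) (N.inv_mem (hδN j'))
    have h4 : g (z j) * (δ j)⁻¹ * (g (z j') * (δ j')⁻¹)⁻¹ = g (z j) * (g (z j'))⁻¹ := by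
      rw [hδ]
      group
    rwa [h4] at h3
  have heq : ∀ f, ex (X D (fun i => ((z j i : ℤ) : ℂ))) f =
      ex (X D (fun i => ((z j' i : ℤ) : ℂ))) f := by
    intro f
    apply ev_injective hol N
    funext x
    rw [← hg, ← hg]
    have h3 := (ev_mem hol N f).2 _ hmem (hol (g (z j')) x)
    rw [← h3]
    have h6 : hol (g (z j) * (g (z j'))⁻¹) (hol (g (z j')) x) = hol (g (z j)) x := by
      change (hol (g (z j) * (g (z j'))⁻¹) * hol (g (z j'))) x = hol (g (z j)) x
      rw [← map_mul, inv_mul_cancel_right]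
    rw [h6]
  have hW : X D ((fun i => ((z j i : ℤ) : ℂ)) + -(fun i => ((z j' i : ℤ) : ℂ))) = 0 := by
    apply eq_zero_of_ex (hnX _)
    intro f
    rw [ex_X_add hc hn, heq, ← ex_X_add hc hn, add_neg_cancel, ex_X_zero]
  have h5 := (Fintype.linearIndependent_iff.mp hli) _ hW i0
  rw [Pi.add_apply, Pi.neg_apply, hz0, hz0, ← sub_eq_add_neg, sub_eq_zero] at h5
  apply hjj
  exact_mod_cast h5

end Pool.Agent.Y449.MS.FLOW
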