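import Pool.Agent.Y449.MS.StmB

/-!
Generic freeness (helper180).
-/

set_option autoImplicit false

open Set Filter Topology MeasureTheory Metric
open scoped ENNReal
open Pool.Agent.W689.Mk Pool.Agent.TH94.MK Pool.Agent.Y449.MK

namespace Pool.Agent.Y449.MS.FREE

/-- complex conjugation of the invariants -/
theorem exists_conj (h4 : S_PF) {Γ E : Type} [Group Γ] [NormedAddCommGroup E] [NormedSpace ℝ E]
    [FiniteDimensional ℝ E] (hol : Γ →* (E ≃ᵃ[ℝ] E)) (N : Subgroup Γ) :
    ∃ τ : RT hol N →+ RT hol N, ∀ f x, ev hol N (τ f) x = (starRingEnd ℂ) (ev hol N f x) := by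
  have h : ∀ f : RT hol N, ∃ g : RT hol N, ∀ x, ev hol N g x = (starRingEnd ℂ) (ev hol N f x) := by
    intro f
    obtain ⟨⟨d, hd⟩, hinv⟩ := ev_mem hol N f
    obtain ⟨g, hg⟩ := exists_ev hol N (g := fun x => (starRingEnd ℂ) (ev hol N f x))
      ⟨⟨d, (h4 E).2.2.2.1 d _ hd⟩, fun n hn x => by
        show (starRingEnd ℂ) (ev hol N f (hol n x)) = _
        rw [hinv n hn x]⟩
    exact ⟨g, fun x => congrFun hg x⟩
  choose g hg using h
  refine ⟨AddMonoidHom.mk' g fun f f' => ?_, hg⟩
  apply ev_injective hol N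
  funext x
  rw [hg, map_add, map_add, Pi.add_apply, Pi.add_apply, map_add, hg, hg]

theorem main (h1 : S_FLOW) (h2 : S_GFI) (h3 : S_LOGCOMM) (h4 : S_PF) : S_FREE := by
  intro X Γ E _ _ _ _ _ _ _ _ _ dev hol hA hinj N A hN hcomm hG hfd hcm k D0 D h hD0 hD hns hrel
  classical
  -- a basis which consists of logarithms
  obtain ⟨B, hBS, hBsp, hBli⟩ := exists_linearIndependent ℂ
    {D : Module.End ℂ (RT hol N) | ∃ a ∈ A, LogOf hol N a D}
  have hmem : ∀ x : B, (x : Module.End ℂ (RT hol N)) ∈ LA hol N A := fun x =>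
    Submodule.subset_span (hBS x.2)
  have hBfin : Finite B := by
    have h5 : LinearIndependent ℂ (fun x : B => (⟨x, hmem x⟩ : LA hol N A)) := by
      apply LinearIndependent.of_comp (LA hol N A).subtype
      exact hBli
    exact h5.finite
  obtain ⟨k', ⟨e⟩⟩ := Finite.exists_equiv_fin B
  obtain ⟨D', hD'⟩ : ∃ D' : Fin k' → Module.End ℂ (RT hol N), ∀ i, D' i = e.symm i :=
    ⟨_, fun _ => rfl⟩
  have hD'fun : D' = fun i => ((e.symm i : B) : Module.End ℂ (RT hol N)) := funext hD'
  have hD'li : LinearIndependent ℂ D' := by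
    rw [hD'fun]
    exact hBli.comp e.symm e.symm.injective
  have hD'sp : Submodule.span ℂ (range D') = LA hol N A := by
    have h5 : range D' = B := by
      ext x
      constructor
      · rintro ⟨i, rfl⟩
        rw [hD']
        exact (e.symm i).2
      · intro hx
        exact ⟨e ⟨x, hx⟩, by rw [hD', e.symm_apply_apply]⟩
    rw [h5, hBsp]
    rfl
  have hD'm : ∀ i, D' i ∈ LA hol N A := fun i => by rw [hD']; exact hmem _
  have hlog : ∀ i, ∃ a ∈ A, LogOf hol N a (D' i) := fun i => by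
    rw [hD']
    exact hBS (e.symm i).2
  choose a haA halog using hlog
  -- a ball
  obtain ⟨x0⟩ := (inferInstance : Nonempty X)
  obtain ⟨r, hr, hball⟩ : ∃ r > 0, closedBall (dev x0) r ⊆ range dev :=
    Metric.nhds_basis_closedBall.mem_iff.mp (hA.loc.isOpenMap.isOpen_range.mem_nhds ⟨x0, rfl⟩)
  have hcommN : ∀ i j, a i * a j * (a i)⁻¹ * (a j)⁻¹ ∈ N := fun i j => by
    rw [← commutatorElement_def]
    exact hcomm (Subgroup.commutator_mem_commutator (haA i) (haA j))
  obtain ⟨b, hb⟩ := h1 Γ E hol N k' a D' (dev x0) r hN hcommN halog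
    (fun i j f => hcm _ (hD'm i) _ (hD'm j) f) hD'li
  refine h2 X Γ E dev hol hA hinj N hG (dev x0) r hr hball b ?_
  intro u hu T
  -- a complex relation
  have hrelc : ∃ c : Fin k' → ℂ, c ≠ 0 ∧ ∀ f, ∑ i, c i * ev hol N (D' i f) u = 0 := by
    obtain ⟨Xu, hXu⟩ : ∃ Xu : Module.End ℂ (RT hol N),
      Xu = D0 - ∑ j, (ev hol N (h j) u) • D j := ⟨_, rfl⟩
    have hXmem : Xu ∈ LA hol N A := by
      rw [hXu]
      exact Submodule.sub_mem _ hD0
        (Submodule.sum_mem _ fun j _ => Submodule.smul_mem _ _ (hD j))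
    have hX0 : Xu ≠ 0 := by
      intro h0
      apply hns
      rw [hXu] at h0
      rw [sub_eq_zero.mp h0]
      exact Submodule.sum_mem _ fun j _ => Submodule.smul_mem _ _ (Submodule.subset_span ⟨j, rfl⟩)
    have hXmem' := hXmem
    rw [← hD'sp, Submodule.mem_span_range_iff_exists_fun] at hXmem'
    obtain ⟨c, hc⟩ := hXmem'
    refine ⟨c, ?_, fun f => ?_⟩
    · rintro rfl
      apply hX0
      rw [← hc]
      exact Finset.sum_eq_zero fun i _ => by rw [Pi.zero_apply, zero_smul]
    · have e1 : ev hol N (Xu f) u = 0 := by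
        rw [hXu, LinearMap.sub_apply, hrel f, LinearMap.sum_apply, map_sub, Pi.sub_apply, map_sum,
          map_sum, Finset.sum_apply, Finset.sum_apply, sub_eq_zero]
        refine Finset.sum_congr rfl fun j _ => ?_
        rw [map_mul, Pi.mul_apply, LinearMap.smul_apply, map_smul, Pi.smul_apply, smul_eq_mul]
      rw [← hc, LinearMap.sum_apply, map_sum, Finset.sum_apply] at e1
      rw [← e1]
      refine Finset.sum_congr rfl fun i _ => ?_
      rw [LinearMap.smul_apply, map_smul, Pi.smul_apply, smul_eq_mul]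
  obtain ⟨c, hc0, hc⟩ := hrelc
  -- the conjugate relation
  obtain ⟨τ, hτ⟩ := exists_conj h4 hol N
  have hτD : ∀ i f, τ (D' i f) = D' i (τ f) := by
    intro i
    obtain ⟨σ, hσ, hexp⟩ := halog i
    refine h3 _ _ σ (D' i) σ (D' i) τ hexp hexp (fun r f => ?_) (fun f => ?_)
    · apply ev_injective hol N
      funext x
      have e1 : ev hol N ((r : ℂ) • f) x = (r : ℂ) * ev hol N f x := by
        rw [map_smul, Pi.smul_apply, smul_eq_mul]
      have e2 : ev hol N ((r : ℂ) • τ f) x = (r : ℂ) * ev hol N (τ f) x := by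
        rw [map_smul, Pi.smul_apply, smul_eq_mul]
      rw [hτ, e1, e2, hτ, map_mul, Complex.conj_ofReal]
    · apply ev_injective hol N
      funext x
      rw [hτ, hσ, hσ, hτ]
  have hc' : ∀ f, ∑ i, (starRingEnd ℂ) (c i) * ev hol N (D' i f) u = 0 := by
    intro f
    have e1 := congrArg (starRingEnd ℂ) (hc (τ f))
    rw [map_sum, map_zero] at e1
    rw [← e1]
    refine Finset.sum_congr rfl fun i _ => ?_
    rw [← hτD, hτ, map_mul, Complex.conj_conj]
  have hre : ∀ f, ∑ i, (((c i).re : ℝ) : ℂ) * ev hol N (D' i f) u = 0 := by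
    intro f
    have e1 : ∑ i, (((c i).re : ℝ) : ℂ) * ev hol N (D' i f) u =
        (∑ i, c i * ev hol N (D' i f) u + ∑ i, (starRingEnd ℂ) (c i) * ev hol N (D' i f) u) / 2 := by
      rw [← Finset.sum_add_distrib, Finset.sum_div]
      refine Finset.sum_congr rfl fun i _ => ?_
      rw [Complex.re_eq_add_conj]
      ring
    rw [e1, hc, hc', add_zero, zero_div]
  have him : ∀ f, ∑ i, (((c i).im : ℝ) : ℂ) * ev hol N (D' i f) u = 0 := by
    intro f
    have e1 : ∑ i, (((c i).im : ℝ) : ℂ) * ev hol N (D' i f) u =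
        (∑ i, c i * ev hol N (D' i f) u - ∑ i, (starRingEnd ℂ) (c i) * ev hol N (D' i f) u) /
          (2 * Complex.I) := by
      rw [← Finset.sum_sub_distrib, Finset.sum_div]
      refine Finset.sum_congr rfl fun i _ => ?_
      rw [Complex.im_eq_sub_conj]
      ring
    rw [e1, hc, hc', sub_zero, zero_div]
  by_cases hz : (fun i => (c i).re) = 0
  · refine hb u hu (fun i => (c i).im) (fun hz' => hc0 ?_) him T
    funext i
    exact Complex.ext (congrFun hz i) (congrFun hz' i)
  · exact hb u hu (fun i => (c i).re) hz hre T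

end Pool.Agent.Y449.MS.FREE
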