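import Pool.Agent.Y449.MS.StmB

/-!
Project MS (helper449), job GFI (helper889): not all points of a ball have infinitely many
translates with bounded invariants.
-/

set_option autoImplicit false

open Set Filter Topology MeasureTheory Metric
open scoped ENNReal
open Pool.Agent.W689.Mk Pool.Agent.TH94.MK Pool.Agent.Y449.MK

namespace Pool.Agent.Y449.MS.GFI

/-- representatives of the right cosets -/
lemma exists_rep {Γ : Type} [Group Γ] [Countable Γ] (N : Subgroup Γ) :
    ∃ (Q : Type) (_ : Countable Q) (mk : Γ → Q) (rep : Q → Γ),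
      (∀ γ, γ * (rep (mk γ))⁻¹ ∈ N) ∧ ∀ c d, rep c * (rep d)⁻¹ ∈ N → c = d := by
  refine ⟨Quotient (QuotientGroup.rightRel N), inferInstance,
    fun γ => Quotient.mk (QuotientGroup.rightRel N) γ, Quotient.out, fun γ => ?_, fun c d h => ?_⟩
  · have h1 : QuotientGroup.rightRel N
        (Quotient.out (Quotient.mk (QuotientGroup.rightRel N) γ)) γ := Quotient.mk_out γ
    exact QuotientGroup.rightRel_apply.1 h1
  · have h1 : QuotientGroup.rightRel N d.out c.out := QuotientGroup.rightRel_apply.2 h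
    have h2 := Quotient.sound h1
    rw [Quotient.out_eq, Quotient.out_eq] at h2
    exact h2.symm

theorem main (h1 : S_INT) (h2 : S_PF) : S_GFI := by
  classical
  intro X Γ E _ _ _ _ _ _ _ _ _ dev hol hD hinj N hN p r hr hball b hcon
  let _ : MeasurableSpace E := borel E
  have : BorelSpace E := ⟨rfl⟩
  have hΓ : Countable Γ := countable_group hD
  set Y : Set E := {y | ∀ f ∈ RN hol N, ‖f y‖ ≤ b f} with hY
  have hYc : IsClosed Y := by
    have e : Y = ⋂ f ∈ RN hol N, {y | ‖f y‖ ≤ b f} := by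
      ext y
      simp [hY]
    rw [e]
    refine isClosed_biInter fun f hf => ?_
    have hf' : (∃ d, f ∈ PF E d) ∧ ∀ n ∈ N, ∀ x, f (hol n x) = f x := hf
    obtain ⟨⟨d, hd⟩, -⟩ := hf'
    exact isClosed_le ((h2 E).2.2.1 d f hd).continuous.norm continuous_const
  obtain ⟨R, hR⟩ := hN.cocpt Y (fun f hf => ⟨b f, fun y hy => hy f hf⟩)
  obtain ⟨B, hB, hJ⟩ := h1 X Γ E dev hol hD hinj N Y R hYc.measurableSet hR p r hball
  obtain ⟨Q, hQ, mk, rep, hrep, hrinj⟩ := exists_rep N
  set μ : Measure E := Measure.addHaar with hμ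
  set A : Q → Set E := fun c => ball p r ∩ (hol (rep c)) ⁻¹' Y with hAdef
  have hA : ∀ c, MeasurableSet (A c) := by
    intro c
    refine measurableSet_ball.inter ?_
    refine (hYc.preimage ?_).measurableSet
    exact (hol (rep c)).toAffineMap.continuous_of_finiteDimensional
  have hsum : ∑' c, μ (A c) = ∫⁻ u, ∑' c, (A c).indicator (fun _ => (1 : ℝ≥0∞)) u ∂μ := by
    rw [lintegral_tsum (fun c => (measurable_const.indicator (hA c)).aemeasurable)]
    refine tsum_congr fun c => ?_
    rw [lintegral_indicator_const (hA c), one_mul]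
  have hinf : ∀ u ∈ ball p r, ∑' c, (A c).indicator (fun _ => (1 : ℝ≥0∞)) u = ∞ := by
    intro u hu
    by_contra hne
    have hfin : {c | u ∈ A c}.Finite := by
      refine (ENNReal.finite_const_le_of_tsum_ne_top hne one_ne_zero).subset fun c hc => ?_
      have hc' : u ∈ A c := hc
      show (1 : ℝ≥0∞) ≤ (A c).indicator (fun _ => (1 : ℝ≥0∞)) u
      rw [indicator_of_mem hc']
    obtain ⟨γ, hγ1, hγ2⟩ := hcon u hu (hfin.toFinset.image rep)
    have hn := hrep γ
    have hc : u ∈ A (mk γ) := by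
      refine ⟨hu, fun f hf => ?_⟩
      have hf' : (∃ d, f ∈ PF E d) ∧ ∀ n ∈ N, ∀ x, f (hol n x) = f x := hf
      have e1 : rep (mk γ) = (γ * (rep (mk γ))⁻¹)⁻¹ * γ := by group
      have e2 : hol (rep (mk γ)) u = hol (γ * (rep (mk γ))⁻¹)⁻¹ (hol γ u) := by
        conv_lhs => rw [e1]
        rw [map_mul]
        rfl
      rw [e2, hf'.2 _ (N.inv_mem hn)]
      exact hγ1 f hf
    exact hγ2 _ (Finset.mem_image_of_mem _ (hfin.mem_toFinset.2 hc)) hn
  have hge : (∞ : ℝ≥0∞) ≤ ∑' c, μ (A c) := by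
    rw [hsum]
    calc (∞ : ℝ≥0∞) = ∞ * μ (ball p r) := by
          rw [ENNReal.top_mul (measure_ball_pos μ p hr).ne']
      _ = ∫⁻ _ in ball p r, ∞ ∂μ := by rw [setLIntegral_const]
      _ ≤ ∫⁻ u in ball p r, ∑' c, (A c).indicator (fun _ => (1 : ℝ≥0∞)) u ∂μ :=
          setLIntegral_mono' measurableSet_ball fun u hu => (hinf u hu).ge
      _ ≤ _ := setLIntegral_le_lintegral _ _
  have hle : ∑' c, μ (A c) ≤ B := by
    rw [ENNReal.tsum_eq_iSup_sum]
    refine iSup_le fun s => ?_
    have h3 := hJ (s.image rep) (by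
      intro γ hγ δ hδ hn
      obtain ⟨c, hc, rfl⟩ := Finset.mem_image.1 hγ
      obtain ⟨d, hd, rfl⟩ := Finset.mem_image.1 hδ
      rw [hrinj c d hn])
    rwa [Finset.sum_image (fun c _ d _ h => hrinj c d (by
      rw [h, mul_inv_cancel]
      exact N.one_mem))] at h3
  exact absurd (hge.trans hle) (not_le.2 hB)

end Pool.Agent.Y449.MS.GFI
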