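import Pool.Agent.Y449.MS.StmA

/-!
Project MS: invariant hyperplanes in spaces of operators.
-/

set_option autoImplicit false

namespace Pool.Agent.Y449.MS.HYP

open Pool.Agent.Y449.MS

/-- a finitely generated subspace lies in a member of a monotone exhaustive family -/
theorem exists_le {S : Type} [AddCommGroup S] [Module ℂ S] {Sd : ℕ → Submodule ℂ S}
    (hm : Monotone Sd) (he : ∀ f, ∃ d, f ∈ Sd d) {Q : Submodule ℂ S} (hQ : Q.FG) :
    ∃ d, Q ≤ Sd d := by
  classical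
  obtain ⟨t, rfl⟩ := hQ
  choose d hd using he
  refine ⟨t.sup d, Submodule.span_le.2 fun f hf => ?_⟩
  exact hm (Finset.le_sup (f := d) hf) (hd f)

theorem main (h : S_TRI) : S_HYP := by
  classical
  intro S G _ _ _ act Sd hmono hexh htri 𝔟 hfin hinv hne
  obtain ⟨D, hD, hD0⟩ := Submodule.exists_mem_ne_zero_of_ne_bot hne
  obtain ⟨f, hf⟩ : ∃ f, D f ≠ 0 := by
    by_contra hcon
    push Not at hcon
    exact hD0 (LinearMap.ext fun f => by rw [hcon f, LinearMap.zero_apply])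
  obtain ⟨d, hfd⟩ := hexh f
  obtain ⟨l, c, hc0, hcl, hcinv, hcv⟩ := htri d
  have hP : ∃ i, ∃ D ∈ 𝔟, ∃ f ∈ c i, D f ≠ 0 := ⟨l, D, hD, f, by rw [hcl]; exact hfd, hf⟩
  obtain ⟨i, hi1, hi2⟩ : ∃ i, (∃ D ∈ 𝔟, ∃ f ∈ c (i + 1), D f ≠ 0) ∧ ∀ D ∈ 𝔟, ∀ f ∈ c i, D f = 0 := by
    have h1 := Nat.find_spec hP
    rcases hk : Nat.find hP with _ | k
    · rw [hk, hc0] at h1
      obtain ⟨D', _, f', hf', hne'⟩ := h1
      rw [Submodule.mem_bot] at hf'
      rw [hf', map_zero] at hne'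
      exact absurd rfl hne'
    · refine ⟨k, by rw [hk] at h1; exact h1, fun D' hD' f' hf' => ?_⟩
      by_contra hcon
      exact Nat.find_min hP (by rw [hk]; exact Nat.lt_succ_self k) ⟨D', hD', f', hf', hcon⟩
  obtain ⟨v, hv⟩ := hcv i
  obtain ⟨D1, hD1, f1, hf1, hne1⟩ := hi1
  have hdec : ∀ z ∈ c (i + 1), ∃ u ∈ c i, ∃ x : ℂ, z = u + x • v := by
    intro z hz
    rw [hv] at hz
    obtain ⟨u, hu, w, hw, rfl⟩ := Submodule.mem_sup.1 hz
    obtain ⟨x, rfl⟩ := Submodule.mem_span_singleton.1 hw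
    exact ⟨u, hu, x, rfl⟩
  have hvc : v ∈ c (i + 1) := by
    rw [hv]
    exact Submodule.mem_sup_right (Submodule.mem_span_singleton_self v)
  have hD1v : D1 v ≠ 0 := by
    obtain ⟨u, hu, x, rfl⟩ := hdec f1 hf1
    intro h0
    apply hne1
    rw [map_add, map_smul, h0, smul_zero, add_zero, hi2 D1 hD1 u hu]
  have hvi : v ∉ c i := fun hvi => hD1v (hi2 D1 hD1 v hvi)
  -- the action on `v`
  have hact : ∀ g, ∃ x : ℂ, x ≠ 0 ∧ ∀ D ∈ 𝔟,
      act g (D v) = x • ((act g).toLinearMap * D * (act g⁻¹).toLinearMap : Module.End ℂ S) v := by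
    intro g
    obtain ⟨u, hu, x, hx⟩ := hdec (act g v) (hcinv (i + 1) g v hvc)
    have hginv : ∀ z, act g⁻¹ (act g z) = z := by
      intro z
      rw [← LinearEquiv.mul_apply, ← map_mul, inv_mul_cancel, map_one, LinearEquiv.coe_one, id]
    refine ⟨x, ?_, fun D hD => ?_⟩
    · rintro rfl
      rw [zero_smul, add_zero] at hx
      apply hvi
      have h1 := hcinv i g⁻¹ u hu
      have h2 : act g⁻¹ u = v := by rw [← hx, hginv]
      rw [← h2]
      exact h1
    · have h1 := hinv g D hD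
      have h2 : ((act g).toLinearMap * D * (act g⁻¹).toLinearMap : Module.End ℂ S) (act g v) =
          act g (D v) := by
        simp only [Module.End.mul_apply, LinearEquiv.coe_coe, hginv]
      rw [← h2, hx, map_add, map_smul, hi2 _ h1 u hu, zero_add]
  -- the space of values at `v`
  set ev : Module.End ℂ S →ₗ[ℂ] S := LinearMap.applyₗ v with hev
  have hevD : ∀ D : Module.End ℂ S, ev D = D v := fun D => rfl
  set Q : Submodule ℂ S := 𝔟.map ev with hQ
  have hQne : Q ≠ ⊥ := by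
    intro h0
    have h1 : ev D1 ∈ Q := Submodule.mem_map_of_mem hD1
    rw [h0, Submodule.mem_bot] at h1
    exact hD1v h1
  have hQfg : Q.FG := (Module.Finite.iff_fg.1 hfin).map ev
  obtain ⟨d', hd'⟩ := exists_le hmono hexh hQfg
  have hQinv : Inv (fun g => (act g).toLinearMap) Q := by
    rintro g z ⟨D, hD, rfl⟩
    obtain ⟨x, -, hx⟩ := hact g
    have h1 : (act g).toLinearMap (ev D) =
        x • ev ((act g).toLinearMap * D * (act g⁻¹).toLinearMap : Module.End ℂ S) := hx D hD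
    rw [h1]
    exact Q.smul_mem _ (Submodule.mem_map_of_mem (hinv g D hD))
  obtain ⟨-, W', w, hW'Q, hW'inv, hwQ, hwW', hQe⟩ :=
    h G S (fun g => (act g).toLinearMap) (Sd d') (htri d') Q hd' hQinv hQne
  obtain ⟨D0, hD0b, hD0w⟩ := hwQ
  refine ⟨𝔟 ⊓ W'.comap ev, D0, inf_le_left, ?_, hD0b, ?_, ?_⟩
  · rintro g D ⟨hD, hDW⟩
    refine ⟨hinv g D hD, ?_⟩
    obtain ⟨x, hx0, hx⟩ := hact g
    have h1 : (act g).toLinearMap (ev D) =
        x • ev ((act g).toLinearMap * D * (act g⁻¹).toLinearMap : Module.End ℂ S) := hx D hD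
    have h2 : ev ((act g).toLinearMap * D * (act g⁻¹).toLinearMap : Module.End ℂ S) =
        x⁻¹ • (act g).toLinearMap (ev D) := by
      rw [h1, smul_smul, inv_mul_cancel₀ hx0, one_smul]
    rw [SetLike.mem_coe, Submodule.mem_comap, h2]
    exact W'.smul_mem _ (hW'inv g _ hDW)
  · rintro ⟨-, hD0W⟩
    apply hwW'
    rw [← hD0w]
    exact hD0W
  · refine le_antisymm (fun D hD => ?_) (sup_le inf_le_left ?_)
    · have h1 : ev D ∈ Q := Submodule.mem_map_of_mem hD
      rw [hQe] at h1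
      obtain ⟨w', hw', z, hz, hsum⟩ := Submodule.mem_sup.1 h1
      obtain ⟨x, rfl⟩ := Submodule.mem_span_singleton.1 hz
      have h2 : D = (D - x • D0) + x • D0 := by abel
      rw [h2]
      refine Submodule.add_mem _ (Submodule.mem_sup_left ⟨𝔟.sub_mem hD (𝔟.smul_mem x hD0b), ?_⟩)
        (Submodule.mem_sup_right (Submodule.smul_mem _ _ (Submodule.mem_span_singleton_self D0)))
      rw [SetLike.mem_coe, Submodule.mem_comap, map_sub, map_smul, hD0w, ← hsum, add_sub_cancel_right]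
      exact hw'
    · rw [Submodule.span_singleton_le_iff_mem]
      exact hD0b

end Pool.Agent.Y449.MS.HYP
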