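import Pool.Agent.Y449.MS.StmB
import Pool.Agent.Y449.MK.Cosets

/-!
The integral bound for cosets.
-/

set_option autoImplicit false

open Set Filter Topology MeasureTheory Metric
open scoped ENNReal
open Pool.Agent.W689.Mk Pool.Agent.TH94.MK Pool.Agent.Y449.MK

namespace Pool.Agent.Y449.MS.INT

theorem main : S_INT := by
  classical
  intro X Γ E _ _ _ _ _ _ _ _ _ _ _ dev hol D hinj N Y R hY hYR p r hball
  let _ : MeasurableSpace X := borel X
  have : BorelSpace X := ⟨rfl⟩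
  have : ProperSpace E := FiniteDimensional.proper ℝ E
  obtain ⟨m, hm⟩ := mult D hinj hball
  let μ : Measure E := Measure.addHaar
  have hB : MeasurableSet (closedBall (0 : E) R) := isClosed_closedBall.measurableSet
  have hBfin : μ (closedBall (0 : E) R) < ∞ := measure_closedBall_lt_top
  have : Countable Γ := countable_group D
  refine ⟨m * μ (closedBall (0 : E) R), ENNReal.mul_lt_top (ENNReal.natCast_lt_top m) hBfin, ?_⟩
  intro J hJ
  have hcover : ∀ γ : Γ, μ (ball p r ∩ (hol γ) ⁻¹' Y) ≤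
      ∑' n : N, μ ((hol ((n : Γ) * γ)⁻¹) ⁻¹' (ball p r) ∩ closedBall (0 : E) R) := by
    intro γ
    have h1 : ball p r ∩ (hol γ) ⁻¹' Y ⊆
        ⋃ n : N, (ball p r ∩ (hol ((n : Γ) * γ)) ⁻¹' closedBall (0 : E) R) := by
      rintro u ⟨hu, huY⟩
      obtain ⟨n, hn, hnu⟩ := hYR (hol γ u) huY
      refine mem_iUnion.2 ⟨⟨n, hn⟩, hu, ?_⟩
      show hol (n * γ) u ∈ closedBall (0 : E) R
      rw [map_mul, mem_closedBall, dist_zero_right]
      exact hnu
    refine (measure_mono h1).trans ((measure_iUnion_le _).trans (ENNReal.tsum_le_tsum fun n => ?_))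
    have h2 : (hol ((n : Γ) * γ)⁻¹) ⁻¹' (ball p r) ∩ closedBall (0 : E) R =
        (hol ((n : Γ) * γ)⁻¹) ⁻¹' (ball p r ∩ (hol ((n : Γ) * γ)) ⁻¹' closedBall (0 : E) R) := by
      ext y
      constructor
      · rintro ⟨h3, h4⟩
        refine ⟨h3, ?_⟩
        show hol ((n : Γ) * γ) (hol ((n : Γ) * γ)⁻¹ y) ∈ closedBall (0 : E) R
        rw [hol_apply_inv]
        exact h4
      · rintro ⟨h3, h4⟩
        refine ⟨h3, ?_⟩
        have h5 : hol ((n : Γ) * γ) (hol ((n : Γ) * γ)⁻¹ y) ∈ closedBall (0 : E) R := h4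
        rwa [hol_apply_inv] at h5
    rw [h2, hol_preimage μ D]
  have h1 : ∑ γ ∈ J, μ (ball p r ∩ (hol γ) ⁻¹' Y) ≤ ∑ γ ∈ J,
      ∑' n : N, μ ((hol ((n : Γ) * γ)⁻¹) ⁻¹' (ball p r) ∩ closedBall (0 : E) R) :=
    Finset.sum_le_sum fun γ _ => hcover γ
  refine h1.trans ?_
  have h2 : ∑ γ ∈ J, ∑' n : N,
      μ ((hol ((n : Γ) * γ)⁻¹) ⁻¹' (ball p r) ∩ closedBall (0 : E) R) =
      ∑' x : J × N, μ ((hol ((x.2 : Γ) * (x.1 : Γ))⁻¹) ⁻¹' (ball p r) ∩
        closedBall (0 : E) R) := by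
    rw [ENNReal.tsum_prod', tsum_fintype, ← Finset.sum_coe_sort J]
  rw [h2]
  have h3 : Function.Injective (fun x : J × N => (x.2 : Γ) * (x.1 : Γ)) := by
    rintro ⟨⟨c, hc⟩, n⟩ ⟨⟨c', hc'⟩, n'⟩ h
    simp only at h
    have h7 : c = c' := by
      apply hJ c hc c' hc'
      have h5 : c * c'⁻¹ = (n : Γ)⁻¹ * n' := by
        have h6 : c = (n : Γ)⁻¹ * ((n' : Γ) * c') := by rw [← h]; group
        rw [h6]; group
      rw [h5]
      exact N.mul_mem (N.inv_mem n.2) n'.2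
    subst h7
    have h8 : (n : Γ) = n' := mul_right_cancel h
    have h9 : n = n' := Subtype.ext h8
    rw [h9]
  refine (ENNReal.tsum_comp_le_tsum_of_injective h3 (fun γ : Γ =>
    μ ((hol γ⁻¹) ⁻¹' (ball p r) ∩ closedBall (0 : E) R))).trans ?_
  rw [ENNReal.tsum_eq_iSup_sum]
  exact iSup_le fun T => hm _ hB T

end Pool.Agent.Y449.MS.INT
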