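import Pool.Agent.Y449.MS.StmB

/-!
Project MS, job MS-KEY: invariant spaces of polynomial functions contain the constants
(written by helper86).
-/

set_option autoImplicit false

open Set Filter Topology MeasureTheory Metric

namespace Pool.Agent.Y449.MS.KEY

section
variable {E : Type} [NormedAddCommGroup E] [NormedSpace ℝ E]

/-- the space of the complex directional derivatives of `f` -/
noncomputable def dW (f : E → ℂ) : Submodule ℂ (E → ℂ) where
  carrier := {h | ∃ u1 u2 : E, ∀ x, h x = fderiv ℝ f x u1 + Complex.I * fderiv ℝ f x u2}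
  add_mem' := by
    rintro h h' ⟨u1, u2, hu⟩ ⟨v1, v2, hv⟩
    refine ⟨u1 + v1, u2 + v2, fun x => ?_⟩
    rw [Pi.add_apply, hu, hv, map_add, map_add]
    ring
  zero_mem' := ⟨0, 0, fun x => by simp⟩
  smul_mem' := by
    rintro a h ⟨u1, u2, hu⟩
    refine ⟨a.re • u1 - a.im • u2, a.im • u1 + a.re • u2, fun x => ?_⟩
    rw [Pi.smul_apply, hu, map_sub, map_add, map_smul, map_smul, map_smul, map_smul]
    simp only [smul_eq_mul, Complex.real_smul]
    have h1 : a = (a.re : ℂ) + a.im * Complex.I := (Complex.re_add_im a).symm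
    have h2 : a * (fderiv ℝ f x u1 + Complex.I * fderiv ℝ f x u2) =
        ((a.re : ℂ) + a.im * Complex.I) * (fderiv ℝ f x u1 + Complex.I * fderiv ℝ f x u2) := by
      rw [← h1]
    rw [h2]
    linear_combination ((a.im : ℂ) * fderiv ℝ f x u2) * Complex.I_mul_I

theorem fderiv_eq [FiniteDimensional ℝ E] {f : E → ℂ} (hf : Differentiable ℝ f) (g : E ≃ᵃ[ℝ] E)
    {c : ℂ} (h : ∀ x, f (g x) = c * f x) (x u : E) :
    fderiv ℝ f (g x) u = c * fderiv ℝ f x (g.linear.symm u) := by
  set A : E →L[ℝ] E := LinearMap.toContinuousLinearMap (g.linear : E →ₗ[ℝ] E) with hA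
  have h1 : ∀ y, g y = A y + g 0 := by
    intro y
    have h2 := g.map_vadd 0 y
    simp only [vadd_eq_add, add_zero] at h2
    rw [h2]
    rfl
  have h3 : HasFDerivAt (fun y => g y) A x := by
    have h4 : HasFDerivAt (fun y => A y + g 0) A x := A.hasFDerivAt.add_const _
    have h5 : (fun y => g y) = fun y => A y + g 0 := funext h1
    rw [h5]
    exact h4
  have h6 : HasFDerivAt (fun y => f (g y)) ((fderiv ℝ f (g x)).comp A) x :=
    (hf (g x)).hasFDerivAt.comp x h3
  have h7 : HasFDerivAt (fun y => f (g y)) (c • fderiv ℝ f x) x := by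
    have h8 : (fun y => f (g y)) = fun y => c * f y := funext h
    rw [h8]
    exact (hf x).hasFDerivAt.const_mul c
  have h9 := congrArg (fun L : E →L[ℝ] ℂ => L (g.linear.symm u)) (h6.unique h7)
  have h10 : A (g.linear.symm u) = u := g.linear.apply_symm_apply u
  simp only [ContinuousLinearMap.comp_apply, h10] at h9
  exact h9

end

theorem main (h1 : S_VP) (h2 : S_PF) (h3 : S_TRI) (h4 : S_TRIPF) : S_KEY := by
  intro X Γ E _ _ _ _ _ _ _ _ _ dev hol hA hT d
  obtain ⟨-, -, p3, -, p5, p6⟩ := h2 E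
  induction d with
  | zero =>
    intro V hV hI hne
    obtain ⟨⟨f, hfV, hf0, -⟩, -⟩ := h3 Γ (E → ℂ) (pc hol) (PF E 0) (h4 Γ E hol hT 0).1 V hV hI hne
    obtain ⟨c, hc⟩ := p5 f (hV hfV)
    have hc0 : c ≠ 0 := by
      rintro rfl
      exact hf0 (funext hc)
    have h5 : (1 : E → ℂ) = c⁻¹ • f := by
      funext x
      rw [Pi.smul_apply, hc, smul_eq_mul, inv_mul_cancel₀ hc0, Pi.one_apply]
    rw [h5]
    exact V.smul_mem _ hfV
  | succ d ih =>
    intro V hV hI hne
    obtain ⟨⟨f, hfV, hf0, hfe⟩, -⟩ :=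
      h3 Γ (E → ℂ) (pc hol) (PF E (d + 1)) (h4 Γ E hol hT (d + 1)).1 V hV hI hne
    have hfd : Differentiable ℝ f := p3 (d + 1) f (hV hfV)
    by_cases hz : ∀ x, fderiv ℝ f x = 0
    · have hconst : ∀ x, f x = f 0 := fun x => is_const_of_fderiv_eq_zero hfd hz x 0
      have hc0 : f 0 ≠ 0 := by
        intro h0
        apply hf0
        funext x
        rw [hconst, h0, Pi.zero_apply]
      have h5 : (1 : E → ℂ) = (f 0)⁻¹ • f := by
        funext x
        rw [Pi.smul_apply, hconst x, smul_eq_mul, inv_mul_cancel₀ hc0, Pi.one_apply]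
      rw [h5]
      exact V.smul_mem _ hfV
    · exfalso
      push Not at hz
      obtain ⟨x0, hx0⟩ := hz
      have heig : ∀ γ : Γ, ∃ c : ℂ, ∀ x, f (hol γ x) = c * f x := by
        intro γ
        obtain ⟨c, hc⟩ := hfe γ
        exact ⟨c, fun x => congrFun hc x⟩
      have hW1 : dW f ≤ PF E d := by
        rintro h ⟨u1, u2, hu⟩
        have h6 : h = (fun x => fderiv ℝ f x u1) + Complex.I • fun x => fderiv ℝ f x u2 := by
          funext x
          rw [hu, Pi.add_apply, Pi.smul_apply, smul_eq_mul]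
        rw [h6]
        exact Submodule.add_mem _ (p6 d f (hV hfV) u1)
          (Submodule.smul_mem _ _ (p6 d f (hV hfV) u2))
      have hW2 : Inv (pc hol) (dW f) := by
        rintro γ h ⟨u1, u2, hu⟩
        obtain ⟨c, hc⟩ := heig γ
        have h7 : pc hol γ h = c • fun x => fderiv ℝ f x ((hol γ).linear.symm u1) +
            Complex.I * fderiv ℝ f x ((hol γ).linear.symm u2) := by
          funext x
          change h (hol γ x) = _
          rw [hu, fderiv_eq hfd (hol γ) hc, fderiv_eq hfd (hol γ) hc, Pi.smul_apply, smul_eq_mul]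
          ring
        rw [h7]
        exact (dW f).smul_mem _ ⟨_, _, fun x => rfl⟩
      have hW3 : dW f ≠ ⊥ := by
        intro hbot
        apply hx0
        ext u
        have h8 : (fun x => fderiv ℝ f x u) ∈ dW f := ⟨u, 0, fun x => by simp⟩
        rw [hbot, Submodule.mem_bot] at h8
        exact congrFun h8 x0
      obtain ⟨u1, u2, hu⟩ := ih (dW f) hW1 hW2 hW3
      exact h1 X Γ E dev hol hA (d + 1) f (hV hfV) heig u1 u2 fun x => (hu x).symm

end Pool.Agent.Y449.MS.KEY
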