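import Pool.Agent.Y449.MS.StmB

/-!
Project MS, the last step (helper366).
-/

set_option autoImplicit false
set_option linter.unusedSectionVars false

open Set Filter Topology MeasureTheory Metric
open Pool.Agent.W689.Mk Pool.Agent.TH94.MK Pool.Agent.Y449.MK

namespace Pool.Agent.Y449.MS.LAST

section

variable {E Γ : Type} [NormedAddCommGroup E]

/-- evaluation at a point -/
noncomputable def evp (V : Submodule ℂ (E → ℂ)) (x : E) : Module.Dual ℂ V :=
  (LinearMap.proj x : (E → ℂ) →ₗ[ℂ] ℂ).comp V.subtype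

theorem evp_apply (V : Submodule ℂ (E → ℂ)) (x : E) (v : V) : evp V x v = (v : E → ℂ) x := rfl

/-- separating evaluations span the dual -/
theorem span_ev (V : Submodule ℂ (E → ℂ)) [FiniteDimensional ℂ V] (x : Γ → E)
    (h : ∀ v ∈ V, (∀ g, v (x g) = 0) → v = 0) :
    Submodule.span ℂ (range fun g => evp V (x g)) = ⊤ := by
  rw [← Subspace.dualCoannihilator_dualAnnihilator_eq
    (W := Submodule.span ℂ (range fun g => evp V (x g)))]
  have h1 : (Submodule.span ℂ (range fun g => evp V (x g))).dualCoannihilator = ⊥ := by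
    rw [eq_bot_iff]
    intro v hv
    rw [Submodule.mem_dualCoannihilator] at hv
    rw [Submodule.mem_bot]
    apply Subtype.ext
    exact h v.1 v.2 fun g => hv _ (Submodule.subset_span ⟨g, rfl⟩)
  rw [h1, Submodule.dualAnnihilator_bot]

/-- bounded values at converging separating points -/
theorem coef_bound (V : Submodule ℂ (E → ℂ)) [FiniteDimensional ℂ V]
    (hcont : ∀ v ∈ V, Continuous v) (x : Γ → E) (y : ℕ → Γ → E)
    (hy : ∀ g, Tendsto (fun k => y k g) atTop (𝓝 (x g)))
    (h : ∀ v ∈ V, (∀ g, v (x g) = 0) → v = 0) (T : ℕ → V)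
    (hT : ∀ g, ∃ A : ℝ, ∀ k, ‖(T k : E → ℂ) (y k g)‖ ≤ A) :
    ∃ C : ℝ, 0 ≤ C ∧ ∀ᶠ k in atTop,
      ∑ i, ‖(Module.finBasis ℂ V).repr (T k) i‖ ≤ C := by
  classical
  set b := Module.finBasis ℂ V with hb
  set S : ℕ → ℝ := fun k => ∑ i, ‖b.repr (T k) i‖ with hS
  have hS0 : ∀ k, 0 ≤ S k := fun k => Finset.sum_nonneg fun i _ => norm_nonneg _
  have hdec : ∀ (v : V) (z : E), (v : E → ℂ) z = ∑ i, b.repr v i * ((b i : V) : E → ℂ) z := by
    intro v z
    have h1 := congrArg (fun w : V => evp V z w) (b.sum_repr v)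
    simp only [map_sum, map_smul, smul_eq_mul] at h1
    exact h1.symm
  have main : ∀ φ : Module.Dual ℂ V, ∃ (A : ℝ) (e : ℕ → ℝ), Tendsto e atTop (𝓝 0) ∧
      ∀ k, ‖φ (T k)‖ ≤ A + e k * S k := by
    intro φ
    have hφ : φ ∈ Submodule.span ℂ (range fun g => evp V (x g)) := by
      rw [span_ev V x h]
      trivial
    induction hφ using Submodule.span_induction with
    | mem φ hφ =>
      obtain ⟨g, rfl⟩ := hφ
      obtain ⟨A, hA⟩ := hT g
      refine ⟨A, fun k => ∑ i, ‖((b i : V) : E → ℂ) (x g) - ((b i : V) : E → ℂ) (y k g)‖, ?_,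
        fun k => ?_⟩
      · have h1 : ∀ i, Tendsto (fun k => ‖((b i : V) : E → ℂ) (x g) -
            ((b i : V) : E → ℂ) (y k g)‖) atTop (𝓝 0) := by
          intro i
          have h2 := ((hcont _ (b i).2).tendsto (x g)).comp (hy g)
          have h3 := (tendsto_const_nhds (x := ((b i : V) : E → ℂ) (x g))).sub h2
          rw [sub_self] at h3
          simpa using h3.norm
        have h2 := tendsto_finsetSum (Finset.univ) fun i _ => h1 i
        simpa using h2
      · rw [evp_apply]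
        have e1 : (T k : E → ℂ) (x g) = (T k : E → ℂ) (y k g) + ∑ i, b.repr (T k) i *
            (((b i : V) : E → ℂ) (x g) - ((b i : V) : E → ℂ) (y k g)) := by
          rw [hdec (T k) (x g), hdec (T k) (y k g), ← Finset.sum_add_distrib]
          exact Finset.sum_congr rfl fun i _ => by ring
        rw [e1]
        refine (norm_add_le _ _).trans (add_le_add (hA k) ?_)
        refine (norm_sum_le _ _).trans ?_
        rw [Finset.sum_mul]
        refine Finset.sum_le_sum fun i _ => ?_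
        rw [norm_mul, mul_comm]
        exact mul_le_mul_of_nonneg_left
          (Finset.single_le_sum (f := fun i => ‖b.repr (T k) i‖) (fun j _ => norm_nonneg _)
            (Finset.mem_univ i)) (norm_nonneg _)
    | zero => exact ⟨0, fun _ => 0, tendsto_const_nhds, fun k => by simp⟩
    | add v w _ _ hv hw =>
      obtain ⟨A, e, he, hA⟩ := hv
      obtain ⟨A', e', he', hA'⟩ := hw
      refine ⟨A + A', fun k => e k + e' k, by simpa using he.add he', fun k => ?_⟩
      rw [LinearMap.add_apply]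
      refine (norm_add_le _ _).trans ?_
      have := hA k
      have := hA' k
      linarith
    | smul a v _ hv =>
      obtain ⟨A, e, he, hA⟩ := hv
      refine ⟨‖a‖ * A, fun k => ‖a‖ * e k, by simpa using he.const_mul (‖a‖), fun k => ?_⟩
      rw [LinearMap.smul_apply, norm_smul]
      calc ‖a‖ * ‖v (T k)‖ ≤ ‖a‖ * (A + e k * S k) :=
            mul_le_mul_of_nonneg_left (hA k) (norm_nonneg a)
        _ = ‖a‖ * A + ‖a‖ * e k * S k := by ring
  choose A e he hA using fun i => main (b.coord i)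
  let A' : ℝ := ∑ i, |A i|
  let e' : ℕ → ℝ := fun k => ∑ i, |e i k|
  have he' : Tendsto e' atTop (𝓝 0) := by
    have h3 := tendsto_finsetSum (Finset.univ) fun i _ => (he i).abs
    simpa using h3
  have hA'0 : 0 ≤ A' := Finset.sum_nonneg fun i _ => abs_nonneg _
  have hbound : ∀ k, S k ≤ A' + e' k * S k := by
    intro k
    have h4 : S k ≤ ∑ i, (|A i| + |e i k| * S k) := by
      refine Finset.sum_le_sum fun i _ => ?_
      refine (hA i k).trans (add_le_add (le_abs_self _) ?_)
      exact mul_le_mul_of_nonneg_right (le_abs_self _) (hS0 k)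
    rw [Finset.sum_add_distrib, ← Finset.sum_mul] at h4
    exact h4
  refine ⟨2 * A', by positivity, ?_⟩
  filter_upwards [he'.eventually_le_const (show (0 : ℝ) < 1 / 2 by norm_num)] with k hk
  have h6 := hbound k
  have h7 := hS0 k
  nlinarith

/-- uniform bounds on compact sets -/
theorem unif_bound (V : Submodule ℂ (E → ℂ)) [FiniteDimensional ℂ V]
    (hcont : ∀ v ∈ V, Continuous v) (x : Γ → E) (y : ℕ → Γ → E)
    (hy : ∀ g, Tendsto (fun k => y k g) atTop (𝓝 (x g)))
    (h : ∀ v ∈ V, (∀ g, v (x g) = 0) → v = 0) (T : ℕ → V)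
    (hT : ∀ g, ∃ A : ℝ, ∀ k, ‖(T k : E → ℂ) (y k g)‖ ≤ A) (K : Set E) (hK : IsCompact K) :
    ∃ C : ℝ, ∀ k, ∀ u ∈ K, ‖(T k : E → ℂ) u‖ ≤ C := by
  classical
  obtain ⟨C, hC0, hC⟩ := coef_bound V hcont x y hy h T hT
  obtain ⟨k0, hk0⟩ := eventually_atTop.1 hC
  have hbd : ∀ v : V, ∃ M : ℝ, 0 ≤ M ∧ ∀ u ∈ K, ‖(v : E → ℂ) u‖ ≤ M := by
    intro v
    obtain ⟨M, hM⟩ := hK.exists_bound_of_continuousOn (hcont _ v.2).continuousOn
    exact ⟨|M|, abs_nonneg _, fun u hu => (hM u hu).trans (le_abs_self _)⟩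
  choose M hM0 hM using hbd
  set b := Module.finBasis ℂ V with hb
  have hdec : ∀ (v : V) (z : E), (v : E → ℂ) z = ∑ i, b.repr v i * ((b i : V) : E → ℂ) z := by
    intro v z
    have h1 := congrArg (fun w : V => evp V z w) (b.sum_repr v)
    simp only [map_sum, map_smul, smul_eq_mul] at h1
    exact h1.symm
  have hsum0 : 0 ≤ ∑ i, M (b i) := Finset.sum_nonneg fun i _ => hM0 _
  refine ⟨C * (∑ i, M (b i)) + ∑ k ∈ Finset.range k0, M (T k), fun k u hu => ?_⟩
  by_cases hk : k < k0
  · have h1 : M (T k) ≤ ∑ k ∈ Finset.range k0, M (T k) :=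
      Finset.single_le_sum (f := fun k => M (T k)) (fun j _ => hM0 _) (Finset.mem_range.2 hk)
    have h2 := hM (T k) u hu
    have h3 := mul_nonneg hC0 hsum0
    linarith
  · have h1 := hk0 k (not_lt.1 hk)
    have h2 : ‖(T k : E → ℂ) u‖ ≤ C * (∑ i, M (b i)) := by
      rw [hdec (T k) u]
      refine (norm_sum_le _ _).trans ?_
      calc ∑ i, ‖b.repr (T k) i * ((b i : V) : E → ℂ) u‖
          ≤ ∑ i, ‖b.repr (T k) i‖ * (∑ j, M (b j)) := by
            refine Finset.sum_le_sum fun i _ => ?_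
            rw [norm_mul]
            refine mul_le_mul_of_nonneg_left ((hM (b i) u hu).trans ?_) (norm_nonneg _)
            exact Finset.single_le_sum (f := fun j => M (b j)) (fun j _ => hM0 _)
              (Finset.mem_univ i)
        _ = (∑ i, ‖b.repr (T k) i‖) * (∑ j, M (b j)) := by rw [Finset.sum_mul]
        _ ≤ C * (∑ j, M (b j)) := mul_le_mul_of_nonneg_right h1 hsum0
    have h3 : 0 ≤ ∑ k ∈ Finset.range k0, M (T k) := Finset.sum_nonneg fun _ _ => hM0 _
    linarith

end

theorem main (h1 : S_KEY) (h2 : S_COS) (h3 : S_PF) : S_LAST := by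
  intro X Γ E _ _ _ _ _ _ _ _ _ dev hol D hinj hT hG
  obtain ⟨hfd, hpre, hdiff, -, -, -⟩ := h3 E
  rw [← closure_subset_iff_isClosed]
  intro q hq
  obtain ⟨qs, hqs, hlim⟩ := mem_closure_iff_seq_limit.1 hq
  obtain ⟨C0, hC0, hC0r, hcc⟩ := range_cc D
  choose γ c hcC hγc using fun k => hcc (qs k) (hqs k)
  obtain ⟨c0, hc0, φ, hφ, hcl⟩ := hC0.tendsto_subseq hcC
  have hlim' : Tendsto (fun k => hol (γ (φ k)) (c (φ k))) atTop (𝓝 q) :=
    (hlim.comp hφ.tendsto_atTop).congr fun k => (hγc (φ k)).symm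
  have hc0r := hC0r hc0
  obtain ⟨r, hr, hball⟩ := Metric.nhds_basis_closedBall.mem_iff.1
    ((D.loc.isOpenMap.isOpen_range).mem_nhds hc0r)
  refine h2 X Γ E dev hol D hinj (commutator Γ) hG (fun k => γ (φ k)) (fun k => c (φ k)) c0 q r hr
    hball hcl hlim' ?_
  intro f hf
  obtain ⟨⟨d, hd⟩, hfN⟩ := hf
  -- the space of invariants of degree at most `d`
  let V : Submodule ℂ (E → ℂ) := (RN hol (commutator Γ)).toSubmodule ⊓ PF E d
  have hVfd : FiniteDimensional ℂ V := by
    have := hfd d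
    exact Submodule.finiteDimensional_of_le (inf_le_right : V ≤ PF E d)
  have hpc : ∀ (g : Γ), ∀ v ∈ V, pc hol g v ∈ V := by
    rintro g v ⟨hv1, hv2⟩
    have hv3 : pc hol g v ∈ PF E d := hpre d v hv2 (hol g)
    refine ⟨⟨⟨d, hv3⟩, ?_⟩, hv3⟩
    intro n hn y
    show v (hol g (hol n y)) = v (hol g y)
    have e1 : hol g (hol n y) = hol (g * n * g⁻¹) (hol g y) := by
      have : hol (g * n * g⁻¹) (hol g y) = hol (g * n * g⁻¹ * g) y := by
        rw [map_mul hol (g * n * g⁻¹) g]
        rfl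
      rw [this, inv_mul_cancel_right, map_mul]
      rfl
    rw [e1]
    exact hv1.2 _ ((inferInstance : (commutator Γ).Normal).conj_mem n hn g) _
  have hcont : ∀ v ∈ V, Continuous v := fun v hv => (hdiff d v hv.2).continuous
  have hsep : ∀ v ∈ V, (∀ g : Γ, v (hol g c0) = 0) → v = 0 := by
    let W : Submodule ℂ (E → ℂ) :=
      { carrier := {v | v ∈ V ∧ ∀ g : Γ, v (hol g c0) = 0}
        add_mem' := by
          rintro v w ⟨hv, hv'⟩ ⟨hw, hw'⟩
          refine ⟨V.add_mem hv hw, fun g => ?_⟩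
          rw [Pi.add_apply, hv' g, hw' g, add_zero]
        zero_mem' := ⟨V.zero_mem, fun g => rfl⟩
        smul_mem' := by
          rintro a v ⟨hv, hv'⟩
          refine ⟨V.smul_mem a hv, fun g => ?_⟩
          rw [Pi.smul_apply, hv' g, smul_zero] }
    have hW : W = ⊥ := by
      by_contra hne
      have h5 := h1 X Γ E dev hol D hT d W (fun v hv => hv.1.2) (by
        rintro g v ⟨hv, hv'⟩
        refine ⟨hpc g v hv, fun g' => ?_⟩
        show v (hol g (hol g' c0)) = 0
        have := hv' (g * g')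
        rw [map_mul] at this
        exact this) hne
      have h6 : (1 : E → ℂ) (hol 1 c0) = 0 := h5.2 1
      exact one_ne_zero h6
    intro v hv hv'
    have h5 : v ∈ W := ⟨hv, hv'⟩
    rw [hW] at h5
    exact h5
  let T : ℕ → V := fun k => ⟨pc hol (γ (φ k)) f, hpc _ f ⟨⟨⟨d, hd⟩, hfN⟩, hd⟩⟩
  have hfV : f ∈ V := ⟨⟨⟨d, hd⟩, hfN⟩, hd⟩
  obtain ⟨C, hC⟩ := unif_bound V hcont (fun g : Γ => hol g c0) (fun k g => hol g (c (φ k)))
    (fun g => ((hol_cont g).tendsto c0).comp hcl) hsep T (by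
      intro g
      have h7 : Tendsto (fun k => f (hol g (hol (γ (φ k)) (c (φ k))))) atTop
          (𝓝 (f (hol g q))) :=
        ((hcont f hfV).tendsto _).comp (((hol_cont g).tendsto q).comp hlim')
      obtain ⟨A, hA⟩ := bdd_of_tendsto h7
      refine ⟨A, fun k => ?_⟩
      have e2 : (T k : E → ℂ) (hol g (c (φ k))) = f (hol g (hol (γ (φ k)) (c (φ k)))) := by
        show f (hol (γ (φ k)) (hol g (c (φ k)))) = _
        have e3 : hol (γ (φ k)) (hol g (c (φ k))) =
            hol (γ (φ k) * g * (γ (φ k))⁻¹ * g⁻¹) (hol g (hol (γ (φ k)) (c (φ k)))) := by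
          have e4 : ∀ (a b : Γ) (z : E), hol a (hol b z) = hol (a * b) z := by
            intro a b z
            rw [map_mul]
            rfl
          rw [e4, e4, e4]
          congr 2
          group
        rw [e3]
        exact hfN _ (Subgroup.commutator_mem_commutator (Subgroup.mem_top _)
          (Subgroup.mem_top _)) _
      rw [e2]
      exact hA k) (closedBall c0 r) (isCompact_closedBall c0 r)
  exact ⟨C, fun k u hu => hC k u (ball_subset_closedBall hu)⟩

end Pool.Agent.Y449.MS.LAST
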