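import Pool.Agent.Y449.MS.StmA

/-! Spans of commuting locally nilpotent operators. -/

set_option autoImplicit false

namespace Pool.Agent.Y449.MS.LNIL

open Pool.Agent.Y449.MS

section

variable {M : Type} [AddCommGroup M] [Module ℂ M]

theorem pow_zero_of_le {D : Module.End ℂ M} {f : M} {n k : ℕ} (h : (D ^ n) f = 0) (hk : n ≤ k) :
    (D ^ k) f = 0 := by
  obtain ⟨c, rfl⟩ := Nat.exists_eq_add_of_le hk
  rw [add_comm, pow_add, Module.End.mul_apply, h, map_zero]

theorem comm_span (s : Set (Module.End ℂ M)) (hs : ∀ D ∈ s, ∀ D' ∈ s, D * D' = D' * D) :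
    ∀ D ∈ Submodule.span ℂ s, ∀ D' ∈ Submodule.span ℂ s, D * D' = D' * D := by
  intro D hD D' hD'
  induction hD using Submodule.span_induction with
  | mem x hx =>
    induction hD' using Submodule.span_induction with
    | mem y hy => exact hs x hx y hy
    | zero => rw [mul_zero, zero_mul]
    | add y z _ _ h1 h2 => rw [mul_add, add_mul, h1, h2]
    | smul c y _ h1 => rw [mul_smul_comm, smul_mul_assoc, h1]
  | zero => rw [mul_zero, zero_mul]
  | add y z _ _ h1 h2 => rw [mul_add, add_mul, h1, h2]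
  | smul c y _ h1 => rw [mul_smul_comm, smul_mul_assoc, h1]

theorem add_nil {D D' : Module.End ℂ M} (hc : Commute D D') (h : ∀ f, ∃ n, (D ^ n) f = 0)
    (h' : ∀ f, ∃ n, (D' ^ n) f = 0) (f : M) : ∃ n, ((D + D') ^ n) f = 0 := by
  obtain ⟨n, hn⟩ := h f
  obtain ⟨m, hm⟩ := h' f
  refine ⟨n + m, ?_⟩
  rw [hc.add_pow, LinearMap.sum_apply]
  apply Finset.sum_eq_zero
  intro i hi
  have key : (D ^ i * D' ^ (n + m - i)) f = 0 := by
    rcases Nat.lt_or_ge i n with hin | hin
    · rw [Module.End.mul_apply, pow_zero_of_le hm (by omega), map_zero]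
    · rw [(hc.pow_pow i (n + m - i)).eq, Module.End.mul_apply, pow_zero_of_le hn hin, map_zero]
  have e : D ^ i * D' ^ (n + m - i) * (((n + m).choose i : ℕ) : Module.End ℂ M) =
      (((n + m).choose i : ℕ) : Module.End ℂ M) * (D ^ i * D' ^ (n + m - i)) :=
    (Nat.cast_commute _ _).symm.eq
  rw [e, Module.End.mul_apply, key, map_zero]

end

theorem main : S_LNIL := by
  intro M _ _ s hs hc
  have hc' : ∀ D ∈ s, ∀ D' ∈ s, D * D' = D' * D := fun D hD D' hD' =>
    LinearMap.ext fun f => hc D hD D' hD' f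
  have h1 := comm_span s hc'
  refine ⟨fun D hD D' hD' f => congrArg (fun g : Module.End ℂ M => g f) (h1 D hD D' hD'), ?_⟩
  intro D hD
  induction hD using Submodule.span_induction with
  | mem x hx => exact hs x hx
  | zero => exact fun f => ⟨1, by rw [pow_one]; rfl⟩
  | add y z hy hz h2 h3 => exact add_nil (h1 y hy z hz) h2 h3
  | smul c y _ h2 =>
    intro f
    obtain ⟨n, hn⟩ := h2 f
    refine ⟨n, ?_⟩
    rw [smul_pow, LinearMap.smul_apply, hn, smul_zero]

end Pool.Agent.Y449.MS.LNIL
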