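import Pool.Agent.Y449.MS.StmA

/-!
Project MS, job LOG (helper30): locally unipotent operators have logarithms.
-/

set_option autoImplicit false

namespace Pool.Agent.Y449.MS.LOG

open Polynomial Finset

/-- the binomial polynomials -/
noncomputable def p (n : ℕ) : ℂ[X] := C ((n.factorial : ℂ)⁻¹) * descPochhammer ℂ n

theorem p_eval (n k : ℕ) : (p n).eval (k : ℂ) = (k.choose n : ℂ) := by
  unfold p
  rw [eval_mul, eval_C, descPochhammer_eval_eq_descFactorial,
    Nat.descFactorial_eq_factorial_mul_choose, Nat.cast_mul, ← mul_assoc,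
    inv_mul_cancel₀ (Nat.cast_ne_zero.mpr (Nat.factorial_ne_zero n)), one_mul]

theorem p_natDegree (n : ℕ) : (p n).natDegree ≤ n := by
  unfold p
  refine (natDegree_C_mul_le _ _).trans ?_
  rw [descPochhammer_natDegree]

theorem p_eval_zero (n : ℕ) : (p n).eval 0 = if n = 0 then 1 else 0 := by
  have h := p_eval n 0
  rw [Nat.cast_zero] at h
  rw [h]
  split_ifs with h0
  · subst h0; simp
  · rw [Nat.choose_eq_zero_of_lt (Nat.pos_of_ne_zero h0), Nat.cast_zero]

theorem poly_ext_nat {P Q : ℂ[X]} (h : ∀ k : ℕ, P.eval (k : ℂ) = Q.eval (k : ℂ)) : P = Q := by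
  apply eq_of_infinite_eval_eq
  refine Set.infinite_of_injective_forall_mem (f := fun k : ℕ => (k : ℂ)) Nat.cast_injective ?_
  intro k
  exact h k

/-- the coefficients of the logarithm -/
noncomputable def c (n : ℕ) : ℂ := (derivative (p n)).eval 0

theorem derivative_p (n : ℕ) :
    derivative (p n) = ∑ ab ∈ antidiagonal n, C (c ab.1) * p ab.2 := by
  apply poly_ext_nat
  intro k
  have key : (p n).comp (X + C (k : ℂ)) =
      ∑ ab ∈ antidiagonal n, C ((p ab.2).eval (k : ℂ)) * p ab.1 := by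
    apply poly_ext_nat
    intro t
    rw [eval_comp, eval_add, eval_X, eval_C, ← Nat.cast_add, p_eval, Nat.add_choose_eq,
      Nat.cast_sum, eval_finsetSum]
    refine sum_congr rfl fun ab _ => ?_
    rw [eval_mul, eval_C, p_eval, p_eval, Nat.cast_mul, mul_comm]
  have h2 := congrArg (fun P => (derivative P).eval 0) key
  simp only [derivative_comp, derivative_add, derivative_X, derivative_C, add_zero, one_mul,
    eval_comp, eval_add, eval_X, eval_C, zero_add, map_sum, derivative_mul, zero_mul,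
    eval_finsetSum, eval_mul] at h2
  rw [h2, eval_finsetSum]
  refine sum_congr rfl fun ab _ => ?_
  rw [eval_mul, eval_C, mul_comm]
  rfl

section
variable {M : Type} [AddCommGroup M] [Module ℂ M] (x : Module.End ℂ M)

theorem pow_ge {f : M} {N n : ℕ} (h : (x ^ N) f = 0) (hn : N ≤ n) : (x ^ n) f = 0 := by
  obtain ⟨k, rfl⟩ := Nat.exists_eq_add_of_le hn
  rw [add_comm, pow_add, Module.End.mul_apply, h, map_zero]

/-- the value of a power series in `x` with coefficients `c` truncated at `N` -/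
noncomputable def S (N : ℕ) (f : M) : M := ∑ n ∈ range N, c n • (x ^ n) f

theorem S_stable {f : M} {N N' : ℕ} (h : (x ^ N) f = 0) (hN : N ≤ N') : S x N' f = S x N f := by
  unfold S
  symm
  refine sum_subset (range_mono hN) fun n _ hn => ?_
  rw [mem_range, not_lt] at hn
  rw [pow_ge x h hn, smul_zero]

theorem S_eq {f : M} {N N' : ℕ} (h : (x ^ N) f = 0) (h' : (x ^ N') f = 0) :
    S x N f = S x N' f := by
  rw [← S_stable x h (le_max_left N N'), ← S_stable x h' (le_max_right N N')]

theorem S_add (N : ℕ) (f g : M) : S x N (f + g) = S x N f + S x N g := by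
  unfold S
  rw [← sum_add_distrib]
  exact sum_congr rfl fun n _ => by rw [map_add, smul_add]

theorem S_smul (N : ℕ) (a : ℂ) (f : M) : S x N (a • f) = a • S x N f := by
  unfold S
  rw [smul_sum]
  exact sum_congr rfl fun n _ => by rw [map_smul, smul_comm]

theorem pow_S {f : M} {N : ℕ} (h : (x ^ N) f = 0) (L : ℕ) : (x ^ N) (S x L f) = 0 := by
  unfold S
  rw [map_sum]
  refine sum_eq_zero fun n _ => ?_
  rw [map_smul, ← Module.End.mul_apply, ← pow_add, add_comm, pow_add, Module.End.mul_apply, h,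
    map_zero, smul_zero]

/-- the generating polynomial of a vector and a functional -/
noncomputable def G (N : ℕ) (φ : Module.Dual ℂ M) (f : M) : ℂ[X] :=
  ∑ n ∈ range N, C (φ ((x ^ n) f)) * p n

theorem G_natDegree (N : ℕ) (φ : Module.Dual ℂ M) (f : M) (hN : 0 < N) :
    (G x N φ f).natDegree < N := by
  refine lt_of_le_of_lt (natDegree_sum_le_of_forall_le (n := N - 1) _ _ fun n hn => ?_) (by omega)
  refine (natDegree_C_mul_le _ _).trans ((p_natDegree n).trans ?_)
  have := mem_range.mp hn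
  omega

theorem G_eval_zero (N : ℕ) (φ : Module.Dual ℂ M) (f : M) (hN : 0 < N) :
    (G x N φ f).eval 0 = φ f := by
  unfold G
  rw [eval_finsetSum, sum_eq_single 0]
  · rw [eval_mul, eval_C, p_eval_zero, if_pos rfl, mul_one, pow_zero, Module.End.one_apply]
  · intro n _ hn
    rw [eval_mul, p_eval_zero, if_neg hn, mul_zero]
  · intro h
    exact absurd (mem_range.mpr hN) h

theorem G_derivative {N : ℕ} (φ : Module.Dual ℂ M) {f : M} (h : (x ^ N) f = 0) :
    derivative (G x N φ f) = G x N φ (S x N f) := by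
  unfold G
  rw [derivative_sum]
  have h1 : ∀ n ∈ range N, derivative (C (φ ((x ^ n) f)) * p n) =
      ∑ b ∈ range (n + 1), C (φ ((x ^ n) f) * c (n - b)) * p b := by
    intro n _
    rw [derivative_mul, derivative_C, zero_mul, zero_add, derivative_p,
      ← Finset.Nat.sum_antidiagonal_swap, mul_sum]
    rw [Finset.Nat.sum_antidiagonal_eq_sum_range_succ_mk]
    refine sum_congr rfl fun b _ => ?_
    simp only [Prod.swap]
    rw [C_mul, mul_assoc]
  rw [sum_congr rfl h1]
  have h2 : ∀ b ∈ range N, C (φ ((x ^ b) (S x N f))) * p b =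
      ∑ a ∈ range (N - b), C (φ ((x ^ (b + a)) f) * c a) * p b := by
    intro b hb
    have hb' := mem_range.mp hb
    rw [← sum_mul]
    congr 1
    rw [← map_sum]
    congr 1
    unfold S
    rw [map_sum, map_sum]
    have h3 : ∀ a ∈ range N, a ∉ range (N - b) → φ ((x ^ b) (c a • (x ^ a) f)) = 0 := by
      intro a _ ha
      rw [mem_range, not_lt] at ha
      rw [map_smul, ← Module.End.mul_apply, ← pow_add, pow_ge x h (by omega), smul_zero, map_zero]
    rw [← sum_subset (range_mono (Nat.sub_le N b)) h3]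
    refine sum_congr rfl fun a _ => ?_
    rw [map_smul, map_smul, ← Module.End.mul_apply, ← pow_add, smul_eq_mul, mul_comm]
  rw [sum_congr rfl h2]
  -- both sides are sums over pairs (a, b) with a + b < N
  rw [sum_sigma', sum_sigma']
  refine sum_bij' (fun t _ => (⟨t.2, t.1 - t.2⟩ : Σ _ : ℕ, ℕ))
    (fun t _ => (⟨t.1 + t.2, t.1⟩ : Σ _ : ℕ, ℕ)) ?_ ?_ ?_ ?_ ?_
  · rintro ⟨n, b⟩ ht
    simp only [mem_sigma, mem_range] at ht ⊢
    omega
  · rintro ⟨b, a⟩ ht
    simp only [mem_sigma, mem_range] at ht ⊢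
    omega
  · rintro ⟨n, b⟩ ht
    simp only [mem_sigma, mem_range] at ht
    simp only [Sigma.mk.injEq, heq_eq_eq, and_true]
    omega
  · rintro ⟨b, a⟩ ht
    simp only [mem_sigma, mem_range] at ht
    simp only [Sigma.mk.injEq, heq_eq_eq, true_and]
    omega
  · rintro ⟨n, b⟩ ht
    simp only [mem_sigma, mem_range] at ht
    simp only
    rw [Nat.add_sub_cancel' (by omega)]

theorem G_eval_nat {N : ℕ} (φ : Module.Dual ℂ M) {f : M} (h : (x ^ N) f = 0) (k : ℕ) :
    (G x N φ f).eval (k : ℂ) = φ (((1 + x) ^ k) f) := by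
  unfold G
  rw [add_comm 1 x, (Commute.one_right x).add_pow, LinearMap.sum_apply, map_sum, eval_finsetSum]
  have h1 : ∀ n, φ ((x ^ n * 1 ^ (k - n) * ((k.choose n : ℕ) : Module.End ℂ M)) f) =
      (C (φ ((x ^ n) f)) * p n).eval (k : ℂ) := by
    intro n
    rw [one_pow, mul_one, eval_mul, eval_C, p_eval, ← nsmul_eq_mul', LinearMap.smul_apply,
      map_nsmul, nsmul_eq_mul, mul_comm]
  rw [sum_congr rfl fun n _ => h1 n]
  have h2 : ∀ n, (N ≤ n ∨ k + 1 ≤ n) → (C (φ ((x ^ n) f)) * p n).eval (k : ℂ) = 0 := by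
    intro n hn
    rw [eval_mul, eval_C, p_eval]
    rcases hn with hn | hn
    · rw [pow_ge x h hn, map_zero, zero_mul]
    · rw [Nat.choose_eq_zero_of_lt (by omega), Nat.cast_zero, mul_zero]
  have h3 : ∑ n ∈ range N, (C (φ ((x ^ n) f)) * p n).eval (k : ℂ) =
      ∑ n ∈ range (max N (k + 1)), (C (φ ((x ^ n) f)) * p n).eval (k : ℂ) := by
    refine sum_subset (range_mono (le_max_left _ _)) fun n _ hn => ?_
    rw [mem_range, not_lt] at hn
    exact h2 n (Or.inl hn)
  have h4 : ∑ n ∈ range (k + 1), (C (φ ((x ^ n) f)) * p n).eval (k : ℂ) =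
      ∑ n ∈ range (max N (k + 1)), (C (φ ((x ^ n) f)) * p n).eval (k : ℂ) := by
    refine sum_subset (range_mono (le_max_right _ _)) fun n _ hn => ?_
    rw [mem_range, not_lt] at hn
    exact h2 n (Or.inr hn)
  rw [h3, h4]

end

theorem main : S_LOG := by
  intro M _ _ σ hσ
  set x : Module.End ℂ M := σ - 1 with hx
  have hσx : σ = 1 + x := by rw [hx]; abel
  choose ν hν using hσ
  -- the logarithm
  have hS : ∀ {f : M} {N : ℕ}, (x ^ N) f = 0 → S x (ν f) f = S x N f := fun {f N} h =>
    S_eq x (hν f) h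
  let D : Module.End ℂ M :=
    { toFun := fun f => S x (ν f) f
      map_add' := by
        intro f g
        set N := max (ν f) (ν g) with hN
        have hf : (x ^ N) f = 0 := pow_ge x (hν f) (le_max_left _ _)
        have hg : (x ^ N) g = 0 := pow_ge x (hν g) (le_max_right _ _)
        have hfg : (x ^ N) (f + g) = 0 := by rw [map_add, hf, hg, add_zero]
        show S x (ν (f + g)) (f + g) = S x (ν f) f + S x (ν g) g
        rw [hS hf, hS hg, hS hfg, S_add]
      map_smul' := by
        intro a f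
        have hf : (x ^ (ν f)) (a • f) = 0 := by rw [map_smul, hν f, smul_zero]
        show S x (ν (a • f)) (a • f) = a • S x (ν f) f
        rw [hS hf, S_smul] }
  have hD : ∀ {f : M} {N : ℕ}, (x ^ N) f = 0 → D f = S x N f := fun {f N} h => hS h
  have hDpow : ∀ {f : M} {N : ℕ}, (x ^ N) f = 0 → ∀ m, (x ^ N) ((D ^ m) f) = 0 := by
    intro f N h m
    induction m with
    | zero => simpa using h
    | succ m ih =>
      rw [pow_succ', Module.End.mul_apply, hD ih]
      exact pow_S x ih N
  have hder : ∀ {f : M} {N : ℕ} (φ : Module.Dual ℂ M), (x ^ N) f = 0 → ∀ m,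
      derivative^[m] (G x N φ f) = G x N φ ((D ^ m) f) := by
    intro f N φ h m
    induction m with
    | zero => rfl
    | succ m ih =>
      rw [Function.iterate_succ_apply', ih, G_derivative x φ (hDpow h m), pow_succ',
        Module.End.mul_apply, hD (hDpow h m)]
  have hcoeff : ∀ {f : M} {N : ℕ} (φ : Module.Dual ℂ M), 0 < N → (x ^ N) f = 0 → ∀ m,
      φ ((D ^ m) f) = (m.factorial : ℂ) * (G x N φ f).coeff m := by
    intro f N φ hN h m
    rw [← G_eval_zero x N φ ((D ^ m) f) hN, ← hder φ h m, ← coeff_zero_eq_eval_zero,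
      coeff_iterate_derivative, zero_add, Nat.descFactorial_self, nsmul_eq_mul]
  have hDN : ∀ {f : M} {N : ℕ}, 0 < N → (x ^ N) f = 0 → ∀ m, N ≤ m → (D ^ m) f = 0 := by
    intro f N hN h m hm
    rw [← Module.forall_dual_apply_eq_zero_iff ℂ]
    intro φ
    rw [hcoeff φ hN h m, coeff_eq_zero_of_natDegree_lt
      (lt_of_lt_of_le (G_natDegree x N φ f hN) hm), mul_zero]
  refine ⟨D, ?_, ?_⟩
  · intro f
    exact ⟨ν f + 1, hDN (Nat.succ_pos _) (pow_ge x (hν f) (Nat.le_succ _)) _ le_rfl⟩
  · intro f n hn k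
    set N := ν f + 1 with hNdef
    have hN : 0 < N := Nat.succ_pos _
    have hf : (x ^ N) f = 0 := pow_ge x (hν f) (Nat.le_succ _)
    have e1 : (σ ^ k) f = ∑ m ∈ range N, ((k : ℂ) ^ m / (m.factorial : ℂ)) • (D ^ m) f := by
      rw [← sub_eq_zero, ← Module.forall_dual_apply_eq_zero_iff ℂ]
      intro φ
      rw [map_sub, sub_eq_zero, hσx, ← G_eval_nat x φ hf k,
        eval_eq_sum_range' (G_natDegree x N φ f hN), map_sum]
      refine sum_congr rfl fun m _ => ?_
      rw [map_smul, hcoeff φ hN hf m, smul_eq_mul]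
      have : (m.factorial : ℂ) ≠ 0 := Nat.cast_ne_zero.mpr (Nat.factorial_ne_zero m)
      field_simp
    have e2 : ∑ m ∈ range N, ((k : ℂ) ^ m / (m.factorial : ℂ)) • (D ^ m) f =
        ∑ m ∈ range (max N n), ((k : ℂ) ^ m / (m.factorial : ℂ)) • (D ^ m) f := by
      refine sum_subset (range_mono (le_max_left _ _)) fun m _ hm => ?_
      rw [mem_range, not_lt] at hm
      rw [hDN hN hf m hm, smul_zero]
    have e3 : ∑ m ∈ range n, ((k : ℂ) ^ m / (m.factorial : ℂ)) • (D ^ m) f =
        ∑ m ∈ range (max N n), ((k : ℂ) ^ m / (m.factorial : ℂ)) • (D ^ m) f := by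
      refine sum_subset (range_mono (le_max_right _ _)) fun m _ hm => ?_
      rw [mem_range, not_lt] at hm
      rw [pow_ge D hn hm, smul_zero]
    rw [e1, e2, e3]

end Pool.Agent.Y449.MS.LOG
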