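import Pool.Agent.Y449.MS.StmA

/-!
Project MS (helper449), job MS-LOGC (helper730): logarithms commute with intertwiners and are
derivations.
-/

set_option autoImplicit false

open Set Filter Topology

namespace Pool.Agent.Y449.MS.LOGC

open Pool.Agent.Y449.MS

/-- coefficients of vector valued polynomials are unique -/
theorem uniq {V : Type} [AddCommGroup V] [Module ℂ V] (n : ℕ) (v : ℕ → V)
    (h : ∀ k : ℕ, ∑ m ∈ Finset.range n, (k : ℂ) ^ m • v m = 0) : ∀ m < n, v m = 0 := by
  intro m hm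
  rw [← Module.forall_dual_apply_eq_zero_iff ℂ]
  intro φ
  set p : Polynomial ℂ := ∑ i ∈ Finset.range n, Polynomial.C (φ (v i)) * Polynomial.X ^ i with hp
  have hroot : ∀ k : ℕ, p.eval (k : ℂ) = 0 := by
    intro k
    rw [hp, Polynomial.eval_finset_sum]
    have h1 := congrArg φ (h k)
    rw [map_sum, map_zero] at h1
    rw [← h1]
    refine Finset.sum_congr rfl fun i _ => ?_
    rw [Polynomial.eval_mul, Polynomial.eval_C, Polynomial.eval_pow, Polynomial.eval_X, map_smul, smul_eq_mul, mul_comm]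
  have hp0 : p = 0 := by
    apply Polynomial.eq_zero_of_infinite_isRoot
    refine Set.Infinite.mono (s := Set.range (fun k : ℕ => (k : ℂ))) ?_ (Set.infinite_range_of_injective Nat.cast_injective)
    rintro _ ⟨k, rfl⟩
    exact hroot k
  have h2 : p.coeff m = φ (v m) := by
    rw [hp, Polynomial.finset_sum_coeff]
    simp only [Polynomial.coeff_C_mul_X_pow]
    rw [Finset.sum_ite_eq, if_pos (Finset.mem_range.2 hm)]
  rw [← h2, hp0, Polynomial.coeff_zero]

theorem pow_zero_of_le {M : Type} [AddCommGroup M] [Module ℂ M] (D : Module.End ℂ M) {f : M} {n N : ℕ}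
    (h : (D ^ n) f = 0) (hn : n ≤ N) : (D ^ N) f = 0 := by
  obtain ⟨k, rfl⟩ := Nat.exists_eq_add_of_le hn
  rw [add_comm, pow_add, Module.End.mul_apply, h, map_zero]

theorem logcomm : S_LOGCOMM := by
  intro M M' _ _ _ _ σ D σ' D' τ hσ hσ' hr hτ f
  obtain ⟨n, hn⟩ := hσ.1 f
  obtain ⟨n', hn'⟩ := hσ'.1 (τ f)
  set N := max n n' + 2 with hN
  have e1 : (D ^ N) f = 0 := pow_zero_of_le D hn (by omega)
  have e2 : (D' ^ N) (τ f) = 0 := pow_zero_of_le D' hn' (by omega)
  have hpow : ∀ k : ℕ, τ ((σ ^ k) f) = (σ' ^ k) (τ f) := by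
    intro k
    induction k with
    | zero => simp
    | succ k ih => rw [pow_succ', pow_succ', Module.End.mul_apply, Module.End.mul_apply, hτ, ih]
  have h1 := uniq N (fun m => ((1 : ℂ) / (m.factorial : ℂ)) • (τ ((D ^ m) f) - (D' ^ m) (τ f))) (by
    intro k
    have h2 := hpow k
    rw [hσ.2 f N e1 k, hσ'.2 (τ f) N e2 k, map_sum, ← sub_eq_zero, ← Finset.sum_sub_distrib] at h2
    rw [← h2]
    refine Finset.sum_congr rfl fun m _ => ?_
    have h3 : ((k : ℂ) ^ m / (m.factorial : ℂ)) = (((k : ℝ) ^ m / (m.factorial : ℝ) : ℝ) : ℂ) := by push_cast; rfl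
    rw [h3, hr, ← h3, ← smul_sub, smul_smul]
    congr 1
    ring) 1 (by omega)
  simp only [pow_one, Nat.factorial_one, Nat.cast_one, div_one, one_smul] at h1
  exact sub_eq_zero.1 h1

theorem logder : S_LOGDER := by
  intro S _ _ σ D hσ hm f g
  obtain ⟨n1, hn1⟩ := hσ.1 f
  obtain ⟨n2, hn2⟩ := hσ.1 g
  obtain ⟨n3, hn3⟩ := hσ.1 (f * g)
  set N := n1 + n2 + n3 + 2 with hN
  have e1 : (D ^ N) f = 0 := pow_zero_of_le D hn1 (by omega)
  have e2 : (D ^ N) g = 0 := pow_zero_of_le D hn2 (by omega)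
  have e3 : (D ^ N) (f * g) = 0 := pow_zero_of_le D hn3 (by omega)
  have hpow : ∀ k : ℕ, (σ ^ k) (f * g) = (σ ^ k) f * (σ ^ k) g := by
    intro k
    induction k with
    | zero => simp
    | succ k ih => rw [pow_succ', Module.End.mul_apply, ih, hm, Module.End.mul_apply, Module.End.mul_apply]
  let F : S → Polynomial S := fun z => ∑ m ∈ Finset.range N, Polynomial.C (((1 : ℂ) / (m.factorial : ℂ)) • (D ^ m) z) * Polynomial.X ^ m
  have hFe : ∀ z, (D ^ N) z = 0 → ∀ k : ℕ, (F z).eval (k : S) = (σ ^ k) z := by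
    intro z hz k
    rw [hσ.2 z N hz k]
    show (∑ m ∈ Finset.range N, Polynomial.C (((1 : ℂ) / (m.factorial : ℂ)) • (D ^ m) z) * Polynomial.X ^ m).eval (k : S) = _
    rw [Polynomial.eval_finset_sum]
    refine Finset.sum_congr rfl fun m _ => ?_
    rw [Polynomial.eval_mul, Polynomial.eval_C, Polynomial.eval_pow, Polynomial.eval_X]
    have h3 : ((k : S)) ^ m = algebraMap ℂ S ((k : ℂ) ^ m) := by
      rw [map_pow, map_natCast]
    rw [h3, mul_comm, ← Algebra.smul_def, smul_smul]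
    congr 1
    ring
  have hFc : ∀ z (m : ℕ), m < N → (F z).coeff m = ((1 : ℂ) / (m.factorial : ℂ)) • (D ^ m) z := by
    intro z m hm
    show (∑ m ∈ Finset.range N, Polynomial.C (((1 : ℂ) / (m.factorial : ℂ)) • (D ^ m) z) * Polynomial.X ^ m).coeff m = _
    rw [Polynomial.finset_sum_coeff]
    simp only [Polynomial.coeff_C_mul_X_pow]
    rw [Finset.sum_ite_eq, if_pos (Finset.mem_range.2 hm)]
  set R := F f * F g - F (f * g) with hR
  have hR0 : ∀ k : ℕ, R.eval (k : S) = 0 := by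
    intro k
    rw [hR, Polynomial.eval_sub, Polynomial.eval_mul, hFe f e1, hFe g e2, hFe (f * g) e3, hpow, sub_self]
  have h1 := uniq (R.natDegree + 2) (fun m => R.coeff m) (by
    intro k
    rw [← hR0 k, Polynomial.eval_eq_sum_range' (n := R.natDegree + 2) (by omega)]
    refine Finset.sum_congr rfl fun m _ => ?_
    have h3 : ((k : S)) ^ m = algebraMap ℂ S ((k : ℂ) ^ m) := by
      rw [map_pow, map_natCast]
    rw [h3, mul_comm, ← Algebra.smul_def]) 1 (by omega)
  simp only [hR, Polynomial.coeff_sub, Polynomial.mul_coeff_one] at h1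
  rw [hFc f 0 (by omega), hFc f 1 (by omega), hFc g 0 (by omega), hFc g 1 (by omega), hFc (f * g) 1 (by omega)] at h1
  simp only [pow_one, pow_zero, Nat.factorial_one, Nat.factorial_zero, Nat.cast_one, div_one, one_smul,
    Module.End.one_apply] at h1
  rw [← sub_eq_zero.1 h1]
  ring

theorem main : S_LOGCOMM ∧ S_LOGDER := ⟨logcomm, logder⟩

end Pool.Agent.Y449.MS.LOGC
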