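import Pool.Agent.Y449.MS.StmA

/-!
Project MS: a commuting normal subgroup which is not scalar.
-/

set_option autoImplicit false

namespace Pool.Agent.Y449.MS.M1

/-- joint eigenspaces -/
def JE {G V : Type} [Group G] [AddCommGroup V] [Module ℂ V] (ρ : G →* (V ≃ₗ[ℂ] V))
    (Z : Subgroup G) (χ : Z → ℂ) : Submodule ℂ V where
  carrier := {v | ∀ a : Z, ρ a.1 v = χ a • v}
  add_mem' := by
    intro v w hv hw a
    rw [map_add, hv a, hw a, smul_add]
  zero_mem' := by
    intro a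
    rw [map_zero, smul_zero]
  smul_mem' := by
    intro c v hv a
    rw [map_smul, hv a, smul_comm]

theorem mem_JE {G V : Type} [Group G] [AddCommGroup V] [Module ℂ V] {ρ : G →* (V ≃ₗ[ℂ] V)}
    {Z : Subgroup G} {χ : Z → ℂ} {v : V} : v ∈ JE ρ Z χ ↔ ∀ a : Z, ρ a.1 v = χ a • v := Iff.rfl

/-- a commuting family has a joint eigenvector -/
theorem exists_joint {G V : Type} [Group G] [AddCommGroup V] [Module ℂ V] [FiniteDimensional ℂ V]
    [Nontrivial V] (ρ : G →* (V ≃ₗ[ℂ] V)) (Z : Subgroup G)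
    (hc : ∀ a ∈ Z, ∀ b ∈ Z, ∀ v, ρ a (ρ b v) = ρ b (ρ a v)) :
    ∃ χ : Z → ℂ, JE ρ Z χ ≠ ⊥ := by
  classical
  -- a nonzero invariant subspace of minimal dimension
  let P : ℕ → Prop := fun d => ∃ W : Submodule ℂ V, W ≠ ⊥ ∧ (∀ a ∈ Z, ∀ v ∈ W, ρ a v ∈ W) ∧
    Module.finrank ℂ W = d
  have hP : ∃ d, P d := ⟨_, ⊤, top_ne_bot, fun _ _ _ _ => Submodule.mem_top, rfl⟩
  obtain ⟨W, hW, hinv, hd⟩ := Nat.find_spec hP
  have hmin : ∀ W' : Submodule ℂ V, W' ≠ ⊥ → (∀ a ∈ Z, ∀ v ∈ W', ρ a v ∈ W') → W' ≤ W → W' = W := by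
    intro W' h1 h2 h3
    have h4 : Nat.find hP ≤ Module.finrank ℂ W' := Nat.find_min' hP ⟨W', h1, h2, rfl⟩
    rw [← hd] at h4
    exact Submodule.eq_of_le_of_finrank_le h3 h4
  have hsc : ∀ a : Z, ∃ c : ℂ, ∀ v ∈ W, ρ a.1 v = c • v := by
    intro a
    let f : Module.End ℂ W := ((ρ a.1).toLinearMap.restrict (fun v hv => hinv a.1 a.2 v hv))
    have hnt : Nontrivial W := (Submodule.nontrivial_iff_ne_bot).2 hW
    obtain ⟨c, hc'⟩ := Module.End.exists_eigenvalue f
    obtain ⟨w, hw⟩ := hc'.exists_hasEigenvector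
    have hw1 : ρ a.1 w.1 = c • w.1 := congrArg Subtype.val hw.apply_eq_smul
    have hw2 : w.1 ≠ 0 := fun hh => hw.2 (Subtype.ext hh)
    let W' : Submodule ℂ V :=
      { carrier := {v | v ∈ W ∧ ρ a.1 v = c • v}
        add_mem' := by
          rintro v v' ⟨h1, h2⟩ ⟨h3, h4⟩
          exact ⟨W.add_mem h1 h3, by rw [map_add, h2, h4, smul_add]⟩
        zero_mem' := ⟨W.zero_mem, by rw [map_zero, smul_zero]⟩
        smul_mem' := by
          rintro r v ⟨h1, h2⟩
          exact ⟨W.smul_mem r h1, by rw [map_smul, h2, smul_comm]⟩ }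
    have h5 : W' = W := by
      apply hmin
      · intro hb
        have : w.1 ∈ W' := ⟨w.2, hw1⟩
        rw [hb] at this
        exact hw2 ((Submodule.mem_bot ℂ).1 this)
      · rintro b hb v ⟨h1, h2⟩
        refine ⟨hinv b hb v h1, ?_⟩
        rw [hc a.1 a.2 b hb, h2, map_smul]
      · rintro v ⟨h1, -⟩
        exact h1
    refine ⟨c, fun v hv => ?_⟩
    rw [← h5] at hv
    exact hv.2
  choose χ hχ using hsc
  refine ⟨χ, fun hb => hW ?_⟩
  rw [eq_bot_iff, ← hb]
  intro v hv a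
  exact hχ a v hv

theorem finite_JE {G V : Type} [Group G] [AddCommGroup V] [Module ℂ V] [FiniteDimensional ℂ V]
    (ρ : G →* (V ≃ₗ[ℂ] V)) (Z : Subgroup G)
    (hc : ∀ a ∈ Z, ∀ b ∈ Z, ∀ v, ρ a (ρ b v) = ρ b (ρ a v)) :
    {χ : Z → ℂ | JE ρ Z χ ≠ ⊥}.Finite := by
  have h1 : iSupIndep fun χ : Z → ℂ =>
      ⨅ a : Z, Module.End.maxGenEigenspace (ρ a.1).toLinearMap (χ a) := by
    apply Module.End.independent_iInf_maxGenEigenspace_of_forall_mapsTo
      (fun a : Z => (ρ a.1).toLinearMap)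
    intro a b φ
    apply Module.End.mapsTo_maxGenEigenspace_of_comm
    ext v
    exact (hc a.1 a.2 b.1 b.2 v).symm
  have h2 : iSupIndep fun χ : Z → ℂ => JE ρ Z χ := by
    refine h1.mono fun χ => ?_
    refine le_iInf fun a => ?_
    intro v hv
    have h3 : v ∈ Module.End.eigenspace (ρ a.1).toLinearMap (χ a) := by
      rw [Module.End.mem_eigenspace_iff]
      exact hv a
    exact (Module.End.genEigenspace_le_maximal _ _ 1) (by simpa using h3)
  exact WellFoundedGT.finite_ne_bot_of_iSupIndep h2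

theorem main : S_M1 := by
  intro G V _ _ _ _ ρ Z hZ hc hns
  classical
  obtain ⟨a0, ha0, hns⟩ := hns
  have hnt : Nontrivial V := by
    obtain ⟨v, hv⟩ := hns 1
    exact ⟨⟨_, _, hv⟩⟩
  obtain ⟨χ, hχ⟩ := exists_joint ρ Z hc
  have hfin := finite_JE ρ Z hc
  let act : MulAction G (Submodule ℂ V) :=
    { smul := fun g W => W.map (ρ g).toLinearMap
      one_smul := by
        intro W
        show W.map (ρ 1).toLinearMap = W
        rw [map_one]
        exact Submodule.map_id W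
      mul_smul := by
        intro g g' W
        show W.map (ρ (g * g')).toLinearMap = (W.map (ρ g').toLinearMap).map (ρ g).toLinearMap
        rw [map_mul, ← Submodule.map_comp]
        rfl }
  have hsmul : ∀ (g : G) (W : Submodule ℂ V), g • W = W.map (ρ g).toLinearMap := fun _ _ => rfl
  have hinv : ∀ (g : G) (v : V), ρ g (ρ g⁻¹ v) = v := by
    intro g v
    have : (ρ g * ρ g⁻¹) v = v := by
      rw [← map_mul, mul_inv_cancel, map_one]
      rfl
    exact this
  have hinv' : ∀ (g : G) (v : V), ρ g⁻¹ (ρ g v) = v := by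
    intro g v
    have := hinv g⁻¹ v
    rwa [inv_inv] at this
  refine ⟨MulAction.stabilizer G (JE ρ Z χ), JE ρ Z χ, ?_, hχ, ?_, ?_⟩
  · refine ⟨?_⟩
    rw [MulAction.index_stabilizer]
    have h1 : (MulAction.orbit G (JE ρ Z χ)) ⊆ (fun χ' => JE ρ Z χ') '' {χ' | JE ρ Z χ' ≠ ⊥} := by
      rintro _ ⟨g, rfl⟩
      let χ' : Z → ℂ := fun a => χ ⟨g⁻¹ * a.1 * g, by
        have := hZ.conj_mem a.1 a.2 g⁻¹
        rwa [inv_inv] at this⟩
      have h2 : g • (JE ρ Z χ) = JE ρ Z χ' := by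
        ext v
        rw [hsmul, mem_JE]
        constructor
        · rintro ⟨w, hw, rfl⟩ a
          have h3 := hw ⟨g⁻¹ * a.1 * g, by
            have := hZ.conj_mem a.1 a.2 g⁻¹
            rwa [inv_inv] at this⟩
          show ρ a.1 (ρ g w) = χ' a • ρ g w
          have h4 : ρ g (ρ (g⁻¹ * a.1 * g) w) = ρ a.1 (ρ g w) := by
            rw [map_mul, map_mul]
            show ρ g (ρ g⁻¹ (ρ a.1 (ρ g w))) = _
            rw [hinv]
          rw [← h4, h3, map_smul]
        · intro hv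
          refine ⟨ρ g⁻¹ v, ?_, hinv g v⟩
          intro b
          have hb : g * b.1 * g⁻¹ ∈ Z := hZ.conj_mem b.1 b.2 g
          have h3 := hv ⟨g * b.1 * g⁻¹, hb⟩
          have h4 : χ' ⟨g * b.1 * g⁻¹, hb⟩ = χ b := by
            simp only [χ']
            congr 1
            apply Subtype.ext
            simp [mul_assoc]
          rw [h4] at h3
          have h5 : ρ (g * b.1 * g⁻¹) v = ρ g (ρ b.1 (ρ g⁻¹ v)) := by
            rw [map_mul, map_mul]
            rfl
          rw [h5] at h3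
          have h6 := congrArg (ρ g⁻¹) h3
          rw [hinv', map_smul] at h6
          exact h6
      refine ⟨χ', ?_, h2.symm⟩
      show JE ρ Z χ' ≠ ⊥
      rw [← h2, hsmul]
      intro hb
      apply hχ
      rw [eq_bot_iff]
      intro v hv
      have h3 : ρ g v ∈ (JE ρ Z χ).map (ρ g).toLinearMap := ⟨v, hv, rfl⟩
      rw [hb, Submodule.mem_bot] at h3
      rw [Submodule.mem_bot, ← hinv' g v, h3, map_zero]
    have h2 : (MulAction.orbit G (JE ρ Z χ)).Finite := (hfin.image _).subset h1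
    exact ((Set.ncard_pos h2).2 ⟨_, MulAction.mem_orbit_self _⟩).ne'
  · intro ht
    obtain ⟨v, hv⟩ := hns (χ ⟨a0, ha0⟩)
    apply hv
    have h1 : v ∈ JE ρ Z χ := by
      rw [ht]
      exact Submodule.mem_top
    exact h1 ⟨a0, ha0⟩
  · intro h hh v hv
    have h1 : h • (JE ρ Z χ) = JE ρ Z χ := hh
    rw [← h1, hsmul]
    exact ⟨v, hv, rfl⟩

end Pool.Agent.Y449.MS.M1
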