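import Pool.Agent.Y449.MS.StmA

/-!
A normal subgroup with scalar commutators which is not scalar: the representation is virtually
reducible (`S_M2`); written by helper510 for helper449.
-/

set_option autoImplicit false

namespace Pool.Agent.Y449.MS.M2

open Pool.Agent.Y449.MS

theorem fin_index {G α : Type} [Group G] (H : Subgroup G) (f : G → α) (hf : (Set.range f).Finite)
    (h : ∀ g g', f g = f g' → g⁻¹ * g' ∈ H) : H.FiniteIndex := by
  have hfin : Finite (Set.range f) := hf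
  have hs : Function.Surjective
      (fun y : Set.range f => (QuotientGroup.mk (Classical.choose y.2) : G ⧸ H)) := by
    intro q
    obtain ⟨g, rfl⟩ := QuotientGroup.mk_surjective q
    refine ⟨⟨f g, g, rfl⟩, ?_⟩
    have h1 := Classical.choose_spec (⟨g, rfl⟩ : ∃ y, f y = f g)
    exact (QuotientGroup.eq).2 (h _ _ h1)
  have hq : Finite (G ⧸ H) := Finite.of_surjective _ hs
  exact Subgroup.finiteIndex_of_finite_quotient

/-- conjugation by `e` as an operator on the operators -/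
noncomputable def cj {V : Type} [AddCommGroup V] [Module ℂ V] (e : V ≃ₗ[ℂ] V) :
    Module.End ℂ (Module.End ℂ V) where
  toFun X := (e : V →ₗ[ℂ] V) ∘ₗ X ∘ₗ (e.symm : V →ₗ[ℂ] V)
  map_add' X Y := by
    ext v
    simp
  map_smul' c X := by
    ext v
    simp

theorem cj_apply {V : Type} [AddCommGroup V] [Module ℂ V] (e : V ≃ₗ[ℂ] V) (X : Module.End ℂ V)
    (v : V) : cj e X v = e (X (e.symm v)) := rfl

theorem main (h : S_M1) : S_M2 := by
  intro G V _ _ _ _ ρ K hK hcomm hex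
  obtain ⟨a, haK, ha⟩ := hex
  classical
  have hV : Nontrivial V := by
    by_contra hV
    rw [not_nontrivial_iff_subsingleton] at hV
    obtain ⟨v, hv⟩ := ha 1
    exact hv (Subsingleton.elim _ _)
  have hm : ∀ x y v, ρ (x * y) v = ρ x (ρ y v) := by
    intro x y v
    rw [map_mul]
    rfl
  have h1 : ∀ v, ρ 1 v = v := by
    intro v
    rw [map_one]
    rfl
  have hi1 : ∀ x v, ρ x⁻¹ (ρ x v) = v := by
    intro x v
    rw [← hm, inv_mul_cancel, h1]
  have hi2 : ∀ x v, ρ x (ρ x⁻¹ v) = v := by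
    intro x v
    rw [← hm, mul_inv_cancel, h1]
  let Z : Subgroup G :=
    { carrier := {k | k ∈ K ∧ ∀ l ∈ K, ∀ v, ρ k (ρ l v) = ρ l (ρ k v)}
      one_mem' := ⟨K.one_mem, fun l _ v => by rw [h1, h1]⟩
      mul_mem' := by
        rintro x y ⟨hx, hx'⟩ ⟨hy, hy'⟩
        refine ⟨K.mul_mem hx hy, fun l hl v => ?_⟩
        rw [hm, hm, hy' l hl, hx' l hl]
      inv_mem' := by
        rintro x ⟨hx, hx'⟩
        refine ⟨K.inv_mem hx, fun l hl v => ?_⟩
        have e := hx' l hl (ρ x⁻¹ v)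
        rw [hi2] at e
        rw [← e, hi1] }
  have hZmem : ∀ k, k ∈ Z ↔ k ∈ K ∧ ∀ l ∈ K, ∀ v, ρ k (ρ l v) = ρ l (ρ k v) := fun k => Iff.rfl
  have hZn : Z.Normal := by
    refine ⟨fun x hx g => ?_⟩
    rw [hZmem] at hx ⊢
    refine ⟨hK.conj_mem x hx.1 g, fun l hl v => ?_⟩
    have hl' : g⁻¹ * l * g ∈ K := by
      have := hK.conj_mem l hl g⁻¹
      rwa [inv_inv] at this
    have e := hx.2 _ hl' (ρ g⁻¹ v)
    simp only [hm, hi2] at e ⊢
    rw [e, hi2]
  by_cases hZ : ∃ z ∈ Z, ∀ c : ℂ, ∃ v, ρ z v ≠ c • v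
  · exact h G V ρ Z hZn (fun x hx y hy v => hx.2 y hy.1 v) hZ
  push Not at hZ
  choose c hc using hcomm
  -- commutation
  have hkl : ∀ k (hk : k ∈ K) l (hl : l ∈ K) v, ρ k (ρ l v) = c k hk l hl • ρ l (ρ k v) := by
    intro k hk l hl v
    have e := hc k hk l hl (ρ l (ρ k v))
    rw [← e]
    simp only [hm, hi1]
  have hc0 : ∀ k (hk : k ∈ K) l (hl : l ∈ K), c k hk l hl ≠ 0 := by
    intro k hk l hl h0
    obtain ⟨v, hv⟩ := exists_ne (0 : V)
    have e := hkl k hk l hl (ρ l⁻¹ (ρ k⁻¹ v))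
    rw [hi2, hi2, h0, zero_smul] at e
    exact hv e
  let χ : K → K → ℂ := fun l k => c k.1 k.2 l.1 l.2
  let f : K → Module.End ℂ (Module.End ℂ V) := fun k => cj (ρ k.1)
  have hsymm : ∀ x v, (ρ x).symm v = ρ x⁻¹ v := by
    intro x v
    rw [LinearEquiv.symm_apply_eq, hi2]
  have hf : ∀ (k : K) (X : Module.End ℂ V) (v : V), f k X v = ρ k.1 (X (ρ (k.1)⁻¹ v)) := by
    intro k X v
    show cj (ρ k.1) X v = _
    rw [cj_apply, hsymm]
  have hfc : ∀ k l : K, Commute (f k) (f l) := by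
    intro k l
    show f k * f l = f l * f k
    apply LinearMap.ext
    intro X
    apply LinearMap.ext
    intro v
    rw [Module.End.mul_apply, Module.End.mul_apply, hf, hf, hf, hf]
    rw [hkl k.1 k.2 l.1 l.2]
    have e : ρ (k.1)⁻¹ (ρ (l.1)⁻¹ v) = c k.1 k.2 l.1 l.2 • ρ (l.1)⁻¹ (ρ (k.1)⁻¹ v) := by
      have e1 := hkl k.1 k.2 l.1 l.2 (ρ (l.1)⁻¹ (ρ (k.1)⁻¹ v))
      rw [hi2, hi2] at e1
      have e2 := congrArg (fun w => ρ (k.1)⁻¹ (ρ (l.1)⁻¹ w)) e1
      simp only [map_smul, hi1] at e2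
      exact e2
    rw [e, map_smul, map_smul, map_smul]
  have hmaps : ∀ (k l : K) (φ : ℂ), Set.MapsTo (f k) ((f l).maxGenEigenspace φ)
      ((f l).maxGenEigenspace φ) := fun k l φ =>
    Module.End.mapsTo_maxGenEigenspace_of_comm (hfc l k) φ
  have hind := Module.End.independent_iInf_maxGenEigenspace_of_forall_mapsTo f hmaps
  have hfinX : {x : K → ℂ | (⨅ i, (f i).maxGenEigenspace (x i)) ≠ ⊥}.Finite :=
    Submodule.finite_ne_bot_of_iSupIndep hind
  have hXmem : ∀ l : K, χ l ∈ {x : K → ℂ | (⨅ i, (f i).maxGenEigenspace (x i)) ≠ ⊥} := by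
    intro l hbot
    have hmem : ((ρ l.1 : V ≃ₗ[ℂ] V) : V →ₗ[ℂ] V) ∈ ⨅ i, (f i).maxGenEigenspace (χ l i) := by
      rw [Submodule.mem_iInf]
      intro k
      have e : f k ((ρ l.1 : V ≃ₗ[ℂ] V) : V →ₗ[ℂ] V)
          = χ l k • ((ρ l.1 : V ≃ₗ[ℂ] V) : V →ₗ[ℂ] V) := by
        apply LinearMap.ext
        intro v
        rw [hf, LinearMap.smul_apply]
        show ρ k.1 (ρ l.1 (ρ (k.1)⁻¹ v)) = c k.1 k.2 l.1 l.2 • ρ l.1 v
        rw [hkl k.1 k.2 l.1 l.2, hi2]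
      have e2 : ((ρ l.1 : V ≃ₗ[ℂ] V) : V →ₗ[ℂ] V) ∈ (f k).eigenspace (χ l k) :=
        Module.End.mem_eigenspace_iff.2 e
      exact (Module.End.genEigenspace (f k) (χ l k)).mono le_top e2
    rw [hbot, Submodule.mem_bot] at hmem
    obtain ⟨v, hv⟩ := exists_ne (0 : V)
    have e := LinearMap.congr_fun hmem (ρ (l.1)⁻¹ v)
    have e3 : ρ l.1 (ρ (l.1)⁻¹ v) = 0 := e
    rw [hi2] at e3
    exact hv e3
  -- elements with the same character
  have hsame : ∀ l l' : K, χ l = χ l' → ∃ s : ℂ, ∀ v, ρ l.1 v = s • ρ l'.1 v := by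
    intro l l' he
    have hmem : l.1 * (l'.1)⁻¹ ∈ Z := by
      rw [hZmem]
      refine ⟨K.mul_mem l.2 (K.inv_mem l'.2), fun k hk v => ?_⟩
      have e1 := hkl k hk l.1 l.2
      have e2 := hkl k hk l'.1 l'.2
      have e3 : c k hk l.1 l.2 = c k hk l'.1 l'.2 := congrFun he ⟨k, hk⟩
      rw [hm, hm]
      have e4 : ρ (l'.1)⁻¹ (ρ k v) = c k hk l'.1 l'.2 • ρ k (ρ (l'.1)⁻¹ v) := by
        have e5 := e2 (ρ (l'.1)⁻¹ v)
        rw [hi2] at e5
        rw [e5, map_smul, hi1]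
      rw [e4, map_smul, e1 (ρ (l'.1)⁻¹ v), e3]
    obtain ⟨s, hs⟩ := hZ _ hmem
    refine ⟨s, fun v => ?_⟩
    have e := hs (ρ l'.1 v)
    rw [hm, hi1] at e
    exact e
  have hdet : ∀ g, LinearMap.det ((ρ (g * a * g⁻¹) : V ≃ₗ[ℂ] V) : V →ₗ[ℂ] V)
      = LinearMap.det ((ρ a : V ≃ₗ[ℂ] V) : V →ₗ[ℂ] V) := by
    intro g
    rw [← LinearEquiv.coe_det, ← LinearEquiv.coe_det, map_mul, map_mul, map_mul, map_mul, map_inv,
      map_inv, mul_inv_cancel_comm]
  have hconj : ∀ g, g * a * g⁻¹ ∈ K := fun g => hK.conj_mem a haK g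
  -- the subgroup commuting with `ρ a`
  let H : Subgroup G :=
    { carrier := {g | ∀ v, ρ g (ρ a v) = ρ a (ρ g v)}
      one_mem' := fun v => by rw [h1, h1]
      mul_mem' := by
        intro x y hx hy v
        rw [hm, hm, hy, hx]
      inv_mem' := by
        intro x hx v
        have e := hx (ρ x⁻¹ v)
        rw [hi2] at e
        rw [← e, hi1] }
  have hHmem : ∀ g, g ∈ H ↔ ∀ v, ρ g (ρ a v) = ρ a (ρ g v) := fun g => Iff.rfl
  let F : G → (V →ₗ[ℂ] V) := fun g => ((ρ (g * a * g⁻¹) : V ≃ₗ[ℂ] V) : V →ₗ[ℂ] V)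
  have hFfin : (Set.range F).Finite := by
    let rep : (K → ℂ) → (V →ₗ[ℂ] V) := fun x =>
      if hx : ∃ g : G, χ ⟨g * a * g⁻¹, hconj g⟩ = x then F (Classical.choose hx) else 0
    have hn : 0 < Module.finrank ℂ V := Module.finrank_pos
    have hroots : {s : ℂ | s ^ Module.finrank ℂ V = 1}.Finite := by
      refine (Polynomial.nthRootsFinset (Module.finrank ℂ V) (1 : ℂ)).finite_toSet.subset ?_
      intro s hs
      exact (Polynomial.mem_nthRootsFinset hn 1).2 hs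
    refine (Set.Finite.image2 (fun (x : K → ℂ) (s : ℂ) => s • rep x) hfinX hroots).subset ?_
    rintro _ ⟨g, rfl⟩
    have hx : ∃ g' : G, χ ⟨g' * a * g'⁻¹, hconj g'⟩ = χ ⟨g * a * g⁻¹, hconj g⟩ := ⟨g, rfl⟩
    have hspec := Classical.choose_spec hx
    obtain ⟨s, hs⟩ := hsame _ _ hspec.symm
    have hrep : rep (χ ⟨g * a * g⁻¹, hconj g⟩) = F (Classical.choose hx) := dif_pos hx
    have hFs : F g = s • F (Classical.choose hx) := by
      apply LinearMap.ext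
      intro v
      exact hs v
    refine ⟨χ ⟨g * a * g⁻¹, hconj g⟩, hXmem _, s, ?_, ?_⟩
    · have e := congrArg LinearMap.det hFs
      rw [LinearMap.det_smul] at e
      rw [hdet g, hdet (Classical.choose hx)] at e
      have hne : LinearMap.det ((ρ a : V ≃ₗ[ℂ] V) : V →ₗ[ℂ] V) ≠ 0 :=
        (LinearEquiv.isUnit_det' (ρ a)).ne_zero
      exact mul_right_cancel₀ hne (by rw [one_mul]; exact e.symm)
    · show s • rep (χ ⟨g * a * g⁻¹, hconj g⟩) = F g
      rw [hrep, hFs]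
  have hHfin : H.FiniteIndex := by
    refine fin_index H F hFfin fun g g' he => ?_
    rw [hHmem]
    intro v
    have e : ∀ w, ρ g (ρ a (ρ g⁻¹ w)) = ρ g' (ρ a (ρ g'⁻¹ w)) := by
      intro w
      have e1 : ρ (g * a * g⁻¹) w = ρ (g' * a * g'⁻¹) w := LinearMap.congr_fun he w
      rwa [hm, hm, hm, hm] at e1
    have e2 := e (ρ g' v)
    rw [hi1] at e2
    rw [hm, hm, ← e2, hi1]
  obtain ⟨μ, hμ⟩ := Module.End.exists_eigenvalue ((ρ a : V ≃ₗ[ℂ] V) : V →ₗ[ℂ] V)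
  refine ⟨H, Module.End.eigenspace ((ρ a : V ≃ₗ[ℂ] V) : V →ₗ[ℂ] V) μ, hHfin, ?_, ?_, ?_⟩
  · intro h0
    exact hμ h0
  · intro h0
    obtain ⟨v, hv⟩ := ha μ
    apply hv
    have hv' : v ∈ Module.End.eigenspace ((ρ a : V ≃ₗ[ℂ] V) : V →ₗ[ℂ] V) μ := by
      rw [h0]
      exact Submodule.mem_top
    exact Module.End.mem_eigenspace_iff.1 hv'
  · intro g hg v hv
    rw [hHmem] at hg
    have hv1 : ρ a v = μ • v := Module.End.mem_eigenspace_iff.1 hv
    refine Module.End.mem_eigenspace_iff.2 ?_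
    show ρ a (ρ g v) = μ • ρ g v
    rw [← hg, hv1, map_smul]

end Pool.Agent.Y449.MS.M2
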