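import Pool.Agent.Y449.MS.StmB

/-!
# The integral identity for two vector fields
(adapted from `Pool.Agent.W689.Mk.Prin2`)
-/

set_option autoImplicit false

open Set Filter Topology MeasureTheory Metric
open scoped ENNReal NNReal
open Pool.Agent.W689.Mk Pool.Agent.Y449.MS

namespace Pool.Agent.Y449.MS.MASTER2

section
variable {X Γ E : Type} [TopologicalSpace X] [T2Space X] [SecondCountableTopology X] [Nonempty X]
  [Group Γ] [MulAction Γ X] [NormedAddCommGroup E] [NormedSpace ℝ E] [FiniteDimensional ℝ E]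
  [MeasurableSpace E] [BorelSpace E]
  {dev : X → E} {hol : Γ →* (E ≃ᵃ[ℝ] E)} (lam : Measure E) [lam.IsAddHaarMeasure]

/-- the integral identity with given charts and weights -/
theorem master' (D : AffData X Γ E dev hol) {Z : X → E} (hZ : VF dev hol Z)
    {m : ℕ} (c : Fin m → Cht dev Z)
    (hc : ∀ x, ∃ (γ : Γ) (i : Fin m), ∃ q ∈ ball (c i).p (c i).r, x = γ • (c i).σ q)
    (ρ : Fin m → X → ℝ) (hρL : ∀ i, LL dev (ρ i)) (hρ0 : ∀ i x, 0 ≤ ρ i x)
    (hρs : ∀ i x, ρ i x ≠ 0 → x ∈ (c i).σ '' ball (c i).p (c i).r)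
    (hρ1 : ∀ x, ∑' γ : Γ, ∑ i, ρ i (γ • x) = 1) (K : Set X) (hK : IsCompact K)
    (hρK : ∀ i x, ρ i x ≠ 0 → x ∈ K) :
    (∀ x, ∃ (γ : Γ) (i : Fin m), ρ i (γ • x) ≠ 0) ∧
      (∀ i, IntegrableOn (fun q => ρ i ((c i).σ q)) (ball (c i).p (c i).r) lam) ∧
      (∀ i, IntegrableOn (fun q => (dt (fderiv ℝ (fun q => Z ((c i).σ q)) q) - 1) *
        ρ i ((c i).σ q)) (ball (c i).p (c i).r) lam) ∧
      ∑ i, ∫ q in ball (c i).p (c i).r,
        (dt (fderiv ℝ (fun q => Z ((c i).σ q)) q) - 1) * ρ i ((c i).σ q) ∂lam = 0 := by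
  classical
  let : MeasurableSpace X := borel X
  have : BorelSpace X := ⟨rfl⟩
  obtain ⟨μ, hμ⟩ := exists_chartMeas lam D.loc
  obtain ⟨δ, hδ0, hδ⟩ := exists_null_const lam
  obtain ⟨δ', hδ'0, hδ'⟩ := exists_dt_pos (E := E)
  obtain ⟨t0, ht0, Ht⟩ := exists_flow D hZ c hc (min δ δ') (lt_min hδ0 hδ'0)
  have in1 : ∀ i, ball (c i).p (c i).r ⊆ ball (c i).p (4 * (c i).r) :=
    fun i => ball_subset_ball (by linarith [(c i).hr])
  have hρc : ∀ i, Continuous (ρ i) := fun i => (hρL i).continuous D.loc.continuous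
  let G : Fin m → X → ℝ≥0∞ := fun i x => ENNReal.ofReal (ρ i x)
  have hGm : ∀ i, Measurable (G i) := fun i => (hρc i).measurable.ennreal_ofReal
  have hGs : ∀ i x, G i x ≠ 0 → x ∈ (c i).σ '' ball (c i).p (c i).r := by
    intro i x hx
    apply hρs i x
    intro h
    apply hx
    simp only [G, h, ENNReal.ofReal_zero]
  have hfin : ∀ x, ∃ F : Finset Γ, ∀ γ : Γ, γ ∉ F → ∀ i, ρ i (γ • x) = 0 := by
    intro x
    obtain ⟨N, hN, F, hF⟩ := locfin D hK x
    refine ⟨F, fun γ hγ i => ?_⟩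
    by_contra hne
    exact hγ (hF x (mem_of_mem_nhds hN) γ (hρK i _ hne))
  have hG1 : ∀ x, ∑' γ : Γ, ∑ i, G i (γ • x) = 1 := by
    intro x
    obtain ⟨F, hF⟩ := hfin x
    have e1 : ∑' γ : Γ, ∑ i, ρ i (γ • x) = ∑ γ ∈ F, ∑ i, ρ i (γ • x) :=
      tsum_eq_sum fun γ hγ => Finset.sum_eq_zero fun i _ => hF γ hγ i
    have e2 : ∑' γ : Γ, ∑ i, G i (γ • x) = ∑ γ ∈ F, ∑ i, G i (γ • x) :=
      tsum_eq_sum fun γ hγ => Finset.sum_eq_zero fun i _ => by simp only [G, hF γ hγ i, ENNReal.ofReal_zero]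
    rw [e2]
    have e3 : ∑ γ ∈ F, ∑ i, G i (γ • x) = ENNReal.ofReal (∑ γ ∈ F, ∑ i, ρ i (γ • x)) := by
      rw [ENNReal.ofReal_sum_of_nonneg fun γ _ => Finset.sum_nonneg fun i _ => hρ0 i _]
      refine Finset.sum_congr rfl fun γ _ => ?_
      rw [ENNReal.ofReal_sum_of_nonneg fun i _ => hρ0 i _]
    rw [e3, ← e1, hρ1, ENNReal.ofReal_one]
  have hρle : ∀ i x, ρ i x ≤ 1 := by
    intro i x
    have h1 : G i x ≤ ∑' γ : Γ, ∑ i, G i (γ • x) := by
      refine le_trans ?_ (ENNReal.le_tsum (1 : Γ))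
      rw [one_smul]
      exact Finset.single_le_sum (f := fun i => G i x) (fun _ _ => bot_le) (Finset.mem_univ i)
    rw [hG1] at h1
    have h2 : ENNReal.ofReal (ρ i x) ≤ ENNReal.ofReal 1 := by rwa [ENNReal.ofReal_one]
    exact (ENNReal.ofReal_le_ofReal_iff zero_le_one).1 h2
  have hGsum : Measurable fun x => ∑ i, G i x := Finset.measurable_sum _ fun i _ => hGm i
  obtain ⟨V, hV⟩ : ∃ V : ℝ≥0∞, V = ∫⁻ x, ∑ i, G i x ∂μ := ⟨_, rfl⟩
  -- the identity for small times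
  let Y : Fin m → E → E := fun i q => Z ((c i).σ q)
  have hI : ∀ t, 0 ≤ t → t ≤ t0 → ∑ i, ∫⁻ q in ball (c i).p (c i).r,
      ENNReal.ofReal |dt (t • fderiv ℝ (Y i) q)| * G i ((c i).σ q) ∂lam = V := by
    intro t ht htt
    obtain ⟨hA, h, hh, hhc, hhe⟩ := Ht t ht htt
    have e1 : ∀ i, ∫⁻ q in ball (c i).p (c i).r,
      ENNReal.ofReal |dt (t • fderiv ℝ (Y i) q)| * G i ((c i).σ q) ∂lam =
        ∫⁻ y, G i (h.symm y) ∂μ := fun i =>
      chart_cov lam D hμ (c i) ht (hA i).1 (hA i).2.2 hδ ((hA i).2.1.trans (min_le_left _ _)) h hh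
        hhc (hGm i) (hGs i)
    have hhes : ∀ (γ : Γ) y, h.symm (γ • y) = γ • h.symm y := by
      intro γ y
      apply h.injective
      rw [h.apply_symm_apply, hhe, h.apply_symm_apply]
    have hm1 : ∀ i, Measurable fun y => G i (h.symm y) := fun i => (hGm i).comp hhc.measurable
    rw [Finset.sum_congr rfl fun i _ => e1 i, ← lintegral_finsetSum _ fun i _ => hm1 i, hV]
    refine weight_indep lam D hμ ?_ hGsum (fun y => ?_) hG1
    · exact Finset.measurable_sum _ fun i _ => hm1 i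
    · have := hG1 (h.symm y)
      rw [← this]
      refine tsum_congr fun γ => ?_
      rw [hhes]
  -- finiteness and positivity
  have hVfin : V ≠ ∞ := by
    rw [← hI 0 le_rfl ht0.le]
    refine (ENNReal.sum_lt_top.2 fun i _ => ?_).ne
    refine lt_of_le_of_lt (setLIntegral_mono (g := fun _ => (1 : ℝ≥0∞)) measurable_const fun q _ => ?_) ?_
    · rw [zero_smul, dt_zero, abs_one, ENNReal.ofReal_one, one_mul]
      have := ENNReal.ofReal_le_ofReal (hρle i ((c i).σ q))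
      rwa [ENNReal.ofReal_one] at this
    · rw [setLIntegral_one]
      exact measure_ball_lt_top
  -- real integrals
  have hYL : ∀ i, LipschitzOnWith ⟨(c i).L, (c i).hL⟩ (Y i) (ball (c i).p (c i).r) := by
    intro i
    refine LipschitzOnWith.of_dist_le_mul fun q hq q' hq' => ?_
    rw [dist_eq_norm, dist_eq_norm]
    exact (c i).lip q (in1 i hq) q' (in1 i hq')
  have hYn : ∀ i, ∀ q ∈ ball (c i).p (c i).r, ‖fderiv ℝ (Y i) q‖ ≤ (c i).L := fun i q hq =>
    norm_fderiv_le_of_lipschitzOn ℝ (isOpen_ball.mem_nhds hq) (hYL i)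
  have hρσ : ∀ i, AEMeasurable (fun q => ρ i ((c i).σ q)) (lam.restrict (ball (c i).p (c i).r)) :=
    fun i => ((hρc i).comp_continuousOn ((c i).sec.cont.mono (in1 i))).aemeasurable
      isOpen_ball.measurableSet
  have hint : ∀ i (t : ℝ), IntegrableOn (fun q => dt (t • fderiv ℝ (Y i) q) * ρ i ((c i).σ q))
      (ball (c i).p (c i).r) lam := by
    intro i t
    have hcpt : IsCompact (closedBall (0 : E →L[ℝ] E) (|t| * (c i).L)) := isCompact_closedBall _ _
    obtain ⟨B, hB⟩ := hcpt.exists_bound_of_continuousOn (dt_cont (E := E)).continuousOn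
    have hmeas : Measurable fun q => dt (t • fderiv ℝ (Y i) q) :=
      dt_cont.measurable.comp ((measurable_fderiv ℝ (Y i)).const_smul t)
    have : IsFiniteMeasure (lam.restrict (ball (c i).p (c i).r)) :=
      ⟨by rw [Measure.restrict_apply_univ]; exact measure_ball_lt_top⟩
    refine Integrable.of_bound (C := B) ?_ ?_
    · exact (hmeas.aemeasurable.mul (hρσ i)).aestronglyMeasurable
    · rw [ae_restrict_iff' isOpen_ball.measurableSet]
      refine Eventually.of_forall fun q hq => ?_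
      rw [norm_mul]
      have h1 : ‖dt (t • fderiv ℝ (Y i) q)‖ ≤ B := by
        apply hB
        rw [mem_closedBall, dist_zero_right, norm_smul, Real.norm_eq_abs]
        exact mul_le_mul_of_nonneg_left (hYn i q hq) (abs_nonneg _)
      have h2 : ‖ρ i ((c i).σ q)‖ ≤ 1 := by
        rw [Real.norm_eq_abs, abs_of_nonneg (hρ0 i _)]
        exact hρle i _
      calc ‖dt (t • fderiv ℝ (Y i) q)‖ * ‖ρ i ((c i).σ q)‖ ≤ B * 1 :=
            mul_le_mul h1 h2 (norm_nonneg _) ((norm_nonneg _).trans h1)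
        _ = B := mul_one B
  have hreal : ∀ t, 0 ≤ t → t ≤ t0 → ∑ i, ∫ q in ball (c i).p (c i).r,
      dt (t • fderiv ℝ (Y i) q) * ρ i ((c i).σ q) ∂lam = V.toReal := by
    intro t ht htt
    have hA := (Ht t ht htt).1
    have hpos : ∀ i, ∀ q ∈ ball (c i).p (c i).r, 0 < dt (t • fderiv ℝ (Y i) q) := by
      intro i q hq
      apply hδ'
      rw [norm_smul, Real.norm_eq_abs, abs_of_nonneg ht]
      exact (mul_le_mul_of_nonneg_left (hYn i q hq) ht).trans ((hA i).2.1.trans (min_le_right _ _))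
    have e1 : ∀ i, ENNReal.ofReal (∫ q in ball (c i).p (c i).r,
        dt (t • fderiv ℝ (Y i) q) * ρ i ((c i).σ q) ∂lam) = ∫⁻ q in ball (c i).p (c i).r,
        ENNReal.ofReal |dt (t • fderiv ℝ (Y i) q)| * G i ((c i).σ q) ∂lam := by
      intro i
      rw [ofReal_integral_eq_lintegral_ofReal (hint i t)]
      · refine setLIntegral_congr_fun isOpen_ball.measurableSet fun q hq => ?_
        beta_reduce
        rw [ENNReal.ofReal_mul (hpos i q hq).le, abs_of_pos (hpos i q hq)]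
      · rw [EventuallyLE, ae_restrict_iff' isOpen_ball.measurableSet]
        exact Eventually.of_forall fun q hq => mul_nonneg (hpos i q hq).le (hρ0 i _)
    have hnn : ∀ i, 0 ≤ ∫ q in ball (c i).p (c i).r,
        dt (t • fderiv ℝ (Y i) q) * ρ i ((c i).σ q) ∂lam := by
      intro i
      refine setIntegral_nonneg isOpen_ball.measurableSet fun q hq => ?_
      exact mul_nonneg (hpos i q hq).le (hρ0 i _)
    have e2 : ENNReal.ofReal (∑ i, ∫ q in ball (c i).p (c i).r,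
      dt (t • fderiv ℝ (Y i) q) * ρ i ((c i).σ q) ∂lam) = V := by
      rw [ENNReal.ofReal_sum_of_nonneg fun i _ => hnn i, Finset.sum_congr rfl fun i _ => e1 i]
      exact hI t ht htt
    rw [← e2, ENNReal.toReal_ofReal (Finset.sum_nonneg fun i _ => hnn i)]
  -- interpolation
  let τ : Fin (Module.finrank ℝ E + 1) → ℝ := fun j => t0 / ((j : ℝ) + 1)
  have hτinj : Function.Injective τ := by
    intro j k hjk
    have h1 : (0 : ℝ) < (j : ℝ) + 1 := by positivity
    have h2 : (0 : ℝ) < (k : ℝ) + 1 := by positivity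
    simp only [τ] at hjk
    rw [div_eq_div_iff h1.ne' h2.ne'] at hjk
    have h3 : (k : ℝ) + 1 = (j : ℝ) + 1 := mul_left_cancel₀ ht0.ne' hjk
    have h4 : (j : ℕ) = (k : ℕ) := by
      have : (k : ℝ) = (j : ℝ) := by linarith
      exact_mod_cast this.symm
    exact Fin.ext h4
  have hτ : ∀ j, 0 ≤ τ j ∧ τ j ≤ t0 := by
    intro j
    refine ⟨by positivity, ?_⟩
    simp only [τ]
    rw [div_le_iff₀ (by positivity)]
    have : (0 : ℝ) ≤ (j : ℝ) := by positivity
    nlinarith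
  obtain ⟨lm, hlm1, hlm⟩ := dt_interp τ hτinj
  have hfinal : V.toReal = ∑ i, ∫ q in ball (c i).p (c i).r,
      dt (fderiv ℝ (Y i) q) * ρ i ((c i).σ q) ∂lam := by
    calc V.toReal = ∑ j, lm j * V.toReal := by rw [← Finset.sum_mul, hlm1, one_mul]
      _ = ∑ j, lm j * ∑ i, ∫ q in ball (c i).p (c i).r,
          dt (τ j • fderiv ℝ (Y i) q) * ρ i ((c i).σ q) ∂lam := by
          refine Finset.sum_congr rfl fun j _ => ?_
          rw [hreal (τ j) (hτ j).1 (hτ j).2]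
      _ = ∑ i, ∫ q in ball (c i).p (c i).r, dt (fderiv ℝ (Y i) q) * ρ i ((c i).σ q) ∂lam := by
          simp only [Finset.mul_sum]
          rw [Finset.sum_comm]
          refine Finset.sum_congr rfl fun i _ => ?_
          have e1 : ∀ q, dt (fderiv ℝ (Y i) q) * ρ i ((c i).σ q) =
              ∑ j, lm j * (dt (τ j • fderiv ℝ (Y i) q) * ρ i ((c i).σ q)) := by
            intro q
            rw [← hlm (fderiv ℝ (Y i) q), Finset.sum_mul]
            exact Finset.sum_congr rfl fun j _ => by ring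
          simp only [e1]
          rw [integral_finsetSum _ fun j _ => (hint i (τ j)).const_mul (lm j)]
          refine Finset.sum_congr rfl fun j _ => ?_
          rw [integral_const_mul]
  have h0 := hreal 0 le_rfl ht0.le
  have hi1 : ∀ i, IntegrableOn (fun q => dt (fderiv ℝ (Y i) q) * ρ i ((c i).σ q))
      (ball (c i).p (c i).r) lam := fun i => by simpa using hint i 1
  have hi0 : ∀ i, IntegrableOn (fun q => ρ i ((c i).σ q))
      (ball (c i).p (c i).r) lam := fun i => by simpa [dt_zero] using hint i 0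
  have heq : ∀ i, (fun q => (dt (fderiv ℝ (Y i) q) - 1) * ρ i ((c i).σ q)) =
      fun q => dt (fderiv ℝ (Y i) q) * ρ i ((c i).σ q) - ρ i ((c i).σ q) := by
    intro i; funext q; ring
  refine ⟨?_, hi0, ?_, ?_⟩
  · intro x
    by_contra hno
    push Not at hno
    have h1 := hρ1 x
    have h2 : ∑' γ : Γ, ∑ i, ρ i (γ • x) = 0 := by
      have : (fun γ : Γ => ∑ i, ρ i (γ • x)) = fun _ => 0 := by
        funext γ
        exact Finset.sum_eq_zero fun i _ => hno γ i
      rw [this, tsum_zero]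
    rw [h2] at h1
    exact zero_ne_one h1
  · intro i
    show IntegrableOn (fun q => (dt (fderiv ℝ (Y i) q) - 1) * ρ i ((c i).σ q)) _ _
    rw [heq i]
    exact (hi1 i).sub (hi0 i)
  · show ∑ i, ∫ q in ball (c i).p (c i).r,
      (dt (fderiv ℝ (Y i) q) - 1) * ρ i ((c i).σ q) ∂lam = 0
    have h3 : ∀ i, ∫ q in ball (c i).p (c i).r,
        (dt (fderiv ℝ (Y i) q) - 1) * ρ i ((c i).σ q) ∂lam =
        ∫ q in ball (c i).p (c i).r, dt (fderiv ℝ (Y i) q) * ρ i ((c i).σ q) ∂lam -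
        ∫ q in ball (c i).p (c i).r, ρ i ((c i).σ q) ∂lam := by
      intro i
      rw [heq i]
      exact integral_sub (hi1 i) (hi0 i)
    rw [Finset.sum_congr rfl fun i _ => h3 i, Finset.sum_sub_distrib, ← hfinal]
    have h4 : ∑ i, ∫ q in ball (c i).p (c i).r, ρ i ((c i).σ q) ∂lam = V.toReal := by
      rw [← h0]
      refine Finset.sum_congr rfl fun i _ => ?_
      simp [dt_zero]
    rw [h4, sub_self]

end

section
variable {X Γ E : Type} [TopologicalSpace X] [T2Space X]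
  [NormedAddCommGroup E] [NormedSpace ℝ E] {dev : X → E}

/-- a chart adapted to two locally Lipschitz vector fields -/
structure Cht2 (dev : X → E) (Z1 Z2 : X → E) where
  σ : E → X
  p : E
  r : ℝ
  L : ℝ
  B : ℝ
  hr : 0 < r
  hL : 0 ≤ L
  hB : 0 ≤ B
  sec : Sec dev (ball p (4 * r)) σ
  lip1 : ∀ q ∈ ball p (4 * r), ∀ q' ∈ ball p (4 * r), ‖Z1 (σ q) - Z1 (σ q')‖ ≤ L * ‖q - q'‖
  bd1 : ∀ q ∈ ball p (4 * r), ‖Z1 (σ q)‖ ≤ B
  lip2 : ∀ q ∈ ball p (4 * r), ∀ q' ∈ ball p (4 * r), ‖Z2 (σ q) - Z2 (σ q')‖ ≤ L * ‖q - q'‖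
  bd2 : ∀ q ∈ ball p (4 * r), ‖Z2 (σ q)‖ ≤ B

/-- the chart for a combination -/
def Cht2.comb {Z1 Z2 : X → E} (c : Cht2 dev Z1 Z2) (s t : ℝ) :
    Cht dev (fun x => s • Z1 x + t • Z2 x) where
  σ := c.σ
  p := c.p
  r := c.r
  L := (|s| + |t|) * c.L
  B := (|s| + |t|) * c.B
  hr := c.hr
  hL := mul_nonneg (add_nonneg (abs_nonneg s) (abs_nonneg t)) c.hL
  hB := mul_nonneg (add_nonneg (abs_nonneg s) (abs_nonneg t)) c.hB
  sec := c.sec
  lip q hq q' hq' := by
    have h1 := c.lip1 q hq q' hq'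
    have h2 := c.lip2 q hq q' hq'
    have e : s • Z1 (c.σ q) + t • Z2 (c.σ q) - (s • Z1 (c.σ q') + t • Z2 (c.σ q')) =
        s • (Z1 (c.σ q) - Z1 (c.σ q')) + t • (Z2 (c.σ q) - Z2 (c.σ q')) := by
      rw [smul_sub, smul_sub]; abel
    rw [e]
    refine (norm_add_le _ _).trans ?_
    rw [norm_smul, norm_smul, Real.norm_eq_abs, Real.norm_eq_abs]
    have h3 := mul_le_mul_of_nonneg_left h1 (abs_nonneg s)
    have h4 := mul_le_mul_of_nonneg_left h2 (abs_nonneg t)
    linarith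
  bd q hq := by
    have h1 := c.bd1 q hq
    have h2 := c.bd2 q hq
    refine (norm_add_le _ _).trans ?_
    rw [norm_smul, norm_smul, Real.norm_eq_abs, Real.norm_eq_abs]
    have h3 := mul_le_mul_of_nonneg_left h1 (abs_nonneg s)
    have h4 := mul_le_mul_of_nonneg_left h2 (abs_nonneg t)
    linarith

theorem exists_cht2 (hloc : IsLocalHomeomorph dev) {Z1 Z2 : X → E} (hZ1 : LL dev Z1)
    (hZ2 : LL dev Z2) (x : X) :
    ∃ c : Cht2 dev Z1 Z2, c.p = dev x ∧ c.σ (dev x) = x := by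
  obtain ⟨e, r0, hx, he, hr0, hrt⟩ := exists_sec hloc x
  obtain ⟨U1, hU1, L1, hL1, H1⟩ := hZ1 x
  obtain ⟨U2, hU2, L2, hL2, H2⟩ := hZ2 x
  have hxe : e.symm (dev x) = x := by rw [he]; exact e.left_inv hx
  have hc : ContinuousAt e.symm (dev x) := by
    apply e.continuousAt_symm
    rw [he]
    exact e.map_source hx
  have h1 : e.symm ⁻¹' (U1 ∩ U2) ∈ 𝓝 (dev x) := by
    apply hc
    rw [hxe]
    exact inter_mem hU1 hU2
  obtain ⟨r1, hr1, hr1U⟩ := Metric.mem_nhds_iff.1 h1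
  set r := min r0 r1 / 4 with hrd
  have hr : 0 < r := by positivity
  have e4 : 4 * r = min r0 r1 := by rw [hrd]; ring
  have s0 : ball (dev x) (4 * r) ⊆ ball (dev x) r0 :=
    ball_subset_ball (by rw [e4]; exact min_le_left _ _)
  have s1 : ball (dev x) (4 * r) ⊆ ball (dev x) r1 :=
    ball_subset_ball (by rw [e4]; exact min_le_right _ _)
  have hinv : ∀ q ∈ ball (dev x) (4 * r), dev (e.symm q) = q := by
    intro q hq
    rw [he]
    exact e.right_inv (hrt (s0 hq))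
  have hbd : ∀ (Z : X → E) (U : Set X) (L : ℝ), U ∈ 𝓝 x → 0 ≤ L →
      (∀ y ∈ U, ∀ z ∈ U, ‖Z y - Z z‖ ≤ L * ‖dev y - dev z‖) →
      (∀ q ∈ ball (dev x) (4 * r), e.symm q ∈ U) → ∀ q ∈ ball (dev x) (4 * r),
      ‖Z (e.symm q)‖ ≤ ‖Z x‖ + L * (4 * r) := by
    intro Z U L hU hL H hin q hq
    have := H _ (hin q hq) x (mem_of_mem_nhds hU)
    rw [hinv q hq] at this
    have h2 : ‖q - dev x‖ ≤ 4 * r := by
      rw [mem_ball, dist_eq_norm] at hq
      exact hq.le
    calc ‖Z (e.symm q)‖ = ‖Z x + (Z (e.symm q) - Z x)‖ := by congr 1; abel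
      _ ≤ ‖Z x‖ + ‖Z (e.symm q) - Z x‖ := norm_add_le _ _
      _ ≤ ‖Z x‖ + L * ‖q - dev x‖ := by gcongr
      _ ≤ ‖Z x‖ + L * (4 * r) := by gcongr
  have in1 : ∀ q ∈ ball (dev x) (4 * r), e.symm q ∈ U1 := fun q hq => (hr1U (s1 hq)).1
  have in2 : ∀ q ∈ ball (dev x) (4 * r), e.symm q ∈ U2 := fun q hq => (hr1U (s1 hq)).2
  refine ⟨⟨e.symm, dev x, r, max L1 L2,
    max (‖Z1 x‖ + L1 * (4 * r)) (‖Z2 x‖ + L2 * (4 * r)), hr, le_max_of_le_left hL1,
    le_max_of_le_left (by positivity),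
    sec_of_target e he _ _ (s0.trans hrt), ?_, ?_, ?_, ?_⟩, rfl, hxe⟩
  · intro q hq q' hq'
    have := H1 _ (in1 q hq) _ (in1 q' hq')
    rw [hinv q hq, hinv q' hq'] at this
    exact this.trans (mul_le_mul_of_nonneg_right (le_max_left _ _) (norm_nonneg _))
  · intro q hq
    exact (hbd Z1 U1 L1 hU1 hL1 H1 in1 q hq).trans (le_max_left _ _)
  · intro q hq q' hq'
    have := H2 _ (in2 q hq) _ (in2 q' hq')
    rw [hinv q hq, hinv q' hq'] at this
    exact this.trans (mul_le_mul_of_nonneg_right (le_max_right _ _) (norm_nonneg _))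
  · intro q hq
    exact (hbd Z2 U2 L2 hU2 hL2 H2 in2 q hq).trans (le_max_right _ _)

end

section
variable {X Γ E : Type} [TopologicalSpace X] [T2Space X] [Group Γ] [MulAction Γ X]
  [NormedAddCommGroup E] [NormedSpace ℝ E] [FiniteDimensional ℝ E]
  {dev : X → E} {hol : Γ →* (E ≃ᵃ[ℝ] E)}

theorem exists_charts2 (D : AffData X Γ E dev hol) {Z1 Z2 : X → E} (hZ1 : LL dev Z1)
    (hZ2 : LL dev Z2) :
    ∃ (m : ℕ) (c : Fin m → Cht2 dev Z1 Z2), ∀ x, ∃ (γ : Γ) (i : Fin m),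
      ∃ q ∈ ball (c i).p (c i).r, x = γ • (c i).σ q := by
  obtain ⟨K, hK, hKc⟩ := D.cc
  choose c hcp hcσ using fun x => exists_cht2 D.loc hZ1 hZ2 x
  have hN : ∀ x ∈ K, (c x).σ '' ball (c x).p (c x).r ∈ 𝓝 x := by
    intro x _
    have ho := (c x).sec.isOpen_image D.loc (V := ball (c x).p (c x).r) isOpen_ball
      (ball_subset_ball (by linarith [(c x).hr]))
    refine ho.mem_nhds ⟨dev x, ?_, hcσ x⟩
    rw [hcp x]
    exact mem_ball_self (c x).hr
  obtain ⟨T, hTK, hT⟩ := hK.elim_nhds_subcover _ hN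
  obtain ⟨e⟩ : Nonempty (T ≃ Fin (Fintype.card T)) := ⟨Fintype.equivFin T⟩
  refine ⟨Fintype.card T, fun i => c (e.symm i), fun x => ?_⟩
  obtain ⟨γ, k, hk, rfl⟩ := hKc x
  obtain ⟨y, hy, q, hq, hqk⟩ := mem_iUnion₂.1 (hT hk)
  refine ⟨γ, e ⟨y, hy⟩, q, ?_, ?_⟩
  · simpa using hq
  · simp only [Equiv.symm_apply_apply]
    rw [hqk]

theorem vf_comb {Z1 Z2 : X → E} (h1 : VF dev hol Z1) (h2 : VF dev hol Z2) (s t : ℝ) :
    VF dev hol (fun x => s • Z1 x + t • Z2 x) where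
  ll := by
    have h3 : ∀ {Z : X → E} (s : ℝ), LL dev Z → LL dev (fun x => s • Z x) := by
      intro Z s hZ x
      obtain ⟨U, hU, L, hL, H⟩ := hZ x
      refine ⟨U, hU, |s| * L, mul_nonneg (abs_nonneg s) hL, fun y hy z hz => ?_⟩
      rw [← smul_sub, norm_smul, Real.norm_eq_abs, mul_assoc]
      exact mul_le_mul_of_nonneg_left (H y hy z hz) (abs_nonneg s)
    exact (h3 s h1.ll).add (h3 t h2.ll)
  eq γ x := by
    show s • Z1 (γ • x) + t • Z2 (γ • x) = (hol γ).linear (s • Z1 x + t • Z2 x)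
    rw [h1.eq, h2.eq, map_add, map_smul, map_smul]

end

theorem main : S_MASTER2 := by
  intro X Γ E _ _ _ _ _ _ _ _ _ _ _ dev hol lam _ D Z1 Z2 hZ1 hZ2
  obtain ⟨m, c, hc⟩ := exists_charts2 D hZ1.ll hZ2.ll
  obtain ⟨ρ, hρL, hρ0, hρs, hρ1, K, hK, hρK⟩ := exists_pou D (fun i => (c i).comb 0 0) hc
  have key := fun s t : ℝ => master' lam D (vf_comb hZ1 hZ2 s t) (fun i => (c i).comb s t) hc ρ
    hρL hρ0 hρs hρ1 K hK hρK
  have in1 : ∀ i, ball (c i).p (c i).r ⊆ ball (c i).p (4 * (c i).r) :=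
    fun i => ball_subset_ball (by linarith [(c i).hr])
  have hd : ∀ i, ∀ᵐ q ∂lam, q ∈ ball (c i).p (c i).r →
      DifferentiableAt ℝ (fun q => Z1 ((c i).σ q)) q ∧
        DifferentiableAt ℝ (fun q => Z2 ((c i).σ q)) q := by
    intro i
    have hL1 : LipschitzOnWith ⟨(c i).L, (c i).hL⟩ (fun q => Z1 ((c i).σ q))
        (ball (c i).p (c i).r) := by
      refine LipschitzOnWith.of_dist_le_mul fun q hq q' hq' => ?_
      rw [dist_eq_norm, dist_eq_norm]
      exact (c i).lip1 q (in1 i hq) q' (in1 i hq')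
    have hL2 : LipschitzOnWith ⟨(c i).L, (c i).hL⟩ (fun q => Z2 ((c i).σ q))
        (ball (c i).p (c i).r) := by
      refine LipschitzOnWith.of_dist_le_mul fun q hq q' hq' => ?_
      rw [dist_eq_norm, dist_eq_norm]
      exact (c i).lip2 q (in1 i hq) q' (in1 i hq')
    filter_upwards [hL1.ae_differentiableWithinAt_of_mem (μ := lam),
      hL2.ae_differentiableWithinAt_of_mem (μ := lam)] with q h1 h2 hq
    exact ⟨(h1 hq).differentiableAt (isOpen_ball.mem_nhds hq),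
      (h2 hq).differentiableAt (isOpen_ball.mem_nhds hq)⟩
  refine ⟨m, fun i => (c i).σ, fun i => (c i).p, fun i => (c i).r, ρ, fun i => (c i).hr,
    fun i => (c i).sec, fun i => (hρL i).continuous D.loc.continuous, hρ0, hρs, (key 0 0).1,
    (key 0 0).2.1, hd, fun s t => ?_⟩
  obtain ⟨-, -, k3, k4⟩ := key s t
  have hae : ∀ i, (fun q => (dt (fderiv ℝ (fun q => s • Z1 ((c i).σ q) + t • Z2 ((c i).σ q)) q) -
      1) * ρ i ((c i).σ q)) =ᵐ[lam.restrict (ball (c i).p (c i).r)]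
      fun q => (dt (s • fderiv ℝ (fun q => Z1 ((c i).σ q)) q +
          t • fderiv ℝ (fun q => Z2 ((c i).σ q)) q) - 1) * ρ i ((c i).σ q) := by
    intro i
    rw [EventuallyEq, ae_restrict_iff' isOpen_ball.measurableSet]
    filter_upwards [hd i] with q hq hqb
    obtain ⟨h1, h2⟩ := hq hqb
    have h3 : fderiv ℝ (fun q => s • Z1 ((c i).σ q) + t • Z2 ((c i).σ q)) q =
        s • fderiv ℝ (fun q => Z1 ((c i).σ q)) q + t • fderiv ℝ (fun q => Z2 ((c i).σ q)) q :=
      ((h1.hasFDerivAt.const_smul s).add (h2.hasFDerivAt.const_smul t)).fderiv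
    rw [h3]
  refine ⟨fun i => ?_, ?_⟩
  · exact (integrable_congr (hae i)).1 (k3 i)
  · rw [← k4]
    exact Finset.sum_congr rfl fun i _ => (integral_congr_ae (hae i)).symm

end Pool.Agent.Y449.MS.MASTER2
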