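import Pool.Agent.Y449.MS.StmB

set_option autoImplicit false

open Set Filter Topology MeasureTheory Metric
open scoped ENNReal commutatorElement
open Pool.Agent.W689.Mk Pool.Agent.TH94.MK Pool.Agent.Y449.MK

set_option linter.unusedSectionVars false

namespace Pool.Agent.Y449.MS.SLICE

section
variable {M : Type} [AddCommGroup M] [Module ℂ M]

theorem conj_pow {e e' D : Module.End ℂ M} (h : e' * e = 1) (h' : e * e' = 1) (n : ℕ) :
    (e * D * e') ^ n = e * D ^ n * e' := by
  induction n with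
  | zero => rw [pow_zero, pow_zero, mul_one, h']
  | succ k ih =>
    rw [pow_succ, ih, pow_succ]
    calc e * D ^ k * e' * (e * D * e') = e * D ^ k * (e' * e) * D * e' := by simp only [mul_assoc]
      _ = e * (D ^ k * D) * e' := by rw [h, mul_one]; simp only [mul_assoc]

theorem ExpOf.conj {e e' D σ : Module.End ℂ M} (h : e' * e = 1) (h' : e * e' = 1)
    (hD : ExpOf σ D) : ExpOf (e * σ * e') (e * D * e') := by
  refine ⟨fun f => ?_, fun f n hn k => ?_⟩
  · obtain ⟨n, hn⟩ := hD.1 (e' f)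
    refine ⟨n, ?_⟩
    rw [conj_pow h h']
    show e ((D ^ n) (e' f)) = 0
    rw [hn, map_zero]
  · rw [conj_pow h h'] at hn ⊢
    have h1 : (D ^ n) (e' f) = 0 := by
      have h2 : e' (e ((D ^ n) (e' f))) = 0 := by
        have : e ((D ^ n) (e' f)) = 0 := hn
        rw [this, map_zero]
      have h3 : e' (e ((D ^ n) (e' f))) = (e' * e) ((D ^ n) (e' f)) := rfl
      rw [h3, h] at h2
      exact h2
    have h4 := hD.2 (e' f) n h1 k
    show e ((σ ^ k) (e' f)) = _
    rw [h4, map_sum]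
    refine Finset.sum_congr rfl fun m _ => ?_
    rw [map_smul, conj_pow h h']
    rfl

end

section
variable {Γ E : Type} [Group Γ] [NormedAddCommGroup E] [NormedSpace ℝ E] [FiniteDimensional ℝ E]
  (hol : Γ →* (E ≃ᵃ[ℝ] E)) (N : Subgroup Γ)

/-- elements of `RT` -/
theorem ev_inv {n : Γ} (hn : n ∈ N) (f : RT hol N) (x : E) :
    ev hol N f (hol n x) = ev hol N f x := (ev_mem hol N f).2 n hn x

theorem comp_mem (hPF : S_PF) [hN : N.Normal] (g : Γ) (f : RT hol N) :
    (fun x => ev hol N f (hol g x)) ∈ RN hol N := by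
  obtain ⟨⟨d, hd⟩, hf⟩ := ev_mem hol N f
  refine ⟨⟨d, (hPF E).2.1 d _ hd (hol g)⟩, fun n hn x => ?_⟩
  show ev hol N f (hol g (hol n x)) = ev hol N f (hol g x)
  have h1 : g * n * g⁻¹ ∈ N := hN.conj_mem n hn g
  have h2 : hol g (hol n x) = hol (g * n * g⁻¹) (hol g x) := by
    rw [map_mul, map_mul]
    show hol g (hol n x) = hol g (hol n (hol g⁻¹ (hol g x)))
    rw [hol_inv_apply]
  rw [h2]
  exact hf _ h1 _

/-- composition with `hol g` on the invariants -/
noncomputable def cp (hPF : S_PF) (hN : N.Normal) (g : Γ) : RT hol N →ₐ[ℂ] RT hol N where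
  toFun f := (⟨fun x => ev hol N f (hol g x), comp_mem hol N hPF g f⟩ : RN hol N)
  map_one' := rfl
  map_mul' _ _ := rfl
  map_zero' := rfl
  map_add' _ _ := rfl
  commutes' _ := rfl

theorem ev_cp (hPF : S_PF) (hN : N.Normal) (g : Γ) (f : RT hol N) (x : E) :
    ev hol N (cp hol N hPF hN g f) x = ev hol N f (hol g x) := rfl

theorem ev_ext {f g : RT hol N} (h : ∀ x, ev hol N f x = ev hol N g x) : f = g :=
  ev_injective hol N (funext h)

theorem cp_cp (hPF : S_PF) (hN : N.Normal) (g h : Γ) (f : RT hol N) :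
    cp hol N hPF hN g (cp hol N hPF hN h f) = cp hol N hPF hN (h * g) f := by
  apply ev_ext
  intro x
  rw [ev_cp, ev_cp, ev_cp, map_mul]
  rfl

theorem cp_one (hPF : S_PF) (hN : N.Normal) (f : RT hol N) : cp hol N hPF hN 1 f = f := by
  apply ev_ext
  intro x
  rw [ev_cp, map_one]
  rfl

/-- the action -/
noncomputable def act (hPF : S_PF) (hN : N.Normal) : Γ →* (RT hol N ≃ₐ[ℂ] RT hol N) where
  toFun g := AlgEquiv.ofAlgHom (cp hol N hPF hN g⁻¹) (cp hol N hPF hN g)
    (by ext f; show cp hol N hPF hN g⁻¹ (cp hol N hPF hN g f) = f; rw [cp_cp, mul_inv_cancel, cp_one])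
    (by ext f; show cp hol N hPF hN g (cp hol N hPF hN g⁻¹ f) = f; rw [cp_cp, inv_mul_cancel, cp_one])
  map_one' := by
    ext f
    show cp hol N hPF hN 1⁻¹ f = f
    rw [inv_one, cp_one]
  map_mul' g h := by
    ext f
    show cp hol N hPF hN (g * h)⁻¹ f = cp hol N hPF hN g⁻¹ (cp hol N hPF hN h⁻¹ f)
    rw [cp_cp, mul_inv_rev]

/-- as a linear map -/
noncomputable def cl (hPF : S_PF) (hN : N.Normal) (g : Γ) : Module.End ℂ (RT hol N) :=
  (cp hol N hPF hN g).toLinearMap

theorem cl_apply (hPF : S_PF) (hN : N.Normal) (g : Γ) (f : RT hol N) :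
    cl hol N hPF hN g f = cp hol N hPF hN g f := rfl

theorem logOf_iff (hPF : S_PF) (hN : N.Normal) (a : Γ) (D : Module.End ℂ (RT hol N)) :
    LogOf hol N a D ↔ ExpOf (cl hol N hPF hN a) D := by
  constructor
  · rintro ⟨σ, hσ, h⟩
    have : σ = cl hol N hPF hN a := by
      ext f
      apply ev_ext
      intro x
      rw [hσ]
      rfl
    rwa [this] at h
  · intro h
    exact ⟨cl hol N hPF hN a, fun _ _ => rfl, h⟩

theorem unip (hPF : S_PF) (hTRIPF : S_TRIPF) (hN : N.Normal) (htri : TriL hol) {a : Γ}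
    (ha : a ∈ commutator Γ) (f : RT hol N) :
    ∃ n : ℕ, ((cl hol N hPF hN a - 1 : Module.End ℂ (RT hol N)) ^ n) f = 0 := by
  obtain ⟨⟨d, hd⟩, hf⟩ := ev_mem hol N f
  obtain ⟨n, hn⟩ := (hTRIPF Γ E hol htri d).2 a ha _ hd
  have key : ∀ (n : ℕ) (f : RT hol N), ev hol N (((cl hol N hPF hN a - 1 :
      Module.End ℂ (RT hol N)) ^ n) f) = ((pc hol a - 1 : Module.End ℂ (E → ℂ)) ^ n) (ev hol N f) := by
    intro n
    induction n with
    | zero => intro f; rfl
    | succ k ih =>
      intro f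
      rw [pow_succ, pow_succ]
      show ev hol N (((cl hol N hPF hN a - 1 : Module.End ℂ (RT hol N)) ^ k)
        ((cl hol N hPF hN a - 1 : Module.End ℂ (RT hol N)) f)) = _
      rw [ih]
      rfl
  refine ⟨n, ev_injective hol N ?_⟩
  rw [key, hn, map_zero]

theorem cl_comm (hPF : S_PF) (hN : N.Normal) {A : Subgroup Γ} (hA : ⁅A, A⁆ ≤ N) {a b : Γ}
    (ha : a ∈ A) (hb : b ∈ A) (f : RT hol N) :
    cl hol N hPF hN a (cl hol N hPF hN b f) = cl hol N hPF hN b (cl hol N hPF hN a f) := by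
  rw [cl_apply, cl_apply, cl_apply, cl_apply, cp_cp, cp_cp]
  apply ev_ext
  intro x
  rw [ev_cp, ev_cp]
  have h1 : ⁅b, a⁆ ∈ N := hA (Subgroup.commutator_mem_commutator hb ha)
  have h2 : b * a = ⁅b, a⁆ * (a * b) := by
    rw [commutatorElement_def]
    group
  rw [h2, map_mul]
  exact ev_inv hol N h1 f _

theorem act_apply (hPF : S_PF) (hN : N.Normal) (g : Γ) (f : RT hol N) :
    act hol N hPF hN g f = cp hol N hPF hN g⁻¹ f := rfl

theorem ev_mem_PF (f : RT hol N) : ∃ d, ev hol N f ∈ PF E d := (ev_mem hol N f).1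

/-- conjugation of logarithms -/
theorem la_inv (hPF : S_PF) (hN : N.Normal) {A : Subgroup Γ} (hA : A.Normal) (g : Γ)
    {D : Module.End ℂ (RT hol N)} (hD : D ∈ LA hol N A) :
    ((act hol N hPF hN g).toLinearMap * D * (act hol N hPF hN g⁻¹).toLinearMap :
      Module.End ℂ (RT hol N)) ∈ LA hol N A := by
  let e : Module.End ℂ (RT hol N) := (act hol N hPF hN g).toLinearMap
  let e' : Module.End ℂ (RT hol N) := (act hol N hPF hN g⁻¹).toLinearMap
  have h1 : e' * e = 1 := by
    ext f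
    show act hol N hPF hN g⁻¹ (act hol N hPF hN g f) = f
    have : (act hol N hPF hN g⁻¹ * act hol N hPF hN g) f = f := by
      rw [← map_mul, inv_mul_cancel, map_one]; rfl
    exact this
  have h2 : e * e' = 1 := by
    ext f
    show act hol N hPF hN g (act hol N hPF hN g⁻¹ f) = f
    have : (act hol N hPF hN g * act hol N hPF hN g⁻¹) f = f := by
      rw [← map_mul, mul_inv_cancel, map_one]; rfl
    exact this
  show e * D * e' ∈ LA hol N A
  unfold LA at hD ⊢
  induction hD using Submodule.span_induction with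
  | mem D hD =>
    obtain ⟨a, ha, hD⟩ := hD
    rw [logOf_iff hol N hPF hN] at hD
    refine Submodule.subset_span ⟨g * a * g⁻¹, hA.conj_mem a ha g, ?_⟩
    rw [logOf_iff hol N hPF hN]
    have h3 := ExpOf.conj h1 h2 hD
    have h4 : e * cl hol N hPF hN a * e' = cl hol N hPF hN (g * a * g⁻¹) := by
      ext f
      show cp hol N hPF hN g⁻¹ (cp hol N hPF hN a (cp hol N hPF hN g⁻¹⁻¹ f)) =
        cp hol N hPF hN (g * a * g⁻¹) f
      rw [cp_cp, cp_cp, inv_inv, mul_assoc]
    rwa [h4] at h3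
  | zero =>
    rw [mul_zero, zero_mul]
    exact Submodule.zero_mem _
  | add D D' _ _ h h' =>
    rw [mul_add, add_mul]
    exact Submodule.add_mem _ h h'
  | smul c D _ h =>
    have h5 : e * (c • D) * e' = c • (e * D * e') := by
      ext f
      show e (c • D (e' f)) = c • e (D (e' f))
      rw [map_smul]
    rw [h5]
    exact Submodule.smul_mem _ c h

end

theorem rd_mono {Γ E : Type} [Group Γ] [NormedAddCommGroup E] [NormedSpace ℝ E]
    (hol : Γ →* (E ≃ᵃ[ℝ] E)) (N : Subgroup Γ) : Monotone (Rd hol N) := fun _ _ h =>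
  Submodule.comap_mono (PF_mono h)

theorem main (hPF : S_PF) (hTRIPF : S_TRIPF) (hTRISUB : S_TRISUB) (hHYP : S_HYP) (hLOG : S_LOG)
    (hLC : S_LOGCOMM) (hLD : S_LOGDER) (hLN : S_LNIL) (hALG : S_ALG) (hFD : S_FD)
    (hFREE : S_FREE) (hKEY : S_KEY) : S_SLICE := by
  intro X Γ E _ _ _ _ _ _ _ _ _ dev hol hD hinj htri N A hN hA hNA hAN hAc hG
  have hunip : ∀ a ∈ A, ∀ d, ∀ f ∈ PF E d, ∃ n : ℕ,
      ((pc hol a - 1 : Module.End ℂ (E → ℂ)) ^ n) f = 0 :=
    fun a ha d => (hTRIPF Γ E hol htri d).2 a (hAc ha)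
  have hfd : FiniteDimensional ℂ (LA hol N A) := hFD Γ E hol N A hN hunip
  have hder0 : ∀ a D, LogOf hol N a D → ∀ f g : RT hol N, D (f * g) = D f * g + f * D g := by
    intro a D h
    rw [logOf_iff hol N hPF hN] at h
    exact hLD (RT hol N) _ D h fun f g => map_mul (cp hol N hPF hN a) f g
  have hder : ∀ D ∈ LA hol N A, ∀ f g : RT hol N, D (f * g) = D f * g + f * D g := by
    intro D hD f g
    unfold LA at hD
    induction hD using Submodule.span_induction with
    | mem D hD => obtain ⟨a, -, h⟩ := hD; exact hder0 a D h f g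
    | zero => simp
    | add D D' _ _ h h' =>
      rw [LinearMap.add_apply, LinearMap.add_apply, LinearMap.add_apply, h, h']
      ring
    | smul c D _ h =>
      rw [LinearMap.smul_apply, LinearMap.smul_apply, LinearMap.smul_apply, h, smul_add,
        smul_mul_assoc, mul_smul_comm]
  have hcomm0 : ∀ a ∈ A, ∀ b ∈ A, ∀ D D', ExpOf (cl hol N hPF hN a) D →
      ExpOf (cl hol N hPF hN b) D' → ∀ f, D (D' f) = D' (D f) := by
    intro a ha b hb D D' h h'
    have e1 : ∀ f, (cl hol N hPF hN a) (D' f) = D' (cl hol N hPF hN a f) :=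
      hLC (RT hol N) (RT hol N) _ D' _ D' (cl hol N hPF hN a).toAddMonoidHom h' h'
        (fun r f => map_smul (cl hol N hPF hN a) _ f)
        (fun f => cl_comm hol N hPF hN hAN ha hb f)
    have e2 : ∀ f, D' (D f) = D (D' f) :=
      hLC (RT hol N) (RT hol N) _ D _ D D'.toAddMonoidHom h h
        (fun r f => map_smul D' _ f) (fun f => (e1 f).symm)
    exact fun f => (e2 f).symm
  have hln := hLN (RT hol N) {D | ∃ a ∈ A, LogOf hol N a D} (by
      rintro D ⟨a, -, h⟩
      rw [logOf_iff hol N hPF hN] at h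
      exact h.1) (by
      rintro D ⟨a, ha, h⟩ D' ⟨b, hb, h'⟩
      rw [logOf_iff hol N hPF hN] at h h'
      exact hcomm0 a ha b hb D D' h h')
  have hkey : ∀ V : Submodule ℂ (RT hol N),
      (∀ g, ∀ f ∈ V, act hol N hPF hN g f ∈ V) → V ≠ ⊥ → (1 : RT hol N) ∈ V := by
    intro V hV hne
    obtain ⟨f, hf, hf0⟩ := Submodule.exists_mem_ne_zero_of_ne_bot hne
    obtain ⟨d, hd⟩ := ev_mem_PF hol N f
    have h1 := hKEY X Γ E dev hol hD htri d (V.map (ev hol N).toLinearMap ⊓ PF E d) inf_le_right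
      (by
        rintro g _ ⟨⟨k, hk, rfl⟩, hkd⟩
        refine ⟨⟨cp hol N hPF hN g k, ?_, rfl⟩, (hPF E).2.1 d _ hkd (hol g)⟩
        have := hV g⁻¹ k hk
        rw [act_apply, inv_inv] at this
        exact this) (by
        intro h
        have h2 : ev hol N f ∈ V.map (ev hol N).toLinearMap ⊓ PF E d := ⟨⟨f, hf, rfl⟩, hd⟩
        rw [h, Submodule.mem_bot] at h2
        exact hf0 (ev_injective hol N (by rw [h2, map_zero])))
    obtain ⟨⟨k, hk, hk1⟩, -⟩ := h1
    have h3 : k = 1 := ev_injective hol N (by rw [map_one]; exact hk1)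
    rwa [h3] at hk
  refine ⟨hfd, fun a ha => ?_, hder, ?_⟩
  · obtain ⟨D, h⟩ := hLOG (RT hol N) (cl hol N hPF hN a)
      (unip hol N hPF hTRIPF hN htri (hAc ha))
    exact ⟨D, (logOf_iff hol N hPF hN a D).2 h⟩
  · refine hALG (RT hol N) Γ (act hol N hPF hN) (LA hol N A) hfd hder hln.1 hln.2 hkey ?_
      (fun g D hD => la_inv hol N hPF hN hA g hD) ?_
    · intro 𝔟 h𝔟 hinv hne
      have hfd' : FiniteDimensional ℂ 𝔟 := Submodule.finiteDimensional_of_le h𝔟
      let act' : Γ →* (RT hol N ≃ₗ[ℂ] RT hol N) :=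
        { toFun := fun g => (act hol N hPF hN g).toLinearEquiv
          map_one' := by ext f; simp
          map_mul' := fun g h => by ext f; simp }
      have h1 := hHYP (RT hol N) Γ act' (Rd hol N) (rd_mono hol N) (ev_mem_PF hol N) (by
        intro d
        refine hTRISUB Γ Γ (E → ℂ) (RT hol N) (pc hol) _ (ev hol N).toLinearMap
          (ev_injective hol N) (fun g => ⟨g⁻¹, fun f => rfl⟩) (PF E d)
          (hTRIPF Γ E hol htri d).1) 𝔟 hfd' hinv hne
      exact h1
    · exact hFREE X Γ E dev hol hD hinj N A hN hAN hG hfd hln.1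

end Pool.Agent.Y449.MS.SLICE
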