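import Pool.Agent.Y449.MS.StmB

/-!
Project MS: the step for good groups.
-/

set_option autoImplicit false

open Set Filter Topology Metric
open Pool.Agent.W689.Mk

namespace Pool.Agent.Y449.MS.STEP

open Pool.Agent.Y449.MS

section

variable {E : Type} [NormedAddCommGroup E] [NormedSpace ℝ E]

/-- functions which are bounded on the points `P i` -/
def BS {ι : Type} (P : ι → E) : Subalgebra ℂ (E → ℂ) where
  carrier := {f | ∃ b : ℝ, ∀ i, ‖f (P i)‖ ≤ b}
  mul_mem' := by
    rintro f g ⟨b, hb⟩ ⟨b', hb'⟩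
    refine ⟨b * b', fun i => ?_⟩
    rw [Pi.mul_apply, norm_mul]
    exact mul_le_mul (hb i) (hb' i) (norm_nonneg _) ((norm_nonneg _).trans (hb i))
  add_mem' := by
    rintro f g ⟨b, hb⟩ ⟨b', hb'⟩
    refine ⟨b + b', fun i => ?_⟩
    rw [Pi.add_apply]
    exact (norm_add_le _ _).trans (add_le_add (hb i) (hb' i))
  algebraMap_mem' := fun c => ⟨‖c‖, fun _ => le_refl _⟩

variable {Γ : Type} [Group Γ]

theorem hol_mul (hol : Γ →* (E ≃ᵃ[ℝ] E)) (g h : Γ) (x : E) :
    hol (g * h) x = hol g (hol h x) := by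
  rw [map_mul]
  rfl

theorem hol_one (hol : Γ →* (E ≃ᵃ[ℝ] E)) (x : E) : hol 1 x = x := by
  rw [map_one]
  rfl

/-- powers shift the time functions -/
theorem shift_pow (hol : Γ →* (E ≃ᵃ[ℝ] E)) (a : Γ) (t : E → ℂ) (δ : ℂ)
    (h : ∀ x, t (hol a x) = t x + δ) (m : ℤ) (x : E) : t (hol (a ^ m) x) = t x + m * δ := by
  have hinv : ∀ x, t (hol a⁻¹ x) = t x - δ := by
    intro x
    have h1 := h (hol a⁻¹ x)
    rw [← hol_mul, mul_inv_cancel, hol_one] at h1
    rw [h1]
    ring
  induction m using Int.induction_on generalizing x with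
  | zero => rw [zpow_zero, hol_one]; simp
  | succ m ih =>
    rw [zpow_add_one, hol_mul, ih, h]
    push_cast
    ring
  | pred m ih =>
    rw [zpow_sub_one, hol_mul, ih, hinv]
    push_cast
    ring

/-- arbitrary integer shifts -/
theorem shifts (hol : Γ →* (E ≃ᵃ[ℝ] E)) (A : Subgroup Γ) {k : ℕ} (a : Fin k → Γ)
    (t : Fin k → (E → ℂ)) (ha : ∀ j, a j ∈ A)
    (h : ∀ i j x, t j (hol (a i) x) = t j x + (if i = j then 1 else 0)) (z : Fin k → ℤ) :
    ∃ g ∈ A, ∀ j x, t j (hol g x) = t j x + z j := by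
  classical
  have key : ∀ s : Finset (Fin k), ∃ g ∈ A, ∀ j x,
      t j (hol g x) = t j x + (if j ∈ s then (z j : ℂ) else 0) := by
    intro s
    induction s using Finset.induction_on with
    | empty => exact ⟨1, A.one_mem, fun j x => by rw [hol_one]; simp⟩
    | insert i s hi ih =>
      obtain ⟨g, hg, hgt⟩ := ih
      refine ⟨a i ^ (z i) * g, A.mul_mem (A.zpow_mem (ha i) _) hg, fun j x => ?_⟩
      rw [hol_mul, shift_pow hol (a i) (t j) (if i = j then 1 else 0) (h i j), hgt]
      by_cases hij : i = j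
      · subst hij
        rw [if_pos rfl, if_neg hi, if_pos (Finset.mem_insert_self i s)]
        ring
      · rw [if_neg hij]
        by_cases hj : j ∈ s
        · rw [if_pos hj, if_pos (Finset.mem_insert_of_mem hj)]
          ring
        · rw [if_neg hj, if_neg (by
            rw [Finset.mem_insert]
            push Not
            exact ⟨fun h => hij h.symm, hj⟩)]
          ring
  obtain ⟨g, hg, hgt⟩ := key Finset.univ
  exact ⟨g, hg, fun j x => by rw [hgt, if_pos (Finset.mem_univ j)]⟩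

end

/-- **STEP.** -/
theorem main (h1 : S_TIME) (h2 : S_COS) (h3 : S_PF) : S_STEP := by
  classical
  intro X Γ E _ _ _ _ _ _ _ _ _ dev hol hD hinj hT N A hN hA hNA hAA hAc hG
  obtain ⟨k, a, t, ha, htN, him, hsh, hg, hadj⟩ := h1 X Γ E dev hol hD hinj hT N A hN hA hNA hAA
    hAc hG
  have hcont : ∀ (M : Subgroup Γ) (f : E → ℂ), f ∈ RN hol M → Continuous f := by
    rintro M f ⟨⟨d, hd⟩, -⟩
    exact ((h3 E).2.2.1 d f hd).continuous
  have hle : ∀ {ι : Type} (P : ι → E), RN hol A ≤ BS P → (∀ j, t j ∈ BS P) →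
      RN hol N ≤ BS P := by
    intro ι P hP1 hP2
    refine hadj.trans (Algebra.adjoin_le (Set.union_subset (fun f hf => hP1 hf) ?_))
    rintro _ ⟨j, rfl⟩
    exact hP2 j
  constructor
  · -- cocompactness
    intro Y hY
    have hch : ∀ y : E, ∃ g ∈ A, ∀ j x, t j (hol g x) = t j x + (-⌊(t j y).re⌋ : ℤ) := fun y =>
      shifts hol A a t ha hsh (fun j => -⌊(t j y).re⌋)
    choose g hgA hgt using hch
    have hb := hle (fun y : Y => hol (g y) y) (by
      intro f hf
      obtain ⟨b, hb⟩ := hY f hf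
      refine ⟨b, fun y => ?_⟩
      rw [hf.2 _ (hgA y)]
      exact hb y y.2) (by
      intro j
      refine ⟨1, fun y => ?_⟩
      rw [hgt]
      have h4 : t j (y : E) + ((-⌊(t j (y : E)).re⌋ : ℤ) : ℂ) =
          (((t j (y : E)).re - ⌊(t j (y : E)).re⌋ : ℝ) : ℂ) := by
        apply Complex.ext
        · rw [Complex.add_re, Complex.ofReal_re, Complex.intCast_re]
          push_cast
          ring
        · rw [Complex.add_im, Complex.ofReal_im, Complex.intCast_im, him, add_zero]
      rw [h4, Complex.norm_real, Real.norm_eq_abs, abs_of_nonneg (by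
        linarith [Int.floor_le (t j (y : E)).re])]
      linarith [Int.lt_floor_add_one (t j (y : E)).re])
    obtain ⟨R, hR⟩ := hG.cocpt (range fun y : Y => hol (g y) y) (by
      intro f hf
      obtain ⟨b, hb'⟩ := hb hf
      refine ⟨b, ?_⟩
      rintro _ ⟨y, rfl⟩
      exact hb' y)
    refine ⟨R, fun y hy => ?_⟩
    obtain ⟨n, hn, hnR⟩ := hR _ ⟨⟨y, hy⟩, rfl⟩
    refine ⟨n * g y, A.mul_mem (hNA hn) (hgA y), ?_⟩
    rw [hol_mul]
    exact hnR
  · -- properness
    intro n w w0 q hnA hw hw0 hq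
    have hopen : IsOpen (range dev) := hD.loc.isOpenMap.isOpen_range
    obtain ⟨r', hr', hball⟩ := Metric.isOpen_iff.1 hopen w0 hw0
    have hcb : closedBall w0 (r' / 2) ⊆ range dev :=
      (closedBall_subset_ball (by linarith)).trans hball
    refine h2 X Γ E dev hol hD hinj N hG n w w0 q (r' / 2) (by linarith) hcb hw hq ?_
    have hbd : ∀ f : E → ℂ, Continuous f → ∃ b : ℝ, ∀ u ∈ closedBall w0 (r' / 2), ‖f u‖ ≤ b :=
      fun f hf => (isCompact_closedBall w0 (r' / 2)).exists_bound_of_continuousOn hf.continuousOn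
    have hb := hle (fun p : ℕ × closedBall w0 (r' / 2) => hol (n p.1) p.2) (by
      intro f hf
      obtain ⟨b, hb⟩ := hbd f (hcont A f hf)
      refine ⟨b, fun p => ?_⟩
      rw [hf.2 _ (hnA p.1)]
      exact hb p.2 p.2.2) (by
      intro j
      have htc := hcont N (t j) (htN j)
      obtain ⟨b, hb⟩ := hbd (t j) htc
      choose c hc using fun i => hg (n i) (hnA i) j
      have hlim : Tendsto c atTop (𝓝 (t j q - t j w0)) := by
        have h4 : c = fun i => t j (hol (n i) (w i)) - t j (w i) := by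
          funext i
          rw [hc]
          ring
        rw [h4]
        exact ((htc.tendsto q).comp hq).sub ((htc.tendsto w0).comp hw)
      obtain ⟨b', hb'⟩ := (Metric.isBounded_range_of_tendsto c hlim).exists_norm_le
      refine ⟨b + b', fun p => ?_⟩
      rw [hc]
      exact (norm_add_le _ _).trans (add_le_add (hb p.2 p.2.2) (hb' _ ⟨p.1, rfl⟩)))
    intro f hf
    obtain ⟨b, hb'⟩ := hb hf
    exact ⟨b, fun i u hu => hb' (i, ⟨u, ball_subset_closedBall hu⟩)⟩

end Pool.Agent.Y449.MS.STEP
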