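import Pool.Agent.Y449.MS.StmB

/-!
# MS-TIME: real time functions
-/

set_option autoImplicit false

open Set Filter Topology
open Pool.Agent.W689.Mk Pool.Agent.TH94.MK Pool.Agent.Y449.MK

namespace Pool.Agent.Y449.MS.TIME

section
variable {Γ E : Type} [Group Γ] [NormedAddCommGroup E] [NormedSpace ℝ E]
  {hol : Γ →* (E ≃ᵃ[ℝ] E)} {N A : Subgroup Γ}

lemma der_const {D : Module.End ℂ (RT hol N)} (hD : ∀ f g, D (f * g) = D f * g + f * D g)
    (c : ℂ) : D (algebraMap ℂ _ c) = 0 := by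
  have h1 : D 1 = 0 := by
    have h2 := hD 1 1
    rw [mul_one, mul_one, one_mul] at h2
    exact left_eq_add.1 h2
  rw [Algebra.algebraMap_eq_smul_one, map_smul, h1, smul_zero]

lemma ev_algebraMap (c : ℂ) (x : E) : ev hol N (algebraMap ℂ _ c) x = c := by
  rw [AlgHom.commutes]
  rfl

lemma shift {g : Γ} {D : Module.End ℂ (RT hol N)} (h : LogOf hol N g D)
    (hD : ∀ f g, D (f * g) = D f * g + f * D g) {t : RT hol N} {c : ℂ}
    (ht : D t = algebraMap ℂ _ c) (x : E) : ev hol N t (hol g x) = ev hol N t x + c := by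
  obtain ⟨σ, h1, h2, h3⟩ := h
  have h4 : (D ^ 2) t = 0 := by
    rw [pow_two, Module.End.mul_apply, ht, der_const hD]
  have h5 := h3 t 2 h4 1
  simp only [Finset.sum_range_succ, Finset.sum_range_zero, pow_zero, pow_one,
    Module.End.one_apply, ht] at h5
  rw [← h1, h5]
  simp only [map_add, map_smul, Pi.add_apply, Pi.smul_apply, ev_algebraMap]
  simp

lemma conj_ex (hPF4 : ∀ (d : ℕ) (f : E → ℂ), f ∈ PF E d →
      (fun x => (starRingEnd ℂ) (f x)) ∈ PF E d)
    (f : RT hol N) : ∃ g : RT hol N, ∀ x, ev hol N g x = (starRingEnd ℂ) (ev hol N f x) := by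
  have h1 : (fun x => (starRingEnd ℂ) (ev hol N f x)) ∈ RN hol N := by
    obtain ⟨⟨d, hd⟩, h2⟩ := ev_mem hol N f
    refine ⟨⟨d, hPF4 d _ hd⟩, fun n hn x => ?_⟩
    show (starRingEnd ℂ) (ev hol N f (hol n x)) = (starRingEnd ℂ) (ev hol N f x)
    rw [h2 n hn x]
  obtain ⟨g, hg⟩ := exists_ev hol N h1
  exact ⟨g, fun x => congrFun hg x⟩

lemma real_slice (hLC : S_LOGCOMM) (hPF4 : ∀ (d : ℕ) (f : E → ℂ), f ∈ PF E d →
      (fun x => (starRingEnd ℂ) (f x)) ∈ PF E d) {k : ℕ} (a : Fin k → Γ)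
    (D : Fin k → Module.End ℂ (RT hol N)) (hlog : ∀ i, LogOf hol N (a i) (D i))
    (t0 : RT hol N) (c : Fin k → ℝ) (h : ∀ i, D i t0 = algebraMap ℂ _ (c i : ℂ)) :
    ∃ t : RT hol N, (∀ x, (ev hol N t x).im = 0) ∧
      ∀ i, D i t = algebraMap ℂ _ (c i : ℂ) := by
  classical
  choose cj hcj using conj_ex (hol := hol) (N := N) hPF4
  have hadd : ∀ f g, cj (f + g) = cj f + cj g := by
    intro f g
    apply ev_injective
    funext x
    rw [hcj, map_add, map_add, Pi.add_apply, Pi.add_apply, map_add, hcj, hcj]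
  have hsm : ∀ (r : ℝ) f, cj ((r : ℂ) • f) = (r : ℂ) • cj f := by
    intro r f
    apply ev_injective
    funext x
    rw [hcj, map_smul, map_smul, Pi.smul_apply, Pi.smul_apply, hcj, smul_eq_mul, smul_eq_mul,
      map_mul, Complex.conj_ofReal]
  have hcomm : ∀ i f, cj (D i f) = D i (cj f) := by
    intro i
    obtain ⟨σ, h1, h2⟩ := hlog i
    exact hLC (RT hol N) (RT hol N) σ (D i) σ (D i) (AddMonoidHom.mk' cj hadd) h2 h2 hsm
      (fun f => by
        apply ev_injective
        funext x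
        show ev hol N (cj (σ f)) x = ev hol N (σ (cj f)) x
        rw [hcj, h1, h1, hcj])
  refine ⟨(1 / 2 : ℂ) • (t0 + cj t0), fun x => ?_, fun i => ?_⟩
  · rw [map_smul, map_add, Pi.smul_apply, Pi.add_apply, hcj, Complex.add_conj]
    simp
  · have h1 : cj (algebraMap ℂ _ (c i : ℂ)) = algebraMap ℂ _ (c i : ℂ) := by
      apply ev_injective
      funext x
      rw [hcj, ev_algebraMap, Complex.conj_ofReal]
    rw [map_smul, map_add, ← hcomm, h, h1, ← two_smul ℂ, smul_smul]
    norm_num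

/-- a basis of logarithms -/
lemma basis_log (hfd : FiniteDimensional ℂ (LA hol N A)) :
    ∃ (k : ℕ) (a : Fin k → Γ) (D : Fin k → Module.End ℂ (RT hol N)),
      (∀ i, a i ∈ A) ∧ (∀ i, LogOf hol N (a i) (D i)) ∧ LinearIndependent ℂ D ∧
      Submodule.span ℂ (range D) = LA hol N A := by
  obtain ⟨b, hb, hspan, hli⟩ := exists_linearIndependent ℂ
    {D : Module.End ℂ (RT hol N) | ∃ a ∈ A, LogOf hol N a D}
  have hspan' : Submodule.span ℂ b = LA hol N A := hspan
  have hmem : ∀ x : b, (x : Module.End ℂ (RT hol N)) ∈ LA hol N A := fun x =>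
    hspan' ▸ Submodule.subset_span x.2
  have hli2 : LinearIndependent ℂ (fun x : b => (⟨x, hmem x⟩ : LA hol N A)) := by
    apply LinearIndependent.of_comp (LA hol N A).subtype
    exact hli
  have hfin : Finite b := hli2.finite
  obtain ⟨k, ⟨e⟩⟩ := Finite.exists_equiv_fin b
  have h1 : ∀ i : Fin k, ∃ a ∈ A, LogOf hol N a ((e.symm i : b) : Module.End ℂ (RT hol N)) :=
    fun i => hb (e.symm i).2
  choose a ha hlog using h1
  refine ⟨k, a, fun i => ((e.symm i : b) : Module.End ℂ (RT hol N)), ha, hlog,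
    hli.comp _ e.symm.injective, ?_⟩
  rw [← hspan']
  congr 1
  ext x
  constructor
  · rintro ⟨i, rfl⟩
    exact (e.symm i).2
  · intro hx
    exact ⟨e ⟨x, hx⟩, by simp⟩

lemma core (hLC : S_LOGCOMM) (hPF4 : ∀ (d : ℕ) (f : E → ℂ), f ∈ PF E d →
      (fun x => (starRingEnd ℂ) (f x)) ∈ PF E d)
    (hfd : FiniteDimensional ℂ (LA hol N A)) (hex : ∀ a ∈ A, ∃ D, LogOf hol N a D)
    (hder : ∀ D ∈ LA hol N A, ∀ f g : RT hol N, D (f * g) = D f * g + f * D g)
    (hsl : ∀ φ : LA hol N A →ₗ[ℂ] ℂ, ∃ t : RT hol N, ∀ D : LA hol N A,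
      (D : Module.End ℂ (RT hol N)) t = algebraMap ℂ _ (φ D))
    (hadj : Algebra.adjoin ℂ ({f : RT hol N | ∀ D ∈ LA hol N A, D f = 0} ∪
      {t : RT hol N | ∀ D ∈ LA hol N A, ∃ c : ℂ, D t = algebraMap ℂ _ c}) = ⊤) :
    ∃ (k : ℕ) (a : Fin k → Γ) (t : Fin k → (E → ℂ)), (∀ j, a j ∈ A) ∧ (∀ j, t j ∈ RN hol N) ∧
      (∀ j x, (t j x).im = 0) ∧
      (∀ i j x, t j (hol (a i) x) = t j x + (if i = j then 1 else 0)) ∧
      (∀ g ∈ A, ∀ j, ∃ c : ℂ, ∀ x, t j (hol g x) = t j x + c) ∧
      RN hol N ≤ Algebra.adjoin ℂ ((RN hol A : Set (E → ℂ)) ∪ range t) := by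
  classical
  obtain ⟨k, a, D, ha, hlog, hli, hspan⟩ := basis_log hfd
  have hDm : ∀ i, D i ∈ LA hol N A := fun i => hspan ▸ Submodule.subset_span (mem_range_self i)
  have ht0 : ∀ j : Fin k, ∃ t0 : RT hol N, ∀ i,
      D i t0 = algebraMap ℂ _ (((if i = j then (1 : ℝ) else 0) : ℝ) : ℂ) := by
    intro j
    obtain ⟨t0, h0⟩ := hsl (((Module.Basis.span hli).coord j).comp
      (Submodule.inclusion hspan.ge))
    refine ⟨t0, fun i => ?_⟩
    have h1 := h0 ⟨D i, hDm i⟩
    have h2 : Submodule.inclusion hspan.ge ⟨D i, hDm i⟩ = Module.Basis.span hli i := by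
      apply Subtype.ext
      rw [Module.Basis.span_apply]
      rfl
    rw [LinearMap.comp_apply, h2, Module.Basis.coord_apply, Module.Basis.repr_self,
      Finsupp.single_apply] at h1
    rw [h1]
    congr 1
    split_ifs <;> simp
  choose t0 ht0 using ht0
  choose T hTr hTd using fun j => real_slice hLC hPF4 a D hlog (t0 j)
    (fun i => if i = j then (1 : ℝ) else 0) (ht0 j)
  -- spans
  have hind : ∀ P : Module.End ℂ (RT hol N) → Prop, (∀ i, P (D i)) → P 0 →
      (∀ x y, P x → P y → P (x + y)) → (∀ (c : ℂ) x, P x → P (c • x)) →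
      ∀ x ∈ LA hol N A, P x := by
    intro P h1 h2 h3 h4 x hx
    rw [← hspan] at hx
    induction hx using Submodule.span_induction with
    | mem x h => obtain ⟨i, rfl⟩ := h; exact h1 i
    | zero => exact h2
    | add x y _ _ hx hy => exact h3 x y hx hy
    | smul c x _ hx => exact h4 c x hx
  have hc : ∀ j, ∀ x ∈ LA hol N A, ∃ c : ℂ, x (T j) = algebraMap ℂ _ c := by
    intro j
    apply hind
    · exact fun i => ⟨_, hTd j i⟩
    · exact ⟨0, by rw [map_zero]; rfl⟩
    · rintro x y ⟨c, hc⟩ ⟨c', hc'⟩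
      exact ⟨c + c', by rw [LinearMap.add_apply, hc, hc', map_add]⟩
    · rintro r x ⟨c, hc⟩
      exact ⟨r * c, by
        rw [LinearMap.smul_apply, hc, Algebra.algebraMap_eq_smul_one,
          Algebra.algebraMap_eq_smul_one, smul_smul]⟩
  have hker : ∀ f : RT hol N, (∀ x ∈ LA hol N A, x f = 0) → ev hol N f ∈ RN hol A := by
    intro f hf
    refine ⟨(ev_mem hol N f).1, fun g hg x => ?_⟩
    obtain ⟨Dg, hDg⟩ := hex g hg
    have hm : Dg ∈ LA hol N A := Submodule.subset_span ⟨g, hg, hDg⟩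
    have h1 := shift hDg (hder Dg hm) (t := f) (c := 0) (by rw [hf Dg hm, map_zero]) x
    rw [h1, add_zero]
  refine ⟨k, a, fun j => ev hol N (T j), ha, fun j => ev_mem hol N _, hTr, ?_, ?_, ?_⟩
  · intro i j x
    refine (shift (hlog i) (hder _ (hDm i)) (hTd j i) x).trans ?_
    show ev hol N (T j) x + _ = ev hol N (T j) x + _
    congr 1
    split_ifs <;> simp
  · intro g hg j
    obtain ⟨Dg, hDg⟩ := hex g hg
    have hm : Dg ∈ LA hol N A := Submodule.subset_span ⟨g, hg, hDg⟩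
    obtain ⟨c, hcj⟩ := hc j Dg hm
    exact ⟨c, fun x => shift hDg (hder Dg hm) hcj x⟩
  · intro f hf
    obtain ⟨F, rfl⟩ := exists_ev hol N hf
    have hF : F ∈ Algebra.adjoin ℂ ({f : RT hol N | ∀ D ∈ LA hol N A, D f = 0} ∪
      {t : RT hol N | ∀ D ∈ LA hol N A, ∃ c : ℂ, D t = algebraMap ℂ _ c}) := by
      rw [hadj]
      exact Algebra.mem_top
    set AA := Algebra.adjoin ℂ ((RN hol A : Set (E → ℂ)) ∪ range fun j => ev hol N (T j)) with hAA
    have hle : Algebra.adjoin ℂ ({f : RT hol N | ∀ D ∈ LA hol N A, D f = 0} ∪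
      {t : RT hol N | ∀ D ∈ LA hol N A, ∃ c : ℂ, D t = algebraMap ℂ _ c}) ≤
        AA.comap (ev hol N) := by
      apply Algebra.adjoin_le
      rintro G (hG | hG)
      · show ev hol N G ∈ AA
        exact Algebra.subset_adjoin (Or.inl (hker G hG))
      · show ev hol N G ∈ AA
        choose c hc' using fun i => hG (D i) (hDm i)
        have hG' : ∀ x ∈ LA hol N A, x (G - ∑ j, c j • T j) = 0 := by
          apply hind
          · intro i
            rw [map_sub, map_sum, hc' i]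
            have h1 : ∀ j ∈ (Finset.univ : Finset (Fin k)), D i (c j • T j) =
                if i = j then algebraMap ℂ _ (c i) else 0 := by
              intro j _
              rw [map_smul, hTd j i]
              split_ifs with h
              · subst h
                rw [Complex.ofReal_one, map_one, Algebra.algebraMap_eq_smul_one]
              · rw [Complex.ofReal_zero, map_zero, smul_zero]
            rw [Finset.sum_congr rfl h1, Finset.sum_ite_eq, if_pos (Finset.mem_univ _), sub_self]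
          · rfl
          · intro x y hx hy
            rw [LinearMap.add_apply, hx, hy, add_zero]
          · intro r x hx
            rw [LinearMap.smul_apply, hx, smul_zero]
        have h2 : ev hol N G = ev hol N (G - ∑ j, c j • T j) + ∑ j, c j • ev hol N (T j) := by
          rw [map_sub, map_sum]
          simp only [map_smul]
          rw [sub_add_cancel]
        rw [h2]
        refine add_mem (Algebra.subset_adjoin (Or.inl (hker _ hG'))) (sum_mem fun j _ => ?_)
        exact AA.smul_mem (Algebra.subset_adjoin (Or.inr (mem_range_self j))) _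
    exact hle hF

end

theorem main (hS : S_SLICE) (hLC : S_LOGCOMM) (hPF : S_PF) : S_TIME := by
  intro X Γ E _ _ _ _ _ _ _ _ _ dev hol hA hinj htri N A hN hAn hNA hAA hAc hgood
  obtain ⟨h1, h2, h3, h4, h5⟩ := hS X Γ E dev hol hA hinj htri N A hN hAn hNA hAA hAc hgood
  exact core hLC (hPF E).2.2.2.1 h1 h2 h3 h4 h5

end Pool.Agent.Y449.MS.TIME
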