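import Pool.Agent.Y449.MS.StmA

/-!
# Eigenvectors and invariant hyperplanes in triangular spaces
-/

set_option autoImplicit false

namespace Pool.Agent.Y449.MS.TRI

/-- In a one step extension, a multiple of a given element outside can be subtracted. -/
theorem step {M : Type} [AddCommGroup M] [Module ℂ M] {C : Submodule ℂ M} {v f u : M}
    (hf : f ∈ C ⊔ Submodule.span ℂ {v}) (hfC : f ∉ C) (hu : u ∈ C ⊔ Submodule.span ℂ {v}) :
    ∃ a : ℂ, u - a • f ∈ C := by
  obtain ⟨x, hx, y, hy, hxy⟩ := Submodule.mem_sup.1 hf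
  obtain ⟨a, rfl⟩ := Submodule.mem_span_singleton.1 hy
  obtain ⟨x', hx', y', hy', hxy'⟩ := Submodule.mem_sup.1 hu
  obtain ⟨b, rfl⟩ := Submodule.mem_span_singleton.1 hy'
  have ha : a ≠ 0 := by
    rintro rfl
    apply hfC
    rw [← hxy, zero_smul, add_zero]
    exact hx
  refine ⟨b / a, ?_⟩
  have h1 : u - (b / a) • f = x' - (b / a) • x := by
    rw [← hxy, ← hxy', smul_add, smul_smul, div_mul_cancel₀ _ ha]
    abel
  rw [h1]
  exact C.sub_mem hx' (C.smul_mem _ hx)

theorem main : S_TRI := by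
  intro G M _ _ act V hV W hWV hW hW0
  obtain ⟨l, c, h0, hl, hinv, hstep⟩ := hV
  classical
  constructor
  · have hex : ∃ j, W ⊓ c j ≠ ⊥ := ⟨l, by rw [hl, inf_eq_left.2 hWV]; exact hW0⟩
    have hmin := fun {m : ℕ} (h : m < Nat.find hex) => Nat.find_min hex h
    have hspec := Nat.find_spec hex
    obtain ⟨j, hj⟩ : ∃ j, j = Nat.find hex := ⟨_, rfl⟩
    rw [← hj] at hmin hspec
    cases j with
    | zero => exact absurd (by rw [h0, inf_bot_eq]) hspec
    | succ i =>
      have hi : W ⊓ c i = ⊥ := by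
        by_contra h
        exact hmin (Nat.lt_succ_self i) h
      obtain ⟨f, hf, hf0⟩ := Submodule.exists_mem_ne_zero_of_ne_bot hspec
      obtain ⟨v, hv⟩ := hstep i
      refine ⟨f, hf.1, hf0, fun g => ?_⟩
      have hfc : f ∉ c i := by
        intro h
        have : f ∈ W ⊓ c i := ⟨hf.1, h⟩
        rw [hi] at this
        exact hf0 ((Submodule.mem_bot ℂ).1 this)
      have hgf : act g f ∈ c (i + 1) := hinv _ g f hf.2
      rw [hv] at hgf
      have hf2 : f ∈ c (i + 1) := hf.2
      rw [hv] at hf2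
      obtain ⟨a, ha⟩ := step hf2 hfc hgf
      refine ⟨a, ?_⟩
      have : act g f - a • f ∈ W ⊓ c i := ⟨W.sub_mem (hW g f hf.1) (W.smul_mem _ hf.1), ha⟩
      rw [hi] at this
      exact sub_eq_zero.1 ((Submodule.mem_bot ℂ).1 this)
  · have hex : ∃ j, W ≤ c j := ⟨l, by rw [hl]; exact hWV⟩
    have hmin := fun {m : ℕ} (h : m < Nat.find hex) => Nat.find_min hex h
    have hspec := Nat.find_spec hex
    obtain ⟨j, hj⟩ : ∃ j, j = Nat.find hex := ⟨_, rfl⟩
    rw [← hj] at hmin hspec
    cases j with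
    | zero =>
      rw [h0] at hspec
      exact absurd (le_bot_iff.1 hspec) hW0
    | succ i =>
      have hi : ¬ W ≤ c i := hmin (Nat.lt_succ_self i)
      obtain ⟨w, hw, hwc⟩ := SetLike.not_le_iff_exists.1 hi
      obtain ⟨v, hv⟩ := hstep i
      refine ⟨W ⊓ c i, w, inf_le_left, fun g f hf => ⟨hW g f hf.1, hinv i g f hf.2⟩, hw,
        fun h => hwc h.2, ?_⟩
      apply le_antisymm
      · intro u hu
        have hw2 := hspec hw
        have hu2 := hspec hu
        rw [hv] at hw2 hu2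
        obtain ⟨a, ha⟩ := step hw2 hwc hu2
        rw [Submodule.mem_sup]
        exact ⟨u - a • w, ⟨W.sub_mem hu (W.smul_mem _ hw), ha⟩, a • w,
          Submodule.mem_span_singleton.2 ⟨a, rfl⟩, sub_add_cancel _ _⟩
      · refine sup_le inf_le_left ?_
        rw [Submodule.span_singleton_le_iff_mem]
        exact hw

end Pool.Agent.Y449.MS.TRI
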