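import Pool.Agent.Y449.MS.StmA

/-!
Polynomial functions form triangular spaces; the commutator subgroup is unipotent (helper64).
-/

set_option autoImplicit false

open Set

namespace Pool.Agent.Y449.MS.TRIPF

section general

variable {G M : Type} [AddCommGroup M] [Module ℂ M]

/-- `V` is spanned by a list of elements on which the action is triangular. -/
def Lst (act : G → (M →ₗ[ℂ] M)) (V : Submodule ℂ M) : Prop :=
  ∃ (l : ℕ) (v : Fin l → M), Submodule.span ℂ (range v) = V ∧
    ∀ g i, act g (v i) ∈ Submodule.span ℂ (v '' {j | j ≤ i})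

theorem tri_of_lst {act : G → (M →ₗ[ℂ] M)} {V : Submodule ℂ M} (h : Lst act V) : Tri act V := by
  obtain ⟨l, v, hV, hv⟩ := h
  refine ⟨l, fun j => Submodule.span ℂ (v '' {i | (i : ℕ) < j}), ?_, ?_, ?_, ?_⟩
  · have : v '' {i | (i : ℕ) < 0} = ∅ := by
      ext x
      simp
    change Submodule.span ℂ (v '' {i | (i : ℕ) < 0}) = ⊥
    rw [this, Submodule.span_empty]
  · have : {i : Fin l | (i : ℕ) < l} = univ := by
      ext i
      simp
    change Submodule.span ℂ (v '' {i | (i : ℕ) < l}) = V
    rw [this, image_univ, hV]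
  · intro j g f hf
    have hle : Submodule.span ℂ (v '' {i | (i : ℕ) < j}) ≤
        (Submodule.span ℂ (v '' {i | (i : ℕ) < j})).comap (act g) := by
      rw [Submodule.span_le]
      rintro _ ⟨i, hi, rfl⟩
      refine Submodule.span_mono ?_ (hv g i)
      apply image_mono
      intro k hk
      have hk' : k ≤ i := hk
      have hi' : (i : ℕ) < j := hi
      change (k : ℕ) < j
      exact lt_of_le_of_lt (Fin.le_def.1 hk') hi'
    exact hle hf
  · intro j
    by_cases hj : j < l
    · refine ⟨v ⟨j, hj⟩, ?_⟩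
      have : {i : Fin l | (i : ℕ) < j + 1} = {i : Fin l | (i : ℕ) < j} ∪ {⟨j, hj⟩} := by
        ext i
        simp only [mem_ofPred_eq, mem_union, mem_singleton_iff, Fin.ext_iff]
        omega
      change Submodule.span ℂ (v '' {i | (i : ℕ) < j + 1}) = _
      rw [this, image_union, image_singleton, Submodule.span_union]
    · refine ⟨0, ?_⟩
      have : {i : Fin l | (i : ℕ) < j + 1} = {i : Fin l | (i : ℕ) < j} := by
        ext i
        simp only [mem_ofPred_eq]
        omega
      change Submodule.span ℂ (v '' {i | (i : ℕ) < j + 1}) = _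
      rw [this]
      simp

end general

section comm

variable {G M : Type} [Group G] [AddCommGroup M] [Module ℂ M]

theorem comm_unip (act : G → (M →ₗ[ℂ] M)) (h1 : ∀ f, act 1 f = f)
    (hm : ∀ g h f, act (g * h) f = act h (act g f)) {V : Submodule ℂ M} (hV : Tri act V) :
    ∃ l : ℕ, ∀ a ∈ commutator G, ∀ f ∈ V, ((act a - 1 : Module.End ℂ M) ^ l) f = 0 := by
  obtain ⟨l, c, hc0, hcl, hinv, hstep⟩ := hV
  let U : Subgroup G :=
    { carrier := {a | ∀ j, ∀ f ∈ c (j + 1), act a f - f ∈ c j}
      mul_mem' := by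
        intro a b ha hb j f hf
        have e : act (a * b) f - f = act b (act a f - f) + (act b f - f) := by
          rw [hm, map_sub]
          abel
        rw [e]
        exact add_mem (hinv j b _ (ha j f hf)) (hb j f hf)
      one_mem' := by
        intro j f _
        rw [h1, sub_self]
        exact zero_mem _
      inv_mem' := by
        intro a ha j f hf
        have e : act a⁻¹ f - f = -act a⁻¹ (act a f - f) := by
          rw [map_sub, ← hm, mul_inv_cancel, h1]
          abel
        rw [e]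
        exact neg_mem (hinv j a⁻¹ _ (ha j f hf)) }
  have hU : commutator G ≤ U := by
    rw [commutator_def, Subgroup.commutator_le]
    intro g1 _ g2 _ j f hf
    obtain ⟨v, hv⟩ := hstep j
    have hvm : v ∈ c (j + 1) := by
      rw [hv]
      exact Submodule.mem_sup_right (Submodule.mem_span_singleton_self v)
    -- the difference of the two products
    have key : ∀ f ∈ c (j + 1), act g2 (act g1 f) - act g1 (act g2 f) ∈ c j := by
      have hg : ∀ g, ∃ (a : ℂ) (u : M), u ∈ c j ∧ act g v = a • v + u := by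
        intro g
        have h2 := hinv (j + 1) g v hvm
        rw [hv, Submodule.mem_sup] at h2
        obtain ⟨u, hu, w, hw, huw⟩ := h2
        obtain ⟨a, rfl⟩ := Submodule.mem_span_singleton.1 hw
        exact ⟨a, u, hu, by rw [← huw, add_comm]⟩
      obtain ⟨a1, u1, hu1, e1⟩ := hg g1
      obtain ⟨a2, u2, hu2, e2⟩ := hg g2
      intro f hf
      rw [hv, Submodule.mem_sup] at hf
      obtain ⟨u, hu, w, hw, rfl⟩ := hf
      obtain ⟨b, rfl⟩ := Submodule.mem_span_singleton.1 hw
      have e : act g2 (act g1 (u + b • v)) - act g1 (act g2 (u + b • v)) =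
          (act g2 (act g1 u) - act g1 (act g2 u)) +
            b • ((a1 • u2 + act g2 u1) - (a2 • u1 + act g1 u2)) := by
        simp only [map_add, map_smul, e1, e2, smul_add, smul_sub]
        rw [smul_smul a1 a2, smul_smul a2 a1, mul_comm a1 a2]
        abel
      rw [e]
      refine add_mem (sub_mem (hinv j _ _ (hinv j _ _ hu)) (hinv j _ _ (hinv j _ _ hu)))
        (Submodule.smul_mem _ _ (sub_mem (add_mem (Submodule.smul_mem _ _ hu2) (hinv j _ _ hu1))
          (add_mem (Submodule.smul_mem _ _ hu1) (hinv j _ _ hu2))))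
    change act (g1 * g2 * g1⁻¹ * g2⁻¹) f - f ∈ c j
    have e : act (g1 * g2 * g1⁻¹ * g2⁻¹) f - f =
        act (g1⁻¹ * g2⁻¹) (act g2 (act g1 f) - act g1 (act g2 f)) := by
      have e1 : act (g1 * g2 * g1⁻¹ * g2⁻¹) f = act (g1⁻¹ * g2⁻¹) (act g2 (act g1 f)) := by
        rw [← hm, ← hm]
        congr 2
        group
      have e2 : f = act (g1⁻¹ * g2⁻¹) (act g1 (act g2 f)) := by
        rw [← hm, ← hm]
        have : g2 * (g1 * (g1⁻¹ * g2⁻¹)) = 1 := by group
        rw [this, h1]
      rw [map_sub, ← e1, ← e2]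
    rw [e]
    exact hinv j _ _ (key f hf)
  refine ⟨l, fun a ha f hf => ?_⟩
  have hak := hU ha
  have hind : ∀ k, ∀ f ∈ c k, ((act a - 1 : Module.End ℂ M) ^ k) f = 0 := by
    intro k
    induction k with
    | zero =>
      intro f hf
      rw [hc0, Submodule.mem_bot] at hf
      rw [hf, map_zero]
    | succ k ih =>
      intro f hf
      rw [pow_succ, Module.End.mul_apply]
      exact ih _ (hak k f hf)
  exact hind l f (hcl ▸ hf)

end comm

section poly

variable {Γ E : Type} [Group Γ] [NormedAddCommGroup E] [NormedSpace ℝ E]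

theorem lst_mul (hol : Γ →* (E ≃ᵃ[ℝ] E)) {V W : Submodule ℂ (E → ℂ)} (hV : Lst (pc hol) V)
    (hW : Lst (pc hol) W) : Lst (pc hol) (V * W) := by
  obtain ⟨m, v, rfl, hv⟩ := hV
  obtain ⟨n, w, rfl, hw⟩ := hW
  refine ⟨m * n, fun k => v (finProdFinEquiv.symm k).1 * w (finProdFinEquiv.symm k).2, ?_, ?_⟩
  · rw [Submodule.span_mul_span]
    congr 1
    ext f
    constructor
    · rintro ⟨k, rfl⟩
      exact ⟨_, ⟨_, rfl⟩, _, ⟨_, rfl⟩, rfl⟩
    · rintro ⟨_, ⟨i, rfl⟩, _, ⟨j, rfl⟩, rfl⟩
      refine ⟨finProdFinEquiv (i, j), ?_⟩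
      simp
  · intro g k
    obtain ⟨⟨i, j⟩, rfl⟩ := finProdFinEquiv.surjective k
    simp only [Equiv.symm_apply_apply]
    have h1 : pc hol g (v i * w j) = pc hol g (v i) * pc hol g (w j) := rfl
    rw [h1]
    have h2 := Submodule.mul_mem_mul (hv g i) (hw g j)
    rw [Submodule.span_mul_span] at h2
    refine Submodule.span_mono ?_ h2
    rintro _ ⟨_, ⟨i', hi', rfl⟩, _, ⟨j', hj', rfl⟩, rfl⟩
    refine ⟨finProdFinEquiv (i', j'), ?_, by simp⟩
    have hi2 : (i' : ℕ) ≤ i := hi'
    have hj2 : (j' : ℕ) ≤ j := hj'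
    change finProdFinEquiv (i', j') ≤ finProdFinEquiv (i, j)
    rw [Fin.le_def, finProdFinEquiv_apply_val, finProdFinEquiv_apply_val]
    have := Nat.mul_le_mul_left n hi2
    exact Nat.add_le_add hj2 this

theorem lst_one (hol : Γ →* (E ≃ᵃ[ℝ] E)) : Lst (pc hol) (1 : Submodule ℂ (E → ℂ)) := by
  refine ⟨1, fun _ => 1, ?_, ?_⟩
  · rw [range_const, Submodule.one_eq_span]
  · intro g i
    have h1 : pc hol g (1 : E → ℂ) = 1 := rfl
    change pc hol g (1 : E → ℂ) ∈ _
    rw [h1]
    exact Submodule.subset_span ⟨i, show i ≤ i from le_rfl, rfl⟩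

/-- real linear functions as functions -/
noncomputable def coeL (E : Type) [NormedAddCommGroup E] [NormedSpace ℝ E] :
    (E →ₗ[ℝ] ℂ) →ₗ[ℂ] (E → ℂ) where
  toFun L := fun x => L x
  map_add' _ _ := rfl
  map_smul' _ _ := rfl

theorem lst_AF (hol : Γ →* (E ≃ᵃ[ℝ] E)) (h : TriL hol) : Lst (pc hol) (AF E) := by
  obtain ⟨m, L, hL, hinv⟩ := h
  let v : Fin (m + 1) → (E → ℂ) := Fin.cons 1 fun i => coeL E (L i)
  have hv0 : v 0 = 1 := rfl
  have hvs : ∀ i, v (Fin.succ i) = coeL E (L i) := fun i => rfl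
  refine ⟨m + 1, v, ?_, ?_⟩
  · apply le_antisymm
    · rw [Submodule.span_le]
      rintro _ ⟨i, rfl⟩
      refine Fin.cases ?_ (fun i => ?_) i
      · rw [hv0]
        exact const_mem_AF 1
      · rw [hvs]
        exact ⟨L i, 0, fun x => by simp [coeL]⟩
    · rintro f ⟨L', c, hf⟩
      have h1 : f = coeL E L' + c • v 0 := by
        funext x
        rw [hf, hv0]
        simp [coeL]
      rw [h1]
      refine add_mem ?_ (Submodule.smul_mem _ _ (Submodule.subset_span ⟨0, rfl⟩))
      have h2 : L' ∈ Submodule.span ℂ (range L) := by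
        rw [hL]
        exact Submodule.mem_top
      have h3 : coeL E L' ∈ (Submodule.span ℂ (range L)).map (coeL E) :=
        Submodule.mem_map_of_mem h2
      rw [Submodule.map_span] at h3
      refine Submodule.span_mono ?_ h3
      rintro _ ⟨_, ⟨i, rfl⟩, rfl⟩
      exact ⟨i.succ, rfl⟩
  · intro g i
    refine Fin.cases ?_ (fun i => ?_) i
    · have h1 : pc hol g (1 : E → ℂ) = 1 := rfl
      rw [hv0, h1]
      exact Submodule.subset_span ⟨0, show (0 : Fin (m + 1)) ≤ 0 from le_rfl, rfl⟩
    · have h1 : pc hol g (v i.succ) = coeL E ((L i).comp ((hol g).linear : E →ₗ[ℝ] E)) +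
          (L i (hol g 0)) • v 0 := by
        funext x
        have h2 : hol g x = (hol g).linear x + hol g 0 := by
          have := (hol g).map_vadd 0 x
          simpa using this
        rw [hvs, hv0]
        change L i (hol g x) = L i ((hol g).linear x) + L i (hol g 0) * 1
        rw [h2, map_add, mul_one]
      rw [h1]
      refine add_mem ?_ (Submodule.smul_mem _ _ (Submodule.subset_span
        ⟨0, show (0 : Fin (m + 1)) ≤ i.succ from Fin.zero_le _, rfl⟩))
      have h3 : coeL E ((L i).comp ((hol g).linear : E →ₗ[ℝ] E)) ∈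
          (Submodule.span ℂ (L '' {j | j ≤ i})).map (coeL E) :=
        Submodule.mem_map_of_mem (hinv g i)
      rw [Submodule.map_span] at h3
      refine Submodule.span_mono ?_ h3
      rintro _ ⟨_, ⟨j, hj, rfl⟩, rfl⟩
      have hj' : j ≤ i := hj
      exact ⟨j.succ, show j.succ ≤ i.succ from Fin.succ_le_succ_iff.2 hj', rfl⟩

theorem lst_PF (hol : Γ →* (E ≃ᵃ[ℝ] E)) (h : TriL hol) (d : ℕ) : Lst (pc hol) (PF E d) := by
  induction d with
  | zero =>
    unfold PF
    rw [pow_zero]
    exact lst_one hol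
  | succ d ih =>
    unfold PF at ih ⊢
    rw [pow_succ]
    exact lst_mul hol ih (lst_AF hol h)

end poly

theorem main : S_TRIPF := by
  intro Γ E _ _ _ _ hol h d
  have hT : Tri (pc hol) (PF E d) := tri_of_lst (lst_PF hol h d)
  refine ⟨hT, ?_⟩
  obtain ⟨l, hl⟩ := comm_unip (pc hol)
    (fun f => by funext x; change f (hol 1 x) = f x; rw [map_one]; rfl)
    (fun g h f => by funext x; change f (hol (g * h) x) = f (hol g (hol h x)); rw [map_mul]; rfl)
    hT
  exact fun a ha f hf => ⟨l, hl a ha f hf⟩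

end Pool.Agent.Y449.MS.TRIPF
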