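import Pool.Agent.Y449.MS.StmA

/-!
# MS-TRISUB: preimages of triangular spaces (helper349, for helper449)
-/

set_option autoImplicit false

namespace Pool.Agent.Y449.MS.TRISUB

open Pool.Agent.Y449.MS

theorem main : S_TRISUB := by
  intro G G' M M' _ _ _ _ act act' ι hι heq V hV
  obtain ⟨l, c, h0, hl, hinv, hstep⟩ := hV
  refine ⟨l, fun j => (c j).comap ι, ?_, ?_, ?_, ?_⟩
  · change (c 0).comap ι = ⊥
    rw [h0, Submodule.comap_bot]
    exact LinearMap.ker_eq_bot.2 hι
  · change (c l).comap ι = V.comap ι
    rw [hl]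
  · intro j g' f hf
    obtain ⟨g, hg⟩ := heq g'
    change ι (act' g' f) ∈ c j
    rw [hg]
    exact hinv j g _ hf
  · intro j
    obtain ⟨v, hv⟩ := hstep j
    have hle : (c j).comap ι ≤ (c (j + 1)).comap ι := by
      refine Submodule.comap_mono ?_
      rw [hv]
      exact le_sup_left
    by_cases h : (c (j + 1)).comap ι ≤ (c j).comap ι
    · refine ⟨0, ?_⟩
      change (c (j + 1)).comap ι = (c j).comap ι ⊔ Submodule.span ℂ {0}
      rw [Submodule.span_zero_singleton, sup_bot_eq]
      exact le_antisymm h hle
    · obtain ⟨v', hv1, hv2⟩ := SetLike.not_le_iff_exists.1 h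
      refine ⟨v', ?_⟩
      change (c (j + 1)).comap ι = (c j).comap ι ⊔ Submodule.span ℂ {v'}
      refine le_antisymm ?_ (sup_le hle (by
        rw [Submodule.span_singleton_le_iff_mem]
        exact hv1))
      intro u hu
      have e1 : ι v' ∈ c j ⊔ Submodule.span ℂ {v} := by rw [← hv]; exact hv1
      have e2 : ι u ∈ c j ⊔ Submodule.span ℂ {v} := by rw [← hv]; exact hu
      obtain ⟨a, ha, y, hy, hay⟩ := Submodule.mem_sup.1 e1
      obtain ⟨α, rfl⟩ := Submodule.mem_span_singleton.1 hy
      obtain ⟨b, hb, y', hy', hby⟩ := Submodule.mem_sup.1 e2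
      obtain ⟨β, rfl⟩ := Submodule.mem_span_singleton.1 hy'
      have hα : α ≠ 0 := by
        rintro rfl
        apply hv2
        change ι v' ∈ c j
        rw [← hay, zero_smul, add_zero]
        exact ha
      have h1 : u - (β / α) • v' ∈ (c j).comap ι := by
        change ι (u - (β / α) • v') ∈ c j
        have h2 : ι (u - (β / α) • v') = b - (β / α) • a := by
          rw [map_sub, map_smul, ← hay, ← hby, smul_add, smul_smul, div_mul_cancel₀ β hα]
          abel
        rw [h2]
        exact Submodule.sub_mem _ hb (Submodule.smul_mem _ _ ha)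
      have h3 : u = (u - (β / α) • v') + (β / α) • v' := by abel
      rw [h3]
      exact Submodule.add_mem_sup h1
        (Submodule.smul_mem _ _ (Submodule.mem_span_singleton_self v'))

end Pool.Agent.Y449.MS.TRISUB
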