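import Pool.Agent.Y449.MS.StmB
import Pool.Agent.W689.Mk.Av

/-!
# MS-VP (job 7995, helper779 for helper449): no eigenfunction with constant derivative
-/

set_option autoImplicit false

open Set Filter Topology Metric
open Pool.Agent.W689.Mk

namespace Pool.Agent.Y449.MS.VP

section
variable {E : Type} [NormedAddCommGroup E] [NormedSpace ℝ E]

/-- complex multiplication on pairs -/
noncomputable def cm (c : ℂ) (w : E × E) : E × E :=
  (c.re • w.1 - c.im • w.2, c.im • w.1 + c.re • w.2)

/-- the complex derivative along a pair -/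
noncomputable def dd (L : E →L[ℝ] ℂ) (w : E × E) : ℂ := L w.1 + Complex.I * L w.2

theorem cm_one (w : E × E) : cm 1 w = w := by
  unfold cm
  simp

theorem cm_mul (a b : ℂ) (w : E × E) : cm a (cm b w) = cm (a * b) w := by
  unfold cm
  simp only [Complex.mul_re, Complex.mul_im]
  refine Prod.ext ?_ ?_
  · simp only
    module
  · simp only
    module

theorem dd_cm (L : E →L[ℝ] ℂ) (c : ℂ) (w : E × E) : dd L (cm c w) = c * dd L w := by
  unfold dd cm
  simp only [map_sub, map_add, map_smul]
  rw [Complex.real_smul, Complex.real_smul, Complex.real_smul, Complex.real_smul]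
  have hc : c = (c.re : ℂ) + (c.im : ℂ) * Complex.I := (Complex.re_add_im c).symm
  generalize c.re = a at *
  generalize c.im = b at *
  rw [hc]
  have hI : Complex.I ^ 2 = -1 := Complex.I_sq
  linear_combination (-(b : ℂ) * L w.2) * hI

theorem dd_add (L : E →L[ℝ] ℂ) (w w' : E × E) : dd L (w + w') = dd L w + dd L w' := by
  unfold dd
  simp only [Prod.fst_add, Prod.snd_add, map_add]
  ring

theorem dd_smul (L : E →L[ℝ] ℂ) (a : ℝ) (w : E × E) : dd L (a • w) = a * dd L w := by
  unfold dd
  simp only [Prod.smul_fst, Prod.smul_snd, map_smul, Complex.real_smul]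
  ring

variable {Γ : Type} [Group Γ]

/-- linear holonomy on pairs -/
def lp (hol : Γ →* (E ≃ᵃ[ℝ] E)) (γ : Γ) (w : E × E) : E × E := (lin hol γ w.1, lin hol γ w.2)

theorem lp_mul (hol : Γ →* (E ≃ᵃ[ℝ] E)) (γ δ : Γ) (w : E × E) :
    lp hol (γ * δ) w = lp hol γ (lp hol δ w) := by
  unfold lp
  rw [lin_mul, lin_mul]

theorem lp_cm (hol : Γ →* (E ≃ᵃ[ℝ] E)) (γ : Γ) (c : ℂ) (w : E × E) :
    lp hol γ (cm c w) = cm c (lp hol γ w) := by
  unfold lp cm lin
  simp only [map_sub, map_add, map_smul]

end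

theorem main (h1 : S_CP) (h2 : S_PF) : S_VP := by
  intro X Γ E _ _ _ _ _ _ _ _ _ dev hol D d f hf heig u1 u2 hu
  have hdf : Differentiable ℝ f := (h2 E).2.2.1 d f hf
  -- the degree is positive
  obtain ⟨e, rfl⟩ : ∃ e, d = e + 1 := by
    rcases Nat.eq_zero_or_pos d with h0 | h0
    · exfalso
      subst h0
      obtain ⟨c, hc⟩ := (h2 E).2.2.2.2.1 f hf
      have h3 : f = fun _ => c := funext hc
      have h4 := hu 0
      rw [h3] at h4
      simp at h4
    · exact ⟨d - 1, by omega⟩
  have hcf : Continuous (fderiv ℝ f) := by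
    rw [continuous_clm_apply]
    intro v
    exact ((h2 E).2.2.1 e _ ((h2 E).2.2.2.2.2 e f hf v)).continuous
  have hC1 : ContDiff ℝ 1 f := contDiff_one_iff_fderiv.2 ⟨hdf, hcf⟩
  choose χ hχ using heig
  obtain ⟨x0, hx0⟩ : ∃ x0, f x0 ≠ 0 := by
    by_contra hne
    push Not at hne
    have h3 : f = fun _ => 0 := funext hne
    have h4 := hu 0
    rw [h3] at h4
    simp at h4
  have hχmul : ∀ γ δ, χ (γ * δ) = χ γ * χ δ := by
    intro γ δ
    have h3 := hχ (γ * δ) x0
    rw [map_mul] at h3
    have h4 : (hol γ * hol δ) x0 = hol γ (hol δ x0) := rfl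
    rw [h4, hχ, hχ, ← mul_assoc] at h3
    exact (mul_right_cancel₀ hx0 h3).symm
  have hχone : χ 1 = 1 := by
    have h3 := hχ 1 x0
    rw [map_one] at h3
    have h4 : (1 : E ≃ᵃ[ℝ] E) x0 = x0 := rfl
    rw [h4] at h3
    have h5 : 1 * f x0 = χ 1 * f x0 := by rw [one_mul]; exact h3
    exact (mul_right_cancel₀ hx0 h5).symm
  have hχinv : ∀ γ, χ γ * χ γ⁻¹ = 1 := by
    intro γ
    rw [← hχmul, mul_inv_cancel, hχone]
  -- chain rule
  have hchain : ∀ (γ : Γ) (x v : E), fderiv ℝ f (hol γ x) (lin hol γ v) = χ γ * fderiv ℝ f x v := by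
    intro γ x v
    set A : E →L[ℝ] E := LinearMap.toContinuousLinearMap ((hol γ).linear : E →ₗ[ℝ] E) with hA
    have hAv : ∀ v, lin hol γ v = A v := fun _ => rfl
    have h3 : (fun y => hol γ y) = fun y => hol γ 0 + A y := by
      funext y
      have := hol_add (hol := hol) γ 0 y
      rwa [zero_add] at this
    have h4 : HasFDerivAt (fun y => hol γ y) A x := by
      rw [h3]
      exact A.hasFDerivAt.const_add _
    have h5 : HasFDerivAt (fun y => f (hol γ y)) ((fderiv ℝ f (hol γ x)).comp A) x :=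
      (hdf (hol γ x)).hasFDerivAt.comp x h4
    have h6 : HasFDerivAt (fun y => χ γ * f y) (χ γ • fderiv ℝ f x) x :=
      (hdf x).hasFDerivAt.const_mul (χ γ)
    have h7 : (fun y => f (hol γ y)) = fun y => χ γ * f y := funext fun y => hχ γ y
    rw [h7] at h5
    have h8 := h5.unique h6
    have h9 := congrArg (fun g : E →L[ℝ] ℂ => g v) h8
    exact h9
  obtain ⟨ρ, hρ⟩ := exists_wt D
  set P : Γ → E × E := fun γ => cm (χ γ) (lp hol γ⁻¹ (u1, u2)) with hP
  have hPd : ∀ γ x, dd (fderiv ℝ f x) (P γ) = 1 := by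
    intro γ x
    rw [hP]
    simp only
    rw [dd_cm]
    have h3 : dd (fderiv ℝ f x) (lp hol γ⁻¹ (u1, u2)) = χ γ⁻¹ * dd (fderiv ℝ f (hol γ x)) (u1, u2) := by
      unfold dd lp
      simp only
      have h4 : x = hol γ⁻¹ (hol γ x) := (hol_inv_apply γ x).symm
      have h5 := hchain γ⁻¹ (hol γ x) u1
      have h6 := hchain γ⁻¹ (hol γ x) u2
      rw [← h4] at h5 h6
      rw [h5, h6]
      ring
    rw [h3, ← mul_assoc, hχinv, one_mul]
    exact hu _
  set V : X → E × E := av ρ P with hV
  have hVL : LL dev V := av_ll D hρ P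
  have hVd : ∀ x y, dd (fderiv ℝ f y) (V x) = 1 := by
    intro x
    have hC : Convex ℝ {w : E × E | ∀ y, dd (fderiv ℝ f y) w = 1} := by
      intro w hw w' hw' a b ha hb hab y
      rw [dd_add, dd_smul, dd_smul, hw y, hw' y]
      have : (a : ℂ) + b = 1 := by exact_mod_cast hab
      rw [mul_one, mul_one, this]
    exact av_mem hρ hC (fun γ y => hPd γ y) x
  -- equivariance
  have hVe : ∀ (δ : Γ) x, V (δ • x) = cm (χ δ⁻¹) (lp hol δ (V x)) := by
    intro δ x
    let T0 : (E × E) →ₗ[ℝ] (E × E) :=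
      { toFun := fun w => cm (χ δ⁻¹) (lp hol δ w)
        map_add' := by
          intro w w'
          unfold cm lp lin
          refine Prod.ext ?_ ?_
          · simp only [Prod.fst_add, Prod.snd_add, map_add]
            module
          · simp only [Prod.fst_add, Prod.snd_add, map_add]
            module
        map_smul' := by
          intro a w
          unfold cm lp lin
          refine Prod.ext ?_ ?_
          · simp only [Prod.smul_fst, Prod.smul_snd, map_smul, RingHom.id_apply]
            module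
          · simp only [Prod.smul_fst, Prod.smul_snd, map_smul, RingHom.id_apply]
            module }
    let T : (E × E) →L[ℝ] (E × E) := LinearMap.toContinuousLinearMap T0
    have hT : ∀ w, cm (χ δ⁻¹) (lp hol δ w) = T w := fun _ => rfl
    rw [hV, av_shift, hT]
    unfold av
    rw [T.map_tsum (av_summable hρ _ x)]
    refine tsum_congr fun γ => ?_
    rw [map_smul, ← hT]
    congr 1
    rw [hP]
    simp only
    rw [lp_cm, cm_mul, ← lp_mul, mul_inv_rev, inv_inv, hχmul, mul_comm (χ γ)]
  -- f is locally Lipschitz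
  have hfl : ∀ x : X, ∃ W ∈ 𝓝 (dev x), ∃ L : ℝ, 0 ≤ L ∧ ∀ y, dev y ∈ W → ∀ z, dev z ∈ W →
      ‖f (dev y) - f (dev z)‖ ≤ L * ‖dev y - dev z‖ := by
    intro x
    obtain ⟨K, t, ht, hK⟩ := (hC1.contDiffAt (x := dev x)).exists_lipschitzOnWith
    refine ⟨t, ht, K, K.2, fun y hy z hz => ?_⟩
    have := hK.dist_le_mul _ hy _ hz
    rwa [dist_eq_norm, dist_eq_norm] at this
  have hdc : Continuous dev := D.loc.continuous
  have hre : LL dev (fun x => (f (dev x)).re) := by
    refine LL.comp (Φ := fun y => (f y).re) hdc LL.dev_self fun x => ?_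
    obtain ⟨W, hW, L, hL, H⟩ := hfl x
    refine ⟨W, hW, L, hL, fun y hy z hz => ?_⟩
    refine le_trans ?_ (H y hy z hz)
    rw [← Complex.sub_re, Real.norm_eq_abs]
    exact Complex.abs_re_le_norm _
  have him : LL dev (fun x => (f (dev x)).im) := by
    refine LL.comp (Φ := fun y => (f y).im) hdc LL.dev_self fun x => ?_
    obtain ⟨W, hW, L, hL, H⟩ := hfl x
    refine ⟨W, hW, L, hL, fun y hy z hz => ?_⟩
    refine le_trans ?_ (H y hy z hz)
    rw [← Complex.sub_im, Real.norm_eq_abs]
    exact Complex.abs_im_le_norm _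
  have hV1 : LL dev (fun x => (V x).1) := by
    intro x
    obtain ⟨W, hW, L, hL, H⟩ := hVL x
    refine ⟨W, hW, L, hL, fun y hy z hz => ?_⟩
    refine le_trans ?_ (H y hy z hz)
    rw [← Prod.fst_sub]
    exact norm_fst_le _
  have hV2 : LL dev (fun x => (V x).2) := by
    intro x
    obtain ⟨W, hW, L, hL, H⟩ := hVL x
    refine ⟨W, hW, L, hL, fun y hy z hz => ?_⟩
    refine le_trans ?_ (H y hy z hz)
    rw [← Prod.snd_sub]
    exact norm_snd_le _
  set Z : X → E × E := fun x => cm (-f (dev x)) (V x) with hZ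
  have hZe : ∀ (δ : Γ) x, Z (δ • x) = lp hol δ (Z x) := by
    intro δ x
    rw [hZ]
    simp only
    rw [hVe, D.equi, hχ, cm_mul, lp_cm]
    congr 1
    have := hχinv δ
    linear_combination (- f (dev x)) * this
  have hZ1L : LL dev (fun x => (Z x).1) := by
    have h3 : LL dev (fun x => -((f (dev x)).re • (V x).1 - (f (dev x)).im • (V x).2)) :=
      ((hre.smul hdc hV1).sub (him.smul hdc hV2)).neg
    have h4 : (fun x => (Z x).1) =
        fun x => -((f (dev x)).re • (V x).1 - (f (dev x)).im • (V x).2) := by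
      funext x
      rw [hZ]
      unfold cm
      simp only [Complex.neg_re, Complex.neg_im]
      module
    rw [h4]
    exact h3
  have hZ2L : LL dev (fun x => (Z x).2) := by
    have h3 : LL dev (fun x => -((f (dev x)).im • (V x).1 + (f (dev x)).re • (V x).2)) :=
      ((him.smul hdc hV1).add (hre.smul hdc hV2)).neg
    have h4 : (fun x => (Z x).2) =
        fun x => -((f (dev x)).im • (V x).1 + (f (dev x)).re • (V x).2) := by
      funext x
      rw [hZ]
      unfold cm
      simp only [Complex.neg_re, Complex.neg_im]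
      module
    rw [h4]
    exact h3
  have hVF1 : VF dev hol (fun x => (Z x).1) := ⟨hZ1L, fun γ x => by rw [hZe]; rfl⟩
  have hVF2 : VF dev hol (fun x => (Z x).2) := ⟨hZ2L, fun γ x => by rw [hZe]; rfl⟩
  refine h1 X Γ E dev hol D _ _ hVF1 hVF2 ?_
  intro U σ hσ q hq A1 A2 hA1 hA2
  refine ⟨fderiv ℝ f q, ?_, ?_⟩
  · intro h0
    have h3 := hu q
    rw [h0] at h3
    simp at h3
  · intro v
    set φ : E →L[ℝ] ℂ := fderiv ℝ f q with hφ
    have h3 : HasFDerivAt (fun q' => φ (Z (σ q')).1 + Complex.I * φ (Z (σ q')).2)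
        (φ.comp A1 + Complex.I • φ.comp A2) q :=
      (φ.hasFDerivAt.comp q hA1).add ((φ.hasFDerivAt.comp q hA2).const_mul Complex.I)
    have h4 : HasFDerivAt (fun q' => φ (Z (σ q')).1 + Complex.I * φ (Z (σ q')).2) (-φ) q := by
      refine (hdf q).hasFDerivAt.neg.congr_of_eventuallyEq ?_
      filter_upwards [hσ.isOpen.mem_nhds hq] with p hp
      show dd φ (Z (σ p)) = (-f) p
      rw [hZ]
      simp only
      rw [dd_cm, hVd, hσ.inv p hp, mul_one]
      rfl
    have h5 := h3.unique h4
    have h6 := congrArg (fun g : E →L[ℝ] ℂ => g v) h5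
    have h7 : φ (A1 v) + Complex.I * φ (A2 v) = -φ v := h6
    rw [add_assoc, h7]
    ring

end Pool.Agent.Y449.MS.VP
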