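import Pool.Agent.Y449.MS.StmB

/-!
From solvable groups of finite index to solvable groups of linear parts.
-/

set_option autoImplicit false

open Set Filter Topology Metric
open Pool.Agent.W689.Mk Pool.Agent.TH94.MK Pool.Agent.Y449.MK

namespace Pool.Agent.Y449.MS.Wrap

section
variable {X Γ E : Type} [NormedAddCommGroup E] [NormedSpace ℝ E]
    [TopologicalSpace X] [Group Γ] [MulAction Γ X] {dev : X → E} {hol : Γ →* (E ≃ᵃ[ℝ] E)}

/-- a lift of an element of the holonomy group -/
noncomputable def lift (hol : Γ →* (E ≃ᵃ[ℝ] E)) (g : hol.range) : Γ := g.2.choose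

theorem hol_lift (g : hol.range) : hol (lift hol g) = g := g.2.choose_spec

theorem smul_eq (D : AffData X Γ E dev hol) (hinj : Function.Injective dev) {γ δ : Γ}
    (h : hol γ = hol δ) (x : X) : γ • x = δ • x :=
  hinj (by rw [D.equi, D.equi, h])

/-- the action of the holonomy group -/
@[instance_reducible]
noncomputable def action (D : AffData X Γ E dev hol) (hinj : Function.Injective dev) :
    MulAction hol.range X where
  smul g x := lift hol g • x
  one_smul x := by
    show lift hol 1 • x = x
    have h1 : hol (lift hol 1) = hol 1 := by rw [hol_lift, map_one]; rfl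
    rw [smul_eq D hinj h1, one_smul]
  mul_smul g h x := by
    show lift hol (g * h) • x = lift hol g • lift hol h • x
    have h1 : hol (lift hol (g * h)) = hol (lift hol g * lift hol h) := by
      rw [hol_lift, map_mul, hol_lift, hol_lift]; rfl
    rw [smul_eq D hinj h1, mul_smul]

theorem range_data (D : AffData X Γ E dev hol) (hinj : Function.Injective dev) :
    @AffData X hol.range E _ _ (action D hinj) _ _ dev hol.range.subtype := by
  let := action D hinj
  have hs : ∀ (g : hol.range) (x : X), g • x = lift hol g • x := fun _ _ => rfl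
  refine
    { loc := D.loc
      cont := fun g => D.cont _
      equi := fun g x => ?_
      unimod := fun g => ?_
      pd := fun K hK => ?_
      cc := ?_ }
  · rw [hs, D.equi, hol_lift]; rfl
  · have := D.unimod (lift hol g)
    rw [hol_lift] at this
    exact this
  · refine ((D.pd K hK).image fun γ => (⟨hol γ, γ, rfl⟩ : hol.range)).subset ?_
    rintro g ⟨x, hx, hgx⟩
    refine ⟨lift hol g, ⟨x, hx, hgx⟩, Subtype.ext ?_⟩
    exact hol_lift g
  · obtain ⟨K, hK, hKc⟩ := D.cc
    refine ⟨K, hK, fun x => ?_⟩
    obtain ⟨γ, k, hk, rfl⟩ := hKc x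
    refine ⟨⟨hol γ, γ, rfl⟩, k, hk, ?_⟩
    rw [hs]
    exact smul_eq D hinj (hol_lift _) k

end

/-- the theorem for groups of linear parts -/
theorem main (h : S_FINV) (X Γ E : Type) [NormedAddCommGroup E] [NormedSpace ℝ E]
    [FiniteDimensional ℝ E] [TopologicalSpace X] [T2Space X] [SecondCountableTopology X]
    [Nonempty X] [Group Γ] [MulAction Γ X] (dev : X → E) (hol : Γ →* (E ≃ᵃ[ℝ] E))
    (D : AffData X Γ E dev hol) (hinj : Function.Injective dev) (H : Subgroup Γ)
    (hH : H.FiniteIndex)
    (hs : Group.IsSolvable (H.map (AffineEquiv.linearHom.comp hol))) : IsHomeomorph dev := by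
  let := action D hinj
  have hH' : (H.map hol.rangeRestrict).FiniteIndex := by
    refine ⟨fun h0 => hH.index_ne_zero ?_⟩
    have := Subgroup.index_map_dvd (H := H) (hol.rangeRestrict_surjective)
    rw [h0] at this
    exact Nat.eq_zero_of_zero_dvd this
  refine h X hol.range E dev hol.range.subtype (range_data D hinj) hinj
    (H.map hol.rangeRestrict) hH' ?_
  -- the group is solvable
  let G : Subgroup hol.range := H.map hol.rangeRestrict
  let L : G →* (H.map (AffineEquiv.linearHom.comp hol)) :=
    { toFun := fun g => ⟨AffineEquiv.linearHom ((g : hol.range) : E ≃ᵃ[ℝ] E), by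
        obtain ⟨γ, hγ, hg⟩ := g.2
        refine ⟨γ, hγ, ?_⟩
        rw [← hg]
        rfl⟩
      map_one' := Subtype.ext (map_one AffineEquiv.linearHom)
      map_mul' := fun g g' => Subtype.ext (map_mul AffineEquiv.linearHom _ _) }
  have hker : Group.IsSolvable L.ker := by
    refine Group.isSolvable_of_comm fun a b => ?_
    have key : ∀ a : L.ker, ∀ v : E, (((a : G) : hol.range) : E ≃ᵃ[ℝ] E) v =
        v + (((a : G) : hol.range) : E ≃ᵃ[ℝ] E) 0 := by
      intro a v
      have h1 : L (a : G) = 1 := a.2
      have h2 : AffineEquiv.linearHom ((((a : G) : hol.range) : E ≃ᵃ[ℝ] E)) = 1 :=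
        congrArg Subtype.val h1
      have h3 : (((a : G) : hol.range) : E ≃ᵃ[ℝ] E).linear = LinearEquiv.refl ℝ E := h2
      have h4 := (((a : G) : hol.range) : E ≃ᵃ[ℝ] E).map_vadd 0 v
      rw [h3] at h4
      rw [vadd_eq_add, vadd_eq_add, add_zero] at h4
      exact h4
    apply Subtype.ext
    apply Subtype.ext
    apply Subtype.ext
    refine AffineEquiv.ext fun v => ?_
    show (((a : G) : hol.range) : E ≃ᵃ[ℝ] E) ((((b : G) : hol.range) : E ≃ᵃ[ℝ] E) v) =
      (((b : G) : hol.range) : E ≃ᵃ[ℝ] E) ((((a : G) : hol.range) : E ≃ᵃ[ℝ] E) v)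
    have e1 := key a ((((b : G) : hol.range) : E ≃ᵃ[ℝ] E) v)
    have e2 := key b ((((a : G) : hol.range) : E ≃ᵃ[ℝ] E) v)
    rw [e1, e2, key a v, key b v]
    abel
  exact Group.isSolvable_of_ker_le_range L.ker.subtype L (by rw [Subgroup.range_subtype])

end Pool.Agent.Y449.MS.Wrap
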