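import Pool.Agent.Y449.MS.PF
import Pool.Agent.Y449.MS.TRI
import Pool.Agent.Y449.MS.TRISUB
import Pool.Agent.Y449.MS.HYP
import Pool.Agent.Y449.MS.TRIPF
import Pool.Agent.Y449.MS.LOG
import Pool.Agent.Y449.MS.LOGC
import Pool.Agent.Y449.MS.LNIL
import Pool.Agent.Y449.MS.DIX
import Pool.Agent.Y449.MS.ALG
import Pool.Agent.Y449.MS.DET
import Pool.Agent.Y449.MS.FLOW
import Pool.Agent.Y449.MS.FD
import Pool.Agent.Y449.MS.M1
import Pool.Agent.Y449.MS.M2
import Pool.Agent.Y756.MS.M3
import Pool.Agent.Y449.MS.MAL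
import Pool.Agent.Y449.MS.MASTER2
import Pool.Agent.Y449.MS.CP
import Pool.Agent.Y449.MS.VP
import Pool.Agent.Y449.MS.KEY
import Pool.Agent.Y449.MS.INT
import Pool.Agent.Y449.MS.COS
import Pool.Agent.Y449.MS.GFI
import Pool.Agent.Y449.MS.FREE
import Pool.Agent.Y449.MS.SLICE
import Pool.Agent.Y449.MS.TIME
import Pool.Agent.Y449.MS.STEP
import Pool.Agent.Y449.MS.LAST
import Pool.Agent.Y449.MS.FIN
import Pool.Agent.Y449.MS.FINV
import Pool.Agent.Y449.MS.Wrap

/-!
Project MS: assembly.
-/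

set_option autoImplicit false

namespace Pool.Agent.Y449.MS.All

open Pool.Agent.W689.Mk

theorem key : S_KEY :=
  KEY.main (VP.main (CP.main MASTER2.main DET.main) PF.main) PF.main TRI.main TRIPF.main

theorem slice : S_SLICE :=
  SLICE.main PF.main TRIPF.main TRISUB.main (HYP.main TRI.main) LOG.main LOGC.main.1 LOGC.main.2
    LNIL.main (ALG.main DIX.main) (FD.main PF.main LOG.main LOGC.main.1 LOGC.main.2)
    (FREE.main (FLOW.main PF.main LOGC.main.1) (GFI.main INT.main PF.main) LOGC.main.1 PF.main)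
    key

theorem step : S_STEP :=
  STEP.main (TIME.main slice LOGC.main.1 PF.main) (COS.main INT.main PF.main) PF.main

theorem fin : S_FIN :=
  FIN.main step (LAST.main key (COS.main INT.main PF.main) PF.main) PF.main

theorem mal : S_MAL := MAL.main (Pool.Agent.Y756.MS.M3.main (M2.main M1.main))

theorem finv : S_FINV := FINV.main fin mal

end Pool.Agent.Y449.MS.All
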