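import Mathlib

/-!
Quotients of domains of affine space by affine groups with triangular linear parts: definitions.
-/

set_option autoImplicit false

open Set Filter Topology Metric

namespace Pool.Agent.Y449.MS

section
variable (E : Type) [NormedAddCommGroup E] [NormedSpace ℝ E]

/-- complex valued affine functions -/
def AF : Submodule ℂ (E → ℂ) where
  carrier := {f | ∃ (L : E →ₗ[ℝ] ℂ) (c : ℂ), ∀ x, f x = L x + c}
  add_mem' := by
    rintro f g ⟨L, c, h⟩ ⟨L', c', h'⟩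
    refine ⟨L + L', c + c', fun x => ?_⟩
    rw [Pi.add_apply, h, h', LinearMap.add_apply]
    ring
  zero_mem' := ⟨0, 0, fun x => by simp⟩
  smul_mem' := by
    rintro a f ⟨L, c, h⟩
    refine ⟨a • L, a * c, fun x => ?_⟩
    rw [Pi.smul_apply, h, LinearMap.smul_apply, smul_eq_mul, smul_eq_mul]
    ring

/-- complex valued polynomial functions of degree at most `d` -/
def PF (d : ℕ) : Submodule ℂ (E → ℂ) := AF E ^ d

end

section
variable {E : Type} [NormedAddCommGroup E] [NormedSpace ℝ E]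

theorem const_mem_AF (c : ℂ) : (fun _ : E => c) ∈ AF E := ⟨0, c, fun x => by simp⟩

theorem one_le_AF : (1 : Submodule ℂ (E → ℂ)) ≤ AF E := by
  rw [Submodule.one_le]
  exact const_mem_AF 1

theorem PF_mono {d e : ℕ} (h : d ≤ e) : PF E d ≤ PF E e :=
  pow_le_pow_right₀ one_le_AF h

theorem PF_mul {d e : ℕ} {f g : E → ℂ} (hf : f ∈ PF E d) (hg : g ∈ PF E e) :
    f * g ∈ PF E (d + e) := by
  unfold PF
  rw [pow_add]
  exact Submodule.mul_mem_mul hf hg

theorem const_mem_PF (d : ℕ) (c : ℂ) : (fun _ : E => c) ∈ PF E d := by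
  have h1 : (1 : Submodule ℂ (E → ℂ)) ≤ PF E d := by
    have := PF_mono (E := E) (Nat.zero_le d)
    unfold PF at this
    rwa [pow_zero] at this
  apply h1
  rw [Submodule.mem_one]
  exact ⟨c, rfl⟩

variable {Γ : Type} [Group Γ]

/-- composition of functions with the affine maps of the holonomy -/
def pc (hol : Γ →* (E ≃ᵃ[ℝ] E)) (γ : Γ) : (E → ℂ) →ₗ[ℂ] (E → ℂ) where
  toFun f := fun x => f (hol γ x)
  map_add' _ _ := rfl
  map_smul' _ _ := rfl

/-- the ring of polynomial functions invariant under `N` -/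
def RN (hol : Γ →* (E ≃ᵃ[ℝ] E)) (N : Subgroup Γ) : Subalgebra ℂ (E → ℂ) where
  carrier := {f | (∃ d, f ∈ PF E d) ∧ ∀ n ∈ N, ∀ x, f (hol n x) = f x}
  mul_mem' := by
    rintro f g ⟨⟨d, hd⟩, h⟩ ⟨⟨e, he⟩, h'⟩
    exact ⟨⟨d + e, PF_mul hd he⟩, fun n hn x => by rw [Pi.mul_apply, Pi.mul_apply, h n hn, h' n hn]⟩
  add_mem' := by
    rintro f g ⟨⟨d, hd⟩, h⟩ ⟨⟨e, he⟩, h'⟩
    refine ⟨⟨max d e, ?_⟩, fun n hn x => by rw [Pi.add_apply, Pi.add_apply, h n hn, h' n hn]⟩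
    exact Submodule.add_mem _ (PF_mono (le_max_left d e) hd) (PF_mono (le_max_right d e) he)
  algebraMap_mem' := fun c => ⟨⟨0, const_mem_PF 0 c⟩, fun _ _ _ => rfl⟩

/-- the linear parts of the affine maps are simultaneously triangular over the complex numbers:
there are complex valued linear functions `L 0, L 1, ...` which span all the complex valued linear
functions, such that the composition of `L i` with each linear part is a combination of the `L j`
with `j ≤ i`. -/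
def TriL (hol : Γ →* (E ≃ᵃ[ℝ] E)) : Prop :=
  ∃ (m : ℕ) (L : Fin m → (E →ₗ[ℝ] ℂ)), Submodule.span ℂ (range L) = ⊤ ∧
    ∀ (γ : Γ) (i : Fin m),
      (L i).comp ((hol γ).linear : E →ₗ[ℝ] E) ∈ Submodule.span ℂ (L '' {j | j ≤ i})

/-- `N` is a group acting cocompactly modulo its polynomial invariants, and properly -/
structure GoodP (hol : Γ →* (E ≃ᵃ[ℝ] E)) (Ω : Set E) (N : Subgroup Γ) : Prop where
  cocpt : ∀ Y : Set E, (∀ f ∈ RN hol N, ∃ b : ℝ, ∀ y ∈ Y, ‖f y‖ ≤ b) →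
    ∃ R : ℝ, ∀ y ∈ Y, ∃ n ∈ N, ‖hol n y‖ ≤ R
  prop : ∀ (n : ℕ → Γ) (w : ℕ → E) (w0 q : E), (∀ k, n k ∈ N) → Tendsto w atTop (𝓝 w0) →
    w0 ∈ Ω → Tendsto (fun k => hol (n k) (w k)) atTop (𝓝 q) → q ∈ Ω

end

section
variable {G M : Type} [AddCommGroup M] [Module ℂ M]

/-- invariant subspace -/
def Inv (act : G → (M →ₗ[ℂ] M)) (V : Submodule ℂ M) : Prop := ∀ g, ∀ f ∈ V, act g f ∈ V

/-- the action is triangular on `V` -/
def Tri (act : G → (M →ₗ[ℂ] M)) (V : Submodule ℂ M) : Prop :=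
  ∃ (l : ℕ) (c : ℕ → Submodule ℂ M), c 0 = ⊥ ∧ c l = V ∧ (∀ j, Inv act (c j)) ∧
    ∀ j, ∃ v, c (j + 1) = c j ⊔ Submodule.span ℂ {v}

/-- `σ` is the exponential of the locally nilpotent operator `D` -/
def ExpOf (σ D : Module.End ℂ M) : Prop :=
  (∀ f, ∃ n, (D ^ n) f = 0) ∧ ∀ f n, (D ^ n) f = 0 → ∀ k : ℕ,
    (σ ^ k) f = ∑ m ∈ Finset.range n, ((k : ℂ) ^ m / (m.factorial : ℂ)) • (D ^ m) f

end

section
variable {Γ E : Type} [Group Γ] [NormedAddCommGroup E] [NormedSpace ℝ E]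

/-- the ring of polynomial invariants of `N` as a type -/
def RT (hol : Γ →* (E ≃ᵃ[ℝ] E)) (N : Subgroup Γ) : Type := RN hol N

noncomputable instance (hol : Γ →* (E ≃ᵃ[ℝ] E)) (N : Subgroup Γ) : CommRing (RT hol N) :=
  inferInstanceAs (CommRing (RN hol N))

noncomputable instance (hol : Γ →* (E ≃ᵃ[ℝ] E)) (N : Subgroup Γ) : Algebra ℂ (RT hol N) :=
  inferInstanceAs (Algebra ℂ (RN hol N))

/-- elements of `RT hol N` as functions -/
noncomputable def ev (hol : Γ →* (E ≃ᵃ[ℝ] E)) (N : Subgroup Γ) : RT hol N →ₐ[ℂ] (E → ℂ) := (RN hol N).val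

theorem ev_injective (hol : Γ →* (E ≃ᵃ[ℝ] E)) (N : Subgroup Γ) :
    Function.Injective (ev hol N) := fun _ _ h => Subtype.ext h

theorem ev_mem (hol : Γ →* (E ≃ᵃ[ℝ] E)) (N : Subgroup Γ) (f : RT hol N) :
    ev hol N f ∈ RN hol N := (show RN hol N from f).2

theorem exists_ev (hol : Γ →* (E ≃ᵃ[ℝ] E)) (N : Subgroup Γ) {g : E → ℂ} (hg : g ∈ RN hol N) :
    ∃ f : RT hol N, ev hol N f = g := ⟨(⟨g, hg⟩ : RN hol N), rfl⟩

/-- the polynomial invariants of degree at most `d` -/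
noncomputable def Rd (hol : Γ →* (E ≃ᵃ[ℝ] E)) (N : Subgroup Γ) (d : ℕ) : Submodule ℂ (RT hol N) :=
  (PF E d).comap (ev hol N).toLinearMap

/-- `D` is a logarithm of the action of `a` on the ring of polynomial invariants of `N` -/
def LogOf (hol : Γ →* (E ≃ᵃ[ℝ] E)) (N : Subgroup Γ) (a : Γ) (D : Module.End ℂ (RT hol N)) : Prop :=
  ∃ σ : Module.End ℂ (RT hol N), (∀ f x, ev hol N (σ f) x = ev hol N f (hol a x)) ∧ ExpOf σ D

/-- the span of the logarithms of the elements of `A` -/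
noncomputable def LA (hol : Γ →* (E ≃ᵃ[ℝ] E)) (N A : Subgroup Γ) : Submodule ℂ (Module.End ℂ (RT hol N)) :=
  Submodule.span ℂ {D | ∃ a ∈ A, LogOf hol N a D}

end

end Pool.Agent.Y449.MS
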