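import Pool.Agent.Y449.MS.StmA

/-!
Project MS: solvable linear groups are virtually triangular.
-/

set_option autoImplicit false

namespace Pool.Agent.Y449.MS.MAL

/-- the restriction of an action to an invariant subspace -/
theorem exists_sub {G V : Type} [Group G] [AddCommGroup V] [Module ℂ V]
    (ρ : G →* (V ≃ₗ[ℂ] V)) (W : Submodule ℂ V) (hW : ∀ g, ∀ v ∈ W, ρ g v ∈ W) :
    ∃ ρ' : G →* (W ≃ₗ[ℂ] W), ∀ g (w : W), ((ρ' g w : W) : V) = ρ g w := by
  let f : G →* Module.End ℂ W :=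
    { toFun := fun g => (ρ g).toLinearMap.restrict (fun v hv => hW g v hv)
      map_one' := by
        ext w
        show ρ 1 w.1 = w.1
        rw [map_one]
        rfl
      map_mul' := by
        intro g g'
        ext w
        show ρ (g * g') w.1 = ρ g (ρ g' w.1)
        rw [map_mul]
        rfl }
  exact ⟨(LinearMap.GeneralLinearGroup.generalLinearEquiv ℂ W).toMonoidHom.comp f.toHomUnits,
    fun g w => rfl⟩

/-- the action on the quotient -/
theorem exists_quot {G V : Type} [Group G] [AddCommGroup V] [Module ℂ V]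
    (ρ : G →* (V ≃ₗ[ℂ] V)) (W : Submodule ℂ V) (hW : ∀ g, ∀ v ∈ W, ρ g v ∈ W) :
    ∃ ρ' : G →* ((V ⧸ W) ≃ₗ[ℂ] (V ⧸ W)), ∀ g (v : V), ρ' g (W.mkQ v) = W.mkQ (ρ g v) := by
  let f : G →* Module.End ℂ (V ⧸ W) :=
    { toFun := fun g => W.mapQ W (ρ g).toLinearMap (fun v hv => hW g v hv)
      map_one' := by
        apply Submodule.linearMap_qext
        ext v
        show W.mkQ (ρ 1 v) = W.mkQ v
        rw [map_one]
        rfl
      map_mul' := by
        intro g g'
        apply Submodule.linearMap_qext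
        ext v
        show W.mkQ (ρ (g * g') v) = W.mkQ (ρ g (ρ g' v))
        rw [map_mul]
        rfl }
  exact ⟨(LinearMap.GeneralLinearGroup.generalLinearEquiv ℂ (V ⧸ W)).toMonoidHom.comp f.toHomUnits,
    fun g w => rfl⟩

theorem glue {G V : Type} [Group G] [AddCommGroup V] [Module ℂ V]
    (ρ : G →* (V ≃ₗ[ℂ] V)) (W : Submodule ℂ V) (H : Subgroup G)
    (c1 : ℕ → Submodule ℂ W) (c2 : ℕ → Submodule ℂ (V ⧸ W)) (l1 l2 : ℕ)
    (h10 : c1 0 = ⊥) (h1l : c1 l1 = ⊤) (h20 : c2 0 = ⊥) (h2l : c2 l2 = ⊤)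
    (hi1 : ∀ j, ∀ h ∈ H, ∀ w ∈ c1 j, ∃ w' ∈ c1 j, (w' : V) = ρ h w)
    (hi2 : ∀ j, ∀ h ∈ H, ∀ v, W.mkQ v ∈ c2 j → W.mkQ (ρ h v) ∈ c2 j)
    (hs1 : ∀ j, ∃ v, c1 (j + 1) = c1 j ⊔ Submodule.span ℂ {v})
    (hs2 : ∀ j, ∃ v, c2 (j + 1) = c2 j ⊔ Submodule.span ℂ {v}) :
    Tri (fun h : H => (ρ (h : G)).toLinearMap) (⊤ : Submodule ℂ V) := by
  classical
  let c : ℕ → Submodule ℂ V := fun j =>
    if j ≤ l1 then (c1 j).map W.subtype else (c2 (j - l1)).comap W.mkQ
  have hc1 : ∀ j, j ≤ l1 → c j = (c1 j).map W.subtype := fun j hj => if_pos hj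
  have hmid : (c1 l1).map W.subtype = (c2 0).comap W.mkQ := by
    rw [h1l, h20, Submodule.map_subtype_top, Submodule.comap_bot, Submodule.ker_mkQ]
  have hc2 : ∀ j, l1 ≤ j → c j = (c2 (j - l1)).comap W.mkQ := by
    intro j hj
    rcases hj.eq_or_lt with h | h
    · rw [hc1 j h.ge, ← h, Nat.sub_self, hmid]
    · exact if_neg (not_le.2 h)
  refine ⟨l1 + l2, c, ?_, ?_, ?_, ?_⟩
  · rw [hc1 0 (Nat.zero_le _), h10, Submodule.map_bot]
  · rw [hc2 _ (Nat.le_add_right _ _), Nat.add_sub_cancel_left, h2l, Submodule.comap_top]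
  · intro j h f hf
    show ρ (h : G) f ∈ c j
    rcases le_total j l1 with hj | hj
    · rw [hc1 j hj] at hf ⊢
      obtain ⟨w, hw, rfl⟩ := hf
      obtain ⟨w', hw', h2⟩ := hi1 j h.1 h.2 w hw
      exact ⟨w', hw', h2⟩
    · rw [hc2 j hj] at hf ⊢
      exact hi2 _ h.1 h.2 f hf
  · intro j
    rcases Nat.lt_or_ge j l1 with hj | hj
    · obtain ⟨v, hv⟩ := hs1 j
      refine ⟨(v : V), ?_⟩
      rw [hc1 j hj.le, hc1 (j + 1) hj, hv, Submodule.map_sup, Submodule.map_span,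
        Set.image_singleton]
      rfl
    · obtain ⟨v, hv⟩ := hs2 (j - l1)
      obtain ⟨v, rfl⟩ := W.mkQ_surjective v
      refine ⟨v, ?_⟩
      rw [hc2 j hj, hc2 (j + 1) (by omega), show j + 1 - l1 = (j - l1) + 1 by omega, hv]
      apply le_antisymm
      · intro x hx
        rw [Submodule.mem_comap, Submodule.mem_sup] at hx
        obtain ⟨y, hy, z, hz, hyz⟩ := hx
        obtain ⟨t, rfl⟩ := Submodule.mem_span_singleton.1 hz
        rw [Submodule.mem_sup]
        refine ⟨x - t • v, ?_, t • v, Submodule.mem_span_singleton.2 ⟨t, rfl⟩, sub_add_cancel _ _⟩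
        rw [Submodule.mem_comap, map_sub, map_smul, ← hyz, add_sub_cancel_right]
        exact hy
      · refine sup_le (Submodule.comap_mono le_sup_left) ?_
        rw [Submodule.span_singleton_le_iff_mem, Submodule.mem_comap]
        exact Submodule.mem_sup_right (Submodule.mem_span_singleton_self _)

theorem aux (h3 : S_M3) : ∀ (n : ℕ) (G V : Type) [Group G] [AddCommGroup V] [Module ℂ V]
    [FiniteDimensional ℂ V] (ρ : G →* (V ≃ₗ[ℂ] V)), Group.IsSolvable G →
    Module.finrank ℂ V = n →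
  ∃ H : Subgroup G, H.FiniteIndex ∧
    Tri (fun h : H => (ρ (h : G)).toLinearMap) (⊤ : Submodule ℂ V) := by
  intro n
  induction n using Nat.strong_induction_on with
  | _ n ih =>
  intro G V _ _ _ _ ρ hG hn
  rcases Nat.lt_or_ge n 2 with h2 | h2
  · refine ⟨⊤, inferInstance, 1, fun j => if j = 0 then ⊥ else ⊤, if_pos rfl, if_neg one_ne_zero,
      ?_, ?_⟩
    · intro j g f hf
      by_cases hj : j = 0
      · simp only [if_pos hj] at hf ⊢
        rw [Submodule.mem_bot] at hf ⊢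
        rw [hf, map_zero]
      · simp only [if_neg hj] at hf ⊢
        exact Submodule.mem_top
    · intro j
      by_cases hj : j = 0
      · have h1 : Module.finrank ℂ V ≤ 1 := by omega
        obtain ⟨v, hv⟩ := finrank_le_one_iff.1 h1
        refine ⟨v, ?_⟩
        simp only [if_pos hj, if_neg (Nat.succ_ne_zero j), bot_sup_eq]
        symm
        rw [eq_top_iff]
        intro w _
        obtain ⟨c, hc⟩ := hv w
        exact Submodule.mem_span_singleton.2 ⟨c, hc⟩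
      · refine ⟨0, ?_⟩
        simp only [if_neg hj, if_neg (Nat.succ_ne_zero j), top_sup_eq]
  · obtain ⟨H0, W, hfi, hWb, hWt, hinv⟩ := h3 G V ρ hG (by omega)
    have hs0 : Group.IsSolvable H0 := inferInstance
    let ρ0 : H0 →* (V ≃ₗ[ℂ] V) := ρ.comp H0.subtype
    obtain ⟨ρ1, hρ1⟩ := exists_sub ρ0 W (fun g v hv => hinv g.1 g.2 v hv)
    obtain ⟨ρ2, hρ2⟩ := exists_quot ρ0 W (fun g v hv => hinv g.1 g.2 v hv)
    have hd1 : Module.finrank ℂ W < n := by
      rw [← hn]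
      exact Submodule.finrank_lt hWt
    have hd2 : Module.finrank ℂ (V ⧸ W) < n := by
      have h4 := Submodule.finrank_quotient_add_finrank W
      have h5 : 0 < Module.finrank ℂ W := by
        rw [Module.finrank_pos_iff]
        exact (Submodule.nontrivial_iff_ne_bot).2 hWb
      omega
    obtain ⟨H1, hf1, l1, c1, h10, h1l, h1i, h1s⟩ := ih _ hd1 H0 W ρ1 hs0 rfl
    obtain ⟨H2, hf2, l2, c2, h20, h2l, h2i, h2s⟩ := ih _ hd2 H0 (V ⧸ W) ρ2 hs0 rfl
    refine ⟨(H1 ⊓ H2).map H0.subtype, ?_, ?_⟩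
    · refine ⟨?_⟩
      rw [Subgroup.index_map_subtype]
      have : (H1 ⊓ H2).FiniteIndex := inferInstance
      exact mul_ne_zero this.index_ne_zero hfi.index_ne_zero
    · refine glue ρ W _ c1 c2 l1 l2 h10 h1l h20 h2l ?_ ?_ h1s h2s
      · rintro j _ ⟨h, hh, rfl⟩ w hw
        exact ⟨ρ1 h w, h1i j ⟨h, hh.1⟩ w hw, hρ1 h w⟩
      · rintro j _ ⟨h, hh, rfl⟩ v hv
        have h6 := h2i j ⟨h, hh.2⟩ _ hv
        have h7 := hρ2 h v
        change W.mkQ (ρ0 h v) ∈ c2 j
        rw [← h7]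
        exact h6

theorem main (h : S_M3) : S_MAL := by
  intro G V _ _ _ _ ρ hG
  exact aux h _ G V ρ hG rfl

end Pool.Agent.Y449.MS.MAL
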