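import Pool.Agent.Y449.MS.StmA

/-!
Project MS: basic facts on polynomial functions.
-/

set_option autoImplicit false

open Set Filter Topology Metric

namespace Pool.Agent.Y449.MS.PF

open Pool.Agent.Y449.MS

variable {E : Type} [NormedAddCommGroup E] [NormedSpace ℝ E]

theorem PF_one : MS.PF E 1 = AF E := pow_one _

/-- the map `(L, c) ↦ (x ↦ L x + c)` -/
noncomputable def Phi (E : Type) [NormedAddCommGroup E] [NormedSpace ℝ E] :
    ((E →ₗ[ℝ] ℂ) × ℂ) →ₗ[ℂ] (E → ℂ) where
  toFun q := fun x => q.1 x + q.2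
  map_add' q r := by
    ext x
    simp only [Prod.fst_add, Prod.snd_add, LinearMap.add_apply, Pi.add_apply]
    ring
  map_smul' a q := by
    ext x
    simp only [Prod.smul_fst, Prod.smul_snd, LinearMap.smul_apply, Pi.smul_apply, smul_eq_mul,
      RingHom.id_apply]
    ring

theorem AF_eq : AF E = LinearMap.range (Phi E) := by
  ext f
  rw [LinearMap.mem_range]
  constructor
  · rintro ⟨L, c, h⟩
    exact ⟨(L, c), by ext x; rw [h]; rfl⟩
  · rintro ⟨⟨L, c⟩, h⟩
    exact ⟨L, c, fun x => by rw [← h]; rfl⟩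

theorem fin_dim [FiniteDimensional ℝ E] (d : ℕ) : FiniteDimensional ℂ (MS.PF E d) := by
  have h0 : Module.Finite ℝ (E →ₗ[ℝ] ℂ) := inferInstance
  have h1 : Module.Finite ℂ (E →ₗ[ℝ] ℂ) := Module.Finite.of_restrictScalars_finite ℝ ℂ _
  have h2 : (AF E).FG := by
    rw [AF_eq, ← Module.Finite.iff_fg]
    infer_instance
  have h3 : (MS.PF E d).FG := h2.pow d
  exact Module.Finite.iff_fg.2 h3

/-- composition with a map, as an algebra homomorphism -/
noncomputable def compHom (g : E → E) : (E → ℂ) →ₐ[ℂ] (E → ℂ) where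
  toFun f := fun x => f (g x)
  map_one' := rfl
  map_mul' _ _ := rfl
  map_zero' := rfl
  map_add' _ _ := rfl
  commutes' _ := rfl

theorem comp_mem (d : ℕ) {f : E → ℂ} (hf : f ∈ MS.PF E d) (g : E ≃ᵃ[ℝ] E) :
    (fun x => f (g x)) ∈ MS.PF E d := by
  have h1 : (AF E).map (compHom (fun x => g x)).toLinearMap ≤ AF E := by
    rintro _ ⟨f, ⟨L, c, h⟩, rfl⟩
    refine ⟨L.comp (g.linear : E →ₗ[ℝ] E), L (g 0) + c, fun x => ?_⟩
    have h2 : g x = g.linear x + g 0 := by
      have := g.map_vadd 0 x
      simpa using this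
    show f (g x) = _
    rw [h, h2, map_add, LinearMap.comp_apply]
    simp only [LinearEquiv.coe_coe]
    ring
  have h2 : (MS.PF E d).map (compHom (fun x => g x)).toLinearMap ≤ MS.PF E d := by
    unfold MS.PF
    rw [Submodule.map_pow]
    exact pow_le_pow_left' h1 d
  exact h2 ⟨f, hf, rfl⟩

theorem const_of_mem {f : E → ℂ} (hf : f ∈ MS.PF E 0) : ∃ c : ℂ, ∀ x, f x = c := by
  unfold MS.PF at hf
  rw [pow_zero, Submodule.mem_one] at hf
  obtain ⟨c, h⟩ := hf
  exact ⟨c, fun x => by rw [← h]; rfl⟩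

theorem AF_diff [FiniteDimensional ℝ E] {L : E →ₗ[ℝ] ℂ} {c : ℂ} {f : E → ℂ}
    (h : ∀ x, f x = L x + c) (x : E) : HasFDerivAt f (LinearMap.toContinuousLinearMap L) x := by
  have h1 : f = fun x => LinearMap.toContinuousLinearMap L x + c := by
    ext x
    rw [h]
    rfl
  rw [h1]
  exact (LinearMap.toContinuousLinearMap L).hasFDerivAt.add_const c

theorem diff [FiniteDimensional ℝ E] (d : ℕ) {f : E → ℂ} (hf : f ∈ MS.PF E d) :
    Differentiable ℝ f := by
  unfold MS.PF at hf
  induction hf using Submodule.pow_induction_on_right' with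
  | algebraMap r => exact differentiable_const r
  | add x y i hx hy h1 h2 => exact h1.add h2
  | mul_mem i x hx h1 m hm =>
    obtain ⟨L, c, h⟩ := hm
    exact h1.mul (fun z => (AF_diff h z).differentiableAt)

theorem conj_mem (d : ℕ) {f : E → ℂ} (hf : f ∈ MS.PF E d) :
    (fun x => (starRingEnd ℂ) (f x)) ∈ MS.PF E d := by
  unfold MS.PF at hf
  induction hf using Submodule.pow_induction_on_right' with
  | algebraMap r => exact const_mem_PF 0 ((starRingEnd ℂ) r)
  | add x y i hx hy h1 h2 =>
    have := Submodule.add_mem _ h1 h2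
    have e : (fun z => (starRingEnd ℂ) ((x + y) z)) =
        (fun z => (starRingEnd ℂ) (x z)) + fun z => (starRingEnd ℂ) (y z) := by
      ext z
      simp
    rw [e]
    exact this
  | mul_mem i x hx h1 m hm =>
    obtain ⟨L, c, h⟩ := hm
    have h2 : (fun z => (starRingEnd ℂ) (m z)) ∈ MS.PF E 1 := by
      rw [PF_one]
      refine ⟨(Complex.conjAe.toLinearMap).comp L, (starRingEnd ℂ) c, fun z => ?_⟩
      show (starRingEnd ℂ) (m z) = _
      rw [h, map_add]
      rfl
    have := PF_mul h1 h2
    have e : (fun z => (starRingEnd ℂ) ((x * m) z)) =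
        (fun z => (starRingEnd ℂ) (x z)) * fun z => (starRingEnd ℂ) (m z) := by
      ext z
      simp
    rw [e]
    exact this

theorem deriv_mem [FiniteDimensional ℝ E] (d : ℕ) {f : E → ℂ} (hf : f ∈ MS.PF E d) (v : E) :
    (fun x => fderiv ℝ f x v) ∈ MS.PF E (d - 1) := by
  unfold MS.PF at hf
  induction hf using Submodule.pow_induction_on_right' with
  | algebraMap r =>
    have e : (fun x : E => fderiv ℝ ((algebraMap ℂ (E → ℂ)) r) x v) = fun _ => (0 : ℂ) := by
      ext x
      have : (algebraMap ℂ (E → ℂ)) r = fun _ => r := rfl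
      rw [this]
      simp
    rw [e]
    exact const_mem_PF _ 0
  | add x y i hx hy h1 h2 =>
    have e : (fun z => fderiv ℝ (x + y) z v) = (fun z => fderiv ℝ x z v) +
        fun z => fderiv ℝ y z v := by
      ext z
      rw [fderiv_add (diff i hx z) (diff i hy z)]
      rfl
    rw [e]
    exact Submodule.add_mem _ h1 h2
  | mul_mem i x hx h1 m hm =>
    have hm1 : m ∈ MS.PF E 1 := by rw [PF_one]; exact hm
    obtain ⟨L, c, h⟩ := hm
    have e : (fun z => fderiv ℝ (x * m) z v) = x * (fun _ => L v) +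
        m * (fun z => fderiv ℝ x z v) := by
      ext z
      rw [((diff i hx z).hasFDerivAt.mul (AF_diff h z)).fderiv]
      simp
    rw [e]
    have h3 : x * (fun _ => L v) ∈ MS.PF E i := PF_mul (d := i) (e := 0) hx (const_mem_PF 0 (L v))
    show _ ∈ MS.PF E (i + 1 - 1)
    rw [Nat.add_sub_cancel]
    refine Submodule.add_mem _ h3 ?_
    rcases i with _ | i
    · obtain ⟨c', hc'⟩ := const_of_mem (E := E) hx
      have e2 : m * (fun z => fderiv ℝ x z v) = fun _ => (0 : ℂ) := by
        have : x = fun _ => c' := funext hc'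
        ext z
        rw [Pi.mul_apply, this]
        simp
      rw [e2]
      exact const_mem_PF _ 0
    · have := PF_mul hm1 h1
      rw [Nat.add_sub_cancel, add_comm] at this
      exact this

theorem main : S_PF := by
  intro E _ _ _
  exact ⟨fun d => fin_dim d, fun d f hf g => comp_mem d hf g, fun d f hf => diff d hf,
    fun d f hf => conj_mem d hf, fun f hf => const_of_mem hf,
    fun d f hf v => deriv_mem (d + 1) hf v⟩

end Pool.Agent.Y449.MS.PF
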