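import Pool.Agent.Y449.MS.Defs

/-!
Project MS: exact statements of the jobs which need only Mathlib.
-/

set_option autoImplicit false

open Set Filter Topology MeasureTheory Metric
open scoped ENNReal

namespace Pool.Agent.Y449.MS

/-- basic facts on polynomial functions -/
def S_PF : Prop := ∀ (E : Type) [NormedAddCommGroup E] [NormedSpace ℝ E] [FiniteDimensional ℝ E],
  (∀ d, FiniteDimensional ℂ (PF E d)) ∧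
  (∀ (d : ℕ) (f : E → ℂ), f ∈ PF E d → ∀ g : E ≃ᵃ[ℝ] E, (fun x => f (g x)) ∈ PF E d) ∧
  (∀ (d : ℕ) (f : E → ℂ), f ∈ PF E d → Differentiable ℝ f) ∧
  (∀ (d : ℕ) (f : E → ℂ), f ∈ PF E d → (fun x => (starRingEnd ℂ) (f x)) ∈ PF E d) ∧
  (∀ f : E → ℂ, f ∈ PF E 0 → ∃ c : ℂ, ∀ x, f x = c) ∧
  (∀ (d : ℕ) (f : E → ℂ), f ∈ PF E (d + 1) → ∀ v : E, (fun x => fderiv ℝ f x v) ∈ PF E d)

/-- triangular actions: eigenvectors and invariant hyperplanes of invariant subspaces -/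
def S_TRI : Prop := ∀ (G M : Type) [AddCommGroup M] [Module ℂ M] (act : G → (M →ₗ[ℂ] M))
    (V : Submodule ℂ M), Tri act V →
  ∀ W : Submodule ℂ M, W ≤ V → Inv act W → W ≠ ⊥ →
    (∃ f ∈ W, f ≠ 0 ∧ ∀ g, ∃ c : ℂ, act g f = c • f) ∧
    (∃ (W' : Submodule ℂ M) (w : M), W' ≤ W ∧ Inv act W' ∧ w ∈ W ∧ w ∉ W' ∧
      W = W' ⊔ Submodule.span ℂ {w})

/-- preimages of triangular spaces under injective equivariant maps -/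
def S_TRISUB : Prop := ∀ (G G' M M' : Type) [AddCommGroup M] [Module ℂ M] [AddCommGroup M']
    [Module ℂ M'] (act : G → (M →ₗ[ℂ] M)) (act' : G' → (M' →ₗ[ℂ] M')) (ι : M' →ₗ[ℂ] M),
  Function.Injective ι → (∀ g', ∃ g, ∀ f, ι (act' g' f) = act g (ι f)) →
  ∀ V : Submodule ℂ M, Tri act V → Tri act' (V.comap ι)

/-- invariant hyperplanes in spaces of operators -/
def S_HYP : Prop := ∀ (S G : Type) [AddCommGroup S] [Module ℂ S] [Group G]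
    (act : G →* (S ≃ₗ[ℂ] S)) (Sd : ℕ → Submodule ℂ S), Monotone Sd → (∀ f, ∃ d, f ∈ Sd d) →
  (∀ d, Tri (fun g => (act g).toLinearMap) (Sd d)) →
  ∀ 𝔟 : Submodule ℂ (Module.End ℂ S), FiniteDimensional ℂ 𝔟 →
    (∀ g, ∀ D ∈ 𝔟, ((act g).toLinearMap * D * (act g⁻¹).toLinearMap : Module.End ℂ S) ∈ 𝔟) →
    𝔟 ≠ ⊥ → ∃ (𝔟' : Submodule ℂ (Module.End ℂ S)) (D0 : Module.End ℂ S), 𝔟' ≤ 𝔟 ∧
      (∀ g, ∀ D ∈ 𝔟', ((act g).toLinearMap * D * (act g⁻¹).toLinearMap : Module.End ℂ S) ∈ 𝔟') ∧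
      D0 ∈ 𝔟 ∧ D0 ∉ 𝔟' ∧ 𝔟 = 𝔟' ⊔ Submodule.span ℂ {D0}

/-- polynomial functions form triangular spaces; the commutator subgroup is unipotent -/
def S_TRIPF : Prop := ∀ (Γ E : Type) [Group Γ] [NormedAddCommGroup E] [NormedSpace ℝ E]
    [FiniteDimensional ℝ E] (hol : Γ →* (E ≃ᵃ[ℝ] E)), TriL hol → ∀ d : ℕ,
  Tri (pc hol) (PF E d) ∧
  ∀ a ∈ commutator Γ, ∀ f ∈ PF E d, ∃ n : ℕ, ((pc hol a - 1 : Module.End ℂ (E → ℂ)) ^ n) f = 0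

/-- locally unipotent operators have logarithms -/
def S_LOG : Prop := ∀ (M : Type) [AddCommGroup M] [Module ℂ M] (σ : Module.End ℂ M),
  (∀ f, ∃ n : ℕ, ((σ - 1 : Module.End ℂ M) ^ n) f = 0) → ∃ D : Module.End ℂ M, ExpOf σ D

/-- logarithms commute with intertwining (real linear) maps -/
def S_LOGCOMM : Prop := ∀ (M M' : Type) [AddCommGroup M] [Module ℂ M] [AddCommGroup M']
    [Module ℂ M'] (σ D : Module.End ℂ M) (σ' D' : Module.End ℂ M') (τ : M →+ M'),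
  ExpOf σ D → ExpOf σ' D' → (∀ (r : ℝ) f, τ ((r : ℂ) • f) = (r : ℂ) • τ f) →
  (∀ f, τ (σ f) = σ' (τ f)) → ∀ f, τ (D f) = D' (τ f)

/-- logarithms of ring automorphisms are derivations -/
def S_LOGDER : Prop := ∀ (S : Type) [CommRing S] [Algebra ℂ S] (σ D : Module.End ℂ S),
  ExpOf σ D → (∀ f g, σ (f * g) = σ f * σ g) → ∀ f g, D (f * g) = D f * g + f * D g

/-- spans of commuting locally nilpotent operators -/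
def S_LNIL : Prop := ∀ (M : Type) [AddCommGroup M] [Module ℂ M] (s : Set (Module.End ℂ M)),
  (∀ D ∈ s, ∀ f, ∃ n, (D ^ n) f = 0) → (∀ D ∈ s, ∀ D' ∈ s, ∀ f, D (D' f) = D' (D f)) →
  (∀ D ∈ Submodule.span ℂ s, ∀ D' ∈ Submodule.span ℂ s, ∀ f, D (D' f) = D' (D f)) ∧
  ∀ D ∈ Submodule.span ℂ s, ∀ f, ∃ n, (D ^ n) f = 0

/-- one locally nilpotent derivation with a slice -/
def S_DIX : Prop := ∀ (S : Type) [CommRing S] [Algebra ℂ S] (D : Module.End ℂ S)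
    (S' : Subalgebra ℂ S) (s : S), (∀ f g, D (f * g) = D f * g + f * D g) →
  (∀ f, ∃ n, (D ^ n) f = 0) → (∀ f ∈ S', D f ∈ S') → s ∈ S' → D s = 1 →
  (∀ g ∈ S', ∃ h ∈ S', D h = g) ∧
  S' ≤ Algebra.adjoin ℂ ({f : S | f ∈ S' ∧ D f = 0} ∪ {s})

/-- slices for commuting locally nilpotent derivations -/
def S_ALG : Prop := ∀ (S G : Type) [CommRing S] [Algebra ℂ S] [Group G]
    (act : G →* (S ≃ₐ[ℂ] S)) (𝔞 : Submodule ℂ (Module.End ℂ S)),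
  FiniteDimensional ℂ 𝔞 →
  (∀ D ∈ 𝔞, ∀ f g : S, D (f * g) = D f * g + f * D g) →
  (∀ D ∈ 𝔞, ∀ D' ∈ 𝔞, ∀ f : S, D (D' f) = D' (D f)) →
  (∀ D ∈ 𝔞, ∀ f : S, ∃ n, (D ^ n) f = 0) →
  -- invariant subspaces contain the constants
  (∀ V : Submodule ℂ S, (∀ g, ∀ f ∈ V, act g f ∈ V) → V ≠ ⊥ → (1 : S) ∈ V) →
  -- invariant hyperplanes
  (∀ 𝔟 : Submodule ℂ (Module.End ℂ S), 𝔟 ≤ 𝔞 →
    (∀ g, ∀ D ∈ 𝔟, ((act g).toLinearMap * D * (act g⁻¹).toLinearMap : Module.End ℂ S) ∈ 𝔟) →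
    𝔟 ≠ ⊥ → ∃ (𝔟' : Submodule ℂ (Module.End ℂ S)) (D0 : Module.End ℂ S), 𝔟' ≤ 𝔟 ∧
      (∀ g, ∀ D ∈ 𝔟', ((act g).toLinearMap * D * (act g⁻¹).toLinearMap : Module.End ℂ S) ∈ 𝔟') ∧
      D0 ∈ 𝔟 ∧ D0 ∉ 𝔟' ∧ 𝔟 = 𝔟' ⊔ Submodule.span ℂ {D0}) →
  (∀ g, ∀ D ∈ 𝔞, ((act g).toLinearMap * D * (act g⁻¹).toLinearMap : Module.End ℂ S) ∈ 𝔞) →
  -- generic freeness
  (∀ (k : ℕ) (D0 : Module.End ℂ S) (D : Fin k → Module.End ℂ S) (h : Fin k → S), D0 ∈ 𝔞 →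
    (∀ j, D j ∈ 𝔞) → D0 ∉ Submodule.span ℂ (range D) → ¬ ∀ f, D0 f = ∑ j, h j * D j f) →
  (∀ φ : 𝔞 →ₗ[ℂ] ℂ, ∃ t : S, ∀ D : 𝔞, (D : Module.End ℂ S) t = algebraMap ℂ S (φ D)) ∧
  Algebra.adjoin ℂ ({f : S | ∀ D ∈ 𝔞, D f = 0} ∪
    {t : S | ∀ D ∈ 𝔞, ∃ c : ℂ, D t = algebraMap ℂ S c}) = ⊤

/-- complex determinants by interpolation of real ones -/
def S_DET : Prop := ∀ (E : Type) [NormedAddCommGroup E] [NormedSpace ℝ E] [FiniteDimensional ℝ E],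
  ∃ (N : ℕ) (s t c : Fin N → ℝ), ∀ A1 A2 : E →L[ℝ] E,
    (∃ φ : E →L[ℝ] ℂ, φ ≠ 0 ∧ ∀ v, φ v + φ (A1 v) + Complex.I * φ (A2 v) = 0) →
    ∑ j, c j * ((ContinuousLinearMap.id ℝ E + (s j • A1 + t j • A2)).det - 1) = -1

/-- bounded translates in a degenerate direction -/
def S_FLOW : Prop := ∀ (Γ E : Type) [Group Γ] [NormedAddCommGroup E] [NormedSpace ℝ E]
    [FiniteDimensional ℝ E] (hol : Γ →* (E ≃ᵃ[ℝ] E)) (N : Subgroup Γ) (k : ℕ) (a : Fin k → Γ)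
    (D : Fin k → Module.End ℂ (RT hol N)) (p : E) (r : ℝ), N.Normal →
  (∀ i j, a i * a j * (a i)⁻¹ * (a j)⁻¹ ∈ N) → (∀ i, LogOf hol N (a i) (D i)) →
  (∀ i j f, D i (D j f) = D j (D i f)) →
  LinearIndependent ℂ D →
  ∃ b : (E → ℂ) → ℝ, ∀ u ∈ ball p r, ∀ c : Fin k → ℝ, c ≠ 0 →
    (∀ f, ∑ i, (c i : ℂ) * ev hol N (D i f) u = 0) →
    ∀ T : Finset Γ, ∃ γ : Γ, (∀ f ∈ RN hol N, ‖f (hol γ u)‖ ≤ b f) ∧ ∀ δ ∈ T, γ * δ⁻¹ ∉ N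

/-- finitely many logarithms span all -/
def S_FD : Prop := ∀ (Γ E : Type) [Group Γ] [NormedAddCommGroup E] [NormedSpace ℝ E]
    [FiniteDimensional ℝ E] (hol : Γ →* (E ≃ᵃ[ℝ] E)) (N A : Subgroup Γ), N.Normal →
  (∀ a ∈ A, ∀ d, ∀ f ∈ PF E d, ∃ n : ℕ, ((pc hol a - 1 : Module.End ℂ (E → ℂ)) ^ n) f = 0) →
  FiniteDimensional ℂ (LA hol N A)

/-- a commuting normal subgroup which is not scalar -/
def S_M1 : Prop := ∀ (G V : Type) [Group G] [AddCommGroup V] [Module ℂ V]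
    [FiniteDimensional ℂ V] (ρ : G →* (V ≃ₗ[ℂ] V)) (Z : Subgroup G), Z.Normal →
  (∀ a ∈ Z, ∀ b ∈ Z, ∀ v, ρ a (ρ b v) = ρ b (ρ a v)) →
  (∃ a ∈ Z, ∀ c : ℂ, ∃ v, ρ a v ≠ c • v) →
  ∃ (H : Subgroup G) (W : Submodule ℂ V), H.FiniteIndex ∧ W ≠ ⊥ ∧ W ≠ ⊤ ∧
    ∀ h ∈ H, ∀ v ∈ W, ρ h v ∈ W

/-- a normal subgroup with scalar commutators which is not scalar -/
def S_M2 : Prop := ∀ (G V : Type) [Group G] [AddCommGroup V] [Module ℂ V]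
    [FiniteDimensional ℂ V] (ρ : G →* (V ≃ₗ[ℂ] V)) (K : Subgroup G), K.Normal →
  (∀ a ∈ K, ∀ b ∈ K, ∃ c : ℂ, ∀ v, ρ (a * b * a⁻¹ * b⁻¹) v = c • v) →
  (∃ a ∈ K, ∀ c : ℂ, ∃ v, ρ a v ≠ c • v) →
  ∃ (H : Subgroup G) (W : Submodule ℂ V), H.FiniteIndex ∧ W ≠ ⊥ ∧ W ≠ ⊤ ∧
    ∀ h ∈ H, ∀ v ∈ W, ρ h v ∈ W

/-- solvable linear groups in dimension at least two are virtually reducible -/
def S_M3 : Prop := ∀ (G V : Type) [Group G] [AddCommGroup V] [Module ℂ V]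
    [FiniteDimensional ℂ V] (ρ : G →* (V ≃ₗ[ℂ] V)), Group.IsSolvable G →
  2 ≤ Module.finrank ℂ V →
  ∃ (H : Subgroup G) (W : Submodule ℂ V), H.FiniteIndex ∧ W ≠ ⊥ ∧ W ≠ ⊤ ∧
    ∀ h ∈ H, ∀ v ∈ W, ρ h v ∈ W

/-- solvable linear groups have a subgroup of finite index which is triangular -/
def S_MAL : Prop := ∀ (G V : Type) [Group G] [AddCommGroup V] [Module ℂ V]
    [FiniteDimensional ℂ V] (ρ : G →* (V ≃ₗ[ℂ] V)), Group.IsSolvable G →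
  ∃ H : Subgroup G, H.FiniteIndex ∧
    Tri (fun h : H => (ρ (h : G)).toLinearMap) (⊤ : Submodule ℂ V)

end Pool.Agent.Y449.MS
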