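import Pool.Agent.Y449.MS.StmA
import Pool.Agent.Y449.MK.Sub
import Pool.Agent.W689.Mk.Prin2

/-!
Project MS: exact statements of the geometric jobs.
-/

set_option autoImplicit false

open Set Filter Topology MeasureTheory Metric
open scoped ENNReal
open Pool.Agent.W689.Mk Pool.Agent.TH94.MK Pool.Agent.Y449.MK

namespace Pool.Agent.Y449.MS

/-- the integral identity for two vector fields -/
def S_MASTER2 : Prop := ∀ (X Γ E : Type) [TopologicalSpace X] [T2Space X]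
    [SecondCountableTopology X] [Nonempty X] [Group Γ] [MulAction Γ X] [NormedAddCommGroup E]
    [NormedSpace ℝ E] [FiniteDimensional ℝ E] [MeasurableSpace E] [BorelSpace E] (dev : X → E)
    (hol : Γ →* (E ≃ᵃ[ℝ] E)) (lam : Measure E) [lam.IsAddHaarMeasure],
  AffData X Γ E dev hol → ∀ Z1 Z2 : X → E, VF dev hol Z1 → VF dev hol Z2 →
    ∃ (m : ℕ) (σ : Fin m → E → X) (p : Fin m → E) (r : Fin m → ℝ) (ρ : Fin m → X → ℝ),
      (∀ i, 0 < r i) ∧ (∀ i, Sec dev (ball (p i) (4 * r i)) (σ i)) ∧ (∀ i, Continuous (ρ i)) ∧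
      (∀ i x, 0 ≤ ρ i x) ∧ (∀ i x, ρ i x ≠ 0 → x ∈ σ i '' ball (p i) (r i)) ∧
      (∀ x, ∃ (γ : Γ) (i : Fin m), ρ i (γ • x) ≠ 0) ∧
      (∀ i, IntegrableOn (fun q => ρ i (σ i q)) (ball (p i) (r i)) lam) ∧
      (∀ i, ∀ᵐ q ∂lam, q ∈ ball (p i) (r i) →
        DifferentiableAt ℝ (fun q => Z1 (σ i q)) q ∧ DifferentiableAt ℝ (fun q => Z2 (σ i q)) q) ∧
      ∀ s t : ℝ,
        (∀ i, IntegrableOn (fun q => (dt (s • fderiv ℝ (fun q => Z1 (σ i q)) q +
          t • fderiv ℝ (fun q => Z2 (σ i q)) q) - 1) * ρ i (σ i q)) (ball (p i) (r i)) lam) ∧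
        ∑ i, ∫ q in ball (p i) (r i), (dt (s • fderiv ℝ (fun q => Z1 (σ i q)) q +
          t • fderiv ℝ (fun q => Z2 (σ i q)) q) - 1) * ρ i (σ i q) ∂lam = 0

/-- the volume principle for complex vector fields -/
def S_CP : Prop := ∀ (X Γ E : Type) [TopologicalSpace X] [T2Space X]
    [SecondCountableTopology X] [Nonempty X] [Group Γ] [MulAction Γ X] [NormedAddCommGroup E]
    [NormedSpace ℝ E] [FiniteDimensional ℝ E] (dev : X → E) (hol : Γ →* (E ≃ᵃ[ℝ] E)),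
  AffData X Γ E dev hol → ∀ Z1 Z2 : X → E, VF dev hol Z1 → VF dev hol Z2 →
    (∀ (U : Set E) (σ : E → X), Sec dev U σ → ∀ q ∈ U, ∀ A1 A2 : E →L[ℝ] E,
      HasFDerivAt (fun q => Z1 (σ q)) A1 q → HasFDerivAt (fun q => Z2 (σ q)) A2 q →
      ∃ φ : E →L[ℝ] ℂ, φ ≠ 0 ∧ ∀ v, φ v + φ (A1 v) + Complex.I * φ (A2 v) = 0) → False

/-- no eigenfunction has a constant nonzero directional derivative -/
def S_VP : Prop := ∀ (X Γ E : Type) [TopologicalSpace X] [T2Space X]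
    [SecondCountableTopology X] [Nonempty X] [Group Γ] [MulAction Γ X] [NormedAddCommGroup E]
    [NormedSpace ℝ E] [FiniteDimensional ℝ E] (dev : X → E) (hol : Γ →* (E ≃ᵃ[ℝ] E)),
  AffData X Γ E dev hol → ∀ (d : ℕ) (f : E → ℂ), f ∈ PF E d →
    (∀ γ : Γ, ∃ c : ℂ, ∀ x, f (hol γ x) = c * f x) → ∀ u1 u2 : E,
    (∀ x, fderiv ℝ f x u1 + Complex.I * fderiv ℝ f x u2 = 1) → False

/-- invariant spaces of polynomial functions contain the constants -/
def S_KEY : Prop := ∀ (X Γ E : Type) [TopologicalSpace X] [T2Space X]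
    [SecondCountableTopology X] [Nonempty X] [Group Γ] [MulAction Γ X] [NormedAddCommGroup E]
    [NormedSpace ℝ E] [FiniteDimensional ℝ E] (dev : X → E) (hol : Γ →* (E ≃ᵃ[ℝ] E)),
  AffData X Γ E dev hol → TriL hol → ∀ (d : ℕ) (V : Submodule ℂ (E → ℂ)), V ≤ PF E d →
    Inv (pc hol) V → V ≠ ⊥ → (1 : E → ℂ) ∈ V

/-- the integral bound -/
def S_INT : Prop := ∀ (X Γ E : Type) [NormedAddCommGroup E] [NormedSpace ℝ E]
    [FiniteDimensional ℝ E] [MeasurableSpace E] [BorelSpace E]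
    [TopologicalSpace X] [T2Space X] [SecondCountableTopology X] [Nonempty X] [Group Γ]
    [MulAction Γ X] (dev : X → E) (hol : Γ →* (E ≃ᵃ[ℝ] E)),
  AffData X Γ E dev hol → Function.Injective dev → ∀ (N : Subgroup Γ) (Y : Set E) (R : ℝ),
    MeasurableSet Y → (∀ y ∈ Y, ∃ n ∈ N, ‖hol n y‖ ≤ R) → ∀ (p : E) (r : ℝ),
    closedBall p r ⊆ range dev → ∃ B : ℝ≥0∞, B < ∞ ∧ ∀ J : Finset Γ,
      (∀ γ ∈ J, ∀ δ ∈ J, γ * δ⁻¹ ∈ N → γ = δ) →
      ∑ γ ∈ J, (Measure.addHaar : Measure E) (ball p r ∩ (hol γ) ⁻¹' Y) ≤ B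

/-- elements with bounded invariants on a ball lie in finitely many cosets -/
def S_COS : Prop := ∀ (X Γ E : Type) [NormedAddCommGroup E] [NormedSpace ℝ E]
    [FiniteDimensional ℝ E] [TopologicalSpace X] [T2Space X] [SecondCountableTopology X]
    [Nonempty X] [Group Γ] [MulAction Γ X] (dev : X → E) (hol : Γ →* (E ≃ᵃ[ℝ] E)),
  AffData X Γ E dev hol → Function.Injective dev → ∀ N : Subgroup Γ,
    GoodP hol (range dev) N → ∀ (n : ℕ → Γ) (w : ℕ → E) (w0 q : E) (r : ℝ), 0 < r →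
    closedBall w0 r ⊆ range dev → Tendsto w atTop (𝓝 w0) →
    Tendsto (fun k => hol (n k) (w k)) atTop (𝓝 q) →
    (∀ f ∈ RN hol N, ∃ b : ℝ, ∀ k, ∀ u ∈ ball w0 r, ‖f (hol (n k) u)‖ ≤ b) → q ∈ range dev

/-- not all points of a ball have infinitely many translates with bounded invariants, up to `N` -/
def S_GFI : Prop := ∀ (X Γ E : Type) [NormedAddCommGroup E] [NormedSpace ℝ E]
    [FiniteDimensional ℝ E] [TopologicalSpace X] [T2Space X] [SecondCountableTopology X]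
    [Nonempty X] [Group Γ] [MulAction Γ X] (dev : X → E) (hol : Γ →* (E ≃ᵃ[ℝ] E)),
  AffData X Γ E dev hol → Function.Injective dev → ∀ N : Subgroup Γ,
    GoodP hol (range dev) N → ∀ (p : E) (r : ℝ), 0 < r → closedBall p r ⊆ range dev →
    ∀ b : (E → ℂ) → ℝ, ¬ ∀ u ∈ ball p r, ∀ T : Finset Γ, ∃ γ : Γ,
      (∀ f ∈ RN hol N, ‖f (hol γ u)‖ ≤ b f) ∧ ∀ δ ∈ T, γ * δ⁻¹ ∉ N

/-- generic freeness -/
def S_FREE : Prop := ∀ (X Γ E : Type) [NormedAddCommGroup E] [NormedSpace ℝ E]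
    [FiniteDimensional ℝ E] [TopologicalSpace X] [T2Space X] [SecondCountableTopology X]
    [Nonempty X] [Group Γ] [MulAction Γ X] (dev : X → E) (hol : Γ →* (E ≃ᵃ[ℝ] E)),
  AffData X Γ E dev hol → Function.Injective dev → ∀ N A : Subgroup Γ, N.Normal → ⁅A, A⁆ ≤ N →
    GoodP hol (range dev) N → FiniteDimensional ℂ (LA hol N A) →
    (∀ D ∈ LA hol N A, ∀ D' ∈ LA hol N A, ∀ f, D (D' f) = D' (D f)) →
    ∀ (k : ℕ) (D0 : Module.End ℂ (RT hol N)) (D : Fin k → Module.End ℂ (RT hol N))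
      (h : Fin k → RT hol N), D0 ∈ LA hol N A → (∀ j, D j ∈ LA hol N A) →
      D0 ∉ Submodule.span ℂ (range D) → ¬ ∀ f, D0 f = ∑ j, h j * D j f

/-- commuting logarithms have slices -/
def S_SLICE : Prop := ∀ (X Γ E : Type) [NormedAddCommGroup E] [NormedSpace ℝ E]
    [FiniteDimensional ℝ E] [TopologicalSpace X] [T2Space X] [SecondCountableTopology X]
    [Nonempty X] [Group Γ] [MulAction Γ X] (dev : X → E) (hol : Γ →* (E ≃ᵃ[ℝ] E)),
  AffData X Γ E dev hol → Function.Injective dev → TriL hol → ∀ N A : Subgroup Γ,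
    N.Normal → A.Normal → N ≤ A → ⁅A, A⁆ ≤ N → A ≤ commutator Γ →
    GoodP hol (range dev) N →
    FiniteDimensional ℂ (LA hol N A) ∧
    (∀ a ∈ A, ∃ D, LogOf hol N a D) ∧
    (∀ D ∈ LA hol N A, ∀ f g : RT hol N, D (f * g) = D f * g + f * D g) ∧
    (∀ φ : LA hol N A →ₗ[ℂ] ℂ, ∃ t : RT hol N, ∀ D : LA hol N A,
      (D : Module.End ℂ (RT hol N)) t = algebraMap ℂ _ (φ D)) ∧
    Algebra.adjoin ℂ ({f : RT hol N | ∀ D ∈ LA hol N A, D f = 0} ∪
      {t : RT hol N | ∀ D ∈ LA hol N A, ∃ c : ℂ, D t = algebraMap ℂ _ c}) = ⊤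

/-- real time functions -/
def S_TIME : Prop := ∀ (X Γ E : Type) [NormedAddCommGroup E] [NormedSpace ℝ E]
    [FiniteDimensional ℝ E] [TopologicalSpace X] [T2Space X] [SecondCountableTopology X]
    [Nonempty X] [Group Γ] [MulAction Γ X] (dev : X → E) (hol : Γ →* (E ≃ᵃ[ℝ] E)),
  AffData X Γ E dev hol → Function.Injective dev → TriL hol → ∀ N A : Subgroup Γ,
    N.Normal → A.Normal → N ≤ A → ⁅A, A⁆ ≤ N → A ≤ commutator Γ →
    GoodP hol (range dev) N →
    ∃ (k : ℕ) (a : Fin k → Γ) (t : Fin k → (E → ℂ)), (∀ j, a j ∈ A) ∧ (∀ j, t j ∈ RN hol N) ∧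
      (∀ j x, (t j x).im = 0) ∧
      (∀ i j x, t j (hol (a i) x) = t j x + (if i = j then 1 else 0)) ∧
      (∀ g ∈ A, ∀ j, ∃ c : ℂ, ∀ x, t j (hol g x) = t j x + c) ∧
      RN hol N ≤ Algebra.adjoin ℂ ((RN hol A : Set (E → ℂ)) ∪ range t)

/-- one step: an abelian extension inside the commutator subgroup -/
def S_STEP : Prop := ∀ (X Γ E : Type) [NormedAddCommGroup E] [NormedSpace ℝ E]
    [FiniteDimensional ℝ E] [TopologicalSpace X] [T2Space X] [SecondCountableTopology X]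
    [Nonempty X] [Group Γ] [MulAction Γ X] (dev : X → E) (hol : Γ →* (E ≃ᵃ[ℝ] E)),
  AffData X Γ E dev hol → Function.Injective dev → TriL hol → ∀ N A : Subgroup Γ,
    N.Normal → A.Normal → N ≤ A → ⁅A, A⁆ ≤ N → A ≤ commutator Γ →
    GoodP hol (range dev) N → GoodP hol (range dev) A

/-- the last step -/
def S_LAST : Prop := ∀ (X Γ E : Type) [NormedAddCommGroup E] [NormedSpace ℝ E]
    [FiniteDimensional ℝ E] [TopologicalSpace X] [T2Space X] [SecondCountableTopology X]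
    [Nonempty X] [Group Γ] [MulAction Γ X] (dev : X → E) (hol : Γ →* (E ≃ᵃ[ℝ] E)),
  AffData X Γ E dev hol → Function.Injective dev → TriL hol →
    GoodP hol (range dev) (commutator Γ) → IsClosed (range dev)

/-- the theorem -/
def S_FIN : Prop := ∀ (X Γ E : Type) [NormedAddCommGroup E] [NormedSpace ℝ E]
    [FiniteDimensional ℝ E] [TopologicalSpace X] [T2Space X] [SecondCountableTopology X]
    [Nonempty X] [Group Γ] [MulAction Γ X] (dev : X → E) (hol : Γ →* (E ≃ᵃ[ℝ] E)),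
  AffData X Γ E dev hol → Function.Injective dev → ∀ H : Subgroup Γ, H.FiniteIndex →
    Group.IsSolvable H → TriL (hol.comp H.subtype) → IsHomeomorph dev

/-- the theorem for virtually solvable groups -/
def S_FINV : Prop := ∀ (X Γ E : Type) [NormedAddCommGroup E] [NormedSpace ℝ E]
    [FiniteDimensional ℝ E] [TopologicalSpace X] [T2Space X] [SecondCountableTopology X]
    [Nonempty X] [Group Γ] [MulAction Γ X] (dev : X → E) (hol : Γ →* (E ≃ᵃ[ℝ] E)),
  AffData X Γ E dev hol → Function.Injective dev → ∀ H : Subgroup Γ, H.FiniteIndex →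
    Group.IsSolvable H → IsHomeomorph dev

end Pool.Agent.Y449.MS
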